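import Pool.Agent.W843.N7.Symm
import Pool.Agent.H122R2.N6.Bound

/-! Averaging over all seven-tuples of vertices. -/

set_option autoImplicit false
set_option maxRecDepth 100000
set_option maxHeartbeats 4000000
open Finset
open Pool.Agent.H122R2.N6 (Sy NoK4 Bt k4b five tg walk walk_all B2 B2_true or_false_left)

namespace Pool.Agent.W843.N7

section
variable {V : Type} [Fintype V]

theorem psum7 (F : V → V → V → V → V → V → V → ℤ) (g : Fin 7 → Fin 7) (hg : Function.Bijective g) :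
    ∑ x : Fin 7 → V, F (x (g 0)) (x (g 1)) (x (g 2)) (x (g 3)) (x (g 4)) (x (g 5)) (x (g 6))
      = ∑ x : Fin 7 → V, F (x 0) (x 1) (x 2) (x 3) (x 4) (x 5) (x 6) := by
  have h := Equiv.sum_comp (Equiv.arrowCongr (Equiv.ofBijective g hg).symm (Equiv.refl V))
    (fun x => F (x 0) (x 1) (x 2) (x 3) (x 4) (x 5) (x 6))
  rw [← h]
  rfl

def e7 (V : Type) : (Fin 7 → V) ≃ V × V × V × V × V × V × V where
  toFun x := (x 0, x 1, x 2, x 3, x 4, x 5, x 6)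
  invFun p := ![p.1, p.2.1, p.2.2.1, p.2.2.2.1, p.2.2.2.2.1, p.2.2.2.2.2.1, p.2.2.2.2.2.2]
  left_inv x := by funext i; fin_cases i <;> rfl
  right_inv p := rfl

theorem conv7 (F : V → V → V → V → V → V → V → ℤ) :
    ∑ x : Fin 7 → V, F (x 0) (x 1) (x 2) (x 3) (x 4) (x 5) (x 6)
      = ∑ a, ∑ b, ∑ c, ∑ d, ∑ e, ∑ f, ∑ g, F a b c d e f g := by
  rw [← Equiv.sum_comp (e7 V).symm]
  simp only [Fintype.sum_prod_type]
  rfl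

variable (E : V → V → V → ℕ)

/-- the number of ordered edges -/
def TE : ℤ := ∑ a, ∑ b, ∑ c, (E a b c : ℤ)

theorem sum3 (k : V → V → V → ℤ) : ∑ a, ∑ b, ∑ c, ∑ _d : V, ∑ _e : V, ∑ _f : V, k a b c
    = (Fintype.card V : ℤ) ^ 3 * ∑ a, ∑ b, ∑ c, k a b c := by
  simp only [sum_const, card_univ, nsmul_eq_mul, mul_sum]
  refine sum_congr rfl fun a _ => sum_congr rfl fun b _ => sum_congr rfl fun c _ => ?_
  ring

theorem sum33 (k : V → V → V → ℤ) : ∑ a, ∑ b, ∑ c, ∑ d, ∑ e, ∑ f, k a b c * k d e f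
    = (∑ a, ∑ b, ∑ c, k a b c) ^ 2 := by
  rw [sq]
  simp only [sum_mul, mul_sum]
  exact sum_congr rfl fun _ _ => sum_congr rfl fun _ _ => sum_congr rfl fun _ _ => sum_congr rfl fun _ _ =>
    sum_congr rfl fun _ _ => sum_congr rfl fun _ _ => mul_comm _ _

theorem e6_sum : ∑ a, ∑ b, ∑ c, ∑ d, ∑ e, ∑ f, (e6 E a b c d e f : ℤ) = 20 * ((Fintype.card V : ℤ) ^ 3 * TE E) := by
  have f6 : ∀ i0 i1 i2 i3 i4 i5 : Fin 6, Function.Injective ![i0, i1, i2, i3, i4, i5] →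
      ∑ x : Fin 6 → V, (E (x i0) (x i1) (x i2) : ℤ) = ∑ x : Fin 6 → V, (E (x 0) (x 1) (x 2) : ℤ) :=
    fun i0 i1 i2 i3 i4 i5 hg =>
      Pool.Agent.H122R2.N6.psum (fun a b c _ _ _ => (E a b c : ℤ)) ![i0, i1, i2, i3, i4, i5] (Finite.injective_iff_bijective.mp hg)
  have b0 : ∑ x : Fin 6 → V, (E (x 0) (x 1) (x 2) : ℤ) = (Fintype.card V : ℤ) ^ 3 * TE E := by
    rw [Pool.Agent.H122R2.N6.conv6 (fun a b c _ _ _ => (E a b c : ℤ)), sum3 (fun a b c => (E a b c : ℤ))]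
    rfl
  rw [← Pool.Agent.H122R2.N6.conv6 (fun a b c d e f => (e6 E a b c d e f : ℤ))]
  simp only [e6, Nat.cast_add, sum_add_distrib]
  rw [f6 0 1 3 2 4 5 (by decide +kernel), f6 0 2 3 1 4 5 (by decide +kernel), f6 1 2 3 0 4 5 (by decide +kernel), f6 0 1 4 2 3 5 (by decide +kernel), f6 0 2 4 1 3 5 (by decide +kernel), f6 1 2 4 0 3 5 (by decide +kernel), f6 0 3 4 1 2 5 (by decide +kernel), f6 1 3 4 0 2 5 (by decide +kernel), f6 2 3 4 0 1 5 (by decide +kernel), f6 0 1 5 2 3 4 (by decide +kernel), f6 0 2 5 1 3 4 (by decide +kernel), f6 1 2 5 0 3 4 (by decide +kernel), f6 0 3 5 1 2 4 (by decide +kernel), f6 1 3 5 0 2 4 (by decide +kernel), f6 2 3 5 0 1 4 (by decide +kernel), f6 0 4 5 1 2 3 (by decide +kernel), f6 1 4 5 0 2 3 (by decide +kernel), f6 2 4 5 0 1 3 (by decide +kernel), f6 3 4 5 0 1 2 (by decide +kernel), b0]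
  ring

theorem p6_sum : ∑ a, ∑ b, ∑ c, ∑ d, ∑ e, ∑ f, (p6 E a b c d e f : ℤ) = 10 * (TE E) ^ 2 := by
  have f6 : ∀ i0 i1 i2 i3 i4 i5 : Fin 6, Function.Injective ![i0, i1, i2, i3, i4, i5] →
      ∑ x : Fin 6 → V, (E (x i0) (x i1) (x i2) : ℤ) * (E (x i3) (x i4) (x i5) : ℤ)
        = ∑ x : Fin 6 → V, (E (x 0) (x 1) (x 2) : ℤ) * (E (x 3) (x 4) (x 5) : ℤ) :=
    fun i0 i1 i2 i3 i4 i5 hg =>
      Pool.Agent.H122R2.N6.psum (fun a b c d e f => (E a b c : ℤ) * (E d e f : ℤ)) ![i0, i1, i2, i3, i4, i5] (Finite.injective_iff_bijective.mp hg)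
  have b0 : ∑ x : Fin 6 → V, (E (x 0) (x 1) (x 2) : ℤ) * (E (x 3) (x 4) (x 5) : ℤ) = (TE E) ^ 2 := by
    rw [Pool.Agent.H122R2.N6.conv6 (fun a b c d e f => (E a b c : ℤ) * (E d e f : ℤ)), sum33 (fun a b c => (E a b c : ℤ))]
    rfl
  rw [← Pool.Agent.H122R2.N6.conv6 (fun a b c d e f => (p6 E a b c d e f : ℤ))]
  simp only [p6, Nat.cast_add, Nat.cast_mul, sum_add_distrib]
  rw [f6 0 1 3 2 4 5 (by decide +kernel), f6 0 2 3 1 4 5 (by decide +kernel), f6 0 1 4 2 3 5 (by decide +kernel), f6 0 2 4 1 3 5 (by decide +kernel), f6 0 3 4 1 2 5 (by decide +kernel), f6 0 1 5 2 3 4 (by decide +kernel), f6 0 2 5 1 3 4 (by decide +kernel), f6 0 3 5 1 2 4 (by decide +kernel), f6 0 4 5 1 2 3 (by decide +kernel), b0]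
  ring

theorem sum21 (F : V → V → V → V → V → V → V → ℤ) : ∑ x : Fin 7 → V, (F (x 2) (x 3) (x 4) (x 5) (x 6) (x 0) (x 1) + (F (x 1) (x 3) (x 4) (x 5) (x 6) (x 0) (x 2) + (F (x 0) (x 3) (x 4) (x 5) (x 6) (x 1) (x 2) + (F (x 1) (x 2) (x 4) (x 5) (x 6) (x 0) (x 3) + (F (x 0) (x 2) (x 4) (x 5) (x 6) (x 1) (x 3) + (F (x 0) (x 1) (x 4) (x 5) (x 6) (x 2) (x 3) + (F (x 1) (x 2) (x 3) (x 5) (x 6) (x 0) (x 4) + (F (x 0) (x 2) (x 3) (x 5) (x 6) (x 1) (x 4) + (F (x 0) (x 1) (x 3) (x 5) (x 6) (x 2) (x 4) + (F (x 0) (x 1) (x 2) (x 5) (x 6) (x 3) (x 4) + (F (x 1) (x 2) (x 3) (x 4) (x 6) (x 0) (x 5) + (F (x 0) (x 2) (x 3) (x 4) (x 6) (x 1) (x 5) + (F (x 0) (x 1) (x 3) (x 4) (x 6) (x 2) (x 5) + (F (x 0) (x 1) (x 2) (x 4) (x 6) (x 3) (x 5) + (F (x 0) (x 1) (x 2) (x 3) (x 6) (x 4) (x 5) + (F (x 1) (x 2) (x 3) (x 4) (x 5) (x 0) (x 6) + (F (x 0) (x 2)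 (x 3) (x 4) (x 5) (x 1) (x 6) + (F (x 0) (x 1) (x 3) (x 4) (x 5) (x 2) (x 6) + (F (x 0) (x 1) (x 2) (x 4) (x 5) (x 3) (x 6) + (F (x 0) (x 1) (x 2) (x 3) (x 5) (x 4) (x 6) + (F (x 0) (x 1) (x 2) (x 3) (x 4) (x 5) (x 6))))))))))))))))))))))
    = 21 * ∑ x : Fin 7 → V, F (x 0) (x 1) (x 2) (x 3) (x 4) (x 5) (x 6) := by
  have f7 : ∀ i0 i1 i2 i3 i4 i5 i6 : Fin 7, Function.Injective ![i0, i1, i2, i3, i4, i5, i6] →
      ∑ x : Fin 7 → V, F (x i0) (x i1) (x i2) (x i3) (x i4) (x i5) (x i6)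
        = ∑ x : Fin 7 → V, F (x 0) (x 1) (x 2) (x 3) (x 4) (x 5) (x 6) :=
    fun i0 i1 i2 i3 i4 i5 i6 hg =>
      psum7 F ![i0, i1, i2, i3, i4, i5, i6] (Finite.injective_iff_bijective.mp hg)
  simp only [sum_add_distrib]
  rw [f7 2 3 4 5 6 0 1 (by decide +kernel), f7 1 3 4 5 6 0 2 (by decide +kernel), f7 0 3 4 5 6 1 2 (by decide +kernel), f7 1 2 4 5 6 0 3 (by decide +kernel), f7 0 2 4 5 6 1 3 (by decide +kernel), f7 0 1 4 5 6 2 3 (by decide +kernel), f7 1 2 3 5 6 0 4 (by decide +kernel), f7 0 2 3 5 6 1 4 (by decide +kernel), f7 0 1 3 5 6 2 4 (by decide +kernel), f7 0 1 2 5 6 3 4 (by decide +kernel), f7 1 2 3 4 6 0 5 (by decide +kernel), f7 0 2 3 4 6 1 5 (by decide +kernel), f7 0 1 3 4 6 2 5 (by decide +kernel), f7 0 1 2 4 6 3 5 (by decide +kernel), f7 0 1 2 3 6 4 5 (by decide +kernel), f7 1 2 3 4 5 0 6 (by decide +kernel), f7 0 2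 3 4 5 1 6 (by decide +kernel), f7 0 1 3 4 5 2 6 (by decide +kernel), f7 0 1 2 4 5 3 6 (by decide +kernel), f7 0 1 2 3 5 4 6 (by decide +kernel)]
  ring

theorem L5_sum : ∑ x : Fin 7 → V, (L5 E (x 0) (x 1) (x 2) (x 3) (x 4) (x 5) (x 6) : ℤ)
    = 21 * ∑ a, ∑ b, ∑ c, ∑ d, ∑ e, ∑ x, ∑ y, (F5 E a b c d e x y : ℤ) := by
  have h1 := sum21 (fun a b c d e f g => (F5 E a b c d e f g : ℤ))
  have h2 := conv7 (fun a b c d e f g => (F5 E a b c d e f g : ℤ))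
  have h3 : ∀ x : Fin 7 → V, (L5 E (x 0) (x 1) (x 2) (x 3) (x 4) (x 5) (x 6) : ℤ) = (F5 E (x 2) (x 3) (x 4) (x 5) (x 6) (x 0) (x 1) : ℤ) + ((F5 E (x 1) (x 3) (x 4) (x 5) (x 6) (x 0) (x 2) : ℤ) + ((F5 E (x 0) (x 3) (x 4) (x 5) (x 6) (x 1) (x 2) : ℤ) + ((F5 E (x 1) (x 2) (x 4) (x 5) (x 6) (x 0) (x 3) : ℤ) + ((F5 E (x 0) (x 2) (x 4) (x 5) (x 6) (x 1) (x 3) : ℤ) + ((F5 E (x 0) (x 1) (x 4) (x 5) (x 6) (x 2) (x 3) : ℤ) + ((F5 E (x 1) (x 2) (x 3) (x 5) (x 6) (x 0) (x 4) : ℤ) + ((F5 E (x 0) (x 2) (x 3) (x 5) (x 6) (x 1) (x 4) : ℤ) + ((F5 E (x 0) (x 1) (x 3) (x 5) (x 6) (x 2) (x 4) : ℤ) + ((F5 E (x 0) (x 1) (x 2) (x 5) (x 6) (x 3) (x 4) : ℤ) + ((F5 E (x 1) (x 2) (x 3) (x 4) (x 6) (x 0) (x 5) : ℤ) + ((F5 E (x 0) (x 2) (x 3) (x 4) (x 6) (x 1) (x 5) : ℤ) + ((F5 E (x 0) (x 1) (x 3) (x 4) (x 6) (x 2) (x 5) : ℤ) + ((F5 E (x 0) (x 1) (x 2) (x 4)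 (x 6) (x 3) (x 5) : ℤ) + ((F5 E (x 0) (x 1) (x 2) (x 3) (x 6) (x 4) (x 5) : ℤ) + ((F5 E (x 1) (x 2) (x 3) (x 4) (x 5) (x 0) (x 6) : ℤ) + ((F5 E (x 0) (x 2) (x 3) (x 4) (x 5) (x 1) (x 6) : ℤ) + ((F5 E (x 0) (x 1) (x 3) (x 4) (x 5) (x 2) (x 6) : ℤ) + ((F5 E (x 0) (x 1) (x 2) (x 4) (x 5) (x 3) (x 6) : ℤ) + ((F5 E (x 0) (x 1) (x 2) (x 3) (x 5) (x 4) (x 6) : ℤ) + ((F5 E (x 0) (x 1) (x 2) (x 3) (x 4) (x 5) (x 6) : ℤ))))))))))))))))))))) := by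
    intro x
    unfold L5
    push_cast
    rfl
  exact (sum_congr rfl fun x _ => h3 x).trans (h1.trans (congrArg (fun z => 21 * z) h2))

/-- the sum of squares estimate -/
theorem F5_lower (h : OF E) (G : V → V → V → V → V → V → ℤ)
    (hG : ∀ a b c d e x, (wt (orb (cc E a b c d e x)) : ℤ) + cB * ∑ k ∈ range 11, (el (orb (cc E a b c d e x)) k : ℤ)
      = G a b c d e x) :
    2 * (Fintype.card V : ℤ) * (∑ a, ∑ b, ∑ c, ∑ d, ∑ e, ∑ x, G a b c d e x) - 11 * (cB : ℤ) ^ 2 * (Fintype.card V : ℤ) ^ 7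
      ≤ ∑ a, ∑ b, ∑ c, ∑ d, ∑ e, ∑ x, ∑ y, (F5 E a b c d e x y : ℤ) := by
  have e1 : 2 * (Fintype.card V : ℤ) * (∑ a, ∑ b, ∑ c, ∑ d, ∑ e, ∑ x, G a b c d e x) - 11 * (cB : ℤ) ^ 2 * (Fintype.card V : ℤ) ^ 7
      = ∑ a, ∑ b, ∑ c, ∑ d, ∑ e, (2 * (Fintype.card V : ℤ) * (∑ x, G a b c d e x) - 11 * (cB : ℤ) ^ 2 * (Fintype.card V : ℤ) ^ 2) := by
    simp only [sum_sub_distrib, sum_const, card_univ, nsmul_eq_mul, mul_sum]
    ring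
  rw [e1]
  refine sum_le_sum fun a _ => sum_le_sum fun b _ => sum_le_sum fun c _ => sum_le_sum fun d _ => sum_le_sum fun e _ => ?_
  have p := psd_lower 11 (cB : ℤ) (fun (x : V) k => (el (orb (cc E a b c d e x)) k : ℤ)) (fun x => (wt (orb (cc E a b c d e x)) : ℤ))
  have e2 : ∀ x y : V, (F5 E a b c d e x y : ℤ) =
      ∑ k ∈ range 11, (el (orb (cc E a b c d e x)) k : ℤ) * (el (orb (cc E a b c d e y)) k : ℤ)
        + (wt (orb (cc E a b c d e x)) : ℤ) + (wt (orb (cc E a b c d e y)) : ℤ) := by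
    intro x y
    unfold F5
    rw [D2_eq (h.ok a b c d e x) (h.ok a b c d e y)]
    push_cast
    rfl
  have e3 : ∑ x, ∑ y, (F5 E a b c d e x y : ℤ) = ∑ x, ∑ y,
      (∑ k ∈ range 11, (el (orb (cc E a b c d e x)) k : ℤ) * (el (orb (cc E a b c d e y)) k : ℤ)
        + (wt (orb (cc E a b c d e x)) : ℤ) + (wt (orb (cc E a b c d e y)) : ℤ)) :=
    sum_congr rfl fun x _ => sum_congr rfl fun y _ => e2 x y
  rw [e3]
  refine le_trans (le_of_eq ?_) p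
  have e4 : ∑ x, G a b c d e x = ∑ x, ((wt (orb (cc E a b c d e x)) : ℤ) + cB * ∑ k ∈ range 11, (el (orb (cc E a b c d e x)) k : ℤ)) :=
    sum_congr rfl fun x _ => (hG a b c d e x).symm
  rw [e4]
  push_cast
  ring

end

end Pool.Agent.W843.N7
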