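import Pool.Agent.W843.N7.Chk

/-! Codes of structures and the leaf functional. -/

set_option autoImplicit false
set_option maxRecDepth 100000
set_option maxHeartbeats 4000000
open Finset
open Pool.Agent.H122R2.N6 (Sy NoK4 Bt k4b five tg walk walk_all B2 B2_true or_false_left)

namespace Pool.Agent.W843.N7

def c10 (b0 b1 b2 b3 b4 b5 b6 b7 b8 b9 : ℕ) : ℕ :=
  (Nat.add b0 (Nat.mul 2 (Nat.add b1 (Nat.mul 2 (Nat.add b2 (Nat.mul 2 (Nat.add b3 (Nat.mul 2 (Nat.add b4 (Nat.mul 2 (Nat.add b5 (Nat.mul 2 (Nat.add b6 (Nat.mul 2 (Nat.add b7 (Nat.mul 2 (Nat.add b8 (Nat.mul 2 b9))))))))))))))))))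

def c5 (b0 b1 b2 b3 b4 : ℕ) : ℕ := (Nat.add b0 (Nat.mul 2 (Nat.add b1 (Nat.mul 2 (Nat.add b2 (Nat.mul 2 (Nat.add b3 (Nat.mul 2 b4))))))))

theorem Bt_lt {n : ℕ} (h : Bt n) : n < 2 := by rcases h with rfl | rfl <;> norm_num

theorem hstep {b r n : ℕ} (hb : Bt b) (hr : r < n) : Nat.add b (Nat.mul 2 r) < 2 * n := by
  have := Bt_lt hb
  show b + 2 * r < 2 * n
  omega

theorem c10_lt {b0 b1 b2 b3 b4 b5 b6 b7 b8 b9 : ℕ} (h0 : Bt b0) (h1 : Bt b1) (h2 : Bt b2) (h3 : Bt b3) (h4 : Bt b4)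
    (h5 : Bt b5) (h6 : Bt b6) (h7 : Bt b7) (h8 : Bt b8) (h9 : Bt b9) : c10 b0 b1 b2 b3 b4 b5 b6 b7 b8 b9 < 1024 :=
  hstep h0 (hstep h1 (hstep h2 (hstep h3 (hstep h4 (hstep h5 (hstep h6 (hstep h7 (hstep h8 (Bt_lt h9)))))))))

theorem c5_lt {b0 b1 b2 b3 b4 : ℕ} (h0 : Bt b0) (h1 : Bt b1) (h2 : Bt b2) (h3 : Bt b3) (h4 : Bt b4) :
    c5 b0 b1 b2 b3 b4 < 32 :=
  hstep h0 (hstep h1 (hstep h2 (hstep h3 (Bt_lt h4))))

/-- packing of 20-bit fields -/
def pk (l : List ℕ) : ℕ := l.foldr (fun v r => v + 1048576 * r) 0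

theorem fldn_pk : ∀ (l : List ℕ) (k : ℕ), (∀ v ∈ l, v < 1048576) → fldn (20 * k) (pk l) = l.getD k 0 := by
  intro l
  induction l with
  | nil => intro k _; simp [pk, fldn]
  | cons v l ih =>
    intro k hl
    have hv : v < 1048576 := hl v (by simp)
    have e : pk (v :: l) = v + 1048576 * pk l := rfl
    cases k with
    | zero =>
      rw [e]
      show (v + 1048576 * pk l) >>> (20 * 0) % 1048576 = v
      rw [Nat.mul_zero, Nat.shiftRight_zero]
      omega
    | succ k =>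
      have h1 : (v + 1048576 * pk l) >>> (20 * (k + 1)) = pk l >>> (20 * k) := by
        rw [show 20 * (k + 1) = 20 + 20 * k by ring, Nat.shiftRight_add]
        congr 1
        rw [Nat.shiftRight_eq_div_pow]
        norm_num
        omega
      have h2 := ih k (fun w hw => hl w (by simp [hw]))
      rw [e]
      show (v + 1048576 * pk l) >>> (20 * (k + 1)) % 1048576 = (v :: l).getD (k + 1) 0
      rw [h1, List.getD_cons_succ, ← h2]
      rfl

section
variable {V : Type} (E : V → V → V → ℕ)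

/-- code of the structure on five vertices -/
def mC (a b c d e : V) : ℕ := c10 (E a b c) (E a b d) (E a c d) (E b c d) (E a b e) (E a c e) (E b c e) (E a d e) (E b d e) (E c d e)
/-- code of the link of `x` over five vertices -/
def lC (a b c d e x : V) : ℕ := c10 (E a b x) (E a c x) (E b c x) (E a d x) (E b d x) (E c d x) (E a e x) (E b e x) (E c e x) (E d e x)
/-- code of the structure on six vertices, the last one special -/
def cc (a b c d e x : V) : ℕ := Nat.add (mC E a b c d e) (Nat.mul 1024 (lC E a b c d e x))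
def F5 (a b c d e x y : V) : ℕ := D2 (cc E a b c d e x) (cc E a b c d e y)
/-- sum over the pairs of vertices -/
def L5 (a b c d e f g : V) : ℕ :=
  F5 E c d e f g a b +
  (F5 E b d e f g a c +
  (F5 E a d e f g b c +
  (F5 E b c e f g a d +
  (F5 E a c e f g b d +
  (F5 E a b e f g c d +
  (F5 E b c d f g a e +
  (F5 E a c d f g b e +
  (F5 E a b d f g c e +
  (F5 E a b c f g d e +
  (F5 E b c d e g a f +
  (F5 E a c d e g b f +
  (F5 E a b d e g c f +
  (F5 E a b c e g d f +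
  (F5 E a b c d g e f +
  (F5 E b c d e f a g +
  (F5 E a c d e f b g +
  (F5 E a b d e f c g +
  (F5 E a b c e f d g +
  (F5 E a b c d f e g +
  (F5 E a b c d e f g))))))))))))))))))))

end

end Pool.Agent.W843.N7
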