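import Pool.Agent.W843.N7.Sem
import Pool.Agent.W843.N7.Defs

/-! Symmetry of the leaf functional. -/

set_option autoImplicit false
set_option maxRecDepth 100000
set_option maxHeartbeats 4000000
open Finset
open Pool.Agent.H122R2.N6 (Sy NoK4 Bt k4b five tg walk walk_all B2 B2_true or_false_left)

namespace Pool.Agent.W843.N7

section
variable {V : Type} (E : V → V → V → ℕ)

/-- number of edges on six vertices -/
def e6 (a b c d e f : V) : ℕ :=
  E a b c + (E a b d + (E a c d + (E b c d + (E a b e + (E a c e + (E b c e + (E a d e + (E b d e + (E c d e + (E a b f + (E a c f + (E b c f + (E a d f + (E b d f + (E c d f + (E a e f + (E b e f + (E c e f + (E d e f)))))))))))))))))))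

/-- number of pairs of disjoint edges on six vertices -/
def p6 (a b c d e f : V) : ℕ :=
  E a b c * E d e f + (E a b d * E c e f + (E a c d * E b e f + (E a b e * E c d f + (E a c e * E b d f + (E a d e * E b c f + (E a b f * E c d e + (E a c f * E b d e + (E a d f * E b c e + (E a e f * E b c d)))))))))

/-- sum of the diagonal terms -/
def Hs (a b c d e f : V) : ℕ :=
  F5 E b c d e f a a + (F5 E a c d e f b b + (F5 E a b d e f c c + (F5 E a b c e f d d + (F5 E a b c d f e e))))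

/-- facts about the orbit numbers of the structure -/
structure OF (E : V → V → V → ℕ) : Prop where
  ok : ∀ a b c d e x, vOK (orb (cc E a b c d e x)) = true
  s0 : ∀ a b c d e x, orb (cc E b a c d e x) = orb (cc E a b c d e x)
  s1 : ∀ a b c d e x, orb (cc E a c b d e x) = orb (cc E a b c d e x)
  s2 : ∀ a b c d e x, orb (cc E a b d c e x) = orb (cc E a b c d e x)
  s3 : ∀ a b c d e x, orb (cc E a b c e d x) = orb (cc E a b c d e x)

variable {E}

theorem F5_s0 (h : OF E) (a b c d e x y : V) : F5 E b a c d e x y = F5 E a b c d e x y := by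
  unfold F5 D2 lkA lkB; rw [h.s0 a b c d e x, h.s0 a b c d e y]
theorem F5_s1 (h : OF E) (a b c d e x y : V) : F5 E a c b d e x y = F5 E a b c d e x y := by
  unfold F5 D2 lkA lkB; rw [h.s1 a b c d e x, h.s1 a b c d e y]
theorem F5_s2 (h : OF E) (a b c d e x y : V) : F5 E a b d c e x y = F5 E a b c d e x y := by
  unfold F5 D2 lkA lkB; rw [h.s2 a b c d e x, h.s2 a b c d e y]
theorem F5_s3 (h : OF E) (a b c d e x y : V) : F5 E a b c e d x y = F5 E a b c d e x y := by
  unfold F5 D2 lkA lkB; rw [h.s3 a b c d e x, h.s3 a b c d e y]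
theorem F5_xy (h : OF E) (a b c d e x y : V) : F5 E a b c d e y x = F5 E a b c d e x y :=
  D2_comm (h.ok _ _ _ _ _ _) (h.ok _ _ _ _ _ _)

theorem L5_sw0 (h : OF E) (a b c d e f g : V) : L5 E b a c d e f g = L5 E a b c d e f g := by
  unfold L5
  rw [F5_xy h c d e f g a b, F5_s0 h a b e f g c d, F5_s0 h a b d f g c e, F5_s0 h a b c f g d e, F5_s0 h a b d e g c f, F5_s0 h a b c e g d f, F5_s0 h a b c d g e f, F5_s0 h a b d e f c g, F5_s0 h a b c e f d g, F5_s0 h a b c d f e g, F5_s0 h a b c d e f g]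
  ring

theorem L5_sw1 (h : OF E) (a b c d e f g : V) : L5 E a c b d e f g = L5 E a b c d e f g := by
  unfold L5
  rw [F5_xy h a d e f g b c, F5_s0 h b c e f g a d, F5_s0 h b c d f g a e, F5_s1 h a b c f g d e, F5_s0 h b c d e g a f, F5_s1 h a b c e g d f, F5_s1 h a b c d g e f, F5_s0 h b c d e f a g, F5_s1 h a b c e f d g, F5_s1 h a b c d f e g, F5_s1 h a b c d e f g]
  ring

theorem L5_sw2 (h : OF E) (a b c d e f g : V) : L5 E a b d c e f g = L5 E a b c d e f g := by
  unfold L5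
  rw [F5_s0 h c d e f g a b, F5_xy h a b e f g c d, F5_s1 h b c d f g a e, F5_s1 h a c d f g b e, F5_s1 h b c d e g a f, F5_s1 h a c d e g b f, F5_s2 h a b c d g e f, F5_s1 h b c d e f a g, F5_s1 h a c d e f b g, F5_s2 h a b c d f e g, F5_s2 h a b c d e f g]
  ring

theorem L5_sw3 (h : OF E) (a b c d e f g : V) : L5 E a b c e d f g = L5 E a b c d e f g := by
  unfold L5
  rw [F5_s1 h c d e f g a b, F5_s1 h b d e f g a c, F5_s1 h a d e f g b c, F5_xy h a b c f g d e, F5_s2 h b c d e g a f, F5_s2 h a c d e g b f, F5_s2 h a b d e g c f, F5_s2 h b c d e f a g, F5_s2 h a c d e f b g, F5_s2 h a b d e f c g, F5_s3 h a b c d e f g]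
  ring

theorem L5_sw4 (h : OF E) (a b c d e f g : V) : L5 E a b c d f e g = L5 E a b c d e f g := by
  unfold L5
  rw [F5_s2 h c d e f g a b, F5_s2 h b d e f g a c, F5_s2 h a d e f g b c, F5_s2 h b c e f g a d, F5_s2 h a c e f g b d, F5_s2 h a b e f g c d, F5_xy h a b c d g e f, F5_s3 h b c d e f a g, F5_s3 h a c d e f b g, F5_s3 h a b d e f c g, F5_s3 h a b c e f d g]
  ring

theorem L5_sw5 (h : OF E) (a b c d e f g : V) : L5 E a b c d e g f = L5 E a b c d e f g := by
  unfold L5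
  rw [F5_s3 h c d e f g a b, F5_s3 h b d e f g a c, F5_s3 h a d e f g b c, F5_s3 h b c e f g a d, F5_s3 h a c e f g b d, F5_s3 h a b e f g c d, F5_s3 h b c d f g a e, F5_s3 h a c d f g b e, F5_s3 h a b d f g c e, F5_s3 h a b c f g d e, F5_xy h a b c d e f g]
  ring

theorem Hs_sw0 (h : OF E) (a b c d e f : V) : Hs E b a c d e f = Hs E a b c d e f := by
  unfold Hs
  rw [F5_s0 h a b d e f c c, F5_s0 h a b c e f d d, F5_s0 h a b c d f e e]
  ring

theorem e6_sw0 (hE : Sy E) (a b c d e f : V) : e6 E b a c d e f = e6 E a b c d e f := by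
  unfold e6
  rw [hE.h213 a b c, hE.h213 a b d, hE.h213 a b e, hE.h213 a b f]
  ring

theorem p6_sw0 (hE : Sy E) (a b c d e f : V) : p6 E b a c d e f = p6 E a b c d e f := by
  unfold p6
  rw [hE.h213 a b c, hE.h213 a b d, hE.h213 a b e, hE.h213 a b f]
  ring

theorem Hs_sw1 (h : OF E) (a b c d e f : V) : Hs E a c b d e f = Hs E a b c d e f := by
  unfold Hs
  rw [F5_s0 h b c d e f a a, F5_s1 h a b c e f d d, F5_s1 h a b c d f e e]
  ring

theorem e6_sw1 (hE : Sy E) (a b c d e f : V) : e6 E a c b d e f = e6 E a b c d e f := by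
  unfold e6
  rw [hE.h132 a b c, hE.h213 b c d, hE.h213 b c e, hE.h213 b c f]
  ring

theorem p6_sw1 (hE : Sy E) (a b c d e f : V) : p6 E a c b d e f = p6 E a b c d e f := by
  unfold p6
  rw [hE.h132 a b c, hE.h213 b c d, hE.h213 b c e, hE.h213 b c f]
  ring

theorem Hs_sw2 (h : OF E) (a b c d e f : V) : Hs E a b d c e f = Hs E a b c d e f := by
  unfold Hs
  rw [F5_s1 h b c d e f a a, F5_s1 h a c d e f b b, F5_s2 h a b c d f e e]
  ring

theorem e6_sw2 (hE : Sy E) (a b c d e f : V) : e6 E a b d c e f = e6 E a b c d e f := by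
  unfold e6
  rw [hE.h132 a c d, hE.h132 b c d, hE.h213 c d e, hE.h213 c d f]
  ring

theorem p6_sw2 (hE : Sy E) (a b c d e f : V) : p6 E a b d c e f = p6 E a b c d e f := by
  unfold p6
  rw [hE.h132 a c d, hE.h132 b c d, hE.h213 c d e, hE.h213 c d f]
  ring

theorem Hs_sw3 (h : OF E) (a b c d e f : V) : Hs E a b c e d f = Hs E a b c d e f := by
  unfold Hs
  rw [F5_s2 h b c d e f a a, F5_s2 h a c d e f b b, F5_s2 h a b d e f c c]
  ring

theorem e6_sw3 (hE : Sy E) (a b c d e f : V) : e6 E a b c e d f = e6 E a b c d e f := by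
  unfold e6
  rw [hE.h132 a d e, hE.h132 b d e, hE.h132 c d e, hE.h213 d e f]
  ring

theorem p6_sw3 (hE : Sy E) (a b c d e f : V) : p6 E a b c e d f = p6 E a b c d e f := by
  unfold p6
  rw [hE.h132 a d e, hE.h132 b d e, hE.h132 c d e, hE.h213 d e f]
  ring

/-- degree of `v` among seven vertices -/
def dgr (E : V → V → V → ℕ) (v p q r s t u : V) : ℕ :=
  E v p q + (E v p r + (E v q r + (E v p s + (E v q s + (E v r s + (E v p t + (E v q t + (E v r t + (E v s t + (E v p u + (E v q u + (E v r u + (E v s u + (E v t u))))))))))))))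

theorem dgr_sw0 (hE : Sy E) (v p q r s t u : V) : dgr E v q p r s t u = dgr E v p q r s t u := by
  unfold dgr
  rw [hE.h132 v p q]
  ring

theorem dgr_sw1 (hE : Sy E) (v p q r s t u : V) : dgr E v p r q s t u = dgr E v p q r s t u := by
  unfold dgr
  rw [hE.h132 v q r]
  ring

theorem dgr_sw2 (hE : Sy E) (v p q r s t u : V) : dgr E v p q s r t u = dgr E v p q r s t u := by
  unfold dgr
  rw [hE.h132 v r s]
  ring

theorem dgr_sw3 (hE : Sy E) (v p q r s t u : V) : dgr E v p q r t s u = dgr E v p q r s t u := by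
  unfold dgr
  rw [hE.h132 v s t]
  ring

theorem dgr_sw4 (hE : Sy E) (v p q r s t u : V) : dgr E v p q r s u t = dgr E v p q r s t u := by
  unfold dgr
  rw [hE.h132 v t u]
  ring

/-- the last vertex has minimum degree -/
def MD (E : V → V → V → ℕ) (a b c d e f g : V) : Prop :=
  dgr E g a b c d e f ≤ dgr E a b c d e f g ∧ dgr E g a b c d e f ≤ dgr E b a c d e f g ∧ dgr E g a b c d e f ≤ dgr E c a b d e f g ∧ dgr E g a b c d e f ≤ dgr E d a b c e f g ∧ dgr E g a b c d e f ≤ dgr E e a b c d f g ∧ dgr E g a b c d e f ≤ dgr E f a b c d e g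

theorem MD_sw0 (hE : Sy E) (a b c d e f g : V) (h : MD E a b c d e f g) : MD E b a c d e f g := by
  obtain ⟨h0, h1, h2, h3, h4, h5⟩ := h
  unfold MD
  rw [dgr_sw0 hE g a b c d e f]
  rw [dgr_sw0 hE c a b d e f g, dgr_sw0 hE d a b c e f g, dgr_sw0 hE e a b c d f g, dgr_sw0 hE f a b c d e g]
  exact ⟨h1, h0, h2, h3, h4, h5⟩

theorem MD_sw1 (hE : Sy E) (a b c d e f g : V) (h : MD E a b c d e f g) : MD E a c b d e f g := by
  obtain ⟨h0, h1, h2, h3, h4, h5⟩ := h
  unfold MD
  rw [dgr_sw1 hE g a b c d e f]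
  rw [dgr_sw0 hE a b c d e f g, dgr_sw1 hE d a b c e f g, dgr_sw1 hE e a b c d f g, dgr_sw1 hE f a b c d e g]
  exact ⟨h0, h2, h1, h3, h4, h5⟩

theorem MD_sw2 (hE : Sy E) (a b c d e f g : V) (h : MD E a b c d e f g) : MD E a b d c e f g := by
  obtain ⟨h0, h1, h2, h3, h4, h5⟩ := h
  unfold MD
  rw [dgr_sw2 hE g a b c d e f]
  rw [dgr_sw1 hE a b c d e f g, dgr_sw1 hE b a c d e f g, dgr_sw2 hE e a b c d f g, dgr_sw2 hE f a b c d e g]
  exact ⟨h0, h1, h3, h2, h4, h5⟩

theorem MD_sw3 (hE : Sy E) (a b c d e f g : V) (h : MD E a b c d e f g) : MD E a b c e d f g := by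
  obtain ⟨h0, h1, h2, h3, h4, h5⟩ := h
  unfold MD
  rw [dgr_sw3 hE g a b c d e f]
  rw [dgr_sw2 hE a b c d e f g, dgr_sw2 hE b a c d e f g, dgr_sw2 hE c a b d e f g, dgr_sw3 hE f a b c d e g]
  exact ⟨h0, h1, h2, h4, h3, h5⟩

theorem MD_sw4 (hE : Sy E) (a b c d e f g : V) (h : MD E a b c d e f g) : MD E a b c d f e g := by
  obtain ⟨h0, h1, h2, h3, h4, h5⟩ := h
  unfold MD
  rw [dgr_sw4 hE g a b c d e f]
  rw [dgr_sw3 hE a b c d e f g, dgr_sw3 hE b a c d e f g, dgr_sw3 hE c a b d e f g, dgr_sw3 hE d a b c e f g]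
  exact ⟨h0, h1, h2, h3, h5, h4⟩

/-- a bound that holds when the last vertex has minimum degree holds always -/
theorem of_md (hE : Sy E) (h : OF E) {C : ℕ} (hm : ∀ a b c d e f g : V, MD E a b c d e f g → L5 E a b c d e f g ≤ C)
    (a b c d e f g : V) : L5 E a b c d e f g ≤ C := by
  have r0 : L5 E b c d e f g a = L5 E a b c d e f g := by
    rw [L5_sw5 h b c d e f a g, L5_sw4 h b c d e a f g, L5_sw3 h b c d a e f g, L5_sw2 h b c a d e f g, L5_sw1 h b a c d e f g, L5_sw0 h a b c d e f g]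
  have q01 : dgr E b c d e f g a = dgr E b a c d e f g := by
    rw [dgr_sw4 hE b c d e f a g, dgr_sw3 hE b c d e a f g, dgr_sw2 hE b c d a e f g, dgr_sw1 hE b c a d e f g, dgr_sw0 hE b a c d e f g]
  have q02 : dgr E c b d e f g a = dgr E c a b d e f g := by
    rw [dgr_sw4 hE c b d e f a g, dgr_sw3 hE c b d e a f g, dgr_sw2 hE c b d a e f g, dgr_sw1 hE c b a d e f g, dgr_sw0 hE c a b d e f g]
  have q03 : dgr E d b c e f g a = dgr E d a b c e f g := by
    rw [dgr_sw4 hE d b c e f a g, dgr_sw3 hE d b c e a f g, dgr_sw2 hE d b c a e f g, dgr_sw1 hE d b a c e f g, dgr_sw0 hE d a b c e f g]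
  have q04 : dgr E e b c d f g a = dgr E e a b c d f g := by
    rw [dgr_sw4 hE e b c d f a g, dgr_sw3 hE e b c d a f g, dgr_sw2 hE e b c a d f g, dgr_sw1 hE e b a c d f g, dgr_sw0 hE e a b c d f g]
  have q05 : dgr E f b c d e g a = dgr E f a b c d e g := by
    rw [dgr_sw4 hE f b c d e a g, dgr_sw3 hE f b c d a e g, dgr_sw2 hE f b c a d e g, dgr_sw1 hE f b a c d e g, dgr_sw0 hE f a b c d e g]
  have q06 : dgr E g b c d e f a = dgr E g a b c d e f := by
    rw [dgr_sw4 hE g b c d e a f, dgr_sw3 hE g b c d a e f, dgr_sw2 hE g b c a d e f, dgr_sw1 hE g b a c d e f, dgr_sw0 hE g a b c d e f]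
  have r1 : L5 E a c d e f g b = L5 E a b c d e f g := by
    rw [L5_sw5 h a c d e f b g, L5_sw4 h a c d e b f g, L5_sw3 h a c d b e f g, L5_sw2 h a c b d e f g, L5_sw1 h a b c d e f g]
  have q10 : dgr E a c d e f g b = dgr E a b c d e f g := by
    rw [dgr_sw4 hE a c d e f b g, dgr_sw3 hE a c d e b f g, dgr_sw2 hE a c d b e f g, dgr_sw1 hE a c b d e f g, dgr_sw0 hE a b c d e f g]
  have q12 : dgr E c a d e f g b = dgr E c a b d e f g := by
    rw [dgr_sw4 hE c a d e f b g, dgr_sw3 hE c a d e b f g, dgr_sw2 hE c a d b e f g, dgr_sw1 hE c a b d e f g]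
  have q13 : dgr E d a c e f g b = dgr E d a b c e f g := by
    rw [dgr_sw4 hE d a c e f b g, dgr_sw3 hE d a c e b f g, dgr_sw2 hE d a c b e f g, dgr_sw1 hE d a b c e f g]
  have q14 : dgr E e a c d f g b = dgr E e a b c d f g := by
    rw [dgr_sw4 hE e a c d f b g, dgr_sw3 hE e a c d b f g, dgr_sw2 hE e a c b d f g, dgr_sw1 hE e a b c d f g]
  have q15 : dgr E f a c d e g b = dgr E f a b c d e g := by
    rw [dgr_sw4 hE f a c d e b g, dgr_sw3 hE f a c d b e g, dgr_sw2 hE f a c b d e g, dgr_sw1 hE f a b c d e g]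
  have q16 : dgr E g a c d e f b = dgr E g a b c d e f := by
    rw [dgr_sw4 hE g a c d e b f, dgr_sw3 hE g a c d b e f, dgr_sw2 hE g a c b d e f, dgr_sw1 hE g a b c d e f]
  have r2 : L5 E a b d e f g c = L5 E a b c d e f g := by
    rw [L5_sw5 h a b d e f c g, L5_sw4 h a b d e c f g, L5_sw3 h a b d c e f g, L5_sw2 h a b c d e f g]
  have q20 : dgr E a b d e f g c = dgr E a b c d e f g := by
    rw [dgr_sw4 hE a b d e f c g, dgr_sw3 hE a b d e c f g, dgr_sw2 hE a b d c e f g, dgr_sw1 hE a b c d e f g]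
  have q21 : dgr E b a d e f g c = dgr E b a c d e f g := by
    rw [dgr_sw4 hE b a d e f c g, dgr_sw3 hE b a d e c f g, dgr_sw2 hE b a d c e f g, dgr_sw1 hE b a c d e f g]
  have q23 : dgr E d a b e f g c = dgr E d a b c e f g := by
    rw [dgr_sw4 hE d a b e f c g, dgr_sw3 hE d a b e c f g, dgr_sw2 hE d a b c e f g]
  have q24 : dgr E e a b d f g c = dgr E e a b c d f g := by
    rw [dgr_sw4 hE e a b d f c g, dgr_sw3 hE e a b d c f g, dgr_sw2 hE e a b c d f g]
  have q25 : dgr E f a b d e g c = dgr E f a b c d e g := by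
    rw [dgr_sw4 hE f a b d e c g, dgr_sw3 hE f a b d c e g, dgr_sw2 hE f a b c d e g]
  have q26 : dgr E g a b d e f c = dgr E g a b c d e f := by
    rw [dgr_sw4 hE g a b d e c f, dgr_sw3 hE g a b d c e f, dgr_sw2 hE g a b c d e f]
  have r3 : L5 E a b c e f g d = L5 E a b c d e f g := by
    rw [L5_sw5 h a b c e f d g, L5_sw4 h a b c e d f g, L5_sw3 h a b c d e f g]
  have q30 : dgr E a b c e f g d = dgr E a b c d e f g := by
    rw [dgr_sw4 hE a b c e f d g, dgr_sw3 hE a b c e d f g, dgr_sw2 hE a b c d e f g]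
  have q31 : dgr E b a c e f g d = dgr E b a c d e f g := by
    rw [dgr_sw4 hE b a c e f d g, dgr_sw3 hE b a c e d f g, dgr_sw2 hE b a c d e f g]
  have q32 : dgr E c a b e f g d = dgr E c a b d e f g := by
    rw [dgr_sw4 hE c a b e f d g, dgr_sw3 hE c a b e d f g, dgr_sw2 hE c a b d e f g]
  have q34 : dgr E e a b c f g d = dgr E e a b c d f g := by
    rw [dgr_sw4 hE e a b c f d g, dgr_sw3 hE e a b c d f g]
  have q35 : dgr E f a b c e g d = dgr E f a b c d e g := by
    rw [dgr_sw4 hE f a b c e d g, dgr_sw3 hE f a b c d e g]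
  have q36 : dgr E g a b c e f d = dgr E g a b c d e f := by
    rw [dgr_sw4 hE g a b c e d f, dgr_sw3 hE g a b c d e f]
  have r4 : L5 E a b c d f g e = L5 E a b c d e f g := by
    rw [L5_sw5 h a b c d f e g, L5_sw4 h a b c d e f g]
  have q40 : dgr E a b c d f g e = dgr E a b c d e f g := by
    rw [dgr_sw4 hE a b c d f e g, dgr_sw3 hE a b c d e f g]
  have q41 : dgr E b a c d f g e = dgr E b a c d e f g := by
    rw [dgr_sw4 hE b a c d f e g, dgr_sw3 hE b a c d e f g]
  have q42 : dgr E c a b d f g e = dgr E c a b d e f g := by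
    rw [dgr_sw4 hE c a b d f e g, dgr_sw3 hE c a b d e f g]
  have q43 : dgr E d a b c f g e = dgr E d a b c e f g := by
    rw [dgr_sw4 hE d a b c f e g, dgr_sw3 hE d a b c e f g]
  have q45 : dgr E f a b c d g e = dgr E f a b c d e g := by
    rw [dgr_sw4 hE f a b c d e g]
  have q46 : dgr E g a b c d f e = dgr E g a b c d e f := by
    rw [dgr_sw4 hE g a b c d e f]
  have r5 : L5 E a b c d e g f = L5 E a b c d e f g := by
    rw [L5_sw5 h a b c d e f g]
  have q50 : dgr E a b c d e g f = dgr E a b c d e f g := by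
    rw [dgr_sw4 hE a b c d e f g]
  have q51 : dgr E b a c d e g f = dgr E b a c d e f g := by
    rw [dgr_sw4 hE b a c d e f g]
  have q52 : dgr E c a b d e g f = dgr E c a b d e f g := by
    rw [dgr_sw4 hE c a b d e f g]
  have q53 : dgr E d a b c e g f = dgr E d a b c e f g := by
    rw [dgr_sw4 hE d a b c e f g]
  have q54 : dgr E e a b c d g f = dgr E e a b c d f g := by
    rw [dgr_sw4 hE e a b c d f g]
  have q56 : dgr E g a b c d e f = dgr E g a b c d e f := rfl
  have r6 : L5 E a b c d e f g = L5 E a b c d e f g := rfl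
  have q60 : dgr E a b c d e f g = dgr E a b c d e f g := rfl
  have q61 : dgr E b a c d e f g = dgr E b a c d e f g := rfl
  have q62 : dgr E c a b d e f g = dgr E c a b d e f g := rfl
  have q63 : dgr E d a b c e f g = dgr E d a b c e f g := rfl
  have q64 : dgr E e a b c d f g = dgr E e a b c d f g := rfl
  have q65 : dgr E f a b c d e g = dgr E f a b c d e g := rfl
  obtain ⟨i, -, hi⟩ := Finset.exists_min_image (univ : Finset (Fin 7)) ![dgr E a b c d e f g, dgr E b a c d e f g, dgr E c a b d e f g, dgr E d a b c e f g, dgr E e a b c d f g, dgr E f a b c d e g, dgr E g a b c d e f] ⟨0, mem_univ _⟩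
  have H := fun j => hi j (mem_univ j)
  fin_cases i
  · rw [← r0]
    apply hm
    unfold MD
    rw [q01, q02, q03, q04, q05, q06]
    exact ⟨H 1, H 2, H 3, H 4, H 5, H 6⟩
  · rw [← r1]
    apply hm
    unfold MD
    rw [q10, q12, q13, q14, q15, q16]
    exact ⟨H 0, H 2, H 3, H 4, H 5, H 6⟩
  · rw [← r2]
    apply hm
    unfold MD
    rw [q20, q21, q23, q24, q25, q26]
    exact ⟨H 0, H 1, H 3, H 4, H 5, H 6⟩
  · rw [← r3]
    apply hm
    unfold MD
    rw [q30, q31, q32, q34, q35, q36]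
    exact ⟨H 0, H 1, H 2, H 4, H 5, H 6⟩
  · rw [← r4]
    apply hm
    unfold MD
    rw [q40, q41, q42, q43, q45, q46]
    exact ⟨H 0, H 1, H 2, H 3, H 5, H 6⟩
  · rw [← r5]
    apply hm
    unfold MD
    rw [q50, q51, q52, q53, q54]
    exact ⟨H 0, H 1, H 2, H 3, H 4, H 6⟩
  · rw [← r6]
    apply hm
    unfold MD
    exact ⟨H 0, H 1, H 2, H 3, H 4, H 5⟩

end
end Pool.Agent.W843.N7
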