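import Pool.Agent.W843.N7.Pack

/-! Soundness of the leaf check. -/

set_option autoImplicit false
set_option maxRecDepth 100000
set_option maxHeartbeats 4000000
open Finset
open Pool.Agent.H122R2.N6 (Sy NoK4 Bt k4b five tg walk walk_all B2 B2_true or_false_left)

namespace Pool.Agent.W843.N7

section
variable {V : Type} {E : V → V → V → ℕ}

theorem ex_eq (hE : Sy E) (a b c d e f g : V) : ex (XBV E a b c d e f) (XV E a b c d e f g) = L5 E a b c d e f g := by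
  unfold ex L5 F5
  rw [fx0 hE a b c d e f g,
    fx1 hE a b c d e f g,
    fx2 hE a b c d e f g,
    fx3 hE a b c d e f g,
    fx4 hE a b c d e f g,
    fx5 hE a b c d e f g,
    fx6 hE a b c d e f g,
    fx7 hE a b c d e f g,
    fx8 hE a b c d e f g,
    fx9 hE a b c d e f g,
    fx10 hE a b c d e f g,
    fx11 hE a b c d e f g,
    fx12 hE a b c d e f g,
    fx13 hE a b c d e f g,
    fx14 hE a b c d e f g,
    fx15 hE a b c d e f g,
    fx16 hE a b c d e f g,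
    fx17 hE a b c d e f g,
    fx18 hE a b c d e f g,
    fx19 hE a b c d e f g,
    fx20 hE a b c d e f g,
    fx21 hE a b c d e f g,
    fx22 hE a b c d e f g,
    fx23 hE a b c d e f g,
    fx24 hE a b c d e f g,
    fx25 hE a b c d e f g,
    fx26 hE a b c d e f g,
    fx27 hE a b c d e f g,
    fx28 hE a b c d e f g,
    fx29 hE a b c d e f g,
    fz30 hE a b c d e f,
    fx31 hE a b c d e f g,
    fz32 hE a b c d e f,
    fx33 hE a b c d e f g,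
    fz34 hE a b c d e f,
    fx35 hE a b c d e f g,
    fz36 hE a b c d e f,
    fx37 hE a b c d e f g,
    fz38 hE a b c d e f,
    fx39 hE a b c d e f g,
    fz40 hE a b c d e f,
    fx41 hE a b c d e f g]
  simp only [st_eq, Nat.add_eq, D2]

theorem co_eq (hE : Sy E) (a b c d e f g : V) : co (XBV E a b c d e f) (XV E a b c d e f g) =
    (2 * F5 E b c d e f a g + hh (cc E b c d e f g)) + ((2 * F5 E a c d e f b g + hh (cc E a c d e f g)) + ((2 * F5 E a b d e f c g + hh (cc E a b d e f g)) + ((2 * F5 E a b c e f d g + hh (cc E a b c e f g)) + ((2 * F5 E a b c d f e g + hh (cc E a b c d f g)) + ((2 * F5 E a b c d e f g + hh (cc E a b c d e g))))))) := by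
  unfold co F5
  rw [fz30 hE a b c d e f,
    fx31 hE a b c d e f g,
    fz32 hE a b c d e f,
    fx33 hE a b c d e f g,
    fz34 hE a b c d e f,
    fx35 hE a b c d e f g,
    fz36 hE a b c d e f,
    fx37 hE a b c d e f g,
    fz38 hE a b c d e f,
    fx39 hE a b c d e f g,
    fz40 hE a b c d e f,
    fx41 hE a b c d e f g]
  simp only [st_eq, Nat.add_eq, Nat.mul_eq, TT]

theorem F5_le (h : OF E) (a b c d e x y : V) :
    2 * F5 E a b c d e x y ≤ F5 E a b c d e x x + F5 E a b c d e y y :=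
  D2_le (h.ok _ _ _ _ _ _) (h.ok _ _ _ _ _ _)

theorem coarse_num {t0 t1 t2 t3 t4 t5 t6 t7 t8 t9 t10 t11 t12 t13 t14 t15 t16 t17 t18 t19 t20 t21 t22 t23 t24 t25 t26 t27 t28 t29 t30 t31 t32 t33 t34 t35 t36 t37 t38 t39 t40 t41 t42 t43 t44 t45 t46 t47 t48 t49 t50 u0 u1 u2 u3 u4 u5 W : ℕ}
    (f0 : 2 * t0 ≤ t21 + t22)
    (f1 : 2 * t1 ≤ t23 + t24)
    (f2 : 2 * t2 ≤ t25 + t26)
    (f3 : 2 * t3 ≤ t27 + t28)
    (f4 : 2 * t4 ≤ t29 + t30)
    (f5 : 2 * t5 ≤ t31 + t32)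
    (f6 : 2 * t6 ≤ t33 + t34)
    (f7 : 2 * t7 ≤ t35 + t36)
    (f8 : 2 * t8 ≤ t37 + t38)
    (f9 : 2 * t9 ≤ t39 + t40)
    (f10 : 2 * t10 ≤ t41 + t42)
    (f11 : 2 * t11 ≤ t43 + t44)
    (f12 : 2 * t12 ≤ t45 + t46)
    (f13 : 2 * t13 ≤ t47 + t48)
    (f14 : 2 * t14 ≤ t49 + t50)
    (k0 : t22 + (t24 + (t28 + (t34 + (t42)))) ≤ u0)
    (k1 : t21 + (t26 + (t30 + (t36 + (t44)))) ≤ u1)
    (k2 : t23 + (t25 + (t32 + (t38 + (t46)))) ≤ u2)
    (k3 : t27 + (t29 + (t31 + (t40 + (t48)))) ≤ u3)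
    (k4 : t33 + (t35 + (t37 + (t39 + (t50)))) ≤ u4)
    (k5 : t41 + (t43 + (t45 + (t47 + (t49)))) ≤ u5)
    (h1 : (2 * t15 + u0) + ((2 * t16 + u1) + ((2 * t17 + u2) + ((2 * t18 + u3) + ((2 * t19 + u4) + ((2 * t20 + u5)))))) ≤ 2 * W) :
    t0 + (t1 + (t2 + (t3 + (t4 + (t5 + (t6 + (t7 + (t8 + (t9 + (t10 + (t11 + (t12 + (t13 + (t14 + (t15 + (t16 + (t17 + (t18 + (t19 + (t20)))))))))))))))))))) ≤ W := by
  have F := (Nat.add_le_add f0 (Nat.add_le_add f1 (Nat.add_le_add f2 (Nat.add_le_add f3 (Nat.add_le_add f4 (Nat.add_le_add f5 (Nat.add_le_add f6 (Nat.add_le_add f7 (Nat.add_le_add f8 (Nat.add_le_add f9 (Nat.add_le_add f10 (Nat.add_le_add f11 (Nat.add_le_add f12 (Nat.add_le_add f13 f14))))))))))))))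
  have K := (Nat.add_le_add k0 (Nat.add_le_add k1 (Nat.add_le_add k2 (Nat.add_le_add k3 (Nat.add_le_add k4 k5)))))
  clear f0 f1 f2 f3 f4 f5 f6 f7 f8 f9 f10 f11 f12 f13 f14 k0 k1 k2 k3 k4 k5
  have e1 : (t21 + t22) + ((t23 + t24) + ((t25 + t26) + ((t27 + t28) + ((t29 + t30) + ((t31 + t32) + ((t33 + t34) + ((t35 + t36) + ((t37 + t38) + ((t39 + t40) + ((t41 + t42) + ((t43 + t44) + ((t45 + t46) + ((t47 + t48) + ((t49 + t50))))))))))))))) =
      (t22 + (t24 + (t28 + (t34 + (t42))))) + ((t21 + (t26 + (t30 + (t36 + (t44))))) + ((t23 + (t25 + (t32 + (t38 + (t46))))) + ((t27 + (t29 + (t31 + (t40 + (t48))))) + ((t33 + (t35 + (t37 + (t39 + (t50))))) + ((t41 + (t43 + (t45 + (t47 + (t49)))))))))) := by ring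
  have G := (F.trans_eq e1).trans K
  clear F K e1
  have H : 2 * (t0 + (t1 + (t2 + (t3 + (t4 + (t5 + (t6 + (t7 + (t8 + (t9 + (t10 + (t11 + (t12 + (t13 + (t14 + (t15 + (t16 + (t17 + (t18 + (t19 + (t20))))))))))))))))))))) ≤ 2 * W := by
   calc 2 * (t0 + (t1 + (t2 + (t3 + (t4 + (t5 + (t6 + (t7 + (t8 + (t9 + (t10 + (t11 + (t12 + (t13 + (t14 + (t15 + (t16 + (t17 + (t18 + (t19 + (t20))))))))))))))))))))) = (2 * t0 + (2 * t1 + (2 * t2 + (2 * t3 + (2 * t4 + (2 * t5 + (2 * t6 + (2 * t7 + (2 * t8 + (2 * t9 + (2 * t10 + (2 * t11 + (2 * t12 + (2 * t13 + (2 * t14))))))))))))))) + (2 * t15 + (2 * t16 + (2 * t17 + (2 * t18 + (2 * t19 + (2 * t20)))))) := by ring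
    _ ≤ (u0 + (u1 + (u2 + (u3 + (u4 + (u5)))))) + (2 * t15 + (2 * t16 + (2 * t17 + (2 * t18 + (2 * t19 + (2 * t20)))))) := Nat.add_le_add_right G _
    _ = (2 * t15 + u0) + ((2 * t16 + u1) + ((2 * t17 + u2) + ((2 * t18 + u3) + ((2 * t19 + u4) + ((2 * t20 + u5)))))) := by ring
    _ ≤ 2 * W := h1
  exact Nat.le_of_mul_le_mul_left H (by norm_num)

theorem cnd_or {c x : Bool} (h : cnd c true x = true) : c = true ∨ x = true := by
  cases c
  · exact Or.inr h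
  · exact Or.inl rfl

theorem cC2_eq : cC2 = 2 * cC := rfl

theorem leaf_le (hE : Sy E) (hO : OF E) (hH : ∀ a b c d e x : V, Hs E a b c d e x ≤ hh (cc E a b c d e x))
    (a b c d e f g : V) (h : leafOK (XBV E a b c d e f) (XV E a b c d e f g) = true) :
    L5 E a b c d e f g ≤ cC := by
  unfold leafOK at h
  rw [ex_eq hE, co_eq hE] at h
  rcases cnd_or h with hb | hb
  · have h1 := Nat.le_of_ble_eq_true hb
    rw [cC2_eq] at h1
    have h2 := coarse_num (F5_le hO c d e f g a b) (F5_le hO b d e f g a c) (F5_le hO a d e f g b c) (F5_le hO b c e f g a d) (F5_le hO a c e f g b d) (F5_le hO a b e f g c d) (F5_le hO b c d f g a e) (F5_le hO a c d f g b e) (F5_le hO a b d f g c e) (F5_le hO a b c f g d e) (F5_le hO b c d e g a f) (F5_le hO a c d e g b f) (F5_le hO a b d e g c f) (F5_le hO a b c e g d f) (F5_le hO a b c d g e f) (hH b c d e f g) (hH a c d e f g) (hH a b d e f g) (hH a b c e f g) (hH a b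 c d f g) (hH a b c d e g) h1
    unfold L5
    exact h2
  · exact Nat.le_of_ble_eq_true hb

theorem ZB_eq (hE : Sy E) (a b c d e f : V) : Nat.add (ZM (mC E a b c d e)) (Z6 (lC E a b c d e f)) =
    (32 + (E a b c + (E a b d + (E a c d + (E a b e + (E a c e + (E a d e + (E a b f + (E a c f + (E a d f + (E a e f))))))))))) + 256 * ((32 + (E a b c + (E a b d + (E b c d + (E a b e + (E b c e + (E b d e + (E a b f + (E b c f + (E b d f + (E b e f))))))))))) + 256 * ((32 + (E a b c + (E a c d + (E b c d + (E a c e + (E b c e + (E c d e + (E a c f + (E b c f + (E c d f + (E c e f))))))))))) + 256 * ((32 + (E a b d + (E a c d + (E b c d + (E a d e + (E b d e + (E c d e + (E a d f + (E b d f + (E c d f + (E d e f))))))))))) + 256 * ((32 + (E a b e + (E a c e + (E b c e + (E a d e + (E b d e + (E c d e + (E a e f + (E b e f + (E c e f + (E d e f))))))))))) + 256 * ((32 + (E a b f + (E a c f + (E b c f + (E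 a d f + (E b d f + (E c d f + (E a e f + (E b e f + (E c e f + (E d e f)))))))))))))))) := by
  have h1 : ac lCZM (mC E a b c d e) = _ := ac10 (hE.b _ _ _) (hE.b _ _ _) (hE.b _ _ _) (hE.b _ _ _) (hE.b _ _ _) (hE.b _ _ _) (hE.b _ _ _) (hE.b _ _ _) (hE.b _ _ _) (hE.b _ _ _)
  have h2 : ac lCZ6 (lC E a b c d e f) = _ := ac10 (hE.b _ _ _) (hE.b _ _ _) (hE.b _ _ _) (hE.b _ _ _) (hE.b _ _ _) (hE.b _ _ _) (hE.b _ _ _) (hE.b _ _ _) (hE.b _ _ _) (hE.b _ _ _)
  show Nat.add cM (ac lCZM (mC E a b c d e)) + (ac lCZ6 (lC E a b c d e f)) = _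
  rw [h1, h2]
  show cM + _ + _ = _
  unfold cM
  ring

theorem YF_eq (hE : Sy E) (a b c d e g : V) : YF (lC E a b c d e g) =
    (E b c g + (E b d g + (E c d g + (E b e g + (E c e g + (E d e g)))))) + 256 * ((E a c g + (E a d g + (E c d g + (E a e g + (E c e g + (E d e g)))))) + 256 * ((E a b g + (E a d g + (E b d g + (E a e g + (E b e g + (E d e g)))))) + 256 * ((E a b g + (E a c g + (E b c g + (E a e g + (E b e g + (E c e g)))))) + 256 * ((E a b g + (E a c g + (E b c g + (E a d g + (E b d g + (E c d g)))))) + 256 * ((E a b g + (E a c g + (E b c g + (E a d g + (E b d g + (E c d g + (E a e g + (E b e g + (E c e g + (E d e g))))))))))))))) := by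
  have h1 : ac lCYF (lC E a b c d e g) = _ := ac10 (hE.b _ _ _) (hE.b _ _ _) (hE.b _ _ _) (hE.b _ _ _) (hE.b _ _ _) (hE.b _ _ _) (hE.b _ _ _) (hE.b _ _ _) (hE.b _ _ _) (hE.b _ _ _)
  show ac lCYF (lC E a b c d e g) = _
  rw [h1]
  ring

theorem YH_eq (hE : Sy E) (a b c d e f g : V) : YH (hC E a b c d e f g) =
    (E b f g + (E c f g + (E d f g + (E e f g)))) + 256 * ((E a f g + (E c f g + (E d f g + (E e f g)))) + 256 * ((E a f g + (E b f g + (E d f g + (E e f g)))) + 256 * ((E a f g + (E b f g + (E c f g + (E e f g)))) + 256 * ((E a f g + (E b f g + (E c f g + (E d f g)))) + 256 * ((0)))))) := by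
  have h1 : ac lCYH (hC E a b c d e f g) = _ := ac5 (hE.b _ _ _) (hE.b _ _ _) (hE.b _ _ _) (hE.b _ _ _) (hE.b _ _ _)
  show ac lCYH (hC E a b c d e f g) = _
  rw [h1]
  ring

theorem land256 {a b A B : ℕ} (ha : a < 256) (hb : b < 256) :
    Nat.land (a + 256 * A) (b + 256 * B) = Nat.land a b + 256 * Nat.land A B := by
  have key : ∀ x y : ℕ, x < 256 → Nat.land (x + 256 * y) 255 = x := by
    intro x y hx
    have : (x + 256 * y) &&& 255 = (x + 256 * y) % 2 ^ 8 := Nat.and_two_pow_sub_one_eq_mod _ 8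
    show (x + 256 * y) &&& 255 = x
    rw [this]; omega
  have h1 : (Nat.land (a + 256 * A) (b + 256 * B)) % 256 = Nat.land a b := by
    show ((a + 256 * A) &&& (b + 256 * B)) % 2 ^ 8 = a &&& b
    rw [Nat.and_mod_two_pow]
    congr 1 <;> omega
  have h2 : (Nat.land (a + 256 * A) (b + 256 * B)) / 256 = Nat.land A B := by
    show ((a + 256 * A) &&& (b + 256 * B)) / 2 ^ 8 = A &&& B
    rw [Nat.and_div_two_pow]
    congr 1 <;> omega
  omega

theorem land32 {e : ℕ} (h : e < 32) : Nat.land (32 + e) 32 = 32 := by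
  have : ∀ e < 32, Nat.land (32 + e) 32 = 32 := by decide
  exact this e h

theorem landM {e0 e1 e2 e3 e4 e5 : ℕ} (h0 : e0 < 32) (h1 : e1 < 32) (h2 : e2 < 32) (h3 : e3 < 32) (h4 : e4 < 32)
    (h5 : e5 < 32) : Nat.land ((32 + e0) + 256 * ((32 + e1) + 256 * ((32 + e2) + 256 * ((32 + e3) + 256 * ((32 + e4) + 256 * (32 + e5)))))) cM = cM := by
  have e : cM = 32 + 256 * (32 + 256 * (32 + 256 * (32 + 256 * (32 + 256 * 32)))) := rfl
  rw [e, land256 (by omega) (by norm_num), land256 (by omega) (by norm_num), land256 (by omega) (by norm_num),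
    land256 (by omega) (by norm_num), land256 (by omega) (by norm_num), land32 h0, land32 h1, land32 h2, land32 h3,
    land32 h4, land32 h5]

theorem Bt_le {n : ℕ} (h : Bt n) : n ≤ 1 := by rcases h with rfl | rfl <;> norm_num

/-- subtraction of packed numbers, field by field -/
theorem sub_fields {x0 x1 x2 x3 x4 x5 y0 y1 y2 y3 y4 y5 : ℕ} (h0 : y0 ≤ x0) (h1 : y1 ≤ x1) (h2 : y2 ≤ x2)
    (h3 : y3 ≤ x3) (h4 : y4 ≤ x4) (h5 : y5 ≤ x5) :
    Nat.sub ((32 + x0) + 256 * ((32 + x1) + 256 * ((32 + x2) + 256 * ((32 + x3) + 256 * ((32 + x4) + 256 * (32 + x5))))))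
      (y0 + 256 * (y1 + 256 * (y2 + 256 * (y3 + 256 * (y4 + 256 * y5))))) =
    (32 + (x0 - y0)) + 256 * ((32 + (x1 - y1)) + 256 * ((32 + (x2 - y2)) + 256 * ((32 + (x3 - y3)) + 256 * ((32 + (x4 - y4)) + 256 * (32 + (x5 - y5)))))) := by
  obtain ⟨z0, rfl⟩ := Nat.exists_eq_add_of_le h0
  obtain ⟨z1, rfl⟩ := Nat.exists_eq_add_of_le h1
  obtain ⟨z2, rfl⟩ := Nat.exists_eq_add_of_le h2
  obtain ⟨z3, rfl⟩ := Nat.exists_eq_add_of_le h3
  obtain ⟨z4, rfl⟩ := Nat.exists_eq_add_of_le h4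
  obtain ⟨z5, rfl⟩ := Nat.exists_eq_add_of_le h5
  simp only [Nat.add_sub_cancel_left]
  refine Nat.sub_eq_of_eq_add ?_
  ring

theorem md_fields (hE : Sy E) (a b c d e f g : V) (h : MD E a b c d e f g) :
    (E b c g + (E b d g + (E c d g + (E b e g + (E c e g + (E d e g)))))) + (E b f g + (E c f g + (E d f g + (E e f g)))) ≤ E a b c + (E a b d + (E a c d + (E a b e + (E a c e + (E a d e + (E a b f + (E a c f + (E a d f + (E a e f))))))))) ∧
    (E a c g + (E a d g + (E c d g + (E a e g + (E c e g + (E d e g)))))) + (E a f g + (E c f g + (E d f g + (E e f g)))) ≤ E a b c + (E a b d + (E b c d + (E a b e + (E b c e + (E b d e + (E a b f + (E b c f + (E b d f + (E b e f))))))))) ∧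
    (E a b g + (E a d g + (E b d g + (E a e g + (E b e g + (E d e g)))))) + (E a f g + (E b f g + (E d f g + (E e f g)))) ≤ E a b c + (E a c d + (E b c d + (E a c e + (E b c e + (E c d e + (E a c f + (E b c f + (E c d f + (E c e f))))))))) ∧
    (E a b g + (E a c g + (E b c g + (E a e g + (E b e g + (E c e g)))))) + (E a f g + (E b f g + (E c f g + (E e f g)))) ≤ E a b d + (E a c d + (E b c d + (E a d e + (E b d e + (E c d e + (E a d f + (E b d f + (E c d f + (E d e f))))))))) ∧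
    (E a b g + (E a c g + (E b c g + (E a d g + (E b d g + (E c d g)))))) + (E a f g + (E b f g + (E c f g + (E d f g)))) ≤ E a b e + (E a c e + (E b c e + (E a d e + (E b d e + (E c d e + (E a e f + (E b e f + (E c e f + (E d e f))))))))) ∧
    (E a b g + (E a c g + (E b c g + (E a d g + (E b d g + (E c d g + (E a e g + (E b e g + (E c e g + (E d e g)))))))))) + (0) ≤ E a b f + (E a c f + (E b c f + (E a d f + (E b d f + (E c d f + (E a e f + (E b e f + (E c e f + (E d e f))))))))) := by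
  obtain ⟨h0, h1, h2, h3, h4, h5⟩ := h
  unfold dgr at h0 h1 h2 h3 h4 h5
  simp only [hE.h213 a b c, hE.h312 a b c, hE.h213 a b d, hE.h312 a b d, hE.h213 a c d, hE.h312 a c d, hE.h213 b c d, hE.h312 b c d, hE.h213 a b e, hE.h312 a b e, hE.h213 a c e, hE.h312 a c e, hE.h213 b c e, hE.h312 b c e, hE.h213 a d e, hE.h312 a d e, hE.h213 b d e, hE.h312 b d e, hE.h213 c d e, hE.h312 c d e, hE.h213 a b f, hE.h312 a b f, hE.h213 a c f, hE.h312 a c f, hE.h213 b c f, hE.h312 b c f, hE.h213 a d f, hE.h312 a d f, hE.h213 b d f, hE.h312 b d f, hE.h213 c d f, hE.h312 c d f, hE.h213 a e f, hE.h312 a e f, hE.h213 b e f, hE.h312 b e f, hE.h213 c e f, hE.h312 c e f, hE.h213 d e f, hE.h312 d e f, hE.h213 a b g, hE.h312 a b g, hE.h213 a c g, hE.h312 a c g, hE.h213 b c g, hE.h312 b c g, hE.h213 a d g, hE.h312 a d g, hE.h213 b d g, hE.h312 b d g, hE.h213 c d g, hE.h312 c d g, hE.h213 a e g, hE.h312 a e g, hE.h213 b e g,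 hE.h312 b e g, hE.h213 c e g, hE.h312 c e g, hE.h213 d e g, hE.h312 d e g, hE.h213 a f g, hE.h312 a f g, hE.h213 b f g, hE.h312 b f g, hE.h213 c f g, hE.h312 c f g, hE.h213 d f g, hE.h312 d f g, hE.h213 e f g, hE.h312 e f g] at h0 h1 h2 h3 h4 h5
  generalize E a b c = x012 at *
  generalize E a b d = x013 at *
  generalize E a c d = x023 at *
  generalize E b c d = x123 at *
  generalize E a b e = x014 at *
  generalize E a c e = x024 at *
  generalize E b c e = x124 at *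
  generalize E a d e = x034 at *
  generalize E b d e = x134 at *
  generalize E c d e = x234 at *
  generalize E a b f = x015 at *
  generalize E a c f = x025 at *
  generalize E b c f = x125 at *
  generalize E a d f = x035 at *
  generalize E b d f = x135 at *
  generalize E c d f = x235 at *
  generalize E a e f = x045 at *
  generalize E b e f = x145 at *
  generalize E c e f = x245 at *
  generalize E d e f = x345 at *
  generalize E a b g = x016 at *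
  generalize E a c g = x026 at *
  generalize E b c g = x126 at *
  generalize E a d g = x036 at *
  generalize E b d g = x136 at *
  generalize E c d g = x236 at *
  generalize E a e g = x046 at *
  generalize E b e g = x146 at *
  generalize E c e g = x246 at *
  generalize E d e g = x346 at *
  generalize E a f g = x056 at *
  generalize E b f g = x156 at *
  generalize E c f g = x256 at *
  generalize E d f g = x356 at *
  generalize E e f g = x456 at *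
  refine ⟨?_, ?_, ?_, ?_, ?_, ?_⟩
  · clear h1 h2 h3 h4 h5
    linarith
  · clear h0 h2 h3 h4 h5
    linarith
  · clear h0 h1 h3 h4 h5
    linarith
  · clear h0 h1 h2 h4 h5
    linarith
  · clear h0 h1 h2 h3 h5
    linarith
  · clear h0 h1 h2 h3 h4
    linarith

theorem k4y {p q r s : ℕ} (hp : Bt p) (hq : Bt q) (hr : Bt r) (hs : Bt s) (h : k4b p q r s = false) :
    Nat.mul (Nat.mul r s) (Nat.mul q p) = 0 := by
  rcases hp with rfl | rfl <;> rcases hq with rfl | rfl <;> rcases hr with rfl | rfl <;>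
    rcases hs with rfl | rfl <;> first | rfl | exact absurd h (by decide)

theorem prs0 (hE : Sy E) (hK : NoK4 E) (a b c d e f g : V) :
    Nat.land (prs (hC E a b c d e f g)) (Nat.land (lC E a b c d e g) (lC E a b c d e f)) = 0 := by
  unfold lC hC
  rw [prs_eq (hE.b _ _ _) (hE.b _ _ _) (hE.b _ _ _) (hE.b _ _ _) (hE.b _ _ _),
    land_c10 (hE.b _ _ _) (hE.b _ _ _) (hE.b _ _ _) (hE.b _ _ _) (hE.b _ _ _) (hE.b _ _ _) (hE.b _ _ _) (hE.b _ _ _) (hE.b _ _ _) (hE.b _ _ _) (hE.b _ _ _) (hE.b _ _ _) (hE.b _ _ _) (hE.b _ _ _) (hE.b _ _ _) (hE.b _ _ _) (hE.b _ _ _) (hE.b _ _ _) (hE.b _ _ _) (hE.b _ _ _),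
    land_c10 (Bt_mul (hE.b _ _ _) (hE.b _ _ _)) (Bt_mul (hE.b _ _ _) (hE.b _ _ _)) (Bt_mul (hE.b _ _ _) (hE.b _ _ _)) (Bt_mul (hE.b _ _ _) (hE.b _ _ _)) (Bt_mul (hE.b _ _ _) (hE.b _ _ _)) (Bt_mul (hE.b _ _ _) (hE.b _ _ _)) (Bt_mul (hE.b _ _ _) (hE.b _ _ _)) (Bt_mul (hE.b _ _ _) (hE.b _ _ _)) (Bt_mul (hE.b _ _ _) (hE.b _ _ _)) (Bt_mul (hE.b _ _ _) (hE.b _ _ _)) (Bt_mul (hE.b _ _ _) (hE.b _ _ _)) (Bt_mul (hE.b _ _ _) (hE.b _ _ _)) (Bt_mul (hE.b _ _ _) (hE.b _ _ _)) (Bt_mul (hE.b _ _ _) (hE.b _ _ _)) (Bt_mul (hE.b _ _ _) (hE.b _ _ _)) (Bt_mul (hE.b _ _ _) (hE.b _ _ _)) (Bt_mul (hE.b _ _ _) (hE.b _ _ _)) (Bt_mul (hE.b _ _ _) (hE.b _ _ _)) (Bt_mul (hE.b _ _ _) (hE.b _ _ _)) (Bt_mul (hE.b _ _ _) (hE.b _ _ _))]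
  exact c10_zero (k4y (hE.b _ _ _) (hE.b _ _ _) (hE.b _ _ _) (hE.b _ _ _) (hK a b f g)) (k4y (hE.b _ _ _) (hE.b _ _ _) (hE.b _ _ _) (hE.b _ _ _) (hK a c f g)) (k4y (hE.b _ _ _) (hE.b _ _ _) (hE.b _ _ _) (hE.b _ _ _) (hK b c f g)) (k4y (hE.b _ _ _) (hE.b _ _ _) (hE.b _ _ _) (hE.b _ _ _) (hK a d f g)) (k4y (hE.b _ _ _) (hE.b _ _ _) (hE.b _ _ _) (hE.b _ _ _) (hK b d f g)) (k4y (hE.b _ _ _) (hE.b _ _ _) (hE.b _ _ _) (hE.b _ _ _) (hK c d f g)) (k4y (hE.b _ _ _) (hE.b _ _ _) (hE.b _ _ _) (hE.b _ _ _) (hK a e f g)) (k4y (hE.b _ _ _) (hE.b _ _ _) (hE.b _ _ _) (hE.b _ _ _) (hK b e f g)) (k4y (hE.b _ _ _) (hE.b _ _ _) (hE.b _ _ _) (hE.b _ _ _) (hK c e f g)) (k4y (hE.b _ _ _) (hE.b _ _ _) (hE.b _ _ _) (hE.b _ _ _) (hK d e f g))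

theorem enum_core {XB ZB m f6 F h d0 d1 d2 d3 d4 d5 y0 y1 y2 y3 y4 y5 z0 z1 z2 z3 z4 : ℕ}
    (hc : al 1024 (bodyF XB ZB m f6) = true)
    (hZ : ZB = (32 + d0) + 256 * ((32 + d1) + 256 * ((32 + d2) + 256 * ((32 + d3) + 256 * ((32 + d4) + 256 * ((32 + d5)))))))
    (hYF : YF F = y0 + 256 * (y1 + 256 * (y2 + 256 * (y3 + 256 * (y4 + 256 * (y5)))))) (hYH : YH h = z0 + 256 * (z1 + 256 * (z2 + 256 * (z3 + 256 * (z4 + 256 * (0))))))
    (hF : F < 1024) (hh : h < 32) (ht : Nat.land (triF F) m = 0) (hp : Nat.land (prs h) (Nat.land F f6) = 0)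
    (n0 : d0 ≤ 10) (n1 : d1 ≤ 10) (n2 : d2 ≤ 10) (n3 : d3 ≤ 10) (n4 : d4 ≤ 10) (n5 : d5 ≤ 10) (m0 : y0 + z0 ≤ d0) (m1 : y1 + z1 ≤ d1) (m2 : y2 + z2 ≤ d2) (m3 : y3 + z3 ≤ d3) (m4 : y4 + z4 ≤ d4) (m5 : y5 + 0 ≤ d5) :
    leafOK XB (Nat.add (Nat.add XB (XF F)) (XH h)) = true := by
  have h1 := al_true hc F hF
  unfold bodyF at h1
  have h2 := cnd_true h1 (by rw [ht]; rfl)
  have s1 : Nat.sub ZB (YF F) = (32 + (d0 - y0)) + 256 * ((32 + (d1 - y1)) + 256 * ((32 + (d2 - y2)) + 256 * ((32 + (d3 - y3)) + 256 * ((32 + (d4 - y4)) + 256 * ((32 + (d5 - y5))))))) := by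
    rw [hZ, hYF]
    exact sub_fields (by omega) (by omega) (by omega) (by omega) (by omega) (by omega)
  rw [s1] at h2
  have h3 := cnd_true h2 (by
    rw [landM (by omega) (by omega) (by omega) (by omega) (by omega) (by omega)]
    exact Nat.beq_refl _)
  rw [st_eq, st_eq, st_eq] at h3
  have h4 := al_true h3 h hh
  unfold bodyh at h4
  have h5 := cnd_true h4 (by rw [hp]; rfl)
  have s2 : Nat.sub ((32 + (d0 - y0)) + 256 * ((32 + (d1 - y1)) + 256 * ((32 + (d2 - y2)) + 256 * ((32 + (d3 - y3)) + 256 * ((32 + (d4 - y4)) + 256 * ((32 + (d5 - y5)))))))) (YH h) = (32 + (d0 - y0 - z0)) + 256 * ((32 + (d1 - y1 - z1)) + 256 * ((32 + (d2 - y2 - z2)) + 256 * ((32 + (d3 - y3 - z3)) + 256 * ((32 + (d4 - y4 - z4)) + 256 * ((32 + (d5 - y5 - 0))))))) := by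
    rw [hYH]
    exact sub_fields (by omega) (by omega) (by omega) (by omega) (by omega) (by omega)
  rw [s2] at h5
  have h6 := cnd_true h5 (by
    rw [landM (by omega) (by omega) (by omega) (by omega) (by omega) (by omega)]
    exact Nat.beq_refl _)
  rw [st_eq] at h6
  exact h6

theorem le10 {a0 a1 a2 a3 a4 a5 a6 a7 a8 a9 : ℕ} (h0 : Bt a0) (h1 : Bt a1) (h2 : Bt a2) (h3 : Bt a3) (h4 : Bt a4)
    (h5 : Bt a5) (h6 : Bt a6) (h7 : Bt a7) (h8 : Bt a8) (h9 : Bt a9) :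
    a0 + (a1 + (a2 + (a3 + (a4 + (a5 + (a6 + (a7 + (a8 + (a9))))))))) ≤ 10 :=
  Nat.add_le_add (Bt_le h0) (Nat.add_le_add (Bt_le h1) (Nat.add_le_add (Bt_le h2) (Nat.add_le_add (Bt_le h3)
    (Nat.add_le_add (Bt_le h4) (Nat.add_le_add (Bt_le h5) (Nat.add_le_add (Bt_le h6) (Nat.add_le_add (Bt_le h7)
    (Nat.add_le_add (Bt_le h8) (Bt_le h9)))))))))

theorem chkB_leaf (hE : Sy E) (hK : NoK4 E) (a b c d e f g : V) (hm : MD E a b c d e f g)
    (h : chkB (mC E a b c d e) (lC E a b c d e f) = true) :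
    leafOK (XBV E a b c d e f) (XV E a b c d e f g) = true := by
  unfold chkB at h
  rw [st_eq, st_eq, gM_eq hE, g6_eq hE] at h
  obtain ⟨m0, m1, m2, m3, m4, m5⟩ := md_fields hE a b c d e f g hm
  have h2 := enum_core h (ZB_eq hE a b c d e f) (YF_eq hE a b c d e g) (YH_eq hE a b c d e f g)
    (c10_lt (hE.b _ _ _) (hE.b _ _ _) (hE.b _ _ _) (hE.b _ _ _) (hE.b _ _ _) (hE.b _ _ _) (hE.b _ _ _) (hE.b _ _ _) (hE.b _ _ _) (hE.b _ _ _)) (c5_lt (hE.b _ _ _) (hE.b _ _ _) (hE.b _ _ _) (hE.b _ _ _) (hE.b _ _ _)) (tri0 hE hK a b c d e g) (prs0 hE hK a b c d e f g)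
    (le10 (hE.b _ _ _) (hE.b _ _ _) (hE.b _ _ _) (hE.b _ _ _) (hE.b _ _ _) (hE.b _ _ _) (hE.b _ _ _) (hE.b _ _ _) (hE.b _ _ _) (hE.b _ _ _)) (le10 (hE.b _ _ _) (hE.b _ _ _) (hE.b _ _ _) (hE.b _ _ _) (hE.b _ _ _) (hE.b _ _ _) (hE.b _ _ _) (hE.b _ _ _) (hE.b _ _ _) (hE.b _ _ _)) (le10 (hE.b _ _ _) (hE.b _ _ _) (hE.b _ _ _) (hE.b _ _ _) (hE.b _ _ _) (hE.b _ _ _) (hE.b _ _ _) (hE.b _ _ _) (hE.b _ _ _) (hE.b _ _ _)) (le10 (hE.b _ _ _) (hE.b _ _ _) (hE.b _ _ _) (hE.b _ _ _) (hE.b _ _ _) (hE.b _ _ _) (hE.b _ _ _) (hE.b _ _ _) (hE.b _ _ _) (hE.b _ _ _)) (le10 (hE.b _ _ _) (hE.b _ _ _) (hE.b _ _ _) (hE.b _ _ _) (hE.b _ _ _) (hE.b _ _ _) (hE.b _ _ _) (hE.b _ _ _) (hE.b _ _ _) (hE.b _ _ _)) (le10 (hE.b _ _ _) (hE.b _ _ _) (hE.b _ _ _) (hE.b _ _ _) (hE.b _ _ _) (hE.b _ _ _) (hE.b _ _ _) (hE.b _ _ _) (hE.b _ _ _) (hE.b _ _ _)) m0 m1 m2 m3 m4 m5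
  rw [gF_eq hE, gH_eq hE] at h2
  exact h2

end

end Pool.Agent.W843.N7
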