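import Pool.Agent.W843.N7.Reps

set_option autoImplicit false
set_option maxRecDepth 100000
set_option maxHeartbeats 4000000

namespace Pool.Agent.W843.N7

theorem lk62_396 : chkR 62 rmv62 396 192 = true := by decide +kernel
theorem lk62_588 : chkR 62 rmv62 588 120 = true := by decide +kernel
theorem lk62_708 : chkR 62 rmv62 708 316 = true := by decide +kernel
theorem lk126_0 : chkR 126 rmv126 0 81 = true := by decide +kernel
theorem lk126_81 : chkR 126 rmv126 81 32 = true := by decide +kernel
theorem lk126_113 : chkR 126 rmv126 113 105 = true := by decide +kernel
theorem lk126_218 : chkR 126 rmv126 218 18 = true := by decide +kernel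
theorem lk126_236 : chkR 126 rmv126 236 12 = true := by decide +kernel
theorem lk126_248 : chkR 126 rmv126 248 256 = true := by decide +kernel
theorem lk126_504 : chkR 126 rmv126 504 8 = true := by decide +kernel

end Pool.Agent.W843.N7
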