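import Pool.Agent.W843.N7.Reps

set_option autoImplicit false
set_option maxRecDepth 100000
set_option maxHeartbeats 4000000

namespace Pool.Agent.W843.N7

theorem lk254_218 : chkR 254 rmv254 218 2 = true := by decide +kernel
theorem lk254_220 : chkR 254 rmv254 220 2 = true := by decide +kernel
theorem lk254_222 : chkR 254 rmv254 222 10 = true := by decide +kernel
theorem lk254_232 : chkR 254 rmv254 232 4 = true := by decide +kernel
theorem lk254_236 : chkR 254 rmv254 236 4 = true := by decide +kernel
theorem lk254_240 : chkR 254 rmv254 240 2 = true := by decide +kernel
theorem lk254_242 : chkR 254 rmv254 242 6 = true := by decide +kernel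
theorem lk254_248 : chkR 254 rmv254 248 184 = true := by decide +kernel
theorem lk254_432 : chkR 254 rmv254 432 1 = true := by decide +kernel
theorem lk254_433 : chkR 254 rmv254 433 2 = true := by decide +kernel

end Pool.Agent.W843.N7
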