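import Pool.Agent.W843.N7.Reps

set_option autoImplicit false
set_option maxRecDepth 100000
set_option maxHeartbeats 4000000

namespace Pool.Agent.W843.N7

theorem lk254_435 : chkR 254 rmv254 435 5 = true := by decide +kernel
theorem lk254_440 : chkR 254 rmv254 440 64 = true := by decide +kernel
theorem lk254_504 : chkR 254 rmv254 504 8 = true := by decide +kernel
theorem lk254_512 : chkR 254 rmv254 512 11 = true := by decide +kernel
theorem lk254_523 : chkR 254 rmv254 523 4 = true := by decide +kernel
theorem lk254_527 : chkR 254 rmv254 527 3 = true := by decide +kernel
theorem lk254_530 : chkR 254 rmv254 530 4 = true := by decide +kernel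
theorem lk254_534 : chkR 254 rmv254 534 1 = true := by decide +kernel
theorem lk254_535 : chkR 254 rmv254 535 3 = true := by decide +kernel
theorem lk254_538 : chkR 254 rmv254 538 4 = true := by decide +kernel

end Pool.Agent.W843.N7
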