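import Pool.Agent.W843.N7.Reps

set_option autoImplicit false
set_option maxRecDepth 100000
set_option maxHeartbeats 4000000

namespace Pool.Agent.W843.N7

theorem lk254_542 : chkR 254 rmv254 542 19 = true := by decide +kernel
theorem lk254_561 : chkR 254 rmv254 561 2 = true := by decide +kernel
theorem lk254_563 : chkR 254 rmv254 563 5 = true := by decide +kernel
theorem lk254_568 : chkR 254 rmv254 568 26 = true := by decide +kernel
theorem lk254_594 : chkR 254 rmv254 594 1 = true := by decide +kernel
theorem lk254_595 : chkR 254 rmv254 595 1 = true := by decide +kernel
theorem lk254_596 : chkR 254 rmv254 596 1 = true := by decide +kernel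
theorem lk254_597 : chkR 254 rmv254 597 1 = true := by decide +kernel
theorem lk254_598 : chkR 254 rmv254 598 1 = true := by decide +kernel
theorem lk254_599 : chkR 254 rmv254 599 25 = true := by decide +kernel
theorem lk254_624 : chkR 254 rmv254 624 36 = true := by decide +kernel
theorem lk254_660 : chkR 254 rmv254 660 2 = true := by decide +kernel

end Pool.Agent.W843.N7
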