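import Pool.Agent.W843.N7.Reps

set_option autoImplicit false
set_option maxRecDepth 100000
set_option maxHeartbeats 4000000

namespace Pool.Agent.W843.N7

theorem lk254_662 : chkR 254 rmv254 662 8 = true := by decide +kernel
theorem lk254_670 : chkR 254 rmv254 670 2 = true := by decide +kernel
theorem lk254_672 : chkR 254 rmv254 672 4 = true := by decide +kernel
theorem lk254_676 : chkR 254 rmv254 676 1 = true := by decide +kernel
theorem lk254_677 : chkR 254 rmv254 677 2 = true := by decide +kernel
theorem lk254_679 : chkR 254 rmv254 679 1 = true := by decide +kernel
theorem lk254_680 : chkR 254 rmv254 680 1 = true := by decide +kernel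
theorem lk254_681 : chkR 254 rmv254 681 3 = true := by decide +kernel
theorem lk254_684 : chkR 254 rmv254 684 4 = true := by decide +kernel
theorem lk254_688 : chkR 254 rmv254 688 2 = true := by decide +kernel
theorem lk254_690 : chkR 254 rmv254 690 1 = true := by decide +kernel

end Pool.Agent.W843.N7
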