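import Pool.Agent.W843.N7.Reps

set_option autoImplicit false
set_option maxRecDepth 100000
set_option maxHeartbeats 4000000

namespace Pool.Agent.W843.N7

theorem lk254_691 : chkR 254 rmv254 691 253 = true := by decide +kernel
theorem lk254_944 : chkR 254 rmv254 944 3 = true := by decide +kernel
theorem lk254_947 : chkR 254 rmv254 947 77 = true := by decide +kernel

end Pool.Agent.W843.N7
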