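import Pool.Agent.W843.N7.Reps

set_option autoImplicit false
set_option maxRecDepth 100000
set_option maxHeartbeats 4000000

namespace Pool.Agent.W843.N7

theorem lk126_512 : chkR 126 rmv126 512 26 = true := by decide +kernel
theorem lk126_538 : chkR 126 rmv126 538 49 = true := by decide +kernel
theorem lk126_587 : chkR 126 rmv126 587 2 = true := by decide +kernel
theorem lk126_589 : chkR 126 rmv126 589 6 = true := by decide +kernel
theorem lk126_595 : chkR 126 rmv126 595 7 = true := by decide +kernel
theorem lk126_602 : chkR 126 rmv126 602 22 = true := by decide +kernel
theorem lk126_624 : chkR 126 rmv126 624 8 = true := by decide +kernel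
theorem lk126_632 : chkR 126 rmv126 632 112 = true := by decide +kernel
theorem lk126_744 : chkR 126 rmv126 744 4 = true := by decide +kernel
theorem lk126_748 : chkR 126 rmv126 748 276 = true := by decide +kernel
theorem lk183_0 : chkR 183 rmv183 0 84 = true := by decide +kernel

end Pool.Agent.W843.N7
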