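import Pool.Agent.W843.N7.Reps

set_option autoImplicit false
set_option maxRecDepth 100000
set_option maxHeartbeats 4000000

namespace Pool.Agent.W843.N7

theorem lk183_84 : chkR 183 rmv183 84 66 = true := by decide +kernel
theorem lk183_150 : chkR 183 rmv183 150 282 = true := by decide +kernel
theorem lk183_432 : chkR 183 rmv183 432 592 = true := by decide +kernel
theorem lk184_0 : chkR 184 rmv184 0 1024 = true := by decide +kernel
theorem lk185_0 : chkR 185 rmv185 0 154 = true := by decide +kernel
theorem lk185_154 : chkR 185 rmv185 154 442 = true := by decide +kernel
theorem lk185_596 : chkR 185 rmv185 596 428 = true := by decide +kernel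
theorem lk187_0 : chkR 187 rmv187 0 78 = true := by decide +kernel
theorem lk187_78 : chkR 187 rmv187 78 23 = true := by decide +kernel
theorem lk187_101 : chkR 187 rmv187 101 47 = true := by decide +kernel
theorem lk187_148 : chkR 187 rmv187 148 54 = true := by decide +kernel

end Pool.Agent.W843.N7
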