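import Pool.Agent.W843.N7.Reps

set_option autoImplicit false
set_option maxRecDepth 100000
set_option maxHeartbeats 4000000

namespace Pool.Agent.W843.N7

theorem lk187_202 : chkR 187 rmv187 202 63 = true := by decide +kernel
theorem lk187_265 : chkR 187 rmv187 265 24 = true := by decide +kernel
theorem lk187_289 : chkR 187 rmv187 289 17 = true := by decide +kernel
theorem lk187_306 : chkR 187 rmv187 306 34 = true := by decide +kernel
theorem lk187_340 : chkR 187 rmv187 340 20 = true := by decide +kernel
theorem lk187_360 : chkR 187 rmv187 360 32 = true := by decide +kernel
theorem lk187_392 : chkR 187 rmv187 392 40 = true := by decide +kernel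
theorem lk187_432 : chkR 187 rmv187 432 356 = true := by decide +kernel
theorem lk187_788 : chkR 187 rmv187 788 13 = true := by decide +kernel

end Pool.Agent.W843.N7
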