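import Pool.Agent.W843.N7.Reps

set_option autoImplicit false
set_option maxRecDepth 100000
set_option maxHeartbeats 4000000

namespace Pool.Agent.W843.N7

theorem lk187_801 : chkR 187 rmv187 801 95 = true := by decide +kernel
theorem lk187_896 : chkR 187 rmv187 896 128 = true := by decide +kernel
theorem lk220_0 : chkR 220 rmv220 0 369 = true := by decide +kernel
theorem lk220_369 : chkR 220 rmv220 369 655 = true := by decide +kernel
theorem lk221_0 : chkR 221 rmv221 0 88 = true := by decide +kernel
theorem lk221_88 : chkR 221 rmv221 88 25 = true := by decide +kernel
theorem lk221_113 : chkR 221 rmv221 113 56 = true := by decide +kernel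
theorem lk221_169 : chkR 221 rmv221 169 51 = true := by decide +kernel
theorem lk221_220 : chkR 221 rmv221 220 16 = true := by decide +kernel
theorem lk221_236 : chkR 221 rmv221 236 12 = true := by decide +kernel

end Pool.Agent.W843.N7
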