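import Pool.Agent.W843.N7.Reps

set_option autoImplicit false
set_option maxRecDepth 100000
set_option maxHeartbeats 4000000

namespace Pool.Agent.W843.N7

theorem lk221_248 : chkR 221 rmv221 248 96 = true := by decide +kernel
theorem lk221_344 : chkR 221 rmv221 344 32 = true := by decide +kernel
theorem lk221_376 : chkR 221 rmv221 376 152 = true := by decide +kernel
theorem lk221_528 : chkR 221 rmv221 528 66 = true := by decide +kernel
theorem lk221_594 : chkR 221 rmv221 594 3 = true := by decide +kernel
theorem lk221_597 : chkR 221 rmv221 597 12 = true := by decide +kernel
theorem lk221_609 : chkR 221 rmv221 609 15 = true := by decide +kernel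
theorem lk221_624 : chkR 221 rmv221 624 37 = true := by decide +kernel
theorem lk221_661 : chkR 221 rmv221 661 11 = true := by decide +kernel

end Pool.Agent.W843.N7
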