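import Pool.Agent.W843.N7.Reps

set_option autoImplicit false
set_option maxRecDepth 100000
set_option maxHeartbeats 4000000

namespace Pool.Agent.W843.N7

theorem lk221_672 : chkR 221 rmv221 672 5 = true := by decide +kernel
theorem lk221_677 : chkR 221 rmv221 677 7 = true := by decide +kernel
theorem lk221_684 : chkR 221 rmv221 684 100 = true := by decide +kernel
theorem lk221_784 : chkR 221 rmv221 784 97 = true := by decide +kernel
theorem lk221_881 : chkR 221 rmv221 881 143 = true := by decide +kernel
theorem lk254_0 : chkR 254 rmv254 0 17 = true := by decide +kernel
theorem lk254_17 : chkR 254 rmv254 17 13 = true := by decide +kernel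
theorem lk254_30 : chkR 254 rmv254 30 43 = true := by decide +kernel
theorem lk254_73 : chkR 254 rmv254 73 4 = true := by decide +kernel
theorem lk254_77 : chkR 254 rmv254 77 2 = true := by decide +kernel

end Pool.Agent.W843.N7
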