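import Pool.Agent.W843.N7.Reps

set_option autoImplicit false
set_option maxRecDepth 100000
set_option maxHeartbeats 4000000

namespace Pool.Agent.W843.N7

theorem lk254_79 : chkR 254 rmv254 79 1 = true := by decide +kernel
theorem lk254_80 : chkR 254 rmv254 80 5 = true := by decide +kernel
theorem lk254_85 : chkR 254 rmv254 85 2 = true := by decide +kernel
theorem lk254_87 : chkR 254 rmv254 87 1 = true := by decide +kernel
theorem lk254_88 : chkR 254 rmv254 88 4 = true := by decide +kernel
theorem lk254_92 : chkR 254 rmv254 92 2 = true := by decide +kernel
theorem lk254_94 : chkR 254 rmv254 94 18 = true := by decide +kernel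
theorem lk254_112 : chkR 254 rmv254 112 3 = true := by decide +kernel
theorem lk254_115 : chkR 254 rmv254 115 5 = true := by decide +kernel
theorem lk254_120 : chkR 254 rmv254 120 27 = true := by decide +kernel
theorem lk254_147 : chkR 254 rmv254 147 3 = true := by decide +kernel

end Pool.Agent.W843.N7
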