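import Pool.Agent.W843.N7.Reps

set_option autoImplicit false
set_option maxRecDepth 100000
set_option maxHeartbeats 4000000

namespace Pool.Agent.W843.N7

theorem lk254_150 : chkR 254 rmv254 150 6 = true := by decide +kernel
theorem lk254_156 : chkR 254 rmv254 156 2 = true := by decide +kernel
theorem lk254_158 : chkR 254 rmv254 158 3 = true := by decide +kernel
theorem lk254_161 : chkR 254 rmv254 161 6 = true := by decide +kernel
theorem lk254_167 : chkR 254 rmv254 167 2 = true := by decide +kernel
theorem lk254_169 : chkR 254 rmv254 169 4 = true := by decide +kernel
theorem lk254_173 : chkR 254 rmv254 173 4 = true := by decide +kernel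
theorem lk254_177 : chkR 254 rmv254 177 2 = true := by decide +kernel
theorem lk254_179 : chkR 254 rmv254 179 5 = true := by decide +kernel
theorem lk254_184 : chkR 254 rmv254 184 34 = true := by decide +kernel

end Pool.Agent.W843.N7
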