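import Pool.Agent.W843.N7.Conv
import Pool.Agent.W843.N7.Chk

/-! Meaning of the product of two packed vectors. -/

set_option autoImplicit false
set_option maxRecDepth 100000
open Finset

namespace Pool.Agent.W843.N7

def dgt (k a : ℕ) : ℕ := Nat.mod (Nat.shiftRight a (Nat.mul 40 k)) 1099511627776

def vOKa (a b : ℕ) : Bool :=
  cnd (Nat.beq (dgt 0 a) 1) (cnd (Nat.beq (dgt 0 b) 1) (cnd (Nat.beq (dgt 12 b) (dgt 12 a))
    (cnd (Nat.ble (dgt 12 a) 274877906943)
      (al 11 (fun k => cnd (Nat.ble (dgt (Nat.succ k) a) 65535)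
        (Nat.beq (dgt (Nat.sub 11 k) b) (dgt (Nat.succ k) a)) false)) false) false) false) false

/-- the record of orbit `o` is well formed -/
def vOK (o : ℕ) : Bool := st (fun a => st (vOKa a) (vB o)) (vA o)

theorem cnd_false {c x : Bool} (h : cnd c x false = true) : c = true ∧ x = true := by
  cases c
  · exact absurd h (by simp [cnd])
  · exact ⟨rfl, h⟩

theorem cnd_true {c x : Bool} (h : cnd c x true = true) (hc : c = true) : x = true := by
  subst hc; exact h

theorem al_true {n : ℕ} {f : ℕ → Bool} (h : al n f = true) : ∀ k < n, f k = true := by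
  induction n with
  | zero => intro k hk; omega
  | succ n ih =>
    have h' : cnd (f n) (al n f) false = true := h
    obtain ⟨h1, h2⟩ := cnd_false h'
    intro k hk
    rcases Nat.lt_succ_iff_lt_or_eq.mp hk with hk | rfl
    · exact ih h2 k hk
    · exact h1

theorem dgt_eq (k a : ℕ) : dgt k a = a / 1099511627776 ^ k % 1099511627776 := by
  show a >>> (40 * k) % 1099511627776 = _
  rw [Nat.shiftRight_eq_div_pow, pow_mul]
  norm_num

/-- the entries and the weight of orbit `o` -/
def el (o k : ℕ) : ℕ := dgt (k + 1) (vA o)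
def wt (o : ℕ) : ℕ := dgt 12 (vA o)

structure Ok (o : ℕ) : Prop where
  a0 : dgt 0 (vA o) = 1
  b0 : dgt 0 (vB o) = 1
  w : dgt 12 (vB o) = wt o
  wl : wt o < 274877906944
  ll : ∀ k < 11, el o k < 65536
  lb : ∀ k < 11, dgt (11 - k) (vB o) = el o k

theorem ok_of {o : ℕ} (h : vOK o = true) : Ok o := by
  unfold vOK at h
  rw [st_eq, st_eq] at h
  unfold vOKa at h
  obtain ⟨h1, h⟩ := cnd_false h
  obtain ⟨h2, h⟩ := cnd_false h
  obtain ⟨h3, h⟩ := cnd_false h
  obtain ⟨h4, h⟩ := cnd_false h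
  have h5 := al_true h
  refine ⟨Nat.eq_of_beq_eq_true h1, Nat.eq_of_beq_eq_true h2, Nat.eq_of_beq_eq_true h3,
    Nat.lt_succ_of_le (Nat.le_of_ble_eq_true h4), ?_, ?_⟩
  · intro k hk
    obtain ⟨h6, -⟩ := cnd_false (h5 k hk)
    exact Nat.lt_succ_of_le (Nat.le_of_ble_eq_true h6)
  · intro k hk
    obtain ⟨-, h6⟩ := cnd_false (h5 k hk)
    exact Nat.eq_of_beq_eq_true h6

theorem vA_lt (o : ℕ) : vA o < 1099511627776 ^ 13 := by
  unfold vA
  exact lt_of_lt_of_eq (Nat.mod_lt _ (by norm_num)) (by norm_num)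

theorem vB_lt (o : ℕ) : vB o < 1099511627776 ^ 13 := by
  unfold vB
  exact lt_of_lt_of_eq (Nat.mod_lt _ (by norm_num)) (by norm_num)

theorem dot_eq {o p : ℕ} (ho : Ok o) (hp : Ok p) :
    dot (vA o) (vB p) = ∑ k ∈ range 11, el o k * el p k + wt o + wt p := by
  set X : ℕ := 1099511627776 with hX
  set a : ℕ → ℕ := fun i => dgt i (vA o) with ha
  set b : ℕ → ℕ := fun j => dgt (12 - j) (vB p) with hb
  have eA : vA o = ∑ i ∈ range (12 + 1), a i * X ^ i := by
    have h := digits_sum X (by norm_num [hX]) 13 (vA o) (vA_lt o)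
    refine h.trans (sum_congr rfl fun i _ => ?_)
    rw [ha]
    simp only
    rw [dgt_eq]
  have eB : vB p = ∑ j ∈ range (12 + 1), b j * X ^ (12 - j) := by
    have h := digits_sum X (by norm_num [hX]) 13 (vB p) (vB_lt p)
    rw [← sum_range_reflect] at h
    refine h.trans (sum_congr rfl fun i hi => ?_)
    rw [hb]
    simp only
    rw [dgt_eq]
  have a0 : a 0 = 1 := ho.a0
  have a12 : a 12 = wt o := rfl
  have al' : ∀ k < 11, a (k + 1) = el o k := fun k _ => rfl
  have b12 : b 12 = 1 := hp.b0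
  have b0 : b 0 = wt p := hp.w
  have bl : ∀ k < 11, b (k + 1) = el p k := by
    intro k hk
    have := hp.lb k hk
    rw [← this, hb]
    simp only
    congr 1
    omega
  have hS : ∑ i ∈ range (12 + 1), a i * b i = ∑ k ∈ range 11, el o k * el p k + wt o + wt p := by
    rw [sum_range_succ, sum_range_succ', a0, b0, a12, b12]
    have : ∑ k ∈ range 11, a (k + 1) * b (k + 1) = ∑ k ∈ range 11, el o k * el p k := by
      refine sum_congr rfl fun k hk => ?_
      rw [mem_range] at hk
      rw [al' k hk, bl k hk]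
    rw [this]
    ring
  have hM : ∑ i ∈ range (12 + 1), a i * b i < X := by
    rw [hS]
    have h1 : ∑ k ∈ range 11, el o k * el p k ≤ ∑ k ∈ range 11, 65536 * 65536 := by
      refine sum_le_sum fun k hk => ?_
      rw [mem_range] at hk
      exact Nat.mul_le_mul (ho.ll k hk).le (hp.ll k hk).le
    rw [sum_const, card_range, smul_eq_mul] at h1
    have := ho.wl
    have := hp.wl
    rw [hX]
    omega
  have hab : ∀ i < 12, a i ≤ 65536 := by
    intro i hi
    rcases i with _ | i
    · rw [a0]; norm_num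
    · rw [al' i (by omega)]
      exact (ho.ll i (by omega)).le
  have hbb : ∀ j, 1 ≤ j → j ≤ 12 → b j ≤ 65536 := by
    intro j h1 h2
    rcases j with _ | j
    · omega
    · rcases Nat.lt_or_ge j 11 with h3 | h3
      · rw [bl j h3]
        exact (hp.ll j h3).le
      · have : j = 11 := by omega
        subst this
        rw [b12]; norm_num
  have h := conv X 12 65536 a b (by norm_num [hX]) hab hbb hM
  rw [← eA, ← eB, hS] at h
  rw [← h]
  show (vA o * vB p) >>> 480 % 1099511627776 = _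
  have e : (2 : ℕ) ^ 480 = X ^ 12 := by
    have e1 : X = 2 ^ 40 := by rw [hX]; norm_num
    rw [e1, ← pow_mul]
  rw [Nat.shiftRight_eq_div_pow, e]

theorem D2_eq {c d : ℕ} (hc : vOK (orb c) = true) (hd : vOK (orb d) = true) :
    D2 c d = ∑ k ∈ range 11, el (orb c) k * el (orb d) k + wt (orb c) + wt (orb d) := by
  unfold D2 lkA lkB
  rw [st_eq, st_eq, dot_eq (ok_of hc) (ok_of hd)]

theorem D2_comm {c d : ℕ} (hc : vOK (orb c) = true) (hd : vOK (orb d) = true) :
    D2 c d = D2 d c := by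
  rw [D2_eq hc hd, D2_eq hd hc]
  have : ∑ k ∈ range 11, el (orb c) k * el (orb d) k = ∑ k ∈ range 11, el (orb d) k * el (orb c) k :=
    sum_congr rfl fun k _ => Nat.mul_comm _ _
  rw [this]
  ring

theorem two_mul_le_sq_add_sq (a b : ℕ) : 2 * (a * b) ≤ a * a + b * b := by
  have h := sq_nonneg ((a : ℤ) - b)
  have h2 : (2 : ℤ) * (a * b) ≤ a * a + b * b := by nlinarith
  exact_mod_cast h2

theorem D2_le {c d : ℕ} (hc : vOK (orb c) = true) (hd : vOK (orb d) = true) :
    2 * D2 c d ≤ D2 c c + D2 d d := by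
  rw [D2_eq hc hd, D2_eq hc hc, D2_eq hd hd]
  have h : 2 * ∑ k ∈ range 11, el (orb c) k * el (orb d) k
      ≤ ∑ k ∈ range 11, el (orb c) k * el (orb c) k + ∑ k ∈ range 11, el (orb d) k * el (orb d) k := by
    rw [mul_sum, ← sum_add_distrib]
    exact sum_le_sum fun k _ => two_mul_le_sq_add_sq _ _
  omega

end Pool.Agent.W843.N7
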