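import Pool.Agent.W843.N7.Lk0
import Pool.Agent.W843.N7.Lk1
import Pool.Agent.W843.N7.Lk2
import Pool.Agent.W843.N7.Lk3
import Pool.Agent.W843.N7.Lk4
import Pool.Agent.W843.N7.Lk5
import Pool.Agent.W843.N7.Lk6
import Pool.Agent.W843.N7.Lk7
import Pool.Agent.W843.N7.Lk8
import Pool.Agent.W843.N7.Lk9
import Pool.Agent.W843.N7.Lk10
import Pool.Agent.W843.N7.Lk11
import Pool.Agent.W843.N7.Lk12
import Pool.Agent.W843.N7.Lk13
import Pool.Agent.W843.N7.Lk14
import Pool.Agent.W843.N7.Sem

/-! The leaf check holds at all representatives. -/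

set_option autoImplicit false
set_option maxRecDepth 100000
set_option maxHeartbeats 4000000

namespace Pool.Agent.W843.N7

theorem chkR_true {m r lo n : ℕ} (h : chkR m r lo n = true) {f : ℕ} (h1 : lo ≤ f) (h2 : f < lo + n)
    (hb : Nat.beq (Nat.mod (Nat.shiftRight r f) 2) 1 = true) : chkB m f = true := by
  have h3 := al_true h (f - lo) (by omega)
  rw [st_eq] at h3
  have e : Nat.add lo (f - lo) = f := by show lo + (f - lo) = f; omega
  rw [e] at h3
  exact cnd_true h3 hb

theorem chk0 {f : ℕ} (hf : f < 1024) (hb : Nat.beq (Nat.mod (Nat.shiftRight rmv0 f) 2) 1 = true) : chkB 0 f = true := by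
  exact chkR_true lk0_0 (Nat.zero_le _) hf hb

theorem chk1 {f : ℕ} (hf : f < 1024) (hb : Nat.beq (Nat.mod (Nat.shiftRight rmv1 f) 2) 1 = true) : chkB 1 f = true := by
  exact chkR_true lk1_0 (Nat.zero_le _) hf hb

theorem chk3 {f : ℕ} (hf : f < 1024) (hb : Nat.beq (Nat.mod (Nat.shiftRight rmv3 f) 2) 1 = true) : chkB 3 f = true := by
  exact chkR_true lk3_0 (Nat.zero_le _) hf hb

theorem chk7 {f : ℕ} (hf : f < 1024) (hb : Nat.beq (Nat.mod (Nat.shiftRight rmv7 f) 2) 1 = true) : chkB 7 f = true := by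
  exact chkR_true lk7_0 (Nat.zero_le _) hf hb

theorem chk19 {f : ℕ} (hf : f < 1024) (hb : Nat.beq (Nat.mod (Nat.shiftRight rmv19 f) 2) 1 = true) : chkB 19 f = true := by
  exact chkR_true lk19_0 (Nat.zero_le _) hf hb

theorem chk20 {f : ℕ} (hf : f < 1024) (hb : Nat.beq (Nat.mod (Nat.shiftRight rmv20 f) 2) 1 = true) : chkB 20 f = true := by
  exact chkR_true lk20_0 (Nat.zero_le _) hf hb

theorem chk21 {f : ℕ} (hf : f < 1024) (hb : Nat.beq (Nat.mod (Nat.shiftRight rmv21 f) 2) 1 = true) : chkB 21 f = true := by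
  exact chkR_true lk21_0 (Nat.zero_le _) hf hb

theorem chk23 {f : ℕ} (hf : f < 1024) (hb : Nat.beq (Nat.mod (Nat.shiftRight rmv23 f) 2) 1 = true) : chkB 23 f = true := by
  exact chkR_true lk23_0 (Nat.zero_le _) hf hb

theorem chk28 {f : ℕ} (hf : f < 1024) (hb : Nat.beq (Nat.mod (Nat.shiftRight rmv28 f) 2) 1 = true) : chkB 28 f = true := by
  exact chkR_true lk28_0 (Nat.zero_le _) hf hb

theorem chk29 {f : ℕ} (hf : f < 1024) (hb : Nat.beq (Nat.mod (Nat.shiftRight rmv29 f) 2) 1 = true) : chkB 29 f = true := by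
  exact chkR_true lk29_0 (Nat.zero_le _) hf hb

theorem chk54 {f : ℕ} (hf : f < 1024) (hb : Nat.beq (Nat.mod (Nat.shiftRight rmv54 f) 2) 1 = true) : chkB 54 f = true := by
  exact chkR_true lk54_0 (Nat.zero_le _) hf hb

theorem chk55 {f : ℕ} (hf : f < 1024) (hb : Nat.beq (Nat.mod (Nat.shiftRight rmv55 f) 2) 1 = true) : chkB 55 f = true := by
  rcases Nat.lt_or_ge f 515 with g0 | g0
  · exact chkR_true lk55_0 (Nat.zero_le _) g0 hb
  rcases Nat.lt_or_ge f 658 with g1 | g1
  · exact chkR_true lk55_515 g0 g1 hb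
  exact chkR_true lk55_658 g1 hf hb

theorem chk58 {f : ℕ} (hf : f < 1024) (hb : Nat.beq (Nat.mod (Nat.shiftRight rmv58 f) 2) 1 = true) : chkB 58 f = true := by
  exact chkR_true lk58_0 (Nat.zero_le _) hf hb

theorem chk59 {f : ℕ} (hf : f < 1024) (hb : Nat.beq (Nat.mod (Nat.shiftRight rmv59 f) 2) 1 = true) : chkB 59 f = true := by
  rcases Nat.lt_or_ge f 368 with g0 | g0
  · exact chkR_true lk59_0 (Nat.zero_le _) g0 hb
  rcases Nat.lt_or_ge f 624 with g1 | g1
  · exact chkR_true lk59_368 g0 g1 hb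
  exact chkR_true lk59_624 g1 hf hb

theorem chk62 {f : ℕ} (hf : f < 1024) (hb : Nat.beq (Nat.mod (Nat.shiftRight rmv62 f) 2) 1 = true) : chkB 62 f = true := by
  rcases Nat.lt_or_ge f 396 with g0 | g0
  · exact chkR_true lk62_0 (Nat.zero_le _) g0 hb
  rcases Nat.lt_or_ge f 588 with g1 | g1
  · exact chkR_true lk62_396 g0 g1 hb
  rcases Nat.lt_or_ge f 708 with g2 | g2
  · exact chkR_true lk62_588 g1 g2 hb
  exact chkR_true lk62_708 g2 hf hb

theorem chk126 {f : ℕ} (hf : f < 1024) (hb : Nat.beq (Nat.mod (Nat.shiftRight rmv126 f) 2) 1 = true) : chkB 126 f = true := by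
  rcases Nat.lt_or_ge f 81 with g0 | g0
  · exact chkR_true lk126_0 (Nat.zero_le _) g0 hb
  rcases Nat.lt_or_ge f 113 with g1 | g1
  · exact chkR_true lk126_81 g0 g1 hb
  rcases Nat.lt_or_ge f 218 with g2 | g2
  · exact chkR_true lk126_113 g1 g2 hb
  rcases Nat.lt_or_ge f 236 with g3 | g3
  · exact chkR_true lk126_218 g2 g3 hb
  rcases Nat.lt_or_ge f 248 with g4 | g4
  · exact chkR_true lk126_236 g3 g4 hb
  rcases Nat.lt_or_ge f 504 with g5 | g5
  · exact chkR_true lk126_248 g4 g5 hb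
  rcases Nat.lt_or_ge f 512 with g6 | g6
  · exact chkR_true lk126_504 g5 g6 hb
  rcases Nat.lt_or_ge f 538 with g7 | g7
  · exact chkR_true lk126_512 g6 g7 hb
  rcases Nat.lt_or_ge f 587 with g8 | g8
  · exact chkR_true lk126_538 g7 g8 hb
  rcases Nat.lt_or_ge f 589 with g9 | g9
  · exact chkR_true lk126_587 g8 g9 hb
  rcases Nat.lt_or_ge f 595 with g10 | g10
  · exact chkR_true lk126_589 g9 g10 hb
  rcases Nat.lt_or_ge f 602 with g11 | g11
  · exact chkR_true lk126_595 g10 g11 hb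
  rcases Nat.lt_or_ge f 624 with g12 | g12
  · exact chkR_true lk126_602 g11 g12 hb
  rcases Nat.lt_or_ge f 632 with g13 | g13
  · exact chkR_true lk126_624 g12 g13 hb
  rcases Nat.lt_or_ge f 744 with g14 | g14
  · exact chkR_true lk126_632 g13 g14 hb
  rcases Nat.lt_or_ge f 748 with g15 | g15
  · exact chkR_true lk126_744 g14 g15 hb
  exact chkR_true lk126_748 g15 hf hb

theorem chk183 {f : ℕ} (hf : f < 1024) (hb : Nat.beq (Nat.mod (Nat.shiftRight rmv183 f) 2) 1 = true) : chkB 183 f = true := by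
  rcases Nat.lt_or_ge f 84 with g0 | g0
  · exact chkR_true lk183_0 (Nat.zero_le _) g0 hb
  rcases Nat.lt_or_ge f 150 with g1 | g1
  · exact chkR_true lk183_84 g0 g1 hb
  rcases Nat.lt_or_ge f 432 with g2 | g2
  · exact chkR_true lk183_150 g1 g2 hb
  exact chkR_true lk183_432 g2 hf hb

theorem chk184 {f : ℕ} (hf : f < 1024) (hb : Nat.beq (Nat.mod (Nat.shiftRight rmv184 f) 2) 1 = true) : chkB 184 f = true := by
  exact chkR_true lk184_0 (Nat.zero_le _) hf hb

theorem chk185 {f : ℕ} (hf : f < 1024) (hb : Nat.beq (Nat.mod (Nat.shiftRight rmv185 f) 2) 1 = true) : chkB 185 f = true := by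
  rcases Nat.lt_or_ge f 154 with g0 | g0
  · exact chkR_true lk185_0 (Nat.zero_le _) g0 hb
  rcases Nat.lt_or_ge f 596 with g1 | g1
  · exact chkR_true lk185_154 g0 g1 hb
  exact chkR_true lk185_596 g1 hf hb

theorem chk187 {f : ℕ} (hf : f < 1024) (hb : Nat.beq (Nat.mod (Nat.shiftRight rmv187 f) 2) 1 = true) : chkB 187 f = true := by
  rcases Nat.lt_or_ge f 78 with g0 | g0
  · exact chkR_true lk187_0 (Nat.zero_le _) g0 hb
  rcases Nat.lt_or_ge f 101 with g1 | g1
  · exact chkR_true lk187_78 g0 g1 hb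
  rcases Nat.lt_or_ge f 148 with g2 | g2
  · exact chkR_true lk187_101 g1 g2 hb
  rcases Nat.lt_or_ge f 202 with g3 | g3
  · exact chkR_true lk187_148 g2 g3 hb
  rcases Nat.lt_or_ge f 265 with g4 | g4
  · exact chkR_true lk187_202 g3 g4 hb
  rcases Nat.lt_or_ge f 289 with g5 | g5
  · exact chkR_true lk187_265 g4 g5 hb
  rcases Nat.lt_or_ge f 306 with g6 | g6
  · exact chkR_true lk187_289 g5 g6 hb
  rcases Nat.lt_or_ge f 340 with g7 | g7
  · exact chkR_true lk187_306 g6 g7 hb
  rcases Nat.lt_or_ge f 360 with g8 | g8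
  · exact chkR_true lk187_340 g7 g8 hb
  rcases Nat.lt_or_ge f 392 with g9 | g9
  · exact chkR_true lk187_360 g8 g9 hb
  rcases Nat.lt_or_ge f 432 with g10 | g10
  · exact chkR_true lk187_392 g9 g10 hb
  rcases Nat.lt_or_ge f 788 with g11 | g11
  · exact chkR_true lk187_432 g10 g11 hb
  rcases Nat.lt_or_ge f 801 with g12 | g12
  · exact chkR_true lk187_788 g11 g12 hb
  rcases Nat.lt_or_ge f 896 with g13 | g13
  · exact chkR_true lk187_801 g12 g13 hb
  exact chkR_true lk187_896 g13 hf hb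

theorem chk220 {f : ℕ} (hf : f < 1024) (hb : Nat.beq (Nat.mod (Nat.shiftRight rmv220 f) 2) 1 = true) : chkB 220 f = true := by
  rcases Nat.lt_or_ge f 369 with g0 | g0
  · exact chkR_true lk220_0 (Nat.zero_le _) g0 hb
  exact chkR_true lk220_369 g0 hf hb

theorem chk221 {f : ℕ} (hf : f < 1024) (hb : Nat.beq (Nat.mod (Nat.shiftRight rmv221 f) 2) 1 = true) : chkB 221 f = true := by
  rcases Nat.lt_or_ge f 88 with g0 | g0
  · exact chkR_true lk221_0 (Nat.zero_le _) g0 hb
  rcases Nat.lt_or_ge f 113 with g1 | g1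
  · exact chkR_true lk221_88 g0 g1 hb
  rcases Nat.lt_or_ge f 169 with g2 | g2
  · exact chkR_true lk221_113 g1 g2 hb
  rcases Nat.lt_or_ge f 220 with g3 | g3
  · exact chkR_true lk221_169 g2 g3 hb
  rcases Nat.lt_or_ge f 236 with g4 | g4
  · exact chkR_true lk221_220 g3 g4 hb
  rcases Nat.lt_or_ge f 248 with g5 | g5
  · exact chkR_true lk221_236 g4 g5 hb
  rcases Nat.lt_or_ge f 344 with g6 | g6
  · exact chkR_true lk221_248 g5 g6 hb
  rcases Nat.lt_or_ge f 376 with g7 | g7
  · exact chkR_true lk221_344 g6 g7 hb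
  rcases Nat.lt_or_ge f 528 with g8 | g8
  · exact chkR_true lk221_376 g7 g8 hb
  rcases Nat.lt_or_ge f 594 with g9 | g9
  · exact chkR_true lk221_528 g8 g9 hb
  rcases Nat.lt_or_ge f 597 with g10 | g10
  · exact chkR_true lk221_594 g9 g10 hb
  rcases Nat.lt_or_ge f 609 with g11 | g11
  · exact chkR_true lk221_597 g10 g11 hb
  rcases Nat.lt_or_ge f 624 with g12 | g12
  · exact chkR_true lk221_609 g11 g12 hb
  rcases Nat.lt_or_ge f 661 with g13 | g13
  · exact chkR_true lk221_624 g12 g13 hb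
  rcases Nat.lt_or_ge f 672 with g14 | g14
  · exact chkR_true lk221_661 g13 g14 hb
  rcases Nat.lt_or_ge f 677 with g15 | g15
  · exact chkR_true lk221_672 g14 g15 hb
  rcases Nat.lt_or_ge f 684 with g16 | g16
  · exact chkR_true lk221_677 g15 g16 hb
  rcases Nat.lt_or_ge f 784 with g17 | g17
  · exact chkR_true lk221_684 g16 g17 hb
  rcases Nat.lt_or_ge f 881 with g18 | g18
  · exact chkR_true lk221_784 g17 g18 hb
  exact chkR_true lk221_881 g18 hf hb

theorem chk254 {f : ℕ} (hf : f < 1024) (hb : Nat.beq (Nat.mod (Nat.shiftRight rmv254 f) 2) 1 = true) : chkB 254 f = true := by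
  rcases Nat.lt_or_ge f 17 with g0 | g0
  · exact chkR_true lk254_0 (Nat.zero_le _) g0 hb
  rcases Nat.lt_or_ge f 30 with g1 | g1
  · exact chkR_true lk254_17 g0 g1 hb
  rcases Nat.lt_or_ge f 73 with g2 | g2
  · exact chkR_true lk254_30 g1 g2 hb
  rcases Nat.lt_or_ge f 77 with g3 | g3
  · exact chkR_true lk254_73 g2 g3 hb
  rcases Nat.lt_or_ge f 79 with g4 | g4
  · exact chkR_true lk254_77 g3 g4 hb
  rcases Nat.lt_or_ge f 80 with g5 | g5
  · exact chkR_true lk254_79 g4 g5 hb
  rcases Nat.lt_or_ge f 85 with g6 | g6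
  · exact chkR_true lk254_80 g5 g6 hb
  rcases Nat.lt_or_ge f 87 with g7 | g7
  · exact chkR_true lk254_85 g6 g7 hb
  rcases Nat.lt_or_ge f 88 with g8 | g8
  · exact chkR_true lk254_87 g7 g8 hb
  rcases Nat.lt_or_ge f 92 with g9 | g9
  · exact chkR_true lk254_88 g8 g9 hb
  rcases Nat.lt_or_ge f 94 with g10 | g10
  · exact chkR_true lk254_92 g9 g10 hb
  rcases Nat.lt_or_ge f 112 with g11 | g11
  · exact chkR_true lk254_94 g10 g11 hb
  rcases Nat.lt_or_ge f 115 with g12 | g12
  · exact chkR_true lk254_112 g11 g12 hb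
  rcases Nat.lt_or_ge f 120 with g13 | g13
  · exact chkR_true lk254_115 g12 g13 hb
  rcases Nat.lt_or_ge f 147 with g14 | g14
  · exact chkR_true lk254_120 g13 g14 hb
  rcases Nat.lt_or_ge f 150 with g15 | g15
  · exact chkR_true lk254_147 g14 g15 hb
  rcases Nat.lt_or_ge f 156 with g16 | g16
  · exact chkR_true lk254_150 g15 g16 hb
  rcases Nat.lt_or_ge f 158 with g17 | g17
  · exact chkR_true lk254_156 g16 g17 hb
  rcases Nat.lt_or_ge f 161 with g18 | g18
  · exact chkR_true lk254_158 g17 g18 hb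
  rcases Nat.lt_or_ge f 167 with g19 | g19
  · exact chkR_true lk254_161 g18 g19 hb
  rcases Nat.lt_or_ge f 169 with g20 | g20
  · exact chkR_true lk254_167 g19 g20 hb
  rcases Nat.lt_or_ge f 173 with g21 | g21
  · exact chkR_true lk254_169 g20 g21 hb
  rcases Nat.lt_or_ge f 177 with g22 | g22
  · exact chkR_true lk254_173 g21 g22 hb
  rcases Nat.lt_or_ge f 179 with g23 | g23
  · exact chkR_true lk254_177 g22 g23 hb
  rcases Nat.lt_or_ge f 184 with g24 | g24
  · exact chkR_true lk254_179 g23 g24 hb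
  rcases Nat.lt_or_ge f 218 with g25 | g25
  · exact chkR_true lk254_184 g24 g25 hb
  rcases Nat.lt_or_ge f 220 with g26 | g26
  · exact chkR_true lk254_218 g25 g26 hb
  rcases Nat.lt_or_ge f 222 with g27 | g27
  · exact chkR_true lk254_220 g26 g27 hb
  rcases Nat.lt_or_ge f 232 with g28 | g28
  · exact chkR_true lk254_222 g27 g28 hb
  rcases Nat.lt_or_ge f 236 with g29 | g29
  · exact chkR_true lk254_232 g28 g29 hb
  rcases Nat.lt_or_ge f 240 with g30 | g30
  · exact chkR_true lk254_236 g29 g30 hb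
  rcases Nat.lt_or_ge f 242 with g31 | g31
  · exact chkR_true lk254_240 g30 g31 hb
  rcases Nat.lt_or_ge f 248 with g32 | g32
  · exact chkR_true lk254_242 g31 g32 hb
  rcases Nat.lt_or_ge f 432 with g33 | g33
  · exact chkR_true lk254_248 g32 g33 hb
  rcases Nat.lt_or_ge f 433 with g34 | g34
  · exact chkR_true lk254_432 g33 g34 hb
  rcases Nat.lt_or_ge f 435 with g35 | g35
  · exact chkR_true lk254_433 g34 g35 hb
  rcases Nat.lt_or_ge f 440 with g36 | g36
  · exact chkR_true lk254_435 g35 g36 hb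
  rcases Nat.lt_or_ge f 504 with g37 | g37
  · exact chkR_true lk254_440 g36 g37 hb
  rcases Nat.lt_or_ge f 512 with g38 | g38
  · exact chkR_true lk254_504 g37 g38 hb
  rcases Nat.lt_or_ge f 523 with g39 | g39
  · exact chkR_true lk254_512 g38 g39 hb
  rcases Nat.lt_or_ge f 527 with g40 | g40
  · exact chkR_true lk254_523 g39 g40 hb
  rcases Nat.lt_or_ge f 530 with g41 | g41
  · exact chkR_true lk254_527 g40 g41 hb
  rcases Nat.lt_or_ge f 534 with g42 | g42
  · exact chkR_true lk254_530 g41 g42 hb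
  rcases Nat.lt_or_ge f 535 with g43 | g43
  · exact chkR_true lk254_534 g42 g43 hb
  rcases Nat.lt_or_ge f 538 with g44 | g44
  · exact chkR_true lk254_535 g43 g44 hb
  rcases Nat.lt_or_ge f 542 with g45 | g45
  · exact chkR_true lk254_538 g44 g45 hb
  rcases Nat.lt_or_ge f 561 with g46 | g46
  · exact chkR_true lk254_542 g45 g46 hb
  rcases Nat.lt_or_ge f 563 with g47 | g47
  · exact chkR_true lk254_561 g46 g47 hb
  rcases Nat.lt_or_ge f 568 with g48 | g48
  · exact chkR_true lk254_563 g47 g48 hb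
  rcases Nat.lt_or_ge f 594 with g49 | g49
  · exact chkR_true lk254_568 g48 g49 hb
  rcases Nat.lt_or_ge f 595 with g50 | g50
  · exact chkR_true lk254_594 g49 g50 hb
  rcases Nat.lt_or_ge f 596 with g51 | g51
  · exact chkR_true lk254_595 g50 g51 hb
  rcases Nat.lt_or_ge f 597 with g52 | g52
  · exact chkR_true lk254_596 g51 g52 hb
  rcases Nat.lt_or_ge f 598 with g53 | g53
  · exact chkR_true lk254_597 g52 g53 hb
  rcases Nat.lt_or_ge f 599 with g54 | g54
  · exact chkR_true lk254_598 g53 g54 hb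
  rcases Nat.lt_or_ge f 624 with g55 | g55
  · exact chkR_true lk254_599 g54 g55 hb
  rcases Nat.lt_or_ge f 660 with g56 | g56
  · exact chkR_true lk254_624 g55 g56 hb
  rcases Nat.lt_or_ge f 662 with g57 | g57
  · exact chkR_true lk254_660 g56 g57 hb
  rcases Nat.lt_or_ge f 670 with g58 | g58
  · exact chkR_true lk254_662 g57 g58 hb
  rcases Nat.lt_or_ge f 672 with g59 | g59
  · exact chkR_true lk254_670 g58 g59 hb
  rcases Nat.lt_or_ge f 676 with g60 | g60
  · exact chkR_true lk254_672 g59 g60 hb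
  rcases Nat.lt_or_ge f 677 with g61 | g61
  · exact chkR_true lk254_676 g60 g61 hb
  rcases Nat.lt_or_ge f 679 with g62 | g62
  · exact chkR_true lk254_677 g61 g62 hb
  rcases Nat.lt_or_ge f 680 with g63 | g63
  · exact chkR_true lk254_679 g62 g63 hb
  rcases Nat.lt_or_ge f 681 with g64 | g64
  · exact chkR_true lk254_680 g63 g64 hb
  rcases Nat.lt_or_ge f 684 with g65 | g65
  · exact chkR_true lk254_681 g64 g65 hb
  rcases Nat.lt_or_ge f 688 with g66 | g66
  · exact chkR_true lk254_684 g65 g66 hb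
  rcases Nat.lt_or_ge f 690 with g67 | g67
  · exact chkR_true lk254_688 g66 g67 hb
  rcases Nat.lt_or_ge f 691 with g68 | g68
  · exact chkR_true lk254_690 g67 g68 hb
  rcases Nat.lt_or_ge f 944 with g69 | g69
  · exact chkR_true lk254_691 g68 g69 hb
  rcases Nat.lt_or_ge f 947 with g70 | g70
  · exact chkR_true lk254_944 g69 g70 hb
  exact chkR_true lk254_947 g70 hf hb

theorem cnd_t {x y : ℕ} {c : Bool} (h : c = true) : cnd c x y = x := by subst h; rfl
theorem cnd_f {x y : ℕ} {c : Bool} (h : c = false) : cnd c x y = y := by subst h; rfl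

theorem chk_all {m f : ℕ} (hf : f < 1024) (h : isB m f = true) : chkB m f = true := by
  unfold isB rm at h
  cases e0 : Nat.beq m 0 with
  | true =>
    rw [cnd_t e0] at h
    rw [Nat.eq_of_beq_eq_true e0]
    exact chk0 hf h
  | false =>
  rw [cnd_f e0] at h
  cases e1 : Nat.beq m 1 with
  | true =>
    rw [cnd_t e1] at h
    rw [Nat.eq_of_beq_eq_true e1]
    exact chk1 hf h
  | false =>
  rw [cnd_f e1] at h
  cases e3 : Nat.beq m 3 with
  | true =>
    rw [cnd_t e3] at h
    rw [Nat.eq_of_beq_eq_true e3]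
    exact chk3 hf h
  | false =>
  rw [cnd_f e3] at h
  cases e7 : Nat.beq m 7 with
  | true =>
    rw [cnd_t e7] at h
    rw [Nat.eq_of_beq_eq_true e7]
    exact chk7 hf h
  | false =>
  rw [cnd_f e7] at h
  cases e19 : Nat.beq m 19 with
  | true =>
    rw [cnd_t e19] at h
    rw [Nat.eq_of_beq_eq_true e19]
    exact chk19 hf h
  | false =>
  rw [cnd_f e19] at h
  cases e20 : Nat.beq m 20 with
  | true =>
    rw [cnd_t e20] at h
    rw [Nat.eq_of_beq_eq_true e20]
    exact chk20 hf h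
  | false =>
  rw [cnd_f e20] at h
  cases e21 : Nat.beq m 21 with
  | true =>
    rw [cnd_t e21] at h
    rw [Nat.eq_of_beq_eq_true e21]
    exact chk21 hf h
  | false =>
  rw [cnd_f e21] at h
  cases e23 : Nat.beq m 23 with
  | true =>
    rw [cnd_t e23] at h
    rw [Nat.eq_of_beq_eq_true e23]
    exact chk23 hf h
  | false =>
  rw [cnd_f e23] at h
  cases e28 : Nat.beq m 28 with
  | true =>
    rw [cnd_t e28] at h
    rw [Nat.eq_of_beq_eq_true e28]
    exact chk28 hf h
  | false =>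
  rw [cnd_f e28] at h
  cases e29 : Nat.beq m 29 with
  | true =>
    rw [cnd_t e29] at h
    rw [Nat.eq_of_beq_eq_true e29]
    exact chk29 hf h
  | false =>
  rw [cnd_f e29] at h
  cases e54 : Nat.beq m 54 with
  | true =>
    rw [cnd_t e54] at h
    rw [Nat.eq_of_beq_eq_true e54]
    exact chk54 hf h
  | false =>
  rw [cnd_f e54] at h
  cases e55 : Nat.beq m 55 with
  | true =>
    rw [cnd_t e55] at h
    rw [Nat.eq_of_beq_eq_true e55]
    exact chk55 hf h
  | false =>
  rw [cnd_f e55] at h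
  cases e58 : Nat.beq m 58 with
  | true =>
    rw [cnd_t e58] at h
    rw [Nat.eq_of_beq_eq_true e58]
    exact chk58 hf h
  | false =>
  rw [cnd_f e58] at h
  cases e59 : Nat.beq m 59 with
  | true =>
    rw [cnd_t e59] at h
    rw [Nat.eq_of_beq_eq_true e59]
    exact chk59 hf h
  | false =>
  rw [cnd_f e59] at h
  cases e62 : Nat.beq m 62 with
  | true =>
    rw [cnd_t e62] at h
    rw [Nat.eq_of_beq_eq_true e62]
    exact chk62 hf h
  | false =>
  rw [cnd_f e62] at h
  cases e126 : Nat.beq m 126 with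
  | true =>
    rw [cnd_t e126] at h
    rw [Nat.eq_of_beq_eq_true e126]
    exact chk126 hf h
  | false =>
  rw [cnd_f e126] at h
  cases e183 : Nat.beq m 183 with
  | true =>
    rw [cnd_t e183] at h
    rw [Nat.eq_of_beq_eq_true e183]
    exact chk183 hf h
  | false =>
  rw [cnd_f e183] at h
  cases e184 : Nat.beq m 184 with
  | true =>
    rw [cnd_t e184] at h
    rw [Nat.eq_of_beq_eq_true e184]
    exact chk184 hf h
  | false =>
  rw [cnd_f e184] at h
  cases e185 : Nat.beq m 185 with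
  | true =>
    rw [cnd_t e185] at h
    rw [Nat.eq_of_beq_eq_true e185]
    exact chk185 hf h
  | false =>
  rw [cnd_f e185] at h
  cases e187 : Nat.beq m 187 with
  | true =>
    rw [cnd_t e187] at h
    rw [Nat.eq_of_beq_eq_true e187]
    exact chk187 hf h
  | false =>
  rw [cnd_f e187] at h
  cases e220 : Nat.beq m 220 with
  | true =>
    rw [cnd_t e220] at h
    rw [Nat.eq_of_beq_eq_true e220]
    exact chk220 hf h
  | false =>
  rw [cnd_f e220] at h
  cases e221 : Nat.beq m 221 with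
  | true =>
    rw [cnd_t e221] at h
    rw [Nat.eq_of_beq_eq_true e221]
    exact chk221 hf h
  | false =>
  rw [cnd_f e221] at h
  cases e254 : Nat.beq m 254 with
  | true =>
    rw [cnd_t e254] at h
    rw [Nat.eq_of_beq_eq_true e254]
    exact chk254 hf h
  | false =>
  rw [cnd_f e254] at h
  have : Nat.mod (Nat.shiftRight 0 f) 2 = 0 := by
    show 0 >>> f % 2 = 0
    rw [Nat.zero_shiftRight]
  rw [this] at h
  exact absurd h (by decide)

end Pool.Agent.W843.N7
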