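import Pool.Agent.W843.N7.Symm

/-! Checks on the orbit table: invariance, vectors, weights. -/

set_option autoImplicit false
set_option maxRecDepth 100000
set_option maxHeartbeats 4000000
open Finset
open Pool.Agent.H122R2.N6 (Sy NoK4 Bt k4b five tg walk walk_all B2 B2_true or_false_left)

namespace Pool.Agent.W843.N7

def c20 (a0 a1 a2 a3 a4 a5 a6 a7 a8 a9 b0 b1 b2 b3 b4 b5 b6 b7 b8 b9 : ℕ) : ℕ :=
  Nat.add (c10 a0 a1 a2 a3 a4 a5 a6 a7 a8 a9) (Nat.mul 1024 (c10 b0 b1 b2 b3 b4 b5 b6 b7 b8 b9))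

/-- exchange of two groups of bits -/
def swp (fx l1 d1 l2 d2 m : ℕ) : ℕ :=
  Nat.add (Nat.land m fx) (Nat.add (Nat.add (Nat.shiftLeft (Nat.land m l1) d1) (Nat.land (Nat.shiftRight m d1) l1))
    (Nat.add (Nat.shiftLeft (Nat.land m l2) d2) (Nat.land (Nat.shiftRight m d2) l2)))

def pm0 (m : ℕ) : ℕ := swp 531 164 1 0 0 m
def pm1 (m : ℕ) : ℕ := swp 201 274 1 0 0 m
def pm2 (m : ℕ) : ℕ := swp 540 1 1 96 2 m
def pm3 (m : ℕ) : ℕ := swp 897 14 3 0 0 m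
def pf0 (m : ℕ) : ℕ := swp 801 74 1 0 0 m
def pf1 (m : ℕ) : ℕ := swp 588 145 1 0 0 m
def pf2 (m : ℕ) : ℕ := swp 225 256 1 6 2 m
def pf3 (m : ℕ) : ℕ := swp 519 56 3 0 0 m

theorem pm0_chk : (B2 fun b0 => B2 fun b1 => B2 fun b2 => B2 fun b3 => B2 fun b4 => B2 fun b5 => B2 fun b6 => B2 fun b7 => B2 fun b8 => B2 fun b9 => Nat.beq (pm0 (c10 b0 b1 b2 b3 b4 b5 b6 b7 b8 b9)) (c10 b0 b1 b3 b2 b4 b6 b5 b8 b7 b9)) = true := by decide +kernel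
theorem pm0_eq {b0 b1 b2 b3 b4 b5 b6 b7 b8 b9 : ℕ} (h0 : Bt b0) (h1 : Bt b1) (h2 : Bt b2) (h3 : Bt b3) (h4 : Bt b4) (h5 : Bt b5) (h6 : Bt b6) (h7 : Bt b7) (h8 : Bt b8) (h9 : Bt b9) :
    pm0 (c10 b0 b1 b2 b3 b4 b5 b6 b7 b8 b9) = c10 b0 b1 b3 b2 b4 b6 b5 b8 b7 b9 :=
  Nat.eq_of_beq_eq_true (B2_true (B2_true (B2_true (B2_true (B2_true (B2_true (B2_true (B2_true (B2_true (B2_true pm0_chk h0) h1) h2) h3) h4) h5) h6) h7) h8) h9)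

theorem pm1_chk : (B2 fun b0 => B2 fun b1 => B2 fun b2 => B2 fun b3 => B2 fun b4 => B2 fun b5 => B2 fun b6 => B2 fun b7 => B2 fun b8 => B2 fun b9 => Nat.beq (pm1 (c10 b0 b1 b2 b3 b4 b5 b6 b7 b8 b9)) (c10 b0 b2 b1 b3 b5 b4 b6 b7 b9 b8)) = true := by decide +kernel
theorem pm1_eq {b0 b1 b2 b3 b4 b5 b6 b7 b8 b9 : ℕ} (h0 : Bt b0) (h1 : Bt b1) (h2 : Bt b2) (h3 : Bt b3) (h4 : Bt b4) (h5 : Bt b5) (h6 : Bt b6) (h7 : Bt b7) (h8 : Bt b8) (h9 : Bt b9) :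
    pm1 (c10 b0 b1 b2 b3 b4 b5 b6 b7 b8 b9) = c10 b0 b2 b1 b3 b5 b4 b6 b7 b9 b8 :=
  Nat.eq_of_beq_eq_true (B2_true (B2_true (B2_true (B2_true (B2_true (B2_true (B2_true (B2_true (B2_true (B2_true pm1_chk h0) h1) h2) h3) h4) h5) h6) h7) h8) h9)

theorem pm2_chk : (B2 fun b0 => B2 fun b1 => B2 fun b2 => B2 fun b3 => B2 fun b4 => B2 fun b5 => B2 fun b6 => B2 fun b7 => B2 fun b8 => B2 fun b9 => Nat.beq (pm2 (c10 b0 b1 b2 b3 b4 b5 b6 b7 b8 b9)) (c10 b1 b0 b2 b3 b4 b7 b8 b5 b6 b9)) = true := by decide +kernel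
theorem pm2_eq {b0 b1 b2 b3 b4 b5 b6 b7 b8 b9 : ℕ} (h0 : Bt b0) (h1 : Bt b1) (h2 : Bt b2) (h3 : Bt b3) (h4 : Bt b4) (h5 : Bt b5) (h6 : Bt b6) (h7 : Bt b7) (h8 : Bt b8) (h9 : Bt b9) :
    pm2 (c10 b0 b1 b2 b3 b4 b5 b6 b7 b8 b9) = c10 b1 b0 b2 b3 b4 b7 b8 b5 b6 b9 :=
  Nat.eq_of_beq_eq_true (B2_true (B2_true (B2_true (B2_true (B2_true (B2_true (B2_true (B2_true (B2_true (B2_true pm2_chk h0) h1) h2) h3) h4) h5) h6) h7) h8) h9)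

theorem pm3_chk : (B2 fun b0 => B2 fun b1 => B2 fun b2 => B2 fun b3 => B2 fun b4 => B2 fun b5 => B2 fun b6 => B2 fun b7 => B2 fun b8 => B2 fun b9 => Nat.beq (pm3 (c10 b0 b1 b2 b3 b4 b5 b6 b7 b8 b9)) (c10 b0 b4 b5 b6 b1 b2 b3 b7 b8 b9)) = true := by decide +kernel
theorem pm3_eq {b0 b1 b2 b3 b4 b5 b6 b7 b8 b9 : ℕ} (h0 : Bt b0) (h1 : Bt b1) (h2 : Bt b2) (h3 : Bt b3) (h4 : Bt b4) (h5 : Bt b5) (h6 : Bt b6) (h7 : Bt b7) (h8 : Bt b8) (h9 : Bt b9) :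
    pm3 (c10 b0 b1 b2 b3 b4 b5 b6 b7 b8 b9) = c10 b0 b4 b5 b6 b1 b2 b3 b7 b8 b9 :=
  Nat.eq_of_beq_eq_true (B2_true (B2_true (B2_true (B2_true (B2_true (B2_true (B2_true (B2_true (B2_true (B2_true pm3_chk h0) h1) h2) h3) h4) h5) h6) h7) h8) h9)

theorem pf0_chk : (B2 fun b0 => B2 fun b1 => B2 fun b2 => B2 fun b3 => B2 fun b4 => B2 fun b5 => B2 fun b6 => B2 fun b7 => B2 fun b8 => B2 fun b9 => Nat.beq (pf0 (c10 b0 b1 b2 b3 b4 b5 b6 b7 b8 b9)) (c10 b0 b2 b1 b4 b3 b5 b7 b6 b8 b9)) = true := by decide +kernel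
theorem pf0_eq {b0 b1 b2 b3 b4 b5 b6 b7 b8 b9 : ℕ} (h0 : Bt b0) (h1 : Bt b1) (h2 : Bt b2) (h3 : Bt b3) (h4 : Bt b4) (h5 : Bt b5) (h6 : Bt b6) (h7 : Bt b7) (h8 : Bt b8) (h9 : Bt b9) :
    pf0 (c10 b0 b1 b2 b3 b4 b5 b6 b7 b8 b9) = c10 b0 b2 b1 b4 b3 b5 b7 b6 b8 b9 :=
  Nat.eq_of_beq_eq_true (B2_true (B2_true (B2_true (B2_true (B2_true (B2_true (B2_true (B2_true (B2_true (B2_true pf0_chk h0) h1) h2) h3) h4) h5) h6) h7) h8) h9)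

theorem pf1_chk : (B2 fun b0 => B2 fun b1 => B2 fun b2 => B2 fun b3 => B2 fun b4 => B2 fun b5 => B2 fun b6 => B2 fun b7 => B2 fun b8 => B2 fun b9 => Nat.beq (pf1 (c10 b0 b1 b2 b3 b4 b5 b6 b7 b8 b9)) (c10 b1 b0 b2 b3 b5 b4 b6 b8 b7 b9)) = true := by decide +kernel
theorem pf1_eq {b0 b1 b2 b3 b4 b5 b6 b7 b8 b9 : ℕ} (h0 : Bt b0) (h1 : Bt b1) (h2 : Bt b2) (h3 : Bt b3) (h4 : Bt b4) (h5 : Bt b5) (h6 : Bt b6) (h7 : Bt b7) (h8 : Bt b8) (h9 : Bt b9) :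
    pf1 (c10 b0 b1 b2 b3 b4 b5 b6 b7 b8 b9) = c10 b1 b0 b2 b3 b5 b4 b6 b8 b7 b9 :=
  Nat.eq_of_beq_eq_true (B2_true (B2_true (B2_true (B2_true (B2_true (B2_true (B2_true (B2_true (B2_true (B2_true pf1_chk h0) h1) h2) h3) h4) h5) h6) h7) h8) h9)

theorem pf2_chk : (B2 fun b0 => B2 fun b1 => B2 fun b2 => B2 fun b3 => B2 fun b4 => B2 fun b5 => B2 fun b6 => B2 fun b7 => B2 fun b8 => B2 fun b9 => Nat.beq (pf2 (c10 b0 b1 b2 b3 b4 b5 b6 b7 b8 b9)) (c10 b0 b3 b4 b1 b2 b5 b6 b7 b9 b8)) = true := by decide +kernel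
theorem pf2_eq {b0 b1 b2 b3 b4 b5 b6 b7 b8 b9 : ℕ} (h0 : Bt b0) (h1 : Bt b1) (h2 : Bt b2) (h3 : Bt b3) (h4 : Bt b4) (h5 : Bt b5) (h6 : Bt b6) (h7 : Bt b7) (h8 : Bt b8) (h9 : Bt b9) :
    pf2 (c10 b0 b1 b2 b3 b4 b5 b6 b7 b8 b9) = c10 b0 b3 b4 b1 b2 b5 b6 b7 b9 b8 :=
  Nat.eq_of_beq_eq_true (B2_true (B2_true (B2_true (B2_true (B2_true (B2_true (B2_true (B2_true (B2_true (B2_true pf2_chk h0) h1) h2) h3) h4) h5) h6) h7) h8) h9)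

theorem pf3_chk : (B2 fun b0 => B2 fun b1 => B2 fun b2 => B2 fun b3 => B2 fun b4 => B2 fun b5 => B2 fun b6 => B2 fun b7 => B2 fun b8 => B2 fun b9 => Nat.beq (pf3 (c10 b0 b1 b2 b3 b4 b5 b6 b7 b8 b9)) (c10 b0 b1 b2 b6 b7 b8 b3 b4 b5 b9)) = true := by decide +kernel
theorem pf3_eq {b0 b1 b2 b3 b4 b5 b6 b7 b8 b9 : ℕ} (h0 : Bt b0) (h1 : Bt b1) (h2 : Bt b2) (h3 : Bt b3) (h4 : Bt b4) (h5 : Bt b5) (h6 : Bt b6) (h7 : Bt b7) (h8 : Bt b8) (h9 : Bt b9) :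
    pf3 (c10 b0 b1 b2 b3 b4 b5 b6 b7 b8 b9) = c10 b0 b1 b2 b6 b7 b8 b3 b4 b5 b9 :=
  Nat.eq_of_beq_eq_true (B2_true (B2_true (B2_true (B2_true (B2_true (B2_true (B2_true (B2_true (B2_true (B2_true pf3_chk h0) h1) h2) h3) h4) h5) h6) h7) h8) h9)

theorem triF_chk : (B2 fun b0 => B2 fun b1 => B2 fun b2 => B2 fun b3 => B2 fun b4 => B2 fun b5 => B2 fun b6 => B2 fun b7 => B2 fun b8 => B2 fun b9 => Nat.beq (triF (c10 b0 b1 b2 b3 b4 b5 b6 b7 b8 b9)) (c10 (Nat.mul b0 (Nat.mul b1 b2)) (Nat.mul b0 (Nat.mul b3 b4)) (Nat.mul b1 (Nat.mul b3 b5)) (Nat.mul b2 (Nat.mul b4 b5)) (Nat.mul b0 (Nat.mul b6 b7)) (Nat.mul b1 (Nat.mul b6 b8)) (Nat.mul b2 (Nat.mul b7 b8)) (Nat.mul b3 (Nat.mul b6 b9)) (Nat.mul b4 (Nat.mul b7 b9)) (Nat.mul b5 (Nat.mul b8 b9)))) = true := by decide +kernel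
theorem triF_eq {b0 b1 b2 b3 b4 b5 b6 b7 b8 b9 : ℕ} (h0 : Bt b0) (h1 : Bt b1) (h2 : Bt b2) (h3 : Bt b3) (h4 : Bt b4) (h5 : Bt b5) (h6 : Bt b6) (h7 : Bt b7) (h8 : Bt b8) (h9 : Bt b9) :
    triF (c10 b0 b1 b2 b3 b4 b5 b6 b7 b8 b9) = c10 (Nat.mul b0 (Nat.mul b1 b2)) (Nat.mul b0 (Nat.mul b3 b4)) (Nat.mul b1 (Nat.mul b3 b5)) (Nat.mul b2 (Nat.mul b4 b5)) (Nat.mul b0 (Nat.mul b6 b7)) (Nat.mul b1 (Nat.mul b6 b8)) (Nat.mul b2 (Nat.mul b7 b8)) (Nat.mul b3 (Nat.mul b6 b9)) (Nat.mul b4 (Nat.mul b7 b9)) (Nat.mul b5 (Nat.mul b8 b9)) :=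
  Nat.eq_of_beq_eq_true (B2_true (B2_true (B2_true (B2_true (B2_true (B2_true (B2_true (B2_true (B2_true (B2_true triF_chk h0) h1) h2) h3) h4) h5) h6) h7) h8) h9)

theorem prs_chk : (B2 fun b0 => B2 fun b1 => B2 fun b2 => B2 fun b3 => B2 fun b4 => Nat.beq (prs (c5 b0 b1 b2 b3 b4)) (c10 (Nat.mul b0 b1) (Nat.mul b0 b2) (Nat.mul b1 b2) (Nat.mul b0 b3) (Nat.mul b1 b3) (Nat.mul b2 b3) (Nat.mul b0 b4) (Nat.mul b1 b4) (Nat.mul b2 b4) (Nat.mul b3 b4))) = true := by decide +kernel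
theorem prs_eq {b0 b1 b2 b3 b4 : ℕ} (h0 : Bt b0) (h1 : Bt b1) (h2 : Bt b2) (h3 : Bt b3) (h4 : Bt b4) :
    prs (c5 b0 b1 b2 b3 b4) = c10 (Nat.mul b0 b1) (Nat.mul b0 b2) (Nat.mul b1 b2) (Nat.mul b0 b3) (Nat.mul b1 b3) (Nat.mul b2 b3) (Nat.mul b0 b4) (Nat.mul b1 b4) (Nat.mul b2 b4) (Nat.mul b3 b4) :=
  Nat.eq_of_beq_eq_true (B2_true (B2_true (B2_true (B2_true (B2_true prs_chk h0) h1) h2) h3) h4)

theorem land_step {a b A B : ℕ} (ha : Bt a) (hb : Bt b) :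
    Nat.land (Nat.add a (Nat.mul 2 A)) (Nat.add b (Nat.mul 2 B)) = Nat.add (Nat.mul a b) (Nat.mul 2 (Nat.land A B)) := by
  have e : ∀ (x : Bool) (n : ℕ), Nat.add (cond x 1 0) (Nat.mul 2 n) = Nat.bit x n := by
    intro x n
    rw [Nat.bit_val]
    cases x
    · show 0 + 2 * n = 2 * n + 0
      omega
    · show 1 + 2 * n = 2 * n + 1
      omega
  have key : ∀ x y : Bool, Nat.land (Nat.add (cond x 1 0) (Nat.mul 2 A)) (Nat.add (cond y 1 0) (Nat.mul 2 B))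
      = Nat.add (Nat.mul (cond x 1 0) (cond y 1 0)) (Nat.mul 2 (Nat.land A B)) := by
    intro x y
    rw [e, e]
    have h := Nat.land_bit x A y B
    have h2 : Nat.land (Nat.bit x A) (Nat.bit y B) = Nat.bit (x && y) (Nat.land A B) := h
    rw [h2, ← e]
    cases x <;> cases y <;> rfl
  rcases ha with rfl | rfl <;> rcases hb with rfl | rfl
  · exact key false false
  · exact key false true
  · exact key true false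
  · exact key true true

theorem land_last {a b : ℕ} (ha : Bt a) (hb : Bt b) : Nat.land a b = Nat.mul a b := by
  rcases ha with rfl | rfl <;> rcases hb with rfl | rfl <;> rfl

theorem land_c10 {a0 a1 a2 a3 a4 a5 a6 a7 a8 a9 b0 b1 b2 b3 b4 b5 b6 b7 b8 b9 : ℕ} (g0 : Bt a0) (g1 : Bt a1) (g2 : Bt a2) (g3 : Bt a3) (g4 : Bt a4) (g5 : Bt a5) (g6 : Bt a6) (g7 : Bt a7) (g8 : Bt a8) (g9 : Bt a9) (h0 : Bt b0) (h1 : Bt b1) (h2 : Bt b2) (h3 : Bt b3) (h4 : Bt b4) (h5 : Bt b5) (h6 : Bt b6) (h7 : Bt b7) (h8 : Bt b8) (h9 : Bt b9) :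
    Nat.land (c10 a0 a1 a2 a3 a4 a5 a6 a7 a8 a9) (c10 b0 b1 b2 b3 b4 b5 b6 b7 b8 b9) = c10 (Nat.mul a0 b0) (Nat.mul a1 b1) (Nat.mul a2 b2) (Nat.mul a3 b3) (Nat.mul a4 b4) (Nat.mul a5 b5) (Nat.mul a6 b6) (Nat.mul a7 b7) (Nat.mul a8 b8) (Nat.mul a9 b9) := by
  unfold c10
  rw [land_step g0 h0, land_step g1 h1, land_step g2 h2, land_step g3 h3, land_step g4 h4, land_step g5 h5, land_step g6 h6, land_step g7 h7, land_step g8 h8, land_last g9 h9]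

theorem Bt_mul {a b : ℕ} (ha : Bt a) (hb : Bt b) : Bt (Nat.mul a b) := by
  rcases ha with rfl | rfl <;> rcases hb with rfl | rfl <;> simp [Bt]

theorem c10_zero {b0 b1 b2 b3 b4 b5 b6 b7 b8 b9 : ℕ} (h0 : b0 = 0) (h1 : b1 = 0) (h2 : b2 = 0) (h3 : b3 = 0) (h4 : b4 = 0) (h5 : b5 = 0) (h6 : b6 = 0) (h7 : b7 = 0) (h8 : b8 = 0) (h9 : b9 = 0) : c10 b0 b1 b2 b3 b4 b5 b6 b7 b8 b9 = 0 := by
  subst h0 h1 h2 h3 h4 h5 h6 h7 h8 h9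
  rfl

theorem k4z {p q r s : ℕ} (hp : Bt p) (hq : Bt q) (hr : Bt r) (hs : Bt s) (h : k4b p q r s = false) :
    Nat.mul (Nat.mul q (Nat.mul r s)) p = 0 := by
  rcases hp with rfl | rfl <;> rcases hq with rfl | rfl <;> rcases hr with rfl | rfl <;>
    rcases hs with rfl | rfl <;> first | rfl | exact absurd h (by decide)

/-- the link has no triangle that is an edge -/
theorem tri0 {V : Type} {E : V → V → V → ℕ} (hE : Sy E) (hK : NoK4 E) (a b c d e x : V) :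
    Nat.land (triF (lC E a b c d e x)) (mC E a b c d e) = 0 := by
  unfold lC mC
  rw [triF_eq (hE.b a b x) (hE.b a c x) (hE.b b c x) (hE.b a d x) (hE.b b d x) (hE.b c d x) (hE.b a e x) (hE.b b e x) (hE.b c e x) (hE.b d e x),
    land_c10 (Bt_mul (hE.b a b x) (Bt_mul (hE.b a c x) (hE.b b c x))) (Bt_mul (hE.b a b x) (Bt_mul (hE.b a d x) (hE.b b d x))) (Bt_mul (hE.b a c x) (Bt_mul (hE.b a d x) (hE.b c d x))) (Bt_mul (hE.b b c x) (Bt_mul (hE.b b d x) (hE.b c d x))) (Bt_mul (hE.b a b x) (Bt_mul (hE.b a e x) (hE.b b e x))) (Bt_mul (hE.b a c x) (Bt_mul (hE.b a e x) (hE.b c e x))) (Bt_mul (hE.b b c x) (Bt_mul (hE.b b e x) (hE.b c e x))) (Bt_mul (hE.b a d x) (Bt_mul (hE.b a e x) (hE.b d e x))) (Bt_mul (hE.b b d x) (Bt_mul (hE.b b e x) (hE.b d e x))) (Bt_mul (hE.b c d x) (Bt_mul (hE.b c e x) (hE.b d e x))) (hE.b a b c) (hE.b a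 b d) (hE.b a c d) (hE.b b c d) (hE.b a b e) (hE.b a c e) (hE.b b c e) (hE.b a d e) (hE.b b d e) (hE.b c d e)]
  exact c10_zero (k4z (hE.b a b c) (hE.b a b x) (hE.b a c x) (hE.b b c x) (hK a b c x)) (k4z (hE.b a b d) (hE.b a b x) (hE.b a d x) (hE.b b d x) (hK a b d x)) (k4z (hE.b a c d) (hE.b a c x) (hE.b a d x) (hE.b c d x) (hK a c d x)) (k4z (hE.b b c d) (hE.b b c x) (hE.b b d x) (hE.b c d x) (hK b c d x)) (k4z (hE.b a b e) (hE.b a b x) (hE.b a e x) (hE.b b e x) (hK a b e x)) (k4z (hE.b a c e) (hE.b a c x) (hE.b a e x) (hE.b c e x) (hK a c e x)) (k4z (hE.b b c e) (hE.b b c x) (hE.b b e x) (hE.b c e x) (hK b c e x)) (k4z (hE.b a d e) (hE.b a d x) (hE.b a e x) (hE.b d e x) (hK a d e x)) (k4z (hE.b b d e) (hE.b b d x) (hE.b b e x) (hE.b d e x) (hK b d e x)) (k4z (hE.b c d e) (hE.b c d x) (hE.b c e x) (hE.b d e x) (hK c d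 e x))

def KF : ℕ := 0x1000f003300ff03030f0f33337fff005500ff00ff00ff7fff7fff7fff7fff05050f0f7fff7fff0f0f0f0f7fff7fff55557fff7fff7fff7fff7fff7fff7fff11117fff33337fff33337fff33337fff55557fff7fff7fff7fff7fff7fff7fff55557fff7fff7fff7fff7fff7fff7fff55557fff7fff7fff7fff7fff7fff7fff

theorem KF_chk : (B2 fun b0 => B2 fun b1 => B2 fun b2 => B2 fun b3 => B2 fun b4 => B2 fun b5 => B2 fun b6 => B2 fun b7 => B2 fun b8 => B2 fun b9 => or (five b0 b1 b2 b3 b4 b5 b6 b7 b8 b9) (Nat.beq (bt (c10 b0 b1 b2 b3 b4 b5 b6 b7 b8 b9) KF) 1)) = true := by decide +kernel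
theorem KF_eq {b0 b1 b2 b3 b4 b5 b6 b7 b8 b9 : ℕ} (h0 : Bt b0) (h1 : Bt b1) (h2 : Bt b2) (h3 : Bt b3) (h4 : Bt b4) (h5 : Bt b5) (h6 : Bt b6) (h7 : Bt b7) (h8 : Bt b8) (h9 : Bt b9) (hf : five b0 b1 b2 b3 b4 b5 b6 b7 b8 b9 = false) :
    Nat.beq (bt (c10 b0 b1 b2 b3 b4 b5 b6 b7 b8 b9) KF) 1 = true :=
  or_false_left (B2_true (B2_true (B2_true (B2_true (B2_true (B2_true (B2_true (B2_true (B2_true (B2_true KF_chk h0) h1) h2) h3) h4) h5) h6) h7) h8) h9) hf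

theorem KF_E {V : Type} {E : V → V → V → ℕ} (hE : Sy E) (hK : NoK4 E) (a b c d e : V) :
    Nat.beq (bt (mC E a b c d e) KF) 1 = true := by
  refine KF_eq (hE.b _ _ _) (hE.b _ _ _) (hE.b _ _ _) (hE.b _ _ _) (hE.b _ _ _) (hE.b _ _ _) (hE.b _ _ _)
    (hE.b _ _ _) (hE.b _ _ _) (hE.b _ _ _) ?_
  unfold five
  rw [hK a b c d, hK a b c e, hK a b d e, hK a c d e, hK b c d e]
  rfl

def inv4 (m f o : ℕ) : Bool :=
  (cnd (Nat.beq (st orb (Nat.add (pm0 m) (Nat.mul 1024 (pf0 f)))) o) (cnd (Nat.beq (st orb (Nat.add (pm1 m) (Nat.mul 1024 (pf1 f)))) o) (cnd (Nat.beq (st orb (Nat.add (pm2 m) (Nat.mul 1024 (pf2 f)))) o) (cnd (Nat.beq (st orb (Nat.add (pm3 m) (Nat.mul 1024 (pf3 f)))) o) true false) false) false) false)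

def invR (lo n : ℕ) : Bool :=
  al n (fun k => st (fun m => cnd (Nat.beq (bt m KF) 1)
    (al 1024 (fun f => cnd (Nat.beq (Nat.land (triF f) m) 0)
      (st (inv4 m f) (st orb (Nat.add m (Nat.mul 1024 f)))) true)) true) (Nat.add lo k))

theorem invR_true {lo n : ℕ} (h : invR lo n = true) {m f : ℕ} (h1 : lo ≤ m) (h2 : m < lo + n)
    (hf : f < 1024) (hm : Nat.beq (bt m KF) 1 = true) (ht : Nat.land (triF f) m = 0) :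
    inv4 m f (orb (Nat.add m (Nat.mul 1024 f))) = true := by
  have h3 := al_true h (m - lo) (by omega)
  rw [st_eq] at h3
  have e : Nat.add lo (m - lo) = m := by show lo + (m - lo) = m; omega
  rw [e] at h3
  have h4 := al_true (cnd_true h3 hm) f hf
  have h5 := cnd_true h4 (by rw [ht]; rfl)
  rw [st_eq, st_eq] at h5
  exact h5

end Pool.Agent.W843.N7
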