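import Pool.Agent.W843.N7.St

set_option autoImplicit false
set_option maxRecDepth 100000

namespace Pool.Agent.W843.N7

def cB : ℕ := 32768
def cAl : ℕ := 1140156
def cBe : ℕ := 9960320
def cGa : ℕ := 13166550424
def cC : ℕ := 306805041195
def cC2 : ℕ := 613610082390

end Pool.Agent.W843.N7
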