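import Mathlib

/-! The middle coefficient of a product of two numbers given by their digits. -/

set_option autoImplicit false
open Finset

namespace Pool.Agent.W843.N7

theorem conv (X n P : ℕ) (a b : ℕ → ℕ) (hX : (n + 1) ^ 2 * P ^ 2 < X)
    (ha : ∀ i < n, a i ≤ P) (hb : ∀ j, 1 ≤ j → j ≤ n → b j ≤ P)
    (hM : ∑ i ∈ range (n + 1), a i * b i < X) :
    ((∑ i ∈ range (n + 1), a i * X ^ i) * (∑ j ∈ range (n + 1), b j * X ^ (n - j))) / X ^ n % X
      = ∑ i ∈ range (n + 1), a i * b i := by
  have hX0 : 0 < X := by omega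
  set t : ℕ → ℕ → ℕ := fun i j => a i * b j * X ^ (i + (n - j)) with ht
  have e1 : (∑ i ∈ range (n + 1), a i * X ^ i) * (∑ j ∈ range (n + 1), b j * X ^ (n - j))
      = ∑ i ∈ range (n + 1), ∑ j ∈ range (n + 1), t i j := by
    rw [sum_mul_sum]
    refine sum_congr rfl fun i _ => sum_congr rfl fun j _ => ?_
    rw [ht]
    simp only
    rw [pow_add]
    ring
  have e2 : ∀ i j, t i j = (if i < j then t i j else 0) + ((if i = j then t i j else 0)
      + (if j < i then t i j else 0)) := by
    intro i j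
    rcases lt_trichotomy i j with h | h | h
    · rw [if_pos h, if_neg h.ne, if_neg h.le.not_gt, add_zero]; rfl
    · subst h; simp
    · rw [if_neg h.le.not_gt, if_neg h.ne', if_pos h, zero_add]; simp
  set L := ∑ i ∈ range (n + 1), ∑ j ∈ range (n + 1), (if i < j then t i j else 0) with hL
  set M := ∑ i ∈ range (n + 1), a i * b i with hMd
  set H := ∑ i ∈ range (n + 1), ∑ j ∈ range (n + 1), (if j < i then a i * b j * X ^ (i - j - 1) else 0) with hH
  have e3 : ∑ i ∈ range (n + 1), ∑ j ∈ range (n + 1), (if i = j then t i j else 0) = X ^ n * M := by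
    rw [hMd, mul_sum]
    refine sum_congr rfl fun i hi => ?_
    rw [sum_ite_eq, if_pos hi]
    have hi' : i ≤ n := by rw [mem_range] at hi; omega
    rw [ht]
    simp only
    rw [show i + (n - i) = n by omega]
    ring
  have e4 : ∑ i ∈ range (n + 1), ∑ j ∈ range (n + 1), (if j < i then t i j else 0)
      = X ^ n * (X * H) := by
    rw [hH, mul_sum, mul_sum]
    refine sum_congr rfl fun i hi => ?_
    rw [mul_sum, mul_sum]
    refine sum_congr rfl fun j hj => ?_
    have hi' : i ≤ n := by rw [mem_range] at hi; omega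
    split_ifs with h
    · rw [ht]
      simp only
      rw [show i + (n - j) = n + 1 + (i - j - 1) by omega, pow_add, pow_add]
      ring
    · simp
  have e5 : (∑ i ∈ range (n + 1), a i * X ^ i) * (∑ j ∈ range (n + 1), b j * X ^ (n - j))
      = L + X ^ n * (M + X * H) := by
    rw [e1]
    calc ∑ i ∈ range (n + 1), ∑ j ∈ range (n + 1), t i j
        = ∑ i ∈ range (n + 1), ∑ j ∈ range (n + 1), ((if i < j then t i j else 0)
          + ((if i = j then t i j else 0) + (if j < i then t i j else 0))) :=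
          sum_congr rfl fun i _ => sum_congr rfl fun j _ => e2 i j
      _ = L + (X ^ n * M + X ^ n * (X * H)) := by
          simp only [sum_add_distrib]
          rw [e3, e4]
      _ = _ := by ring
  have hLt : L < X ^ n := by
    rcases Nat.eq_zero_or_pos n with h0 | h0
    · subst h0
      have : L = 0 := by rw [hL]; simp
      rw [this]; simp
    · have h1 : L ≤ (n + 1) ^ 2 * P ^ 2 * X ^ (n - 1) := by
        calc L ≤ ∑ i ∈ range (n + 1), ∑ j ∈ range (n + 1), P ^ 2 * X ^ (n - 1) := by
              refine sum_le_sum fun i hi => sum_le_sum fun j hj => ?_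
              have hj' : j ≤ n := by rw [mem_range] at hj; omega
              split_ifs with h
              · rw [ht]
                simp only
                have h2 : a i * b j ≤ P * P := Nat.mul_le_mul (ha i (by omega)) (hb j (by omega) hj')
                have h3 : X ^ (i + (n - j)) ≤ X ^ (n - 1) := Nat.pow_le_pow_right hX0 (by omega)
                calc a i * b j * X ^ (i + (n - j)) ≤ P * P * X ^ (n - 1) := Nat.mul_le_mul h2 h3
                  _ = P ^ 2 * X ^ (n - 1) := by ring
              · exact Nat.zero_le _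
          _ = (n + 1) ^ 2 * P ^ 2 * X ^ (n - 1) := by
              simp only [sum_const, card_range, smul_eq_mul]
              ring
      calc L ≤ (n + 1) ^ 2 * P ^ 2 * X ^ (n - 1) := h1
        _ < X * X ^ (n - 1) := Nat.mul_lt_mul_of_pos_right hX (Nat.pow_pos hX0)
        _ = X ^ n := by rw [← pow_succ']; congr 1; omega
  rw [e5, Nat.add_mul_div_left _ _ (Nat.pow_pos hX0), Nat.div_eq_of_lt hLt, zero_add,
    Nat.add_mul_mod_self_left, Nat.mod_eq_of_lt hM]

/-- a number is the sum of its digits -/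
theorem digits_sum (X : ℕ) (hX : 0 < X) : ∀ (n a : ℕ), a < X ^ n →
    a = ∑ i ∈ range n, (a / X ^ i % X) * X ^ i := by
  intro n
  induction n with
  | zero => intro a ha; simp at ha; simp [ha]
  | succ n ih =>
    intro a ha
    have h1 : a / X < X ^ n := by
      rw [Nat.div_lt_iff_lt_mul hX]
      rwa [pow_succ] at ha
    have h2 := ih (a / X) h1
    rw [sum_range_succ']
    simp only [pow_zero, Nat.div_one, mul_one]
    have h3 : ∑ i ∈ range n, (a / X ^ (i + 1) % X) * X ^ (i + 1)
        = X * ∑ i ∈ range n, (a / X / X ^ i % X) * X ^ i := by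
      rw [mul_sum]
      refine sum_congr rfl fun i _ => ?_
      rw [Nat.div_div_eq_div_mul, ← pow_succ']
      ring
    rw [h3, ← h2]
    exact (Nat.div_add_mod a X).symm

/-- sum of a psd kernel, integer form -/
theorem psd_lower {ι : Type} [Fintype ι] (K : ℕ) (B : ℤ) (l : ι → ℕ → ℤ) (w : ι → ℤ) :
    2 * (Fintype.card ι : ℤ) * ∑ x, (w x + B * ∑ k ∈ range K, l x k)
      - K * B ^ 2 * (Fintype.card ι : ℤ) ^ 2
    ≤ ∑ x, ∑ y, (∑ k ∈ range K, l x k * l y k + w x + w y) := by
  have h1 : ∑ x, ∑ y, (∑ k ∈ range K, l x k * l y k + w x + w y)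
      = ∑ k ∈ range K, (∑ x, l x k) ^ 2 + 2 * (Fintype.card ι : ℤ) * ∑ x, w x := by
    simp only [sum_add_distrib, sum_const, card_univ, nsmul_eq_mul]
    have : ∑ x, ∑ y, ∑ k ∈ range K, l x k * l y k = ∑ k ∈ range K, (∑ x, l x k) ^ 2 := by
      calc ∑ x, ∑ y, ∑ k ∈ range K, l x k * l y k
          = ∑ x, ∑ k ∈ range K, ∑ y, l x k * l y k := sum_congr rfl fun x _ => sum_comm
        _ = ∑ k ∈ range K, ∑ x, ∑ y, l x k * l y k := sum_comm
        _ = _ := by
            refine sum_congr rfl fun k _ => ?_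
            rw [sq, sum_mul_sum]
    rw [this, ← mul_sum]
    ring
  have h2 : ∀ k, 2 * (Fintype.card ι : ℤ) * B * ∑ x, l x k - B ^ 2 * (Fintype.card ι : ℤ) ^ 2
      ≤ (∑ x, l x k) ^ 2 := by
    intro k
    nlinarith [sq_nonneg (∑ x, l x k - (Fintype.card ι : ℤ) * B)]
  have h3 : ∑ k ∈ range K, (2 * (Fintype.card ι : ℤ) * B * ∑ x, l x k - B ^ 2 * (Fintype.card ι : ℤ) ^ 2)
      ≤ ∑ k ∈ range K, (∑ x, l x k) ^ 2 := sum_le_sum fun k _ => h2 k
  rw [h1]
  rw [sum_sub_distrib, sum_const, card_range, ← mul_sum, nsmul_eq_mul] at h3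
  have h4 : ∑ x, (w x + B * ∑ k ∈ range K, l x k) = ∑ x, w x + B * ∑ k ∈ range K, ∑ x, l x k := by
    rw [sum_add_distrib, ← mul_sum, sum_comm]
  rw [h4]
  nlinarith

end Pool.Agent.W843.N7
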