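import Pool.Agent.W843.N7.Facts

/-! The facts on orbit numbers for a `K_4^3`-free structure. -/

set_option autoImplicit false
set_option maxRecDepth 100000
set_option maxHeartbeats 4000000
open Finset
open Pool.Agent.H122R2.N6 (Sy NoK4 Bt k4b five tg walk walk_all B2 B2_true or_false_left)

namespace Pool.Agent.W843.N7

theorem bt0_chk : (B2 fun b0 => B2 fun b1 => B2 fun b2 => B2 fun b3 => B2 fun b4 => B2 fun b5 => B2 fun b6 => B2 fun b7 => B2 fun b8 => B2 fun b9 => Nat.beq (bt 0 (c10 b0 b1 b2 b3 b4 b5 b6 b7 b8 b9)) b0) = true := by decide +kernel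
theorem bt0_eq {b0 b1 b2 b3 b4 b5 b6 b7 b8 b9 : ℕ} (h0 : Bt b0) (h1 : Bt b1) (h2 : Bt b2) (h3 : Bt b3) (h4 : Bt b4) (h5 : Bt b5) (h6 : Bt b6) (h7 : Bt b7) (h8 : Bt b8) (h9 : Bt b9) : bt 0 (c10 b0 b1 b2 b3 b4 b5 b6 b7 b8 b9) = b0 :=
  Nat.eq_of_beq_eq_true (B2_true (B2_true (B2_true (B2_true (B2_true (B2_true (B2_true (B2_true (B2_true (B2_true bt0_chk h0) h1) h2) h3) h4) h5) h6) h7) h8) h9)
theorem bt1_chk : (B2 fun b0 => B2 fun b1 => B2 fun b2 => B2 fun b3 => B2 fun b4 => B2 fun b5 => B2 fun b6 => B2 fun b7 => B2 fun b8 => B2 fun b9 => Nat.beq (bt 1 (c10 b0 b1 b2 b3 b4 b5 b6 b7 b8 b9)) b1) = true := by decide +kernel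
theorem bt1_eq {b0 b1 b2 b3 b4 b5 b6 b7 b8 b9 : ℕ} (h0 : Bt b0) (h1 : Bt b1) (h2 : Bt b2) (h3 : Bt b3) (h4 : Bt b4) (h5 : Bt b5) (h6 : Bt b6) (h7 : Bt b7) (h8 : Bt b8) (h9 : Bt b9) : bt 1 (c10 b0 b1 b2 b3 b4 b5 b6 b7 b8 b9) = b1 :=
  Nat.eq_of_beq_eq_true (B2_true (B2_true (B2_true (B2_true (B2_true (B2_true (B2_true (B2_true (B2_true (B2_true bt1_chk h0) h1) h2) h3) h4) h5) h6) h7) h8) h9)
theorem bt2_chk : (B2 fun b0 => B2 fun b1 => B2 fun b2 => B2 fun b3 => B2 fun b4 => B2 fun b5 => B2 fun b6 => B2 fun b7 => B2 fun b8 => B2 fun b9 => Nat.beq (bt 2 (c10 b0 b1 b2 b3 b4 b5 b6 b7 b8 b9)) b2) = true := by decide +kernel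
theorem bt2_eq {b0 b1 b2 b3 b4 b5 b6 b7 b8 b9 : ℕ} (h0 : Bt b0) (h1 : Bt b1) (h2 : Bt b2) (h3 : Bt b3) (h4 : Bt b4) (h5 : Bt b5) (h6 : Bt b6) (h7 : Bt b7) (h8 : Bt b8) (h9 : Bt b9) : bt 2 (c10 b0 b1 b2 b3 b4 b5 b6 b7 b8 b9) = b2 :=
  Nat.eq_of_beq_eq_true (B2_true (B2_true (B2_true (B2_true (B2_true (B2_true (B2_true (B2_true (B2_true (B2_true bt2_chk h0) h1) h2) h3) h4) h5) h6) h7) h8) h9)
theorem bt3_chk : (B2 fun b0 => B2 fun b1 => B2 fun b2 => B2 fun b3 => B2 fun b4 => B2 fun b5 => B2 fun b6 => B2 fun b7 => B2 fun b8 => B2 fun b9 => Nat.beq (bt 3 (c10 b0 b1 b2 b3 b4 b5 b6 b7 b8 b9)) b3) = true := by decide +kernel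
theorem bt3_eq {b0 b1 b2 b3 b4 b5 b6 b7 b8 b9 : ℕ} (h0 : Bt b0) (h1 : Bt b1) (h2 : Bt b2) (h3 : Bt b3) (h4 : Bt b4) (h5 : Bt b5) (h6 : Bt b6) (h7 : Bt b7) (h8 : Bt b8) (h9 : Bt b9) : bt 3 (c10 b0 b1 b2 b3 b4 b5 b6 b7 b8 b9) = b3 :=
  Nat.eq_of_beq_eq_true (B2_true (B2_true (B2_true (B2_true (B2_true (B2_true (B2_true (B2_true (B2_true (B2_true bt3_chk h0) h1) h2) h3) h4) h5) h6) h7) h8) h9)
theorem bt4_chk : (B2 fun b0 => B2 fun b1 => B2 fun b2 => B2 fun b3 => B2 fun b4 => B2 fun b5 => B2 fun b6 => B2 fun b7 => B2 fun b8 => B2 fun b9 => Nat.beq (bt 4 (c10 b0 b1 b2 b3 b4 b5 b6 b7 b8 b9)) b4) = true := by decide +kernel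
theorem bt4_eq {b0 b1 b2 b3 b4 b5 b6 b7 b8 b9 : ℕ} (h0 : Bt b0) (h1 : Bt b1) (h2 : Bt b2) (h3 : Bt b3) (h4 : Bt b4) (h5 : Bt b5) (h6 : Bt b6) (h7 : Bt b7) (h8 : Bt b8) (h9 : Bt b9) : bt 4 (c10 b0 b1 b2 b3 b4 b5 b6 b7 b8 b9) = b4 :=
  Nat.eq_of_beq_eq_true (B2_true (B2_true (B2_true (B2_true (B2_true (B2_true (B2_true (B2_true (B2_true (B2_true bt4_chk h0) h1) h2) h3) h4) h5) h6) h7) h8) h9)
theorem bt5_chk : (B2 fun b0 => B2 fun b1 => B2 fun b2 => B2 fun b3 => B2 fun b4 => B2 fun b5 => B2 fun b6 => B2 fun b7 => B2 fun b8 => B2 fun b9 => Nat.beq (bt 5 (c10 b0 b1 b2 b3 b4 b5 b6 b7 b8 b9)) b5) = true := by decide +kernel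
theorem bt5_eq {b0 b1 b2 b3 b4 b5 b6 b7 b8 b9 : ℕ} (h0 : Bt b0) (h1 : Bt b1) (h2 : Bt b2) (h3 : Bt b3) (h4 : Bt b4) (h5 : Bt b5) (h6 : Bt b6) (h7 : Bt b7) (h8 : Bt b8) (h9 : Bt b9) : bt 5 (c10 b0 b1 b2 b3 b4 b5 b6 b7 b8 b9) = b5 :=
  Nat.eq_of_beq_eq_true (B2_true (B2_true (B2_true (B2_true (B2_true (B2_true (B2_true (B2_true (B2_true (B2_true bt5_chk h0) h1) h2) h3) h4) h5) h6) h7) h8) h9)
theorem bt6_chk : (B2 fun b0 => B2 fun b1 => B2 fun b2 => B2 fun b3 => B2 fun b4 => B2 fun b5 => B2 fun b6 => B2 fun b7 => B2 fun b8 => B2 fun b9 => Nat.beq (bt 6 (c10 b0 b1 b2 b3 b4 b5 b6 b7 b8 b9)) b6) = true := by decide +kernel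
theorem bt6_eq {b0 b1 b2 b3 b4 b5 b6 b7 b8 b9 : ℕ} (h0 : Bt b0) (h1 : Bt b1) (h2 : Bt b2) (h3 : Bt b3) (h4 : Bt b4) (h5 : Bt b5) (h6 : Bt b6) (h7 : Bt b7) (h8 : Bt b8) (h9 : Bt b9) : bt 6 (c10 b0 b1 b2 b3 b4 b5 b6 b7 b8 b9) = b6 :=
  Nat.eq_of_beq_eq_true (B2_true (B2_true (B2_true (B2_true (B2_true (B2_true (B2_true (B2_true (B2_true (B2_true bt6_chk h0) h1) h2) h3) h4) h5) h6) h7) h8) h9)
theorem bt7_chk : (B2 fun b0 => B2 fun b1 => B2 fun b2 => B2 fun b3 => B2 fun b4 => B2 fun b5 => B2 fun b6 => B2 fun b7 => B2 fun b8 => B2 fun b9 => Nat.beq (bt 7 (c10 b0 b1 b2 b3 b4 b5 b6 b7 b8 b9)) b7) = true := by decide +kernel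
theorem bt7_eq {b0 b1 b2 b3 b4 b5 b6 b7 b8 b9 : ℕ} (h0 : Bt b0) (h1 : Bt b1) (h2 : Bt b2) (h3 : Bt b3) (h4 : Bt b4) (h5 : Bt b5) (h6 : Bt b6) (h7 : Bt b7) (h8 : Bt b8) (h9 : Bt b9) : bt 7 (c10 b0 b1 b2 b3 b4 b5 b6 b7 b8 b9) = b7 :=
  Nat.eq_of_beq_eq_true (B2_true (B2_true (B2_true (B2_true (B2_true (B2_true (B2_true (B2_true (B2_true (B2_true bt7_chk h0) h1) h2) h3) h4) h5) h6) h7) h8) h9)
theorem bt8_chk : (B2 fun b0 => B2 fun b1 => B2 fun b2 => B2 fun b3 => B2 fun b4 => B2 fun b5 => B2 fun b6 => B2 fun b7 => B2 fun b8 => B2 fun b9 => Nat.beq (bt 8 (c10 b0 b1 b2 b3 b4 b5 b6 b7 b8 b9)) b8) = true := by decide +kernel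
theorem bt8_eq {b0 b1 b2 b3 b4 b5 b6 b7 b8 b9 : ℕ} (h0 : Bt b0) (h1 : Bt b1) (h2 : Bt b2) (h3 : Bt b3) (h4 : Bt b4) (h5 : Bt b5) (h6 : Bt b6) (h7 : Bt b7) (h8 : Bt b8) (h9 : Bt b9) : bt 8 (c10 b0 b1 b2 b3 b4 b5 b6 b7 b8 b9) = b8 :=
  Nat.eq_of_beq_eq_true (B2_true (B2_true (B2_true (B2_true (B2_true (B2_true (B2_true (B2_true (B2_true (B2_true bt8_chk h0) h1) h2) h3) h4) h5) h6) h7) h8) h9)
theorem bt9_chk : (B2 fun b0 => B2 fun b1 => B2 fun b2 => B2 fun b3 => B2 fun b4 => B2 fun b5 => B2 fun b6 => B2 fun b7 => B2 fun b8 => B2 fun b9 => Nat.beq (bt 9 (c10 b0 b1 b2 b3 b4 b5 b6 b7 b8 b9)) b9) = true := by decide +kernel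
theorem bt9_eq {b0 b1 b2 b3 b4 b5 b6 b7 b8 b9 : ℕ} (h0 : Bt b0) (h1 : Bt b1) (h2 : Bt b2) (h3 : Bt b3) (h4 : Bt b4) (h5 : Bt b5) (h6 : Bt b6) (h7 : Bt b7) (h8 : Bt b8) (h9 : Bt b9) : bt 9 (c10 b0 b1 b2 b3 b4 b5 b6 b7 b8 b9) = b9 :=
  Nat.eq_of_beq_eq_true (B2_true (B2_true (B2_true (B2_true (B2_true (B2_true (B2_true (B2_true (B2_true (B2_true bt9_chk h0) h1) h2) h3) h4) h5) h6) h7) h8) h9)

def memR (m : ℕ) : Bool := cnd (Nat.beq m 0) true (cnd (Nat.beq m 1) true (cnd (Nat.beq m 3) true (cnd (Nat.beq m 7) true (cnd (Nat.beq m 19) true (cnd (Nat.beq m 20) true (cnd (Nat.beq m 21) true (cnd (Nat.beq m 23) true (cnd (Nat.beq m 28) true (cnd (Nat.beq m 29) true (cnd (Nat.beq m 54) true (cnd (Nat.beq m 55) true (cnd (Nat.beq m 58) true (cnd (Nat.beq m 59) true (cnd (Nat.beq m 62) true (cnd (Nat.beq m 126) true (cnd (Nat.beq m 183) true (cnd (Nat.beq m 184) true (cnd (Nat.beq m 185) true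 (cnd (Nat.beq m 187) true (cnd (Nat.beq m 220) true (cnd (Nat.beq m 221) true (cnd (Nat.beq m 254) true (false)))))))))))))))))))))))

theorem sel_chk : (B2 fun b0 => B2 fun b1 => B2 fun b2 => B2 fun b3 => B2 fun b4 => B2 fun b5 => B2 fun b6 => B2 fun b7 => B2 fun b8 => B2 fun b9 => or (not (Nat.beq (tg b0 b1 b2 b3 b4 b5 b6 b7 b8 b9) 4)) (memR (c10 b0 b1 b2 b3 b4 b5 b6 b7 b8 b9))) = true := by decide +kernel

theorem cnd_or' {c x : Bool} (h : cnd c true x = true) : c = true ∨ x = true := by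
  cases c
  · exact Or.inr h
  · exact Or.inl rfl

theorem memR_true {P : ℕ → Bool} (p0 : P 0 = true) (p1 : P 1 = true) (p3 : P 3 = true) (p7 : P 7 = true) (p19 : P 19 = true) (p20 : P 20 = true) (p21 : P 21 = true) (p23 : P 23 = true) (p28 : P 28 = true) (p29 : P 29 = true) (p54 : P 54 = true) (p55 : P 55 = true) (p58 : P 58 = true) (p59 : P 59 = true) (p62 : P 62 = true) (p126 : P 126 = true) (p183 : P 183 = true) (p184 : P 184 = true) (p185 : P 185 = true) (p187 : P 187 = true) (p220 : P 220 = true) (p221 : P 221 = true) (p254 : P 254 = true) {m : ℕ} (h : memR m = true) : P m = true := by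
  unfold memR at h
  rcases cnd_or' h with e | h
  · rw [Nat.eq_of_beq_eq_true e]; exact p0
  rcases cnd_or' h with e | h
  · rw [Nat.eq_of_beq_eq_true e]; exact p1
  rcases cnd_or' h with e | h
  · rw [Nat.eq_of_beq_eq_true e]; exact p3
  rcases cnd_or' h with e | h
  · rw [Nat.eq_of_beq_eq_true e]; exact p7
  rcases cnd_or' h with e | h
  · rw [Nat.eq_of_beq_eq_true e]; exact p19
  rcases cnd_or' h with e | h
  · rw [Nat.eq_of_beq_eq_true e]; exact p20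
  rcases cnd_or' h with e | h
  · rw [Nat.eq_of_beq_eq_true e]; exact p21
  rcases cnd_or' h with e | h
  · rw [Nat.eq_of_beq_eq_true e]; exact p23
  rcases cnd_or' h with e | h
  · rw [Nat.eq_of_beq_eq_true e]; exact p28
  rcases cnd_or' h with e | h
  · rw [Nat.eq_of_beq_eq_true e]; exact p29
  rcases cnd_or' h with e | h
  · rw [Nat.eq_of_beq_eq_true e]; exact p54
  rcases cnd_or' h with e | h
  · rw [Nat.eq_of_beq_eq_true e]; exact p55
  rcases cnd_or' h with e | h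
  · rw [Nat.eq_of_beq_eq_true e]; exact p58
  rcases cnd_or' h with e | h
  · rw [Nat.eq_of_beq_eq_true e]; exact p59
  rcases cnd_or' h with e | h
  · rw [Nat.eq_of_beq_eq_true e]; exact p62
  rcases cnd_or' h with e | h
  · rw [Nat.eq_of_beq_eq_true e]; exact p126
  rcases cnd_or' h with e | h
  · rw [Nat.eq_of_beq_eq_true e]; exact p183
  rcases cnd_or' h with e | h
  · rw [Nat.eq_of_beq_eq_true e]; exact p184
  rcases cnd_or' h with e | h
  · rw [Nat.eq_of_beq_eq_true e]; exact p185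
  rcases cnd_or' h with e | h
  · rw [Nat.eq_of_beq_eq_true e]; exact p187
  rcases cnd_or' h with e | h
  · rw [Nat.eq_of_beq_eq_true e]; exact p220
  rcases cnd_or' h with e | h
  · rw [Nat.eq_of_beq_eq_true e]; exact p221
  rcases cnd_or' h with e | h
  · rw [Nat.eq_of_beq_eq_true e]; exact p254
  exact absurd h (by decide)

theorem sel {b0 b1 b2 b3 b4 b5 b6 b7 b8 b9 : ℕ} (h0 : Bt b0) (h1 : Bt b1) (h2 : Bt b2) (h3 : Bt b3) (h4 : Bt b4) (h5 : Bt b5) (h6 : Bt b6) (h7 : Bt b7) (h8 : Bt b8) (h9 : Bt b9) (ht : tg b0 b1 b2 b3 b4 b5 b6 b7 b8 b9 = 4) : memR (c10 b0 b1 b2 b3 b4 b5 b6 b7 b8 b9) = true := by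
  have h := (B2_true (B2_true (B2_true (B2_true (B2_true (B2_true (B2_true (B2_true (B2_true (B2_true sel_chk h0) h1) h2) h3) h4) h5) h6) h7) h8) h9)
  rw [ht] at h
  exact h

theorem rnc_all {m : ℕ} (h : memR m = true) : rnc m = true := memR_true rnc0 rnc1 rnc3 rnc7 rnc19 rnc20 rnc21 rnc23 rnc28 rnc29 rnc54 rnc55 rnc58 rnc59 rnc62 rnc126 rnc183 rnc184 rnc185 rnc187 rnc220 rnc221 rnc254 h

theorem rnest_rep {b0 b1 b2 b3 b4 b5 b6 b7 b8 b9 : ℕ} (h0 : Bt b0) (h1 : Bt b1) (h2 : Bt b2) (h3 : Bt b3) (h4 : Bt b4) (h5 : Bt b5) (h6 : Bt b6) (h7 : Bt b7) (h8 : Bt b8) (h9 : Bt b9) (ht : tg b0 b1 b2 b3 b4 b5 b6 b7 b8 b9 = 4) : rnest b0 b1 b2 b3 b4 b5 b6 b7 b8 b9 = true := by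
  have h := rnc_all (sel h0 h1 h2 h3 h4 h5 h6 h7 h8 h9 ht)
  unfold rnc at h
  rwa [bt0_eq h0 h1 h2 h3 h4 h5 h6 h7 h8 h9, bt1_eq h0 h1 h2 h3 h4 h5 h6 h7 h8 h9, bt2_eq h0 h1 h2 h3 h4 h5 h6 h7 h8 h9, bt3_eq h0 h1 h2 h3 h4 h5 h6 h7 h8 h9, bt4_eq h0 h1 h2 h3 h4 h5 h6 h7 h8 h9, bt5_eq h0 h1 h2 h3 h4 h5 h6 h7 h8 h9, bt6_eq h0 h1 h2 h3 h4 h5 h6 h7 h8 h9, bt7_eq h0 h1 h2 h3 h4 h5 h6 h7 h8 h9, bt8_eq h0 h1 h2 h3 h4 h5 h6 h7 h8 h9, bt9_eq h0 h1 h2 h3 h4 h5 h6 h7 h8 h9] at h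

theorem walk_gen {P : ℕ → ℕ → ℕ → ℕ → ℕ → ℕ → ℕ → ℕ → ℕ → ℕ → Prop}
    (s0 : ∀ b012 b013 b023 b123 b014 b024 b124 b034 b134 b234 : ℕ, P b012 b013 b123 b023 b014 b124 b024 b134 b034 b234 → P b012 b013 b023 b123 b014 b024 b124 b034 b134 b234)
    (s1 : ∀ b012 b013 b023 b123 b014 b024 b124 b034 b134 b234 : ℕ, P b012 b023 b013 b123 b024 b014 b124 b034 b234 b134 → P b012 b013 b023 b123 b014 b024 b124 b034 b134 b234)
    (s2 : ∀ b012 b013 b023 b123 b014 b024 b124 b034 b134 b234 : ℕ, P b013 b012 b023 b123 b014 b034 b134 b024 b124 b234 → P b012 b013 b023 b123 b014 b024 b124 b034 b134 b234)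
    (s3 : ∀ b012 b013 b023 b123 b014 b024 b124 b034 b134 b234 : ℕ, P b012 b014 b024 b124 b013 b023 b123 b034 b134 b234 → P b012 b013 b023 b123 b014 b024 b124 b034 b134 b234)
    (hr : ∀ b012 b013 b023 b123 b014 b024 b124 b034 b134 b234 : ℕ, tg b012 b013 b023 b123 b014 b024 b124 b034 b134 b234 = 4 → P b012 b013 b023 b123 b014 b024 b124 b034 b134 b234) (n : ℕ) :
    ∀ b012 b013 b023 b123 b014 b024 b124 b034 b134 b234 : ℕ, walk n b012 b013 b023 b123 b014 b024 b124 b034 b134 b234 = true → P b012 b013 b023 b123 b014 b024 b124 b034 b134 b234 := by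
  induction n with
  | zero =>
    intro b012 b013 b023 b123 b014 b024 b124 b034 b134 b234 h
    exact hr _ _ _ _ _ _ _ _ _ _ (Nat.eq_of_beq_eq_true h)
  | succ n ih =>
    intro b012 b013 b023 b123 b014 b024 b124 b034 b134 b234 h
    change (cond (Nat.beq (tg b012 b013 b023 b123 b014 b024 b124 b034 b134 b234) 4) true
      (cond (Nat.beq (tg b012 b013 b023 b123 b014 b024 b124 b034 b134 b234) 0) (walk n b012 b013 b123 b023 b014 b124 b024 b134 b034 b234)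
      (cond (Nat.beq (tg b012 b013 b023 b123 b014 b024 b124 b034 b134 b234) 1) (walk n b012 b023 b013 b123 b024 b014 b124 b034 b234 b134)
      (cond (Nat.beq (tg b012 b013 b023 b123 b014 b024 b124 b034 b134 b234) 2) (walk n b013 b012 b023 b123 b014 b034 b134 b024 b124 b234)
      (cond (Nat.beq (tg b012 b013 b023 b123 b014 b024 b124 b034 b134 b234) 3) (walk n b012 b014 b024 b124 b013 b023 b123 b034 b134 b234) false))))) = true at h
    cases h4 : Nat.beq (tg b012 b013 b023 b123 b014 b024 b124 b034 b134 b234) 4 with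
    | true => exact hr _ _ _ _ _ _ _ _ _ _ (Nat.eq_of_beq_eq_true h4)
    | false =>
    rw [h4] at h
    cases h0 : Nat.beq (tg b012 b013 b023 b123 b014 b024 b124 b034 b134 b234) 0 with
    | true => rw [h0] at h; exact s0 _ _ _ _ _ _ _ _ _ _ (ih _ _ _ _ _ _ _ _ _ _ h)
    | false =>
    rw [h0] at h
    cases h1 : Nat.beq (tg b012 b013 b023 b123 b014 b024 b124 b034 b134 b234) 1 with
    | true => rw [h1] at h; exact s1 _ _ _ _ _ _ _ _ _ _ (ih _ _ _ _ _ _ _ _ _ _ h)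
    | false =>
    rw [h1] at h
    cases h2 : Nat.beq (tg b012 b013 b023 b123 b014 b024 b124 b034 b134 b234) 2 with
    | true => rw [h2] at h; exact s2 _ _ _ _ _ _ _ _ _ _ (ih _ _ _ _ _ _ _ _ _ _ h)
    | false =>
    rw [h2] at h
    cases h3 : Nat.beq (tg b012 b013 b023 b123 b014 b024 b124 b034 b134 b234) 3 with
    | true => rw [h3] at h; exact s3 _ _ _ _ _ _ _ _ _ _ (ih _ _ _ _ _ _ _ _ _ _ h)
    | false => rw [h3] at h; simp at h

section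
variable {V : Type} {E : V → V → V → ℕ}

theorem F5_t0 (hE : Sy E) (hK : NoK4 E) (a b c d e x y : V) : F5 E b a c d e x y = F5 E a b c d e x y := by
  unfold F5 D2 lkA lkB; rw [orb_s0 hE hK a b c d e x, orb_s0 hE hK a b c d e y]
theorem F5_t1 (hE : Sy E) (hK : NoK4 E) (a b c d e x y : V) : F5 E a c b d e x y = F5 E a b c d e x y := by
  unfold F5 D2 lkA lkB; rw [orb_s1 hE hK a b c d e x, orb_s1 hE hK a b c d e y]
theorem F5_t2 (hE : Sy E) (hK : NoK4 E) (a b c d e x y : V) : F5 E a b d c e x y = F5 E a b c d e x y := by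
  unfold F5 D2 lkA lkB; rw [orb_s2 hE hK a b c d e x, orb_s2 hE hK a b c d e y]
theorem F5_t3 (hE : Sy E) (hK : NoK4 E) (a b c d e x y : V) : F5 E a b c e d x y = F5 E a b c d e x y := by
  unfold F5 D2 lkA lkB; rw [orb_s3 hE hK a b c d e x, orb_s3 hE hK a b c d e y]
theorem Hs_t0 (hE : Sy E) (hK : NoK4 E) (a b c d e f : V) : Hs E b a c d e f = Hs E a b c d e f := by
  unfold Hs
  rw [F5_t0 hE hK a b d e f c c, F5_t0 hE hK a b c e f d d, F5_t0 hE hK a b c d f e e]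
  ring

theorem Hs_t1 (hE : Sy E) (hK : NoK4 E) (a b c d e f : V) : Hs E a c b d e f = Hs E a b c d e f := by
  unfold Hs
  rw [F5_t0 hE hK b c d e f a a, F5_t1 hE hK a b c e f d d, F5_t1 hE hK a b c d f e e]
  ring

theorem Hs_t2 (hE : Sy E) (hK : NoK4 E) (a b c d e f : V) : Hs E a b d c e f = Hs E a b c d e f := by
  unfold Hs
  rw [F5_t1 hE hK b c d e f a a, F5_t1 hE hK a c d e f b b, F5_t2 hE hK a b c d f e e]
  ring

theorem Hs_t3 (hE : Sy E) (hK : NoK4 E) (a b c d e f : V) : Hs E a b c e d f = Hs E a b c d e f := by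
  unfold Hs
  rw [F5_t2 hE hK b c d e f a a, F5_t2 hE hK a c d e f b b, F5_t2 hE hK a b d e f c c]
  ring

/-- the facts at one structure -/
def Fa (E : V → V → V → ℕ) (a b c d e x : V) : Prop :=
  vOK (orb (cc E a b c d e x)) = true ∧
  wsum (orb (cc E a b c d e x)) = cAl * e6 E a b c d e x + (cBe * p6 E a b c d e x + cGa) ∧
  Hs E a b c d e x ≤ hh (cc E a b c d e x)

def Q5 (E : V → V → V → ℕ) (b012 b013 b023 b123 b014 b024 b124 b034 b134 b234 : ℕ) : Prop :=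
  ∀ a b c d e : V, E a b c = b012 → E a b d = b013 → E a c d = b023 → E b c d = b123 → E a b e = b014 → E a c e = b024 → E b c e = b124 → E a d e = b034 → E b d e = b134 → E c d e = b234 → ∀ x, Fa E a b c d e x

theorem Q5_sw0 (hE : Sy E) (hK : NoK4 E) (b012 b013 b023 b123 b014 b024 b124 b034 b134 b234 : ℕ) (h : Q5 E b012 b013 b123 b023 b014 b124 b024 b134 b034 b234) : Q5 E b012 b013 b023 b123 b014 b024 b124 b034 b134 b234 := by
  intro a b c d e h012 h013 h023 h123 h014 h024 h124 h034 h134 h234 x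
  have h' := h b a c d e ((hE.h213 _ _ _).trans h012) ((hE.h213 _ _ _).trans h013) h123 h023 ((hE.h213 _ _ _).trans h014) h124 h024 h134 h034 h234 x
  unfold Fa at h' ⊢
  rwa [orb_s0 hE hK, e6_sw0 hE, p6_sw0 hE, Hs_t0 hE hK,
    show hh (cc E b a c d e x) = hh (cc E a b c d e x) by unfold hh; rw [orb_s0 hE hK]] at h'

theorem Q5_sw1 (hE : Sy E) (hK : NoK4 E) (b012 b013 b023 b123 b014 b024 b124 b034 b134 b234 : ℕ) (h : Q5 E b012 b023 b013 b123 b024 b014 b124 b034 b234 b134) : Q5 E b012 b013 b023 b123 b014 b024 b124 b034 b134 b234 := by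
  intro a b c d e h012 h013 h023 h123 h014 h024 h124 h034 h134 h234 x
  have h' := h a c b d e ((hE.h132 _ _ _).trans h012) h023 h013 ((hE.h213 _ _ _).trans h123) h024 h014 ((hE.h213 _ _ _).trans h124) h034 h234 h134 x
  unfold Fa at h' ⊢
  rwa [orb_s1 hE hK, e6_sw1 hE, p6_sw1 hE, Hs_t1 hE hK,
    show hh (cc E a c b d e x) = hh (cc E a b c d e x) by unfold hh; rw [orb_s1 hE hK]] at h'

theorem Q5_sw2 (hE : Sy E) (hK : NoK4 E) (b012 b013 b023 b123 b014 b024 b124 b034 b134 b234 : ℕ) (h : Q5 E b013 b012 b023 b123 b014 b034 b134 b024 b124 b234) : Q5 E b012 b013 b023 b123 b014 b024 b124 b034 b134 b234 := by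
  intro a b c d e h012 h013 h023 h123 h014 h024 h124 h034 h134 h234 x
  have h' := h a b d c e h013 h012 ((hE.h132 _ _ _).trans h023) ((hE.h132 _ _ _).trans h123) h014 h034 h134 h024 h124 ((hE.h213 _ _ _).trans h234) x
  unfold Fa at h' ⊢
  rwa [orb_s2 hE hK, e6_sw2 hE, p6_sw2 hE, Hs_t2 hE hK,
    show hh (cc E a b d c e x) = hh (cc E a b c d e x) by unfold hh; rw [orb_s2 hE hK]] at h'

theorem Q5_sw3 (hE : Sy E) (hK : NoK4 E) (b012 b013 b023 b123 b014 b024 b124 b034 b134 b234 : ℕ) (h : Q5 E b012 b014 b024 b124 b013 b023 b123 b034 b134 b234) : Q5 E b012 b013 b023 b123 b014 b024 b124 b034 b134 b234 := by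
  intro a b c d e h012 h013 h023 h123 h014 h024 h124 h034 h134 h234 x
  have h' := h a b c e d h012 h014 h024 h124 h013 h023 h123 ((hE.h132 _ _ _).trans h034) ((hE.h132 _ _ _).trans h134) ((hE.h132 _ _ _).trans h234) x
  unfold Fa at h' ⊢
  rwa [orb_s3 hE hK, e6_sw3 hE, p6_sw3 hE, Hs_t3 hE hK,
    show hh (cc E a b c e d x) = hh (cc E a b c d e x) by unfold hh; rw [orb_s3 hE hK]] at h'

theorem hB_eq (hE : Sy E) (a b c d e x : V) : hB (E a b c) (E a b d) (E a c d) (E b c d) (E a b e) (E a c e) (E b c e) (E a d e) (E b d e) (E c d e) (E a b x) (E a c x) (E b c x) (E a d x) (E b d x) (E c d x) (E a e x) (E b e x) (E c e x) (E d e x) = Hs E a b c d e x := by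
  unfold hB Hs F5
  simp only [st_eq, dg2, Nat.add_eq, cc, mC, lC, c20, hE.h231 a b c, hE.h132 a b c, hE.h231 a b d, hE.h132 a b d, hE.h231 a c d, hE.h132 a c d, hE.h231 b c d, hE.h132 b c d, hE.h231 a b e, hE.h132 a b e, hE.h231 a c e, hE.h132 a c e, hE.h231 b c e, hE.h132 b c e, hE.h231 a d e, hE.h132 a d e, hE.h231 b d e, hE.h132 b d e, hE.h231 c d e, hE.h132 c d e, hE.h231 a b x, hE.h132 a b x, hE.h231 a c x, hE.h132 a c x, hE.h231 b c x, hE.h132 b c x, hE.h231 a d x, hE.h132 a d x, hE.h231 b d x, hE.h132 b d x, hE.h231 c d x, hE.h132 c d x, hE.h231 a e x, hE.h132 a e x, hE.h231 b e x, hE.h132 b e x, hE.h231 c e x, hE.h132 c e x, hE.h231 d e x, hE.h132 d e x]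

theorem Fa_of_rc (hE : Sy E) (a b c d e x : V) (h : rc (E a b c) (E a b d) (E a c d) (E b c d) (E a b e) (E a c e) (E b c e) (E a d e) (E b d e) (E c d e) (E a b x) (E a c x) (E b c x) (E a d x) (E b d x) (E c d x) (E a e x) (E b e x) (E c e x) (E d e x) = true) : Fa E a b c d e x := by
  unfold rc at h
  rw [st_eq] at h
  unfold rcC at h
  obtain ⟨h1, h⟩ := cnd_false h
  obtain ⟨h2, h3⟩ := cnd_false h
  rw [st_eq] at h1
  rw [st_eq] at h2
  rw [st_eq, hB_eq hE] at h3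
  exact ⟨h1, Nat.eq_of_beq_eq_true h2, Nat.le_of_ble_eq_true h3⟩

theorem rc_of_rnest (hE : Sy E) (hK : NoK4 E) (a b c d e x : V) (h : rnest (E a b c) (E a b d) (E a c d) (E b c d) (E a b e) (E a c e) (E b c e) (E a d e) (E b d e) (E c d e) = true) :
    rc (E a b c) (E a b d) (E a c d) (E b c d) (E a b e) (E a c e) (E b c e) (E a d e) (E b d e) (E c d e) (E a b x) (E a c x) (E b c x) (E a d x) (E b d x) (E c d x) (E a e x) (E b e x) (E c e x) (E d e x) = true :=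
  (or_false_left (or_false_left (or_false_left (B2_true (or_false_left (or_false_left (B2_true (or_false_left (B2_true (B2_true (or_false_left (or_false_left (B2_true (or_false_left (B2_true (B2_true (or_false_left (B2_true (B2_true (B2_true h (hE.b a b x)) (hE.b a c x)) (hE.b b c x)) (hK a b c x)) (hE.b a d x)) (hE.b b d x)) (hK a b d x)) (hE.b c d x)) (hK a c d x)) (hK b c d x)) (hE.b a e x)) (hE.b b e x)) (hK a b e x)) (hE.b c e x)) (hK a c e x)) (hK b c e x)) (hE.b d e x)) (hK a d e x)) (hK b d e x)) (hK c d e x))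

theorem Q5_rep (hE : Sy E) (hK : NoK4 E) (b012 b013 b023 b123 b014 b024 b124 b034 b134 b234 : ℕ) (ht : tg b012 b013 b023 b123 b014 b024 b124 b034 b134 b234 = 4) : Q5 E b012 b013 b023 b123 b014 b024 b124 b034 b134 b234 := by
  intro a b c d e h012 h013 h023 h123 h014 h024 h124 h034 h134 h234 x
  subst h012 h013 h023 h123 h014 h024 h124 h034 h134 h234
  exact Fa_of_rc hE a b c d e x (rc_of_rnest hE hK a b c d e x (rnest_rep (hE.b _ _ _) (hE.b _ _ _) (hE.b _ _ _) (hE.b _ _ _) (hE.b _ _ _) (hE.b _ _ _) (hE.b _ _ _) (hE.b _ _ _) (hE.b _ _ _) (hE.b _ _ _) ht))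

theorem five_E (hK : NoK4 E) (a b c d e : V) :
    five (E a b c) (E a b d) (E a c d) (E b c d) (E a b e) (E a c e) (E b c e) (E a d e) (E b d e) (E c d e) = false := by
  unfold five
  rw [hK a b c d, hK a b c e, hK a b d e, hK a c d e, hK b c d e]
  rfl

theorem walk_E (hE : Sy E) (hK : NoK4 E) (a b c d e : V) :
    walk 9 (E a b c) (E a b d) (E a c d) (E b c d) (E a b e) (E a c e) (E b c e) (E a d e) (E b d e) (E c d e) = true :=
  or_false_left (B2_true (B2_true (B2_true (B2_true (B2_true (B2_true (B2_true (B2_true (B2_true (B2_true walk_all (hE.b a b c)) (hE.b a b d)) (hE.b a c d)) (hE.b b c d)) (hE.b a b e)) (hE.b a c e)) (hE.b b c e)) (hE.b a d e)) (hE.b b d e)) (hE.b c d e)) (five_E hK a b c d e)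

theorem Fa_all (hE : Sy E) (hK : NoK4 E) (a b c d e x : V) : Fa E a b c d e x :=
  walk_gen (P := Q5 E) (Q5_sw0 hE hK) (Q5_sw1 hE hK) (Q5_sw2 hE hK) (Q5_sw3 hE hK) (Q5_rep hE hK) 9
    _ _ _ _ _ _ _ _ _ _ (walk_E hE hK a b c d e) a b c d e rfl rfl rfl rfl rfl rfl rfl rfl rfl rfl x

theorem OF_E (hE : Sy E) (hK : NoK4 E) : OF E where
  ok a b c d e x := (Fa_all hE hK a b c d e x).1
  s0 := orb_s0 hE hK
  s1 := orb_s1 hE hK
  s2 := orb_s2 hE hK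
  s3 := orb_s3 hE hK

theorem Hs_E (hE : Sy E) (hK : NoK4 E) (a b c d e x : V) : Hs E a b c d e x ≤ hh (cc E a b c d e x) :=
  (Fa_all hE hK a b c d e x).2.2

theorem wid_E (hE : Sy E) (hK : NoK4 E) (a b c d e x : V) :
    wsum (orb (cc E a b c d e x)) = cAl * e6 E a b c d e x + (cBe * p6 E a b c d e x + cGa) :=
  (Fa_all hE hK a b c d e x).2.1

end

theorem lsum_eq (o : ℕ) : lsum o = ∑ k ∈ range 11, el o k := by
  have h : ∀ n : ℕ, @Nat.rec (fun _ => ℕ) 0 (fun k s => Nat.add s (dgt (Nat.succ k) (vA o))) n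
      = ∑ k ∈ range n, el o k := by
    intro n
    induction n with
    | zero => rfl
    | succ n ih => rw [sum_range_succ, ← ih]; rfl
  exact h 11

theorem wsum_eq (o : ℕ) : wsum o = wt o + cB * ∑ k ∈ range 11, el o k := by
  unfold wsum
  rw [lsum_eq]
  rfl

end Pool.Agent.W843.N7
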