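import Pool.Agent.W843.N7.ChkO

set_option autoImplicit false
set_option maxRecDepth 100000
set_option maxHeartbeats 4000000

namespace Pool.Agent.W843.N7

theorem inv128 : invR 128 96 = true := by decide +kernel
theorem inv224 : invR 224 96 = true := by decide +kernel

end Pool.Agent.W843.N7
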