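import Pool.Agent.W843.N7.RepC

set_option autoImplicit false
set_option maxRecDepth 100000
set_option maxHeartbeats 4000000

namespace Pool.Agent.W843.N7

theorem rnc28 : rnc 28 = true := by decide +kernel
theorem rnc29 : rnc 29 = true := by decide +kernel
theorem rnc54 : rnc 54 = true := by decide +kernel
theorem rnc55 : rnc 55 = true := by decide +kernel
theorem rnc58 : rnc 58 = true := by decide +kernel
theorem rnc59 : rnc 59 = true := by decide +kernel
theorem rnc62 : rnc 62 = true := by decide +kernel
theorem rnc126 : rnc 126 = true := by decide +kernel

end Pool.Agent.W843.N7
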