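import Pool.Agent.W843.N7.RepC

set_option autoImplicit false
set_option maxRecDepth 100000
set_option maxHeartbeats 4000000

namespace Pool.Agent.W843.N7

theorem rnc183 : rnc 183 = true := by decide +kernel
theorem rnc184 : rnc 184 = true := by decide +kernel
theorem rnc185 : rnc 185 = true := by decide +kernel
theorem rnc187 : rnc 187 = true := by decide +kernel
theorem rnc220 : rnc 220 = true := by decide +kernel
theorem rnc221 : rnc 221 = true := by decide +kernel
theorem rnc254 : rnc 254 = true := by decide +kernel

end Pool.Agent.W843.N7
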