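import Pool.Agent.W843.N7.RepC0
import Pool.Agent.W843.N7.RepC1
import Pool.Agent.W843.N7.RepC2
import Pool.Agent.W843.N7.Inv0
import Pool.Agent.W843.N7.Inv1
import Pool.Agent.W843.N7.Inv2
import Pool.Agent.W843.N7.Inv3

/-! All facts on the orbit numbers. -/

set_option autoImplicit false
set_option maxRecDepth 100000
set_option maxHeartbeats 4000000
open Finset
open Pool.Agent.H122R2.N6 (Sy NoK4 Bt k4b five tg walk walk_all B2 B2_true or_false_left)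

namespace Pool.Agent.W843.N7

theorem inv_all {m f : ℕ} (h2 : m < 1024)
    (hf : f < 1024) (hm : Nat.beq (bt m KF) 1 = true) (ht : Nat.land (triF f) m = 0) :
    inv4 m f (orb (Nat.add m (Nat.mul 1024 f))) = true := by
  rcases Nat.lt_or_ge m 64 with g0 | g0
  · exact invR_true inv0 (Nat.zero_le _) g0 hf hm ht
  rcases Nat.lt_or_ge m 128 with g1 | g1
  · exact invR_true inv64 g0 g1 hf hm ht
  rcases Nat.lt_or_ge m 224 with g2 | g2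
  · exact invR_true inv128 g1 g2 hf hm ht
  rcases Nat.lt_or_ge m 320 with g3 | g3
  · exact invR_true inv224 g2 g3 hf hm ht
  rcases Nat.lt_or_ge m 448 with g4 | g4
  · exact invR_true inv320 g3 g4 hf hm ht
  rcases Nat.lt_or_ge m 576 with g5 | g5
  · exact invR_true inv448 g4 g5 hf hm ht
  rcases Nat.lt_or_ge m 768 with g6 | g6
  · exact invR_true inv576 g5 g6 hf hm ht
  exact invR_true inv768 g6 h2 hf hm ht

theorem inv4_true {m f o : ℕ} (h : inv4 m f o = true) :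
    orb (Nat.add (pm0 m) (Nat.mul 1024 (pf0 f))) = o ∧ orb (Nat.add (pm1 m) (Nat.mul 1024 (pf1 f))) = o ∧
    orb (Nat.add (pm2 m) (Nat.mul 1024 (pf2 f))) = o ∧ orb (Nat.add (pm3 m) (Nat.mul 1024 (pf3 f))) = o := by
  unfold inv4 at h
  obtain ⟨h0, h⟩ := cnd_false h
  obtain ⟨h1, h⟩ := cnd_false h
  obtain ⟨h2, h⟩ := cnd_false h
  obtain ⟨h3, -⟩ := cnd_false h
  rw [st_eq] at h0 h1 h2 h3
  exact ⟨Nat.eq_of_beq_eq_true h0, Nat.eq_of_beq_eq_true h1, Nat.eq_of_beq_eq_true h2, Nat.eq_of_beq_eq_true h3⟩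

section
variable {V : Type} {E : V → V → V → ℕ}

theorem inv_E (hE : Sy E) (hK : NoK4 E) (a b c d e x : V) :
    inv4 (mC E a b c d e) (lC E a b c d e x) (orb (cc E a b c d e x)) = true :=
  inv_all (c10_lt (hE.b _ _ _) (hE.b _ _ _) (hE.b _ _ _) (hE.b _ _ _) (hE.b _ _ _) (hE.b _ _ _) (hE.b _ _ _) (hE.b _ _ _) (hE.b _ _ _) (hE.b _ _ _)) (c10_lt (hE.b _ _ _) (hE.b _ _ _) (hE.b _ _ _) (hE.b _ _ _) (hE.b _ _ _) (hE.b _ _ _) (hE.b _ _ _) (hE.b _ _ _) (hE.b _ _ _) (hE.b _ _ _)) (KF_E hE hK a b c d e) (tri0 hE hK a b c d e x)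

theorem orb_s0 (hE : Sy E) (hK : NoK4 E) (a b c d e x : V) :
    orb (cc E b a c d e x) = orb (cc E a b c d e x) := by
  have h := (inv4_true (inv_E hE hK a b c d e x)).1
  rw [← h]
  congr 1
  unfold cc mC lC
  rw [pm0_eq (hE.b _ _ _) (hE.b _ _ _) (hE.b _ _ _) (hE.b _ _ _) (hE.b _ _ _) (hE.b _ _ _) (hE.b _ _ _) (hE.b _ _ _) (hE.b _ _ _) (hE.b _ _ _), pf0_eq (hE.b _ _ _) (hE.b _ _ _) (hE.b _ _ _) (hE.b _ _ _) (hE.b _ _ _) (hE.b _ _ _) (hE.b _ _ _) (hE.b _ _ _) (hE.b _ _ _) (hE.b _ _ _), hE.h213 a b c, hE.h213 a b d, hE.h213 a b e, hE.h213 a b x]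

theorem orb_s1 (hE : Sy E) (hK : NoK4 E) (a b c d e x : V) :
    orb (cc E a c b d e x) = orb (cc E a b c d e x) := by
  have h := (inv4_true (inv_E hE hK a b c d e x)).2.1
  rw [← h]
  congr 1
  unfold cc mC lC
  rw [pm1_eq (hE.b _ _ _) (hE.b _ _ _) (hE.b _ _ _) (hE.b _ _ _) (hE.b _ _ _) (hE.b _ _ _) (hE.b _ _ _) (hE.b _ _ _) (hE.b _ _ _) (hE.b _ _ _), pf1_eq (hE.b _ _ _) (hE.b _ _ _) (hE.b _ _ _) (hE.b _ _ _) (hE.b _ _ _) (hE.b _ _ _) (hE.b _ _ _) (hE.b _ _ _) (hE.b _ _ _) (hE.b _ _ _), hE.h132 a b c, hE.h213 b c d, hE.h213 b c e, hE.h213 b c x]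

theorem orb_s2 (hE : Sy E) (hK : NoK4 E) (a b c d e x : V) :
    orb (cc E a b d c e x) = orb (cc E a b c d e x) := by
  have h := (inv4_true (inv_E hE hK a b c d e x)).2.2.1
  rw [← h]
  congr 1
  unfold cc mC lC
  rw [pm2_eq (hE.b _ _ _) (hE.b _ _ _) (hE.b _ _ _) (hE.b _ _ _) (hE.b _ _ _) (hE.b _ _ _) (hE.b _ _ _) (hE.b _ _ _) (hE.b _ _ _) (hE.b _ _ _), pf2_eq (hE.b _ _ _) (hE.b _ _ _) (hE.b _ _ _) (hE.b _ _ _) (hE.b _ _ _) (hE.b _ _ _) (hE.b _ _ _) (hE.b _ _ _) (hE.b _ _ _) (hE.b _ _ _), hE.h132 a c d, hE.h132 b c d, hE.h213 c d e, hE.h213 c d x]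

theorem orb_s3 (hE : Sy E) (hK : NoK4 E) (a b c d e x : V) :
    orb (cc E a b c e d x) = orb (cc E a b c d e x) := by
  have h := (inv4_true (inv_E hE hK a b c d e x)).2.2.2
  rw [← h]
  congr 1
  unfold cc mC lC
  rw [pm3_eq (hE.b _ _ _) (hE.b _ _ _) (hE.b _ _ _) (hE.b _ _ _) (hE.b _ _ _) (hE.b _ _ _) (hE.b _ _ _) (hE.b _ _ _) (hE.b _ _ _) (hE.b _ _ _), pf3_eq (hE.b _ _ _) (hE.b _ _ _) (hE.b _ _ _) (hE.b _ _ _) (hE.b _ _ _) (hE.b _ _ _) (hE.b _ _ _) (hE.b _ _ _) (hE.b _ _ _) (hE.b _ _ _), hE.h132 a d e, hE.h132 b d e, hE.h132 c d e, hE.h213 d e x]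

end

end Pool.Agent.W843.N7
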