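import Pool.Agent.W843.N7.Reduce
import Pool.Agent.W843.N7.Bound

/-! The upper bound for the number of edges. -/

set_option autoImplicit false
set_option maxRecDepth 100000
open Finset
open Pool.Agent.H122R2.N6 (Sy NoK4)

namespace Pool.Agent.W843.N7

theorem num_end {n T : ℤ} (hn0 : 0 < n) (hn3 : 0 < n ^ 3)
    (h : 21 * (2 * n * ((1140156 : ℤ) * (20 * (n ^ 3 * T)) + ((9960320 : ℤ) * (10 * T ^ 2)
      + (13166550424 : ℤ) * n ^ 6)) - 11 * (32768 : ℤ) ^ 2 * n ^ 7) ≤ (306805041195 : ℤ) * n ^ 7)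
    (hcon : 55931 * n ^ 3 < 100000 * T) : False := by
  have h5 : n * (957731040 * (n ^ 3 * T) + 4183334400 * T ^ 2) ≤ n * (1844284731 * n ^ 6) := by
    linarith
  have h6 : 957731040 * (n ^ 3 * T) + 4183334400 * T ^ 2 ≤ 1844284731 * n ^ 6 :=
    le_of_mul_le_mul_left h5 hn0
  have h7 : n ^ 3 * (55931 * n ^ 3) < n ^ 3 * (100000 * T) := mul_lt_mul_of_pos_left hcon hn3
  have h8 : (55931 * n ^ 3) ^ 2 ≤ (100000 * T) ^ 2 := pow_le_pow_left₀ (by positivity) hcon.le 2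
  have h9 : 0 < n ^ 6 := by positivity
  have h10 : n ^ 3 * (55931 * n ^ 3) = 55931 * n ^ 6 := by ring
  have h11 : (55931 * n ^ 3) ^ 2 = 3128276761 * n ^ 6 := by ring
  have h12 : n ^ 3 * (100000 * T) = 100000 * (n ^ 3 * T) := by ring
  have h13 : (100000 * T) ^ 2 = 10000000000 * T ^ 2 := by ring
  rw [h10, h12] at h7
  rw [h11, h13] at h8
  linarith

section
variable {V : Type} [Fintype V] {E : V → V → V → ℕ}

theorem main_int (hE : Sy E) (hK : NoK4 E) :
    21 * (2 * (Fintype.card V : ℤ) * ((cAl : ℤ) * (20 * ((Fintype.card V : ℤ) ^ 3 * TE E)) + ((cBe : ℤ) * (10 * (TE E) ^ 2)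
      + (cGa : ℤ) * (Fintype.card V : ℤ) ^ 6)) - 11 * (cB : ℤ) ^ 2 * (Fintype.card V : ℤ) ^ 7)
    ≤ (cC : ℤ) * (Fintype.card V : ℤ) ^ 7 := by
  have hO := OF_E hE hK
  have h1 := F5_lower E hO (fun a b c d e x => (cAl : ℤ) * (e6 E a b c d e x : ℤ) + ((cBe : ℤ) * (p6 E a b c d e x : ℤ) + (cGa : ℤ)))
    (fun a b c d e x => by
      have h := wid_E hE hK a b c d e x
      rw [wsum_eq] at h
      exact_mod_cast h)
  have h2 : ∑ a : V, ∑ b : V, ∑ c : V, ∑ d : V, ∑ e : V, ∑ x : V,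
      ((cAl : ℤ) * (e6 E a b c d e x : ℤ) + ((cBe : ℤ) * (p6 E a b c d e x : ℤ) + (cGa : ℤ)))
      = (cAl : ℤ) * (20 * ((Fintype.card V : ℤ) ^ 3 * TE E)) + ((cBe : ℤ) * (10 * (TE E) ^ 2)
      + (cGa : ℤ) * (Fintype.card V : ℤ) ^ 6) := by
    simp only [sum_add_distrib, ← mul_sum]
    rw [e6_sum, p6_sum]
    simp only [sum_const, card_univ, nsmul_eq_mul]
    ring
  rw [h2] at h1
  have h3 := L5_sum E
  have h4 : ∑ x : Fin 7 → V, (L5 E (x 0) (x 1) (x 2) (x 3) (x 4) (x 5) (x 6) : ℤ)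
      ≤ (cC : ℤ) * (Fintype.card V : ℤ) ^ 7 := by
    calc _ ≤ ∑ x : Fin 7 → V, (cC : ℤ) :=
          sum_le_sum fun x _ => by exact_mod_cast leaf_all hE hK (x 0) (x 1) (x 2) (x 3) (x 4) (x 5) (x 6)
      _ = (cC : ℤ) * (Fintype.card V : ℤ) ^ 7 := by
          rw [sum_const, card_univ, Fintype.card_fun, Fintype.card_fin, nsmul_eq_mul]
          push_cast
          ring
  rw [h3] at h4
  linarith

/-- the number of ordered edges is at most `0.55931 n^3` -/
theorem main_edges (hE : Sy E) (hK : NoK4 E) :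
    100000 * TE E ≤ 55931 * (Fintype.card V : ℤ) ^ 3 := by
  have h := main_int hE hK
  rcases Nat.eq_zero_or_pos (Fintype.card V) with h0 | h0
  · have : TE E = 0 := by
      have he : IsEmpty V := Fintype.card_eq_zero_iff.mp h0
      unfold TE
      exact Fintype.sum_empty _
    rw [this, h0]
    norm_num
  · set n : ℤ := (Fintype.card V : ℤ) with hn
    have hn0 : 0 < n := by rw [hn]; exact_mod_cast h0
    set T := TE E with hT
    by_contra hcon
    push Not at hcon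
    have hn3 : 0 < n ^ 3 := by positivity
    have e1 : (cAl : ℤ) = 1140156 := rfl
    have e2 : (cBe : ℤ) = 9960320 := rfl
    have e3 : (cGa : ℤ) = 13166550424 := rfl
    have e4 : (cC : ℤ) = 306805041195 := rfl
    have e5 : (cB : ℤ) = 32768 := rfl
    rw [e1, e2, e3, e4, e5] at h
    exact num_end hn0 hn3 h hcon

end

end Pool.Agent.W843.N7
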