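import Pool.Agent.W843.N7.Reps

set_option autoImplicit false
set_option maxRecDepth 100000
set_option maxHeartbeats 4000000

namespace Pool.Agent.W843.N7

theorem lk0_0 : chkR 0 rmv0 0 1024 = true := by decide +kernel
theorem lk1_0 : chkR 1 rmv1 0 1024 = true := by decide +kernel
theorem lk3_0 : chkR 3 rmv3 0 1024 = true := by decide +kernel
theorem lk7_0 : chkR 7 rmv7 0 1024 = true := by decide +kernel
theorem lk19_0 : chkR 19 rmv19 0 1024 = true := by decide +kernel
theorem lk20_0 : chkR 20 rmv20 0 1024 = true := by decide +kernel
theorem lk21_0 : chkR 21 rmv21 0 1024 = true := by decide +kernel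
theorem lk23_0 : chkR 23 rmv23 0 1024 = true := by decide +kernel
theorem lk28_0 : chkR 28 rmv28 0 1024 = true := by decide +kernel
theorem lk29_0 : chkR 29 rmv29 0 1024 = true := by decide +kernel
theorem lk54_0 : chkR 54 rmv54 0 1024 = true := by decide +kernel
theorem lk55_0 : chkR 55 rmv55 0 515 = true := by decide +kernel
theorem lk55_515 : chkR 55 rmv55 515 143 = true := by decide +kernel
theorem lk55_658 : chkR 55 rmv55 658 366 = true := by decide +kernel
theorem lk58_0 : chkR 58 rmv58 0 1024 = true := by decide +kernel
theorem lk59_0 : chkR 59 rmv59 0 368 = true := by decide +kernel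
theorem lk59_368 : chkR 59 rmv59 368 256 = true := by decide +kernel
theorem lk59_624 : chkR 59 rmv59 624 400 = true := by decide +kernel
theorem lk62_0 : chkR 62 rmv62 0 396 = true := by decide +kernel

end Pool.Agent.W843.N7
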