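import Pool.Agent.W843.N7.OrbT0
import Pool.Agent.W843.N7.OrbT1
import Pool.Agent.W843.N7.OrbT2
import Pool.Agent.W843.N7.OrbT3

/-! Orbits of links of a vertex over five vertices. -/

set_option autoImplicit false
set_option maxRecDepth 100000

namespace Pool.Agent.W843.N7

def obt_0 (q : ℕ) : ℕ := cond (Nat.ble 2 q) (cond (Nat.ble 3 q) ob3 ob2) (cond (Nat.ble 1 q) ob1 ob0)
def obt_1 (q : ℕ) : ℕ := cond (Nat.ble 6 q) (cond (Nat.ble 7 q) ob7 ob6) (cond (Nat.ble 5 q) ob5 ob4)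
def obt_2 (q : ℕ) : ℕ := cond (Nat.ble 4 q) (obt_1 q) (obt_0 q)
def obt_3 (q : ℕ) : ℕ := cond (Nat.ble 10 q) (cond (Nat.ble 11 q) ob11 ob10) (cond (Nat.ble 9 q) ob9 ob8)
def obt_4 (q : ℕ) : ℕ := cond (Nat.ble 14 q) (cond (Nat.ble 15 q) 0 ob14) (cond (Nat.ble 13 q) ob13 ob12)
def obt_5 (q : ℕ) : ℕ := cond (Nat.ble 12 q) (obt_4 q) (obt_3 q)
def obt_6 (q : ℕ) : ℕ := cond (Nat.ble 8 q) (obt_5 q) (obt_2 q)
def obt_7 (q : ℕ) : ℕ := cond (Nat.ble 18 q) (cond (Nat.ble 19 q) ob19 ob18) (cond (Nat.ble 17 q) ob17 ob16)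
def obt_8 (q : ℕ) : ℕ := cond (Nat.ble 22 q) (cond (Nat.ble 23 q) ob23 ob22) (cond (Nat.ble 21 q) ob21 ob20)
def obt_9 (q : ℕ) : ℕ := cond (Nat.ble 20 q) (obt_8 q) (obt_7 q)
def obt_10 (q : ℕ) : ℕ := cond (Nat.ble 26 q) (cond (Nat.ble 27 q) ob27 ob26) (cond (Nat.ble 25 q) ob25 ob24)
def obt_11 (q : ℕ) : ℕ := cond (Nat.ble 30 q) (cond (Nat.ble 31 q) 0 ob30) (cond (Nat.ble 29 q) ob29 ob28)
def obt_12 (q : ℕ) : ℕ := cond (Nat.ble 28 q) (obt_11 q) (obt_10 q)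
def obt_13 (q : ℕ) : ℕ := cond (Nat.ble 24 q) (obt_12 q) (obt_9 q)
def obt_14 (q : ℕ) : ℕ := cond (Nat.ble 16 q) (obt_13 q) (obt_6 q)
def obt_15 (q : ℕ) : ℕ := cond (Nat.ble 34 q) (cond (Nat.ble 35 q) ob35 ob34) (cond (Nat.ble 33 q) ob33 ob32)
def obt_16 (q : ℕ) : ℕ := cond (Nat.ble 38 q) (cond (Nat.ble 39 q) ob39 ob38) (cond (Nat.ble 37 q) ob37 ob36)
def obt_17 (q : ℕ) : ℕ := cond (Nat.ble 36 q) (obt_16 q) (obt_15 q)
def obt_18 (q : ℕ) : ℕ := cond (Nat.ble 42 q) (cond (Nat.ble 43 q) ob43 ob42) (cond (Nat.ble 41 q) ob41 ob40)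
def obt_19 (q : ℕ) : ℕ := cond (Nat.ble 46 q) (cond (Nat.ble 47 q) 0 ob46) (cond (Nat.ble 45 q) ob45 ob44)
def obt_20 (q : ℕ) : ℕ := cond (Nat.ble 44 q) (obt_19 q) (obt_18 q)
def obt_21 (q : ℕ) : ℕ := cond (Nat.ble 40 q) (obt_20 q) (obt_17 q)
def obt_22 (q : ℕ) : ℕ := cond (Nat.ble 50 q) (cond (Nat.ble 51 q) ob51 ob50) (cond (Nat.ble 49 q) ob49 ob48)
def obt_23 (q : ℕ) : ℕ := cond (Nat.ble 54 q) (cond (Nat.ble 55 q) ob55 ob54) (cond (Nat.ble 53 q) ob53 ob52)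
def obt_24 (q : ℕ) : ℕ := cond (Nat.ble 52 q) (obt_23 q) (obt_22 q)
def obt_25 (q : ℕ) : ℕ := cond (Nat.ble 58 q) (cond (Nat.ble 59 q) ob59 ob58) (cond (Nat.ble 57 q) ob57 ob56)
def obt_26 (q : ℕ) : ℕ := cond (Nat.ble 62 q) (cond (Nat.ble 63 q) 0 ob62) (cond (Nat.ble 61 q) ob61 ob60)
def obt_27 (q : ℕ) : ℕ := cond (Nat.ble 60 q) (obt_26 q) (obt_25 q)
def obt_28 (q : ℕ) : ℕ := cond (Nat.ble 56 q) (obt_27 q) (obt_24 q)
def obt_29 (q : ℕ) : ℕ := cond (Nat.ble 48 q) (obt_28 q) (obt_21 q)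
def obt_30 (q : ℕ) : ℕ := cond (Nat.ble 32 q) (obt_29 q) (obt_14 q)
def obt_31 (q : ℕ) : ℕ := cond (Nat.ble 66 q) (cond (Nat.ble 67 q) ob67 ob66) (cond (Nat.ble 65 q) ob65 ob64)
def obt_32 (q : ℕ) : ℕ := cond (Nat.ble 70 q) (cond (Nat.ble 71 q) ob71 ob70) (cond (Nat.ble 69 q) ob69 ob68)
def obt_33 (q : ℕ) : ℕ := cond (Nat.ble 68 q) (obt_32 q) (obt_31 q)
def obt_34 (q : ℕ) : ℕ := cond (Nat.ble 74 q) (cond (Nat.ble 75 q) ob75 ob74) (cond (Nat.ble 73 q) ob73 ob72)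
def obt_35 (q : ℕ) : ℕ := cond (Nat.ble 78 q) (cond (Nat.ble 79 q) 0 ob78) (cond (Nat.ble 77 q) ob77 ob76)
def obt_36 (q : ℕ) : ℕ := cond (Nat.ble 76 q) (obt_35 q) (obt_34 q)
def obt_37 (q : ℕ) : ℕ := cond (Nat.ble 72 q) (obt_36 q) (obt_33 q)
def obt_38 (q : ℕ) : ℕ := cond (Nat.ble 82 q) (cond (Nat.ble 83 q) ob83 ob82) (cond (Nat.ble 81 q) ob81 ob80)
def obt_39 (q : ℕ) : ℕ := cond (Nat.ble 86 q) (cond (Nat.ble 87 q) ob87 ob86) (cond (Nat.ble 85 q) ob85 ob84)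
def obt_40 (q : ℕ) : ℕ := cond (Nat.ble 84 q) (obt_39 q) (obt_38 q)
def obt_41 (q : ℕ) : ℕ := cond (Nat.ble 90 q) (cond (Nat.ble 91 q) ob91 ob90) (cond (Nat.ble 89 q) ob89 ob88)
def obt_42 (q : ℕ) : ℕ := cond (Nat.ble 94 q) (cond (Nat.ble 95 q) 0 ob94) (cond (Nat.ble 93 q) ob93 ob92)
def obt_43 (q : ℕ) : ℕ := cond (Nat.ble 92 q) (obt_42 q) (obt_41 q)
def obt_44 (q : ℕ) : ℕ := cond (Nat.ble 88 q) (obt_43 q) (obt_40 q)
def obt_45 (q : ℕ) : ℕ := cond (Nat.ble 80 q) (obt_44 q) (obt_37 q)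
def obt_46 (q : ℕ) : ℕ := cond (Nat.ble 98 q) (cond (Nat.ble 99 q) ob99 ob98) (cond (Nat.ble 97 q) ob97 ob96)
def obt_47 (q : ℕ) : ℕ := cond (Nat.ble 102 q) (cond (Nat.ble 103 q) ob103 ob102) (cond (Nat.ble 101 q) ob101 ob100)
def obt_48 (q : ℕ) : ℕ := cond (Nat.ble 100 q) (obt_47 q) (obt_46 q)
def obt_49 (q : ℕ) : ℕ := cond (Nat.ble 106 q) (cond (Nat.ble 107 q) ob107 ob106) (cond (Nat.ble 105 q) ob105 ob104)
def obt_50 (q : ℕ) : ℕ := cond (Nat.ble 110 q) (cond (Nat.ble 111 q) 0 ob110) (cond (Nat.ble 109 q) ob109 ob108)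
def obt_51 (q : ℕ) : ℕ := cond (Nat.ble 108 q) (obt_50 q) (obt_49 q)
def obt_52 (q : ℕ) : ℕ := cond (Nat.ble 104 q) (obt_51 q) (obt_48 q)
def obt_53 (q : ℕ) : ℕ := cond (Nat.ble 114 q) (cond (Nat.ble 115 q) 0 ob114) (cond (Nat.ble 113 q) 0 ob112)
def obt_54 (q : ℕ) : ℕ := cond (Nat.ble 118 q) (cond (Nat.ble 119 q) 0 ob118) (cond (Nat.ble 117 q) 0 ob116)
def obt_55 (q : ℕ) : ℕ := cond (Nat.ble 116 q) (obt_54 q) (obt_53 q)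
def obt_56 (q : ℕ) : ℕ := cond (Nat.ble 122 q) (cond (Nat.ble 123 q) 0 ob122) (cond (Nat.ble 121 q) 0 ob120)
def obt_57 (q : ℕ) : ℕ := cond (Nat.ble 126 q) (cond (Nat.ble 127 q) 0 ob126) (cond (Nat.ble 125 q) 0 ob124)
def obt_58 (q : ℕ) : ℕ := cond (Nat.ble 124 q) (obt_57 q) (obt_56 q)
def obt_59 (q : ℕ) : ℕ := cond (Nat.ble 120 q) (obt_58 q) (obt_55 q)
def obt_60 (q : ℕ) : ℕ := cond (Nat.ble 112 q) (obt_59 q) (obt_52 q)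
def obt_61 (q : ℕ) : ℕ := cond (Nat.ble 96 q) (obt_60 q) (obt_45 q)
def obt_62 (q : ℕ) : ℕ := cond (Nat.ble 64 q) (obt_61 q) (obt_30 q)
def obt_63 (q : ℕ) : ℕ := cond (Nat.ble 130 q) (cond (Nat.ble 131 q) ob131 ob130) (cond (Nat.ble 129 q) ob129 ob128)
def obt_64 (q : ℕ) : ℕ := cond (Nat.ble 134 q) (cond (Nat.ble 135 q) ob135 ob134) (cond (Nat.ble 133 q) ob133 ob132)
def obt_65 (q : ℕ) : ℕ := cond (Nat.ble 132 q) (obt_64 q) (obt_63 q)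
def obt_66 (q : ℕ) : ℕ := cond (Nat.ble 138 q) (cond (Nat.ble 139 q) ob139 ob138) (cond (Nat.ble 137 q) ob137 ob136)
def obt_67 (q : ℕ) : ℕ := cond (Nat.ble 142 q) (cond (Nat.ble 143 q) 0 ob142) (cond (Nat.ble 141 q) ob141 ob140)
def obt_68 (q : ℕ) : ℕ := cond (Nat.ble 140 q) (obt_67 q) (obt_66 q)
def obt_69 (q : ℕ) : ℕ := cond (Nat.ble 136 q) (obt_68 q) (obt_65 q)
def obt_70 (q : ℕ) : ℕ := cond (Nat.ble 146 q) (cond (Nat.ble 147 q) ob147 ob146) (cond (Nat.ble 145 q) ob145 ob144)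
def obt_71 (q : ℕ) : ℕ := cond (Nat.ble 150 q) (cond (Nat.ble 151 q) ob151 ob150) (cond (Nat.ble 149 q) ob149 ob148)
def obt_72 (q : ℕ) : ℕ := cond (Nat.ble 148 q) (obt_71 q) (obt_70 q)
def obt_73 (q : ℕ) : ℕ := cond (Nat.ble 154 q) (cond (Nat.ble 155 q) ob155 ob154) (cond (Nat.ble 153 q) ob153 ob152)
def obt_74 (q : ℕ) : ℕ := cond (Nat.ble 158 q) (cond (Nat.ble 159 q) 0 ob158) (cond (Nat.ble 157 q) ob157 ob156)
def obt_75 (q : ℕ) : ℕ := cond (Nat.ble 156 q) (obt_74 q) (obt_73 q)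
def obt_76 (q : ℕ) : ℕ := cond (Nat.ble 152 q) (obt_75 q) (obt_72 q)
def obt_77 (q : ℕ) : ℕ := cond (Nat.ble 144 q) (obt_76 q) (obt_69 q)
def obt_78 (q : ℕ) : ℕ := cond (Nat.ble 162 q) (cond (Nat.ble 163 q) ob163 ob162) (cond (Nat.ble 161 q) ob161 ob160)
def obt_79 (q : ℕ) : ℕ := cond (Nat.ble 166 q) (cond (Nat.ble 167 q) ob167 ob166) (cond (Nat.ble 165 q) ob165 ob164)
def obt_80 (q : ℕ) : ℕ := cond (Nat.ble 164 q) (obt_79 q) (obt_78 q)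
def obt_81 (q : ℕ) : ℕ := cond (Nat.ble 170 q) (cond (Nat.ble 171 q) ob171 ob170) (cond (Nat.ble 169 q) ob169 ob168)
def obt_82 (q : ℕ) : ℕ := cond (Nat.ble 174 q) (cond (Nat.ble 175 q) 0 ob174) (cond (Nat.ble 173 q) ob173 ob172)
def obt_83 (q : ℕ) : ℕ := cond (Nat.ble 172 q) (obt_82 q) (obt_81 q)
def obt_84 (q : ℕ) : ℕ := cond (Nat.ble 168 q) (obt_83 q) (obt_80 q)
def obt_85 (q : ℕ) : ℕ := cond (Nat.ble 178 q) (cond (Nat.ble 179 q) ob179 ob178) (cond (Nat.ble 177 q) ob177 ob176)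
def obt_86 (q : ℕ) : ℕ := cond (Nat.ble 182 q) (cond (Nat.ble 183 q) ob183 ob182) (cond (Nat.ble 181 q) ob181 ob180)
def obt_87 (q : ℕ) : ℕ := cond (Nat.ble 180 q) (obt_86 q) (obt_85 q)
def obt_88 (q : ℕ) : ℕ := cond (Nat.ble 186 q) (cond (Nat.ble 187 q) ob187 ob186) (cond (Nat.ble 185 q) ob185 ob184)
def obt_89 (q : ℕ) : ℕ := cond (Nat.ble 190 q) (cond (Nat.ble 191 q) 0 ob190) (cond (Nat.ble 189 q) ob189 ob188)
def obt_90 (q : ℕ) : ℕ := cond (Nat.ble 188 q) (obt_89 q) (obt_88 q)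
def obt_91 (q : ℕ) : ℕ := cond (Nat.ble 184 q) (obt_90 q) (obt_87 q)
def obt_92 (q : ℕ) : ℕ := cond (Nat.ble 176 q) (obt_91 q) (obt_84 q)
def obt_93 (q : ℕ) : ℕ := cond (Nat.ble 160 q) (obt_92 q) (obt_77 q)
def obt_94 (q : ℕ) : ℕ := cond (Nat.ble 194 q) (cond (Nat.ble 195 q) ob195 ob194) (cond (Nat.ble 193 q) ob193 ob192)
def obt_95 (q : ℕ) : ℕ := cond (Nat.ble 198 q) (cond (Nat.ble 199 q) ob199 ob198) (cond (Nat.ble 197 q) ob197 ob196)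
def obt_96 (q : ℕ) : ℕ := cond (Nat.ble 196 q) (obt_95 q) (obt_94 q)
def obt_97 (q : ℕ) : ℕ := cond (Nat.ble 202 q) (cond (Nat.ble 203 q) ob203 ob202) (cond (Nat.ble 201 q) ob201 ob200)
def obt_98 (q : ℕ) : ℕ := cond (Nat.ble 206 q) (cond (Nat.ble 207 q) 0 ob206) (cond (Nat.ble 205 q) ob205 ob204)
def obt_99 (q : ℕ) : ℕ := cond (Nat.ble 204 q) (obt_98 q) (obt_97 q)
def obt_100 (q : ℕ) : ℕ := cond (Nat.ble 200 q) (obt_99 q) (obt_96 q)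
def obt_101 (q : ℕ) : ℕ := cond (Nat.ble 210 q) (cond (Nat.ble 211 q) ob211 ob210) (cond (Nat.ble 209 q) ob209 ob208)
def obt_102 (q : ℕ) : ℕ := cond (Nat.ble 214 q) (cond (Nat.ble 215 q) ob215 ob214) (cond (Nat.ble 213 q) ob213 ob212)
def obt_103 (q : ℕ) : ℕ := cond (Nat.ble 212 q) (obt_102 q) (obt_101 q)
def obt_104 (q : ℕ) : ℕ := cond (Nat.ble 218 q) (cond (Nat.ble 219 q) ob219 ob218) (cond (Nat.ble 217 q) ob217 ob216)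
def obt_105 (q : ℕ) : ℕ := cond (Nat.ble 222 q) (cond (Nat.ble 223 q) 0 ob222) (cond (Nat.ble 221 q) ob221 ob220)
def obt_106 (q : ℕ) : ℕ := cond (Nat.ble 220 q) (obt_105 q) (obt_104 q)
def obt_107 (q : ℕ) : ℕ := cond (Nat.ble 216 q) (obt_106 q) (obt_103 q)
def obt_108 (q : ℕ) : ℕ := cond (Nat.ble 208 q) (obt_107 q) (obt_100 q)
def obt_109 (q : ℕ) : ℕ := cond (Nat.ble 226 q) (cond (Nat.ble 227 q) ob227 ob226) (cond (Nat.ble 225 q) ob225 ob224)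
def obt_110 (q : ℕ) : ℕ := cond (Nat.ble 230 q) (cond (Nat.ble 231 q) ob231 ob230) (cond (Nat.ble 229 q) ob229 ob228)
def obt_111 (q : ℕ) : ℕ := cond (Nat.ble 228 q) (obt_110 q) (obt_109 q)
def obt_112 (q : ℕ) : ℕ := cond (Nat.ble 234 q) (cond (Nat.ble 235 q) ob235 ob234) (cond (Nat.ble 233 q) ob233 ob232)
def obt_113 (q : ℕ) : ℕ := cond (Nat.ble 238 q) (cond (Nat.ble 239 q) 0 ob238) (cond (Nat.ble 237 q) ob237 ob236)
def obt_114 (q : ℕ) : ℕ := cond (Nat.ble 236 q) (obt_113 q) (obt_112 q)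
def obt_115 (q : ℕ) : ℕ := cond (Nat.ble 232 q) (obt_114 q) (obt_111 q)
def obt_116 (q : ℕ) : ℕ := cond (Nat.ble 242 q) (cond (Nat.ble 243 q) 0 ob242) (cond (Nat.ble 241 q) 0 ob240)
def obt_117 (q : ℕ) : ℕ := cond (Nat.ble 246 q) (cond (Nat.ble 247 q) 0 ob246) (cond (Nat.ble 245 q) 0 ob244)
def obt_118 (q : ℕ) : ℕ := cond (Nat.ble 244 q) (obt_117 q) (obt_116 q)
def obt_119 (q : ℕ) : ℕ := cond (Nat.ble 250 q) (cond (Nat.ble 251 q) 0 ob250) (cond (Nat.ble 249 q) 0 ob248)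
def obt_120 (q : ℕ) : ℕ := cond (Nat.ble 254 q) (cond (Nat.ble 255 q) 0 ob254) (cond (Nat.ble 253 q) 0 ob252)
def obt_121 (q : ℕ) : ℕ := cond (Nat.ble 252 q) (obt_120 q) (obt_119 q)
def obt_122 (q : ℕ) : ℕ := cond (Nat.ble 248 q) (obt_121 q) (obt_118 q)
def obt_123 (q : ℕ) : ℕ := cond (Nat.ble 240 q) (obt_122 q) (obt_115 q)
def obt_124 (q : ℕ) : ℕ := cond (Nat.ble 224 q) (obt_123 q) (obt_108 q)
def obt_125 (q : ℕ) : ℕ := cond (Nat.ble 192 q) (obt_124 q) (obt_93 q)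
def obt_126 (q : ℕ) : ℕ := cond (Nat.ble 128 q) (obt_125 q) (obt_62 q)
def obt_127 (q : ℕ) : ℕ := cond (Nat.ble 258 q) (cond (Nat.ble 259 q) ob259 ob258) (cond (Nat.ble 257 q) ob257 ob256)
def obt_128 (q : ℕ) : ℕ := cond (Nat.ble 262 q) (cond (Nat.ble 263 q) ob263 ob262) (cond (Nat.ble 261 q) ob261 ob260)
def obt_129 (q : ℕ) : ℕ := cond (Nat.ble 260 q) (obt_128 q) (obt_127 q)
def obt_130 (q : ℕ) : ℕ := cond (Nat.ble 266 q) (cond (Nat.ble 267 q) ob267 ob266) (cond (Nat.ble 265 q) ob265 ob264)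
def obt_131 (q : ℕ) : ℕ := cond (Nat.ble 270 q) (cond (Nat.ble 271 q) 0 ob270) (cond (Nat.ble 269 q) ob269 ob268)
def obt_132 (q : ℕ) : ℕ := cond (Nat.ble 268 q) (obt_131 q) (obt_130 q)
def obt_133 (q : ℕ) : ℕ := cond (Nat.ble 264 q) (obt_132 q) (obt_129 q)
def obt_134 (q : ℕ) : ℕ := cond (Nat.ble 274 q) (cond (Nat.ble 275 q) ob275 ob274) (cond (Nat.ble 273 q) ob273 ob272)
def obt_135 (q : ℕ) : ℕ := cond (Nat.ble 278 q) (cond (Nat.ble 279 q) ob279 ob278) (cond (Nat.ble 277 q) ob277 ob276)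
def obt_136 (q : ℕ) : ℕ := cond (Nat.ble 276 q) (obt_135 q) (obt_134 q)
def obt_137 (q : ℕ) : ℕ := cond (Nat.ble 282 q) (cond (Nat.ble 283 q) ob283 ob282) (cond (Nat.ble 281 q) ob281 ob280)
def obt_138 (q : ℕ) : ℕ := cond (Nat.ble 286 q) (cond (Nat.ble 287 q) 0 ob286) (cond (Nat.ble 285 q) ob285 ob284)
def obt_139 (q : ℕ) : ℕ := cond (Nat.ble 284 q) (obt_138 q) (obt_137 q)
def obt_140 (q : ℕ) : ℕ := cond (Nat.ble 280 q) (obt_139 q) (obt_136 q)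
def obt_141 (q : ℕ) : ℕ := cond (Nat.ble 272 q) (obt_140 q) (obt_133 q)
def obt_142 (q : ℕ) : ℕ := cond (Nat.ble 290 q) (cond (Nat.ble 291 q) ob291 ob290) (cond (Nat.ble 289 q) ob289 ob288)
def obt_143 (q : ℕ) : ℕ := cond (Nat.ble 294 q) (cond (Nat.ble 295 q) ob295 ob294) (cond (Nat.ble 293 q) ob293 ob292)
def obt_144 (q : ℕ) : ℕ := cond (Nat.ble 292 q) (obt_143 q) (obt_142 q)
def obt_145 (q : ℕ) : ℕ := cond (Nat.ble 298 q) (cond (Nat.ble 299 q) ob299 ob298) (cond (Nat.ble 297 q) ob297 ob296)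
def obt_146 (q : ℕ) : ℕ := cond (Nat.ble 302 q) (cond (Nat.ble 303 q) 0 ob302) (cond (Nat.ble 301 q) ob301 ob300)
def obt_147 (q : ℕ) : ℕ := cond (Nat.ble 300 q) (obt_146 q) (obt_145 q)
def obt_148 (q : ℕ) : ℕ := cond (Nat.ble 296 q) (obt_147 q) (obt_144 q)
def obt_149 (q : ℕ) : ℕ := cond (Nat.ble 306 q) (cond (Nat.ble 307 q) ob307 ob306) (cond (Nat.ble 305 q) ob305 ob304)
def obt_150 (q : ℕ) : ℕ := cond (Nat.ble 310 q) (cond (Nat.ble 311 q) ob311 ob310) (cond (Nat.ble 309 q) ob309 ob308)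
def obt_151 (q : ℕ) : ℕ := cond (Nat.ble 308 q) (obt_150 q) (obt_149 q)
def obt_152 (q : ℕ) : ℕ := cond (Nat.ble 314 q) (cond (Nat.ble 315 q) ob315 ob314) (cond (Nat.ble 313 q) ob313 ob312)
def obt_153 (q : ℕ) : ℕ := cond (Nat.ble 318 q) (cond (Nat.ble 319 q) 0 ob318) (cond (Nat.ble 317 q) ob317 ob316)
def obt_154 (q : ℕ) : ℕ := cond (Nat.ble 316 q) (obt_153 q) (obt_152 q)
def obt_155 (q : ℕ) : ℕ := cond (Nat.ble 312 q) (obt_154 q) (obt_151 q)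
def obt_156 (q : ℕ) : ℕ := cond (Nat.ble 304 q) (obt_155 q) (obt_148 q)
def obt_157 (q : ℕ) : ℕ := cond (Nat.ble 288 q) (obt_156 q) (obt_141 q)
def obt_158 (q : ℕ) : ℕ := cond (Nat.ble 322 q) (cond (Nat.ble 323 q) ob323 ob322) (cond (Nat.ble 321 q) ob321 ob320)
def obt_159 (q : ℕ) : ℕ := cond (Nat.ble 326 q) (cond (Nat.ble 327 q) ob327 ob326) (cond (Nat.ble 325 q) ob325 ob324)
def obt_160 (q : ℕ) : ℕ := cond (Nat.ble 324 q) (obt_159 q) (obt_158 q)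
def obt_161 (q : ℕ) : ℕ := cond (Nat.ble 330 q) (cond (Nat.ble 331 q) ob331 ob330) (cond (Nat.ble 329 q) ob329 ob328)
def obt_162 (q : ℕ) : ℕ := cond (Nat.ble 334 q) (cond (Nat.ble 335 q) 0 ob334) (cond (Nat.ble 333 q) ob333 ob332)
def obt_163 (q : ℕ) : ℕ := cond (Nat.ble 332 q) (obt_162 q) (obt_161 q)
def obt_164 (q : ℕ) : ℕ := cond (Nat.ble 328 q) (obt_163 q) (obt_160 q)
def obt_165 (q : ℕ) : ℕ := cond (Nat.ble 338 q) (cond (Nat.ble 339 q) ob339 ob338) (cond (Nat.ble 337 q) ob337 ob336)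
def obt_166 (q : ℕ) : ℕ := cond (Nat.ble 342 q) (cond (Nat.ble 343 q) ob343 ob342) (cond (Nat.ble 341 q) ob341 ob340)
def obt_167 (q : ℕ) : ℕ := cond (Nat.ble 340 q) (obt_166 q) (obt_165 q)
def obt_168 (q : ℕ) : ℕ := cond (Nat.ble 346 q) (cond (Nat.ble 347 q) ob347 ob346) (cond (Nat.ble 345 q) ob345 ob344)
def obt_169 (q : ℕ) : ℕ := cond (Nat.ble 350 q) (cond (Nat.ble 351 q) 0 ob350) (cond (Nat.ble 349 q) ob349 ob348)
def obt_170 (q : ℕ) : ℕ := cond (Nat.ble 348 q) (obt_169 q) (obt_168 q)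
def obt_171 (q : ℕ) : ℕ := cond (Nat.ble 344 q) (obt_170 q) (obt_167 q)
def obt_172 (q : ℕ) : ℕ := cond (Nat.ble 336 q) (obt_171 q) (obt_164 q)
def obt_173 (q : ℕ) : ℕ := cond (Nat.ble 354 q) (cond (Nat.ble 355 q) ob355 ob354) (cond (Nat.ble 353 q) ob353 ob352)
def obt_174 (q : ℕ) : ℕ := cond (Nat.ble 358 q) (cond (Nat.ble 359 q) ob359 ob358) (cond (Nat.ble 357 q) ob357 ob356)
def obt_175 (q : ℕ) : ℕ := cond (Nat.ble 356 q) (obt_174 q) (obt_173 q)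
def obt_176 (q : ℕ) : ℕ := cond (Nat.ble 362 q) (cond (Nat.ble 363 q) ob363 ob362) (cond (Nat.ble 361 q) ob361 ob360)
def obt_177 (q : ℕ) : ℕ := cond (Nat.ble 366 q) (cond (Nat.ble 367 q) 0 ob366) (cond (Nat.ble 365 q) ob365 ob364)
def obt_178 (q : ℕ) : ℕ := cond (Nat.ble 364 q) (obt_177 q) (obt_176 q)
def obt_179 (q : ℕ) : ℕ := cond (Nat.ble 360 q) (obt_178 q) (obt_175 q)
def obt_180 (q : ℕ) : ℕ := cond (Nat.ble 370 q) (cond (Nat.ble 371 q) 0 ob370) (cond (Nat.ble 369 q) 0 ob368)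
def obt_181 (q : ℕ) : ℕ := cond (Nat.ble 374 q) (cond (Nat.ble 375 q) 0 ob374) (cond (Nat.ble 373 q) 0 ob372)
def obt_182 (q : ℕ) : ℕ := cond (Nat.ble 372 q) (obt_181 q) (obt_180 q)
def obt_183 (q : ℕ) : ℕ := cond (Nat.ble 378 q) (cond (Nat.ble 379 q) 0 ob378) (cond (Nat.ble 377 q) 0 ob376)
def obt_184 (q : ℕ) : ℕ := cond (Nat.ble 382 q) (cond (Nat.ble 383 q) 0 ob382) (cond (Nat.ble 381 q) 0 ob380)
def obt_185 (q : ℕ) : ℕ := cond (Nat.ble 380 q) (obt_184 q) (obt_183 q)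
def obt_186 (q : ℕ) : ℕ := cond (Nat.ble 376 q) (obt_185 q) (obt_182 q)
def obt_187 (q : ℕ) : ℕ := cond (Nat.ble 368 q) (obt_186 q) (obt_179 q)
def obt_188 (q : ℕ) : ℕ := cond (Nat.ble 352 q) (obt_187 q) (obt_172 q)
def obt_189 (q : ℕ) : ℕ := cond (Nat.ble 320 q) (obt_188 q) (obt_157 q)
def obt_190 (q : ℕ) : ℕ := cond (Nat.ble 386 q) (cond (Nat.ble 387 q) ob387 ob386) (cond (Nat.ble 385 q) ob385 ob384)
def obt_191 (q : ℕ) : ℕ := cond (Nat.ble 390 q) (cond (Nat.ble 391 q) ob391 ob390) (cond (Nat.ble 389 q) ob389 ob388)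
def obt_192 (q : ℕ) : ℕ := cond (Nat.ble 388 q) (obt_191 q) (obt_190 q)
def obt_193 (q : ℕ) : ℕ := cond (Nat.ble 394 q) (cond (Nat.ble 395 q) ob395 ob394) (cond (Nat.ble 393 q) ob393 ob392)
def obt_194 (q : ℕ) : ℕ := cond (Nat.ble 398 q) (cond (Nat.ble 399 q) 0 ob398) (cond (Nat.ble 397 q) ob397 ob396)
def obt_195 (q : ℕ) : ℕ := cond (Nat.ble 396 q) (obt_194 q) (obt_193 q)
def obt_196 (q : ℕ) : ℕ := cond (Nat.ble 392 q) (obt_195 q) (obt_192 q)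
def obt_197 (q : ℕ) : ℕ := cond (Nat.ble 402 q) 0 (cond (Nat.ble 401 q) ob401 ob400)
def obt_198 (q : ℕ) : ℕ := cond (Nat.ble 406 q) 0 (cond (Nat.ble 405 q) ob405 ob404)
def obt_199 (q : ℕ) : ℕ := cond (Nat.ble 404 q) (obt_198 q) (obt_197 q)
def obt_200 (q : ℕ) : ℕ := cond (Nat.ble 410 q) 0 (cond (Nat.ble 409 q) ob409 ob408)
def obt_201 (q : ℕ) : ℕ := cond (Nat.ble 414 q) 0 (cond (Nat.ble 413 q) ob413 ob412)
def obt_202 (q : ℕ) : ℕ := cond (Nat.ble 412 q) (obt_201 q) (obt_200 q)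
def obt_203 (q : ℕ) : ℕ := cond (Nat.ble 408 q) (obt_202 q) (obt_199 q)
def obt_204 (q : ℕ) : ℕ := cond (Nat.ble 400 q) (obt_203 q) (obt_196 q)
def obt_205 (q : ℕ) : ℕ := cond (Nat.ble 418 q) (cond (Nat.ble 419 q) ob419 ob418) (cond (Nat.ble 417 q) ob417 ob416)
def obt_206 (q : ℕ) : ℕ := cond (Nat.ble 422 q) (cond (Nat.ble 423 q) ob423 ob422) (cond (Nat.ble 421 q) ob421 ob420)
def obt_207 (q : ℕ) : ℕ := cond (Nat.ble 420 q) (obt_206 q) (obt_205 q)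
def obt_208 (q : ℕ) : ℕ := cond (Nat.ble 426 q) (cond (Nat.ble 427 q) ob427 ob426) (cond (Nat.ble 425 q) ob425 ob424)
def obt_209 (q : ℕ) : ℕ := cond (Nat.ble 430 q) (cond (Nat.ble 431 q) 0 ob430) (cond (Nat.ble 429 q) ob429 ob428)
def obt_210 (q : ℕ) : ℕ := cond (Nat.ble 428 q) (obt_209 q) (obt_208 q)
def obt_211 (q : ℕ) : ℕ := cond (Nat.ble 424 q) (obt_210 q) (obt_207 q)
def obt_212 (q : ℕ) : ℕ := cond (Nat.ble 434 q) 0 (cond (Nat.ble 433 q) ob433 ob432)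
def obt_213 (q : ℕ) : ℕ := cond (Nat.ble 438 q) 0 (cond (Nat.ble 437 q) ob437 ob436)
def obt_214 (q : ℕ) : ℕ := cond (Nat.ble 436 q) (obt_213 q) (obt_212 q)
def obt_215 (q : ℕ) : ℕ := cond (Nat.ble 442 q) 0 (cond (Nat.ble 441 q) ob441 ob440)
def obt_216 (q : ℕ) : ℕ := cond (Nat.ble 446 q) 0 (cond (Nat.ble 445 q) ob445 ob444)
def obt_217 (q : ℕ) : ℕ := cond (Nat.ble 444 q) (obt_216 q) (obt_215 q)
def obt_218 (q : ℕ) : ℕ := cond (Nat.ble 440 q) (obt_217 q) (obt_214 q)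
def obt_219 (q : ℕ) : ℕ := cond (Nat.ble 432 q) (obt_218 q) (obt_211 q)
def obt_220 (q : ℕ) : ℕ := cond (Nat.ble 416 q) (obt_219 q) (obt_204 q)
def obt_221 (q : ℕ) : ℕ := cond (Nat.ble 450 q) (cond (Nat.ble 451 q) ob451 ob450) (cond (Nat.ble 449 q) ob449 ob448)
def obt_222 (q : ℕ) : ℕ := cond (Nat.ble 454 q) (cond (Nat.ble 455 q) ob455 ob454) (cond (Nat.ble 453 q) ob453 ob452)
def obt_223 (q : ℕ) : ℕ := cond (Nat.ble 452 q) (obt_222 q) (obt_221 q)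
def obt_224 (q : ℕ) : ℕ := cond (Nat.ble 458 q) (cond (Nat.ble 459 q) ob459 ob458) (cond (Nat.ble 457 q) ob457 ob456)
def obt_225 (q : ℕ) : ℕ := cond (Nat.ble 462 q) (cond (Nat.ble 463 q) 0 ob462) (cond (Nat.ble 461 q) ob461 ob460)
def obt_226 (q : ℕ) : ℕ := cond (Nat.ble 460 q) (obt_225 q) (obt_224 q)
def obt_227 (q : ℕ) : ℕ := cond (Nat.ble 456 q) (obt_226 q) (obt_223 q)
def obt_228 (q : ℕ) : ℕ := cond (Nat.ble 466 q) 0 (cond (Nat.ble 465 q) ob465 ob464)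
def obt_229 (q : ℕ) : ℕ := cond (Nat.ble 470 q) 0 (cond (Nat.ble 469 q) ob469 ob468)
def obt_230 (q : ℕ) : ℕ := cond (Nat.ble 468 q) (obt_229 q) (obt_228 q)
def obt_231 (q : ℕ) : ℕ := cond (Nat.ble 474 q) 0 (cond (Nat.ble 473 q) ob473 ob472)
def obt_232 (q : ℕ) : ℕ := cond (Nat.ble 478 q) 0 (cond (Nat.ble 477 q) ob477 ob476)
def obt_233 (q : ℕ) : ℕ := cond (Nat.ble 476 q) (obt_232 q) (obt_231 q)
def obt_234 (q : ℕ) : ℕ := cond (Nat.ble 472 q) (obt_233 q) (obt_230 q)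
def obt_235 (q : ℕ) : ℕ := cond (Nat.ble 464 q) (obt_234 q) (obt_227 q)
def obt_236 (q : ℕ) : ℕ := cond (Nat.ble 482 q) (cond (Nat.ble 483 q) ob483 ob482) (cond (Nat.ble 481 q) ob481 ob480)
def obt_237 (q : ℕ) : ℕ := cond (Nat.ble 486 q) (cond (Nat.ble 487 q) ob487 ob486) (cond (Nat.ble 485 q) ob485 ob484)
def obt_238 (q : ℕ) : ℕ := cond (Nat.ble 484 q) (obt_237 q) (obt_236 q)
def obt_239 (q : ℕ) : ℕ := cond (Nat.ble 490 q) (cond (Nat.ble 491 q) ob491 ob490) (cond (Nat.ble 489 q) ob489 ob488)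
def obt_240 (q : ℕ) : ℕ := cond (Nat.ble 494 q) (cond (Nat.ble 495 q) 0 ob494) (cond (Nat.ble 493 q) ob493 ob492)
def obt_241 (q : ℕ) : ℕ := cond (Nat.ble 492 q) (obt_240 q) (obt_239 q)
def obt_242 (q : ℕ) : ℕ := cond (Nat.ble 488 q) (obt_241 q) (obt_238 q)
def obt_243 (q : ℕ) : ℕ := cond (Nat.ble 498 q) 0 (cond (Nat.ble 497 q) 0 ob496)
def obt_244 (q : ℕ) : ℕ := cond (Nat.ble 502 q) 0 (cond (Nat.ble 501 q) 0 ob500)
def obt_245 (q : ℕ) : ℕ := cond (Nat.ble 500 q) (obt_244 q) (obt_243 q)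
def obt_246 (q : ℕ) : ℕ := cond (Nat.ble 506 q) 0 (cond (Nat.ble 505 q) 0 ob504)
def obt_247 (q : ℕ) : ℕ := cond (Nat.ble 510 q) 0 (cond (Nat.ble 509 q) 0 ob508)
def obt_248 (q : ℕ) : ℕ := cond (Nat.ble 508 q) (obt_247 q) (obt_246 q)
def obt_249 (q : ℕ) : ℕ := cond (Nat.ble 504 q) (obt_248 q) (obt_245 q)
def obt_250 (q : ℕ) : ℕ := cond (Nat.ble 496 q) (obt_249 q) (obt_242 q)
def obt_251 (q : ℕ) : ℕ := cond (Nat.ble 480 q) (obt_250 q) (obt_235 q)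
def obt_252 (q : ℕ) : ℕ := cond (Nat.ble 448 q) (obt_251 q) (obt_220 q)
def obt_253 (q : ℕ) : ℕ := cond (Nat.ble 384 q) (obt_252 q) (obt_189 q)
def obt_254 (q : ℕ) : ℕ := cond (Nat.ble 256 q) (obt_253 q) (obt_126 q)
def obt_255 (q : ℕ) : ℕ := cond (Nat.ble 514 q) (cond (Nat.ble 515 q) ob515 ob514) (cond (Nat.ble 513 q) ob513 ob512)
def obt_256 (q : ℕ) : ℕ := cond (Nat.ble 518 q) (cond (Nat.ble 519 q) ob519 ob518) (cond (Nat.ble 517 q) ob517 ob516)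
def obt_257 (q : ℕ) : ℕ := cond (Nat.ble 516 q) (obt_256 q) (obt_255 q)
def obt_258 (q : ℕ) : ℕ := cond (Nat.ble 522 q) (cond (Nat.ble 523 q) ob523 ob522) (cond (Nat.ble 521 q) ob521 ob520)
def obt_259 (q : ℕ) : ℕ := cond (Nat.ble 526 q) (cond (Nat.ble 527 q) 0 ob526) (cond (Nat.ble 525 q) ob525 ob524)
def obt_260 (q : ℕ) : ℕ := cond (Nat.ble 524 q) (obt_259 q) (obt_258 q)
def obt_261 (q : ℕ) : ℕ := cond (Nat.ble 520 q) (obt_260 q) (obt_257 q)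
def obt_262 (q : ℕ) : ℕ := cond (Nat.ble 530 q) (cond (Nat.ble 531 q) ob531 ob530) (cond (Nat.ble 529 q) ob529 ob528)
def obt_263 (q : ℕ) : ℕ := cond (Nat.ble 534 q) (cond (Nat.ble 535 q) ob535 ob534) (cond (Nat.ble 533 q) ob533 ob532)
def obt_264 (q : ℕ) : ℕ := cond (Nat.ble 532 q) (obt_263 q) (obt_262 q)
def obt_265 (q : ℕ) : ℕ := cond (Nat.ble 538 q) (cond (Nat.ble 539 q) ob539 ob538) (cond (Nat.ble 537 q) ob537 ob536)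
def obt_266 (q : ℕ) : ℕ := cond (Nat.ble 542 q) (cond (Nat.ble 543 q) 0 ob542) (cond (Nat.ble 541 q) ob541 ob540)
def obt_267 (q : ℕ) : ℕ := cond (Nat.ble 540 q) (obt_266 q) (obt_265 q)
def obt_268 (q : ℕ) : ℕ := cond (Nat.ble 536 q) (obt_267 q) (obt_264 q)
def obt_269 (q : ℕ) : ℕ := cond (Nat.ble 528 q) (obt_268 q) (obt_261 q)
def obt_270 (q : ℕ) : ℕ := cond (Nat.ble 546 q) (cond (Nat.ble 547 q) ob547 ob546) (cond (Nat.ble 545 q) ob545 ob544)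
def obt_271 (q : ℕ) : ℕ := cond (Nat.ble 550 q) (cond (Nat.ble 551 q) ob551 ob550) (cond (Nat.ble 549 q) ob549 ob548)
def obt_272 (q : ℕ) : ℕ := cond (Nat.ble 548 q) (obt_271 q) (obt_270 q)
def obt_273 (q : ℕ) : ℕ := cond (Nat.ble 554 q) (cond (Nat.ble 555 q) ob555 ob554) (cond (Nat.ble 553 q) ob553 ob552)
def obt_274 (q : ℕ) : ℕ := cond (Nat.ble 558 q) (cond (Nat.ble 559 q) 0 ob558) (cond (Nat.ble 557 q) ob557 ob556)
def obt_275 (q : ℕ) : ℕ := cond (Nat.ble 556 q) (obt_274 q) (obt_273 q)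
def obt_276 (q : ℕ) : ℕ := cond (Nat.ble 552 q) (obt_275 q) (obt_272 q)
def obt_277 (q : ℕ) : ℕ := cond (Nat.ble 562 q) (cond (Nat.ble 563 q) ob563 ob562) (cond (Nat.ble 561 q) ob561 ob560)
def obt_278 (q : ℕ) : ℕ := cond (Nat.ble 566 q) (cond (Nat.ble 567 q) ob567 ob566) (cond (Nat.ble 565 q) ob565 ob564)
def obt_279 (q : ℕ) : ℕ := cond (Nat.ble 564 q) (obt_278 q) (obt_277 q)
def obt_280 (q : ℕ) : ℕ := cond (Nat.ble 570 q) (cond (Nat.ble 571 q) ob571 ob570) (cond (Nat.ble 569 q) ob569 ob568)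
def obt_281 (q : ℕ) : ℕ := cond (Nat.ble 574 q) (cond (Nat.ble 575 q) 0 ob574) (cond (Nat.ble 573 q) ob573 ob572)
def obt_282 (q : ℕ) : ℕ := cond (Nat.ble 572 q) (obt_281 q) (obt_280 q)
def obt_283 (q : ℕ) : ℕ := cond (Nat.ble 568 q) (obt_282 q) (obt_279 q)
def obt_284 (q : ℕ) : ℕ := cond (Nat.ble 560 q) (obt_283 q) (obt_276 q)
def obt_285 (q : ℕ) : ℕ := cond (Nat.ble 544 q) (obt_284 q) (obt_269 q)
def obt_286 (q : ℕ) : ℕ := cond (Nat.ble 578 q) (cond (Nat.ble 579 q) ob579 ob578) (cond (Nat.ble 577 q) ob577 ob576)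
def obt_287 (q : ℕ) : ℕ := cond (Nat.ble 582 q) (cond (Nat.ble 583 q) ob583 ob582) (cond (Nat.ble 581 q) ob581 ob580)
def obt_288 (q : ℕ) : ℕ := cond (Nat.ble 580 q) (obt_287 q) (obt_286 q)
def obt_289 (q : ℕ) : ℕ := cond (Nat.ble 586 q) (cond (Nat.ble 587 q) ob587 ob586) (cond (Nat.ble 585 q) ob585 ob584)
def obt_290 (q : ℕ) : ℕ := cond (Nat.ble 590 q) (cond (Nat.ble 591 q) 0 ob590) (cond (Nat.ble 589 q) ob589 ob588)
def obt_291 (q : ℕ) : ℕ := cond (Nat.ble 588 q) (obt_290 q) (obt_289 q)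
def obt_292 (q : ℕ) : ℕ := cond (Nat.ble 584 q) (obt_291 q) (obt_288 q)
def obt_293 (q : ℕ) : ℕ := cond (Nat.ble 594 q) (cond (Nat.ble 595 q) ob595 ob594) (cond (Nat.ble 593 q) ob593 ob592)
def obt_294 (q : ℕ) : ℕ := cond (Nat.ble 598 q) (cond (Nat.ble 599 q) ob599 ob598) (cond (Nat.ble 597 q) ob597 ob596)
def obt_295 (q : ℕ) : ℕ := cond (Nat.ble 596 q) (obt_294 q) (obt_293 q)
def obt_296 (q : ℕ) : ℕ := cond (Nat.ble 602 q) (cond (Nat.ble 603 q) ob603 ob602) (cond (Nat.ble 601 q) ob601 ob600)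
def obt_297 (q : ℕ) : ℕ := cond (Nat.ble 606 q) (cond (Nat.ble 607 q) 0 ob606) (cond (Nat.ble 605 q) ob605 ob604)
def obt_298 (q : ℕ) : ℕ := cond (Nat.ble 604 q) (obt_297 q) (obt_296 q)
def obt_299 (q : ℕ) : ℕ := cond (Nat.ble 600 q) (obt_298 q) (obt_295 q)
def obt_300 (q : ℕ) : ℕ := cond (Nat.ble 592 q) (obt_299 q) (obt_292 q)
def obt_301 (q : ℕ) : ℕ := cond (Nat.ble 610 q) (cond (Nat.ble 611 q) ob611 ob610) (cond (Nat.ble 609 q) ob609 ob608)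
def obt_302 (q : ℕ) : ℕ := cond (Nat.ble 614 q) (cond (Nat.ble 615 q) ob615 ob614) (cond (Nat.ble 613 q) ob613 ob612)
def obt_303 (q : ℕ) : ℕ := cond (Nat.ble 612 q) (obt_302 q) (obt_301 q)
def obt_304 (q : ℕ) : ℕ := cond (Nat.ble 618 q) (cond (Nat.ble 619 q) ob619 ob618) (cond (Nat.ble 617 q) ob617 ob616)
def obt_305 (q : ℕ) : ℕ := cond (Nat.ble 622 q) (cond (Nat.ble 623 q) 0 ob622) (cond (Nat.ble 621 q) ob621 ob620)
def obt_306 (q : ℕ) : ℕ := cond (Nat.ble 620 q) (obt_305 q) (obt_304 q)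
def obt_307 (q : ℕ) : ℕ := cond (Nat.ble 616 q) (obt_306 q) (obt_303 q)
def obt_308 (q : ℕ) : ℕ := cond (Nat.ble 626 q) (cond (Nat.ble 627 q) 0 ob626) (cond (Nat.ble 625 q) 0 ob624)
def obt_309 (q : ℕ) : ℕ := cond (Nat.ble 630 q) (cond (Nat.ble 631 q) 0 ob630) (cond (Nat.ble 629 q) 0 ob628)
def obt_310 (q : ℕ) : ℕ := cond (Nat.ble 628 q) (obt_309 q) (obt_308 q)
def obt_311 (q : ℕ) : ℕ := cond (Nat.ble 634 q) (cond (Nat.ble 635 q) 0 ob634) (cond (Nat.ble 633 q) 0 ob632)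
def obt_312 (q : ℕ) : ℕ := cond (Nat.ble 638 q) (cond (Nat.ble 639 q) 0 ob638) (cond (Nat.ble 637 q) 0 ob636)
def obt_313 (q : ℕ) : ℕ := cond (Nat.ble 636 q) (obt_312 q) (obt_311 q)
def obt_314 (q : ℕ) : ℕ := cond (Nat.ble 632 q) (obt_313 q) (obt_310 q)
def obt_315 (q : ℕ) : ℕ := cond (Nat.ble 624 q) (obt_314 q) (obt_307 q)
def obt_316 (q : ℕ) : ℕ := cond (Nat.ble 608 q) (obt_315 q) (obt_300 q)
def obt_317 (q : ℕ) : ℕ := cond (Nat.ble 576 q) (obt_316 q) (obt_285 q)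
def obt_318 (q : ℕ) : ℕ := cond (Nat.ble 642 q) (cond (Nat.ble 643 q) ob643 ob642) (cond (Nat.ble 641 q) ob641 ob640)
def obt_319 (q : ℕ) : ℕ := cond (Nat.ble 646 q) (cond (Nat.ble 647 q) ob647 ob646) (cond (Nat.ble 645 q) ob645 ob644)
def obt_320 (q : ℕ) : ℕ := cond (Nat.ble 644 q) (obt_319 q) (obt_318 q)
def obt_321 (q : ℕ) : ℕ := cond (Nat.ble 650 q) (cond (Nat.ble 651 q) ob651 ob650) (cond (Nat.ble 649 q) ob649 ob648)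
def obt_322 (q : ℕ) : ℕ := cond (Nat.ble 654 q) (cond (Nat.ble 655 q) 0 ob654) (cond (Nat.ble 653 q) ob653 ob652)
def obt_323 (q : ℕ) : ℕ := cond (Nat.ble 652 q) (obt_322 q) (obt_321 q)
def obt_324 (q : ℕ) : ℕ := cond (Nat.ble 648 q) (obt_323 q) (obt_320 q)
def obt_325 (q : ℕ) : ℕ := cond (Nat.ble 658 q) (cond (Nat.ble 659 q) ob659 ob658) (cond (Nat.ble 657 q) ob657 ob656)
def obt_326 (q : ℕ) : ℕ := cond (Nat.ble 662 q) (cond (Nat.ble 663 q) ob663 ob662) (cond (Nat.ble 661 q) ob661 ob660)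
def obt_327 (q : ℕ) : ℕ := cond (Nat.ble 660 q) (obt_326 q) (obt_325 q)
def obt_328 (q : ℕ) : ℕ := cond (Nat.ble 666 q) (cond (Nat.ble 667 q) ob667 ob666) (cond (Nat.ble 665 q) ob665 ob664)
def obt_329 (q : ℕ) : ℕ := cond (Nat.ble 670 q) (cond (Nat.ble 671 q) 0 ob670) (cond (Nat.ble 669 q) ob669 ob668)
def obt_330 (q : ℕ) : ℕ := cond (Nat.ble 668 q) (obt_329 q) (obt_328 q)
def obt_331 (q : ℕ) : ℕ := cond (Nat.ble 664 q) (obt_330 q) (obt_327 q)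
def obt_332 (q : ℕ) : ℕ := cond (Nat.ble 656 q) (obt_331 q) (obt_324 q)
def obt_333 (q : ℕ) : ℕ := cond (Nat.ble 674 q) (cond (Nat.ble 675 q) ob675 ob674) (cond (Nat.ble 673 q) ob673 ob672)
def obt_334 (q : ℕ) : ℕ := cond (Nat.ble 676 q) 0 (obt_333 q)
def obt_335 (q : ℕ) : ℕ := cond (Nat.ble 682 q) (cond (Nat.ble 683 q) ob683 ob682) (cond (Nat.ble 681 q) ob681 ob680)
def obt_336 (q : ℕ) : ℕ := cond (Nat.ble 684 q) 0 (obt_335 q)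
def obt_337 (q : ℕ) : ℕ := cond (Nat.ble 680 q) (obt_336 q) (obt_334 q)
def obt_338 (q : ℕ) : ℕ := cond (Nat.ble 690 q) (cond (Nat.ble 691 q) ob691 ob690) (cond (Nat.ble 689 q) ob689 ob688)
def obt_339 (q : ℕ) : ℕ := cond (Nat.ble 692 q) 0 (obt_338 q)
def obt_340 (q : ℕ) : ℕ := cond (Nat.ble 698 q) (cond (Nat.ble 699 q) ob699 ob698) (cond (Nat.ble 697 q) ob697 ob696)
def obt_341 (q : ℕ) : ℕ := cond (Nat.ble 700 q) 0 (obt_340 q)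
def obt_342 (q : ℕ) : ℕ := cond (Nat.ble 696 q) (obt_341 q) (obt_339 q)
def obt_343 (q : ℕ) : ℕ := cond (Nat.ble 688 q) (obt_342 q) (obt_337 q)
def obt_344 (q : ℕ) : ℕ := cond (Nat.ble 672 q) (obt_343 q) (obt_332 q)
def obt_345 (q : ℕ) : ℕ := cond (Nat.ble 706 q) (cond (Nat.ble 707 q) ob707 ob706) (cond (Nat.ble 705 q) ob705 ob704)
def obt_346 (q : ℕ) : ℕ := cond (Nat.ble 710 q) (cond (Nat.ble 711 q) ob711 ob710) (cond (Nat.ble 709 q) ob709 ob708)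
def obt_347 (q : ℕ) : ℕ := cond (Nat.ble 708 q) (obt_346 q) (obt_345 q)
def obt_348 (q : ℕ) : ℕ := cond (Nat.ble 714 q) (cond (Nat.ble 715 q) ob715 ob714) (cond (Nat.ble 713 q) ob713 ob712)
def obt_349 (q : ℕ) : ℕ := cond (Nat.ble 718 q) (cond (Nat.ble 719 q) 0 ob718) (cond (Nat.ble 717 q) ob717 ob716)
def obt_350 (q : ℕ) : ℕ := cond (Nat.ble 716 q) (obt_349 q) (obt_348 q)
def obt_351 (q : ℕ) : ℕ := cond (Nat.ble 712 q) (obt_350 q) (obt_347 q)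
def obt_352 (q : ℕ) : ℕ := cond (Nat.ble 722 q) (cond (Nat.ble 723 q) ob723 ob722) (cond (Nat.ble 721 q) ob721 ob720)
def obt_353 (q : ℕ) : ℕ := cond (Nat.ble 726 q) (cond (Nat.ble 727 q) ob727 ob726) (cond (Nat.ble 725 q) ob725 ob724)
def obt_354 (q : ℕ) : ℕ := cond (Nat.ble 724 q) (obt_353 q) (obt_352 q)
def obt_355 (q : ℕ) : ℕ := cond (Nat.ble 730 q) (cond (Nat.ble 731 q) ob731 ob730) (cond (Nat.ble 729 q) ob729 ob728)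
def obt_356 (q : ℕ) : ℕ := cond (Nat.ble 734 q) (cond (Nat.ble 735 q) 0 ob734) (cond (Nat.ble 733 q) ob733 ob732)
def obt_357 (q : ℕ) : ℕ := cond (Nat.ble 732 q) (obt_356 q) (obt_355 q)
def obt_358 (q : ℕ) : ℕ := cond (Nat.ble 728 q) (obt_357 q) (obt_354 q)
def obt_359 (q : ℕ) : ℕ := cond (Nat.ble 720 q) (obt_358 q) (obt_351 q)
def obt_360 (q : ℕ) : ℕ := cond (Nat.ble 738 q) (cond (Nat.ble 739 q) ob739 ob738) (cond (Nat.ble 737 q) ob737 ob736)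
def obt_361 (q : ℕ) : ℕ := cond (Nat.ble 740 q) 0 (obt_360 q)
def obt_362 (q : ℕ) : ℕ := cond (Nat.ble 746 q) (cond (Nat.ble 747 q) ob747 ob746) (cond (Nat.ble 745 q) ob745 ob744)
def obt_363 (q : ℕ) : ℕ := cond (Nat.ble 748 q) 0 (obt_362 q)
def obt_364 (q : ℕ) : ℕ := cond (Nat.ble 744 q) (obt_363 q) (obt_361 q)
def obt_365 (q : ℕ) : ℕ := cond (Nat.ble 754 q) (cond (Nat.ble 755 q) 0 ob754) (cond (Nat.ble 753 q) 0 ob752)
def obt_366 (q : ℕ) : ℕ := cond (Nat.ble 756 q) 0 (obt_365 q)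
def obt_367 (q : ℕ) : ℕ := cond (Nat.ble 762 q) (cond (Nat.ble 763 q) 0 ob762) (cond (Nat.ble 761 q) 0 ob760)
def obt_368 (q : ℕ) : ℕ := cond (Nat.ble 764 q) 0 (obt_367 q)
def obt_369 (q : ℕ) : ℕ := cond (Nat.ble 760 q) (obt_368 q) (obt_366 q)
def obt_370 (q : ℕ) : ℕ := cond (Nat.ble 752 q) (obt_369 q) (obt_364 q)
def obt_371 (q : ℕ) : ℕ := cond (Nat.ble 736 q) (obt_370 q) (obt_359 q)
def obt_372 (q : ℕ) : ℕ := cond (Nat.ble 704 q) (obt_371 q) (obt_344 q)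
def obt_373 (q : ℕ) : ℕ := cond (Nat.ble 640 q) (obt_372 q) (obt_317 q)
def obt_374 (q : ℕ) : ℕ := cond (Nat.ble 770 q) (cond (Nat.ble 771 q) ob771 ob770) (cond (Nat.ble 769 q) ob769 ob768)
def obt_375 (q : ℕ) : ℕ := cond (Nat.ble 774 q) (cond (Nat.ble 775 q) ob775 ob774) (cond (Nat.ble 773 q) ob773 ob772)
def obt_376 (q : ℕ) : ℕ := cond (Nat.ble 772 q) (obt_375 q) (obt_374 q)
def obt_377 (q : ℕ) : ℕ := cond (Nat.ble 778 q) (cond (Nat.ble 779 q) ob779 ob778) (cond (Nat.ble 777 q) ob777 ob776)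
def obt_378 (q : ℕ) : ℕ := cond (Nat.ble 782 q) (cond (Nat.ble 783 q) 0 ob782) (cond (Nat.ble 781 q) ob781 ob780)
def obt_379 (q : ℕ) : ℕ := cond (Nat.ble 780 q) (obt_378 q) (obt_377 q)
def obt_380 (q : ℕ) : ℕ := cond (Nat.ble 776 q) (obt_379 q) (obt_376 q)
def obt_381 (q : ℕ) : ℕ := cond (Nat.ble 786 q) (cond (Nat.ble 787 q) ob787 ob786) (cond (Nat.ble 785 q) ob785 ob784)
def obt_382 (q : ℕ) : ℕ := cond (Nat.ble 790 q) (cond (Nat.ble 791 q) ob791 ob790) (cond (Nat.ble 789 q) ob789 ob788)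
def obt_383 (q : ℕ) : ℕ := cond (Nat.ble 788 q) (obt_382 q) (obt_381 q)
def obt_384 (q : ℕ) : ℕ := cond (Nat.ble 794 q) (cond (Nat.ble 795 q) ob795 ob794) (cond (Nat.ble 793 q) ob793 ob792)
def obt_385 (q : ℕ) : ℕ := cond (Nat.ble 798 q) (cond (Nat.ble 799 q) 0 ob798) (cond (Nat.ble 797 q) ob797 ob796)
def obt_386 (q : ℕ) : ℕ := cond (Nat.ble 796 q) (obt_385 q) (obt_384 q)
def obt_387 (q : ℕ) : ℕ := cond (Nat.ble 792 q) (obt_386 q) (obt_383 q)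
def obt_388 (q : ℕ) : ℕ := cond (Nat.ble 784 q) (obt_387 q) (obt_380 q)
def obt_389 (q : ℕ) : ℕ := cond (Nat.ble 802 q) (cond (Nat.ble 803 q) ob803 ob802) (cond (Nat.ble 801 q) ob801 ob800)
def obt_390 (q : ℕ) : ℕ := cond (Nat.ble 806 q) (cond (Nat.ble 807 q) ob807 ob806) (cond (Nat.ble 805 q) ob805 ob804)
def obt_391 (q : ℕ) : ℕ := cond (Nat.ble 804 q) (obt_390 q) (obt_389 q)
def obt_392 (q : ℕ) : ℕ := cond (Nat.ble 810 q) (cond (Nat.ble 811 q) ob811 ob810) (cond (Nat.ble 809 q) ob809 ob808)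
def obt_393 (q : ℕ) : ℕ := cond (Nat.ble 814 q) (cond (Nat.ble 815 q) 0 ob814) (cond (Nat.ble 813 q) ob813 ob812)
def obt_394 (q : ℕ) : ℕ := cond (Nat.ble 812 q) (obt_393 q) (obt_392 q)
def obt_395 (q : ℕ) : ℕ := cond (Nat.ble 808 q) (obt_394 q) (obt_391 q)
def obt_396 (q : ℕ) : ℕ := cond (Nat.ble 818 q) (cond (Nat.ble 819 q) ob819 ob818) (cond (Nat.ble 817 q) ob817 ob816)
def obt_397 (q : ℕ) : ℕ := cond (Nat.ble 822 q) (cond (Nat.ble 823 q) ob823 ob822) (cond (Nat.ble 821 q) ob821 ob820)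
def obt_398 (q : ℕ) : ℕ := cond (Nat.ble 820 q) (obt_397 q) (obt_396 q)
def obt_399 (q : ℕ) : ℕ := cond (Nat.ble 826 q) (cond (Nat.ble 827 q) ob827 ob826) (cond (Nat.ble 825 q) ob825 ob824)
def obt_400 (q : ℕ) : ℕ := cond (Nat.ble 830 q) (cond (Nat.ble 831 q) 0 ob830) (cond (Nat.ble 829 q) ob829 ob828)
def obt_401 (q : ℕ) : ℕ := cond (Nat.ble 828 q) (obt_400 q) (obt_399 q)
def obt_402 (q : ℕ) : ℕ := cond (Nat.ble 824 q) (obt_401 q) (obt_398 q)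
def obt_403 (q : ℕ) : ℕ := cond (Nat.ble 816 q) (obt_402 q) (obt_395 q)
def obt_404 (q : ℕ) : ℕ := cond (Nat.ble 800 q) (obt_403 q) (obt_388 q)
def obt_405 (q : ℕ) : ℕ := cond (Nat.ble 834 q) (cond (Nat.ble 835 q) ob835 ob834) (cond (Nat.ble 833 q) ob833 ob832)
def obt_406 (q : ℕ) : ℕ := cond (Nat.ble 838 q) (cond (Nat.ble 839 q) ob839 ob838) (cond (Nat.ble 837 q) ob837 ob836)
def obt_407 (q : ℕ) : ℕ := cond (Nat.ble 836 q) (obt_406 q) (obt_405 q)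
def obt_408 (q : ℕ) : ℕ := cond (Nat.ble 840 q) 0 (obt_407 q)
def obt_409 (q : ℕ) : ℕ := cond (Nat.ble 850 q) (cond (Nat.ble 851 q) ob851 ob850) (cond (Nat.ble 849 q) ob849 ob848)
def obt_410 (q : ℕ) : ℕ := cond (Nat.ble 854 q) (cond (Nat.ble 855 q) ob855 ob854) (cond (Nat.ble 853 q) ob853 ob852)
def obt_411 (q : ℕ) : ℕ := cond (Nat.ble 852 q) (obt_410 q) (obt_409 q)
def obt_412 (q : ℕ) : ℕ := cond (Nat.ble 856 q) 0 (obt_411 q)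
def obt_413 (q : ℕ) : ℕ := cond (Nat.ble 848 q) (obt_412 q) (obt_408 q)
def obt_414 (q : ℕ) : ℕ := cond (Nat.ble 866 q) (cond (Nat.ble 867 q) ob867 ob866) (cond (Nat.ble 865 q) ob865 ob864)
def obt_415 (q : ℕ) : ℕ := cond (Nat.ble 870 q) (cond (Nat.ble 871 q) ob871 ob870) (cond (Nat.ble 869 q) ob869 ob868)
def obt_416 (q : ℕ) : ℕ := cond (Nat.ble 868 q) (obt_415 q) (obt_414 q)
def obt_417 (q : ℕ) : ℕ := cond (Nat.ble 872 q) 0 (obt_416 q)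
def obt_418 (q : ℕ) : ℕ := cond (Nat.ble 882 q) (cond (Nat.ble 883 q) 0 ob882) (cond (Nat.ble 881 q) 0 ob880)
def obt_419 (q : ℕ) : ℕ := cond (Nat.ble 886 q) (cond (Nat.ble 887 q) 0 ob886) (cond (Nat.ble 885 q) 0 ob884)
def obt_420 (q : ℕ) : ℕ := cond (Nat.ble 884 q) (obt_419 q) (obt_418 q)
def obt_421 (q : ℕ) : ℕ := cond (Nat.ble 888 q) 0 (obt_420 q)
def obt_422 (q : ℕ) : ℕ := cond (Nat.ble 880 q) (obt_421 q) (obt_417 q)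
def obt_423 (q : ℕ) : ℕ := cond (Nat.ble 864 q) (obt_422 q) (obt_413 q)
def obt_424 (q : ℕ) : ℕ := cond (Nat.ble 832 q) (obt_423 q) (obt_404 q)
def obt_425 (q : ℕ) : ℕ := cond (Nat.ble 898 q) (cond (Nat.ble 899 q) ob899 ob898) (cond (Nat.ble 897 q) ob897 ob896)
def obt_426 (q : ℕ) : ℕ := cond (Nat.ble 902 q) (cond (Nat.ble 903 q) ob903 ob902) (cond (Nat.ble 901 q) ob901 ob900)
def obt_427 (q : ℕ) : ℕ := cond (Nat.ble 900 q) (obt_426 q) (obt_425 q)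
def obt_428 (q : ℕ) : ℕ := cond (Nat.ble 906 q) (cond (Nat.ble 907 q) ob907 ob906) (cond (Nat.ble 905 q) ob905 ob904)
def obt_429 (q : ℕ) : ℕ := cond (Nat.ble 910 q) (cond (Nat.ble 911 q) 0 ob910) (cond (Nat.ble 909 q) ob909 ob908)
def obt_430 (q : ℕ) : ℕ := cond (Nat.ble 908 q) (obt_429 q) (obt_428 q)
def obt_431 (q : ℕ) : ℕ := cond (Nat.ble 904 q) (obt_430 q) (obt_427 q)
def obt_432 (q : ℕ) : ℕ := cond (Nat.ble 914 q) 0 (cond (Nat.ble 913 q) ob913 ob912)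
def obt_433 (q : ℕ) : ℕ := cond (Nat.ble 918 q) 0 (cond (Nat.ble 917 q) ob917 ob916)
def obt_434 (q : ℕ) : ℕ := cond (Nat.ble 916 q) (obt_433 q) (obt_432 q)
def obt_435 (q : ℕ) : ℕ := cond (Nat.ble 922 q) 0 (cond (Nat.ble 921 q) ob921 ob920)
def obt_436 (q : ℕ) : ℕ := cond (Nat.ble 926 q) 0 (cond (Nat.ble 925 q) ob925 ob924)
def obt_437 (q : ℕ) : ℕ := cond (Nat.ble 924 q) (obt_436 q) (obt_435 q)
def obt_438 (q : ℕ) : ℕ := cond (Nat.ble 920 q) (obt_437 q) (obt_434 q)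
def obt_439 (q : ℕ) : ℕ := cond (Nat.ble 912 q) (obt_438 q) (obt_431 q)
def obt_440 (q : ℕ) : ℕ := cond (Nat.ble 930 q) (cond (Nat.ble 931 q) ob931 ob930) (cond (Nat.ble 929 q) ob929 ob928)
def obt_441 (q : ℕ) : ℕ := cond (Nat.ble 932 q) 0 (obt_440 q)
def obt_442 (q : ℕ) : ℕ := cond (Nat.ble 938 q) (cond (Nat.ble 939 q) ob939 ob938) (cond (Nat.ble 937 q) ob937 ob936)
def obt_443 (q : ℕ) : ℕ := cond (Nat.ble 940 q) 0 (obt_442 q)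
def obt_444 (q : ℕ) : ℕ := cond (Nat.ble 936 q) (obt_443 q) (obt_441 q)
def obt_445 (q : ℕ) : ℕ := cond (Nat.ble 946 q) 0 (cond (Nat.ble 945 q) ob945 ob944)
def obt_446 (q : ℕ) : ℕ := cond (Nat.ble 948 q) 0 (obt_445 q)
def obt_447 (q : ℕ) : ℕ := cond (Nat.ble 954 q) 0 (cond (Nat.ble 953 q) ob953 ob952)
def obt_448 (q : ℕ) : ℕ := cond (Nat.ble 956 q) 0 (obt_447 q)
def obt_449 (q : ℕ) : ℕ := cond (Nat.ble 952 q) (obt_448 q) (obt_446 q)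
def obt_450 (q : ℕ) : ℕ := cond (Nat.ble 944 q) (obt_449 q) (obt_444 q)
def obt_451 (q : ℕ) : ℕ := cond (Nat.ble 928 q) (obt_450 q) (obt_439 q)
def obt_452 (q : ℕ) : ℕ := cond (Nat.ble 962 q) (cond (Nat.ble 963 q) ob963 ob962) (cond (Nat.ble 961 q) ob961 ob960)
def obt_453 (q : ℕ) : ℕ := cond (Nat.ble 966 q) (cond (Nat.ble 967 q) ob967 ob966) (cond (Nat.ble 965 q) ob965 ob964)
def obt_454 (q : ℕ) : ℕ := cond (Nat.ble 964 q) (obt_453 q) (obt_452 q)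
def obt_455 (q : ℕ) : ℕ := cond (Nat.ble 968 q) 0 (obt_454 q)
def obt_456 (q : ℕ) : ℕ := cond (Nat.ble 978 q) 0 (cond (Nat.ble 977 q) ob977 ob976)
def obt_457 (q : ℕ) : ℕ := cond (Nat.ble 982 q) 0 (cond (Nat.ble 981 q) ob981 ob980)
def obt_458 (q : ℕ) : ℕ := cond (Nat.ble 980 q) (obt_457 q) (obt_456 q)
def obt_459 (q : ℕ) : ℕ := cond (Nat.ble 984 q) 0 (obt_458 q)
def obt_460 (q : ℕ) : ℕ := cond (Nat.ble 976 q) (obt_459 q) (obt_455 q)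
def obt_461 (q : ℕ) : ℕ := cond (Nat.ble 994 q) (cond (Nat.ble 995 q) ob995 ob994) (cond (Nat.ble 993 q) ob993 ob992)
def obt_462 (q : ℕ) : ℕ := cond (Nat.ble 996 q) 0 (obt_461 q)
def obt_463 (q : ℕ) : ℕ := cond (Nat.ble 1000 q) 0 (obt_462 q)
def obt_464 (q : ℕ) : ℕ := cond (Nat.ble 1010 q) 0 (cond (Nat.ble 1009 q) 0 ob1008)
def obt_465 (q : ℕ) : ℕ := cond (Nat.ble 1012 q) 0 (obt_464 q)
def obt_466 (q : ℕ) : ℕ := cond (Nat.ble 1016 q) 0 (obt_465 q)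
def obt_467 (q : ℕ) : ℕ := cond (Nat.ble 1008 q) (obt_466 q) (obt_463 q)
def obt_468 (q : ℕ) : ℕ := cond (Nat.ble 992 q) (obt_467 q) (obt_460 q)
def obt_469 (q : ℕ) : ℕ := cond (Nat.ble 960 q) (obt_468 q) (obt_451 q)
def obt_470 (q : ℕ) : ℕ := cond (Nat.ble 896 q) (obt_469 q) (obt_424 q)
def obt_471 (q : ℕ) : ℕ := cond (Nat.ble 768 q) (obt_470 q) (obt_373 q)
def obt_472 (q : ℕ) : ℕ := cond (Nat.ble 512 q) (obt_471 q) (obt_254 q)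

def oblk (q : ℕ) : ℕ := (obt_472 q)

def osub (s : ℕ) : ℕ := Nat.mod (Nat.shiftRight (st oblk (Nat.mod s 1024)) (Nat.mul 416 (Nat.div s 1024))) 0x100000000000000000000000000000000000000000000000000000000000000000000000000000000000000000000000000000000

/-- the orbit number of the six-vertex structure with code `c` -/
def orb (c : ℕ) : ℕ := Nat.mod (Nat.shiftRight (st osub (Nat.add (Nat.mod c 1024) (Nat.mul 1024 (Nat.div c 32768)))) (Nat.mul 13 (Nat.mod (Nat.div c 1024) 32))) 8192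

end Pool.Agent.W843.N7
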