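import Pool.Agent.W843.N7.ChkO

/-! Packed numbers of a structure on seven vertices. -/

set_option autoImplicit false
set_option maxRecDepth 100000
set_option maxHeartbeats 4000000
open Finset
open Pool.Agent.H122R2.N6 (Sy NoK4 Bt k4b five tg walk walk_all B2 B2_true or_false_left)

namespace Pool.Agent.W843.N7

theorem ac_cons {C b r : ℕ} {l : List ℕ} (hb : Bt b) : ac (C :: l) (Nat.add b (Nat.mul 2 r)) = b * C + ac l r := by
  have h1 : Nat.mod (Nat.add b (Nat.mul 2 r)) 2 = b := by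
    show (b + 2 * r) % 2 = b
    have := Bt_lt hb
    omega
  have h2 : Nat.div (Nat.add b (Nat.mul 2 r)) 2 = r := by
    show (b + 2 * r) / 2 = r
    have := Bt_lt hb
    omega
  show Nat.add (Nat.mul (Nat.mod (Nat.add b (Nat.mul 2 r)) 2) C) (ac l (Nat.div (Nat.add b (Nat.mul 2 r)) 2)) = _
  rw [h1, h2]
  rfl

theorem ac_last {C b : ℕ} (hb : Bt b) : ac [C] b = b * C := by
  have h1 : Nat.mod b 2 = b := by
    show b % 2 = b
    have := Bt_lt hb
    omega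
  show Nat.add (Nat.mul (Nat.mod b 2) C) 0 = _
  rw [h1]
  rfl

theorem ac10 {C0 C1 C2 C3 C4 C5 C6 C7 C8 C9 b0 b1 b2 b3 b4 b5 b6 b7 b8 b9 : ℕ} (h0 : Bt b0) (h1 : Bt b1) (h2 : Bt b2) (h3 : Bt b3) (h4 : Bt b4) (h5 : Bt b5) (h6 : Bt b6) (h7 : Bt b7) (h8 : Bt b8) (h9 : Bt b9) :
    ac [C0, C1, C2, C3, C4, C5, C6, C7, C8, C9] (c10 b0 b1 b2 b3 b4 b5 b6 b7 b8 b9) = b0 * C0 + (b1 * C1 + (b2 * C2 + (b3 * C3 + (b4 * C4 + (b5 * C5 + (b6 * C6 + (b7 * C7 + (b8 * C8 + (b9 * C9))))))))) := by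
  unfold c10
  rw [ac_cons h0, ac_cons h1, ac_cons h2, ac_cons h3, ac_cons h4, ac_cons h5, ac_cons h6, ac_cons h7, ac_cons h8, ac_last h9]

theorem ac5 {C0 C1 C2 C3 C4 b0 b1 b2 b3 b4 : ℕ} (h0 : Bt b0) (h1 : Bt b1) (h2 : Bt b2) (h3 : Bt b3) (h4 : Bt b4) :
    ac [C0, C1, C2, C3, C4] (c5 b0 b1 b2 b3 b4) = b0 * C0 + (b1 * C1 + (b2 * C2 + (b3 * C3 + (b4 * C4)))) := by
  unfold c5
  rw [ac_cons h0, ac_cons h1, ac_cons h2, ac_cons h3, ac_last h4]

theorem gs0 {v0 v1 v2 v3 v4 v5 v6 v7 v8 v9 v10 v11 v12 v13 v14 v15 v16 v17 v18 v19 v20 v21 v22 v23 v24 v25 v26 v27 v28 v29 v30 v31 v32 v33 v34 v35 v36 v37 v38 v39 v40 v41 : ℕ} (h : ∀ v ∈ [v0, v1, v2, v3, v4, v5, v6, v7, v8, v9, v10, v11, v12, v13, v14, v15, v16, v17, v18, v19, v20, v21, v22, v23, v24, v25, v26, v27, v28, v29, v30, v31, v32, v33, v34, v35, v36, v37, v38, v39, v40, v41], v < 1048576) : fldn 0 (pk [v0, v1, v2, v3, v4, v5, v6, v7, v8, v9, v10, v11,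 v12, v13, v14, v15, v16, v17, v18, v19, v20, v21, v22, v23, v24, v25, v26, v27, v28, v29, v30, v31, v32, v33, v34, v35, v36, v37, v38, v39, v40, v41]) = v0 := fldn_pk _ 0 h
theorem gs1 {v0 v1 v2 v3 v4 v5 v6 v7 v8 v9 v10 v11 v12 v13 v14 v15 v16 v17 v18 v19 v20 v21 v22 v23 v24 v25 v26 v27 v28 v29 v30 v31 v32 v33 v34 v35 v36 v37 v38 v39 v40 v41 : ℕ} (h : ∀ v ∈ [v0, v1, v2, v3, v4, v5, v6, v7, v8, v9, v10, v11, v12, v13, v14, v15, v16, v17, v18, v19, v20, v21, v22, v23, v24, v25, v26, v27, v28, v29, v30, v31, v32, v33, v34, v35, v36, v37, v38, v39, v40, v41], v < 1048576) : fldn 20 (pk [v0, v1, v2, v3, v4, v5, v6, v7, v8, v9, v10, v11, v12, v13, v14, v15, v16, v17, v18, v19, v20, v21, v22, v23, v24, v25, v26, v27, v28, v29, v30, v31, v32, v33, v34, v35, v36, v37, v38, v39, v40, v41]) = v1 := fldn_pk _ 1 h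
theorem gs2 {v0 v1 v2 v3 v4 v5 v6 v7 v8 v9 v10 v11 v12 v13 v14 v15 v16 v17 v18 v19 v20 v21 v22 v23 v24 v25 v26 v27 v28 v29 v30 v31 v32 v33 v34 v35 v36 v37 v38 v39 v40 v41 : ℕ} (h : ∀ v ∈ [v0, v1, v2, v3, v4, v5, v6, v7, v8, v9, v10, v11, v12, v13, v14, v15, v16, v17, v18, v19, v20, v21, v22, v23, v24, v25, v26, v27, v28, v29, v30, v31, v32, v33, v34, v35, v36, v37, v38, v39, v40, v41], v < 1048576) : fldn 40 (pk [v0, v1, v2, v3, v4, v5, v6, v7, v8, v9, v10, v11, v12, v13, v14, v15, v16, v17, v18, v19, v20, v21, v22, v23, v24, v25, v26, v27, v28, v29, v30, v31, v32, v33, v34, v35, v36, v37, v38, v39, v40, v41]) = v2 := fldn_pk _ 2 h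
theorem gs3 {v0 v1 v2 v3 v4 v5 v6 v7 v8 v9 v10 v11 v12 v13 v14 v15 v16 v17 v18 v19 v20 v21 v22 v23 v24 v25 v26 v27 v28 v29 v30 v31 v32 v33 v34 v35 v36 v37 v38 v39 v40 v41 : ℕ} (h : ∀ v ∈ [v0, v1, v2, v3, v4, v5, v6, v7, v8, v9, v10, v11, v12, v13, v14, v15, v16, v17, v18, v19, v20, v21, v22, v23, v24, v25, v26, v27, v28, v29, v30, v31, v32, v33, v34, v35, v36, v37, v38, v39, v40, v41], v < 1048576) : fldn 60 (pk [v0, v1, v2, v3, v4, v5, v6, v7, v8, v9, v10, v11, v12, v13, v14, v15, v16, v17, v18, v19, v20, v21, v22, v23, v24, v25, v26, v27, v28, v29, v30, v31, v32, v33, v34, v35, v36, v37, v38, v39, v40, v41]) = v3 := fldn_pk _ 3 h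
theorem gs4 {v0 v1 v2 v3 v4 v5 v6 v7 v8 v9 v10 v11 v12 v13 v14 v15 v16 v17 v18 v19 v20 v21 v22 v23 v24 v25 v26 v27 v28 v29 v30 v31 v32 v33 v34 v35 v36 v37 v38 v39 v40 v41 : ℕ} (h : ∀ v ∈ [v0, v1, v2, v3, v4, v5, v6, v7, v8, v9, v10, v11, v12, v13, v14, v15, v16, v17, v18, v19, v20, v21, v22, v23, v24, v25, v26, v27, v28, v29, v30, v31, v32, v33, v34, v35, v36, v37, v38, v39, v40, v41], v < 1048576) : fldn 80 (pk [v0, v1, v2, v3, v4, v5, v6, v7, v8, v9, v10, v11, v12, v13, v14, v15, v16, v17, v18, v19, v20, v21, v22, v23, v24, v25, v26, v27, v28, v29, v30, v31, v32, v33, v34, v35, v36, v37, v38, v39, v40, v41]) = v4 := fldn_pk _ 4 h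
theorem gs5 {v0 v1 v2 v3 v4 v5 v6 v7 v8 v9 v10 v11 v12 v13 v14 v15 v16 v17 v18 v19 v20 v21 v22 v23 v24 v25 v26 v27 v28 v29 v30 v31 v32 v33 v34 v35 v36 v37 v38 v39 v40 v41 : ℕ} (h : ∀ v ∈ [v0, v1, v2, v3, v4, v5, v6, v7, v8, v9, v10, v11, v12, v13, v14, v15, v16, v17, v18, v19, v20, v21, v22, v23, v24, v25, v26, v27, v28, v29, v30, v31, v32, v33, v34, v35, v36, v37, v38, v39, v40, v41], v < 1048576) : fldn 100 (pk [v0, v1, v2, v3, v4, v5, v6, v7, v8, v9, v10, v11, v12, v13, v14, v15, v16, v17, v18, v19, v20, v21, v22, v23, v24, v25, v26, v27, v28, v29, v30, v31, v32, v33, v34, v35, v36, v37, v38, v39, v40, v41]) = v5 := fldn_pk _ 5 h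
theorem gs6 {v0 v1 v2 v3 v4 v5 v6 v7 v8 v9 v10 v11 v12 v13 v14 v15 v16 v17 v18 v19 v20 v21 v22 v23 v24 v25 v26 v27 v28 v29 v30 v31 v32 v33 v34 v35 v36 v37 v38 v39 v40 v41 : ℕ} (h : ∀ v ∈ [v0, v1, v2, v3, v4, v5, v6, v7, v8, v9, v10, v11, v12, v13, v14, v15, v16, v17, v18, v19, v20, v21, v22, v23, v24, v25, v26, v27, v28, v29, v30, v31, v32, v33, v34, v35, v36, v37, v38, v39, v40, v41], v < 1048576) : fldn 120 (pk [v0, v1, v2, v3, v4, v5, v6, v7, v8, v9, v10, v11, v12, v13, v14, v15, v16, v17, v18, v19, v20, v21, v22, v23, v24, v25, v26, v27, v28, v29, v30, v31, v32, v33, v34, v35, v36, v37, v38, v39, v40, v41]) = v6 := fldn_pk _ 6 h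
theorem gs7 {v0 v1 v2 v3 v4 v5 v6 v7 v8 v9 v10 v11 v12 v13 v14 v15 v16 v17 v18 v19 v20 v21 v22 v23 v24 v25 v26 v27 v28 v29 v30 v31 v32 v33 v34 v35 v36 v37 v38 v39 v40 v41 : ℕ} (h : ∀ v ∈ [v0, v1, v2, v3, v4, v5, v6, v7, v8, v9, v10, v11, v12, v13, v14, v15, v16, v17, v18, v19, v20, v21, v22, v23, v24, v25, v26, v27, v28, v29, v30, v31, v32, v33, v34, v35, v36, v37, v38, v39, v40, v41], v < 1048576) : fldn 140 (pk [v0, v1, v2, v3, v4, v5, v6, v7, v8, v9, v10, v11, v12, v13, v14, v15, v16, v17, v18, v19, v20, v21, v22, v23, v24, v25, v26, v27, v28, v29, v30, v31, v32, v33, v34, v35, v36, v37, v38, v39, v40, v41]) = v7 := fldn_pk _ 7 h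
theorem gs8 {v0 v1 v2 v3 v4 v5 v6 v7 v8 v9 v10 v11 v12 v13 v14 v15 v16 v17 v18 v19 v20 v21 v22 v23 v24 v25 v26 v27 v28 v29 v30 v31 v32 v33 v34 v35 v36 v37 v38 v39 v40 v41 : ℕ} (h : ∀ v ∈ [v0, v1, v2, v3, v4, v5, v6, v7, v8, v9, v10, v11, v12, v13, v14, v15, v16, v17, v18, v19, v20, v21, v22, v23, v24, v25, v26, v27, v28, v29, v30, v31, v32, v33, v34, v35, v36, v37, v38, v39, v40, v41], v < 1048576) : fldn 160 (pk [v0, v1, v2, v3, v4, v5, v6, v7, v8, v9, v10, v11, v12, v13, v14, v15, v16, v17, v18, v19, v20, v21, v22, v23, v24, v25, v26, v27, v28, v29, v30, v31, v32, v33, v34, v35, v36, v37, v38, v39, v40, v41]) = v8 := fldn_pk _ 8 h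
theorem gs9 {v0 v1 v2 v3 v4 v5 v6 v7 v8 v9 v10 v11 v12 v13 v14 v15 v16 v17 v18 v19 v20 v21 v22 v23 v24 v25 v26 v27 v28 v29 v30 v31 v32 v33 v34 v35 v36 v37 v38 v39 v40 v41 : ℕ} (h : ∀ v ∈ [v0, v1, v2, v3, v4, v5, v6, v7, v8, v9, v10, v11, v12, v13, v14, v15, v16, v17, v18, v19, v20, v21, v22, v23, v24, v25, v26, v27, v28, v29, v30, v31, v32, v33, v34, v35, v36, v37, v38, v39, v40, v41], v < 1048576) : fldn 180 (pk [v0, v1, v2, v3, v4, v5, v6, v7, v8, v9, v10, v11, v12, v13, v14, v15, v16, v17, v18, v19, v20, v21, v22, v23, v24, v25, v26, v27, v28, v29, v30, v31, v32, v33, v34, v35, v36, v37, v38, v39, v40, v41]) = v9 := fldn_pk _ 9 h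
theorem gs10 {v0 v1 v2 v3 v4 v5 v6 v7 v8 v9 v10 v11 v12 v13 v14 v15 v16 v17 v18 v19 v20 v21 v22 v23 v24 v25 v26 v27 v28 v29 v30 v31 v32 v33 v34 v35 v36 v37 v38 v39 v40 v41 : ℕ} (h : ∀ v ∈ [v0, v1, v2, v3, v4, v5, v6, v7, v8, v9, v10, v11, v12, v13, v14, v15, v16, v17, v18, v19, v20, v21, v22, v23, v24, v25, v26, v27, v28, v29, v30, v31, v32, v33, v34, v35, v36, v37, v38, v39, v40, v41], v < 1048576) : fldn 200 (pk [v0, v1, v2, v3, v4, v5, v6, v7, v8, v9, v10, v11, v12, v13, v14, v15, v16, v17, v18, v19, v20, v21, v22, v23, v24, v25, v26, v27, v28, v29, v30, v31, v32, v33, v34, v35, v36, v37, v38, v39, v40, v41]) = v10 := fldn_pk _ 10 h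
theorem gs11 {v0 v1 v2 v3 v4 v5 v6 v7 v8 v9 v10 v11 v12 v13 v14 v15 v16 v17 v18 v19 v20 v21 v22 v23 v24 v25 v26 v27 v28 v29 v30 v31 v32 v33 v34 v35 v36 v37 v38 v39 v40 v41 : ℕ} (h : ∀ v ∈ [v0, v1, v2, v3, v4, v5, v6, v7, v8, v9, v10, v11, v12, v13, v14, v15, v16, v17, v18, v19, v20, v21, v22, v23, v24, v25, v26, v27, v28, v29, v30, v31, v32, v33, v34, v35, v36, v37, v38, v39, v40, v41], v < 1048576) : fldn 220 (pk [v0, v1, v2, v3, v4, v5, v6, v7, v8, v9, v10, v11, v12, v13, v14, v15, v16, v17, v18, v19, v20, v21, v22, v23, v24, v25, v26, v27, v28, v29, v30, v31, v32, v33, v34, v35, v36, v37, v38, v39, v40, v41]) = v11 := fldn_pk _ 11 h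
theorem gs12 {v0 v1 v2 v3 v4 v5 v6 v7 v8 v9 v10 v11 v12 v13 v14 v15 v16 v17 v18 v19 v20 v21 v22 v23 v24 v25 v26 v27 v28 v29 v30 v31 v32 v33 v34 v35 v36 v37 v38 v39 v40 v41 : ℕ} (h : ∀ v ∈ [v0, v1, v2, v3, v4, v5, v6, v7, v8, v9, v10, v11, v12, v13, v14, v15, v16, v17, v18, v19, v20, v21, v22, v23, v24, v25, v26, v27, v28, v29, v30, v31, v32, v33, v34, v35, v36, v37, v38, v39, v40, v41], v < 1048576) : fldn 240 (pk [v0, v1, v2, v3, v4, v5, v6, v7, v8, v9, v10, v11, v12, v13, v14, v15, v16, v17, v18, v19, v20, v21, v22, v23, v24, v25, v26, v27, v28, v29, v30, v31, v32, v33, v34, v35, v36, v37, v38, v39, v40, v41]) = v12 := fldn_pk _ 12 h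
theorem gs13 {v0 v1 v2 v3 v4 v5 v6 v7 v8 v9 v10 v11 v12 v13 v14 v15 v16 v17 v18 v19 v20 v21 v22 v23 v24 v25 v26 v27 v28 v29 v30 v31 v32 v33 v34 v35 v36 v37 v38 v39 v40 v41 : ℕ} (h : ∀ v ∈ [v0, v1, v2, v3, v4, v5, v6, v7, v8, v9, v10, v11, v12, v13, v14, v15, v16, v17, v18, v19, v20, v21, v22, v23, v24, v25, v26, v27, v28, v29, v30, v31, v32, v33, v34, v35, v36, v37, v38, v39, v40, v41], v < 1048576) : fldn 260 (pk [v0, v1, v2, v3, v4, v5, v6, v7, v8, v9, v10, v11, v12, v13, v14, v15, v16, v17, v18, v19, v20, v21, v22, v23, v24, v25, v26, v27, v28, v29, v30, v31, v32, v33, v34, v35, v36, v37, v38, v39, v40, v41]) = v13 := fldn_pk _ 13 h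
theorem gs14 {v0 v1 v2 v3 v4 v5 v6 v7 v8 v9 v10 v11 v12 v13 v14 v15 v16 v17 v18 v19 v20 v21 v22 v23 v24 v25 v26 v27 v28 v29 v30 v31 v32 v33 v34 v35 v36 v37 v38 v39 v40 v41 : ℕ} (h : ∀ v ∈ [v0, v1, v2, v3, v4, v5, v6, v7, v8, v9, v10, v11, v12, v13, v14, v15, v16, v17, v18, v19, v20, v21, v22, v23, v24, v25, v26, v27, v28, v29, v30, v31, v32, v33, v34, v35, v36, v37, v38, v39, v40, v41], v < 1048576) : fldn 280 (pk [v0, v1, v2, v3, v4, v5, v6, v7, v8, v9, v10, v11, v12, v13, v14, v15, v16, v17, v18, v19, v20, v21, v22, v23, v24, v25, v26, v27, v28, v29, v30, v31, v32, v33, v34, v35, v36, v37, v38, v39, v40, v41]) = v14 := fldn_pk _ 14 h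
theorem gs15 {v0 v1 v2 v3 v4 v5 v6 v7 v8 v9 v10 v11 v12 v13 v14 v15 v16 v17 v18 v19 v20 v21 v22 v23 v24 v25 v26 v27 v28 v29 v30 v31 v32 v33 v34 v35 v36 v37 v38 v39 v40 v41 : ℕ} (h : ∀ v ∈ [v0, v1, v2, v3, v4, v5, v6, v7, v8, v9, v10, v11, v12, v13, v14, v15, v16, v17, v18, v19, v20, v21, v22, v23, v24, v25, v26, v27, v28, v29, v30, v31, v32, v33, v34, v35, v36, v37, v38, v39, v40, v41], v < 1048576) : fldn 300 (pk [v0, v1, v2, v3, v4, v5, v6, v7, v8, v9, v10, v11, v12, v13, v14, v15, v16, v17, v18, v19, v20, v21, v22, v23, v24, v25, v26, v27, v28, v29, v30, v31, v32, v33, v34, v35, v36, v37, v38, v39, v40, v41]) = v15 := fldn_pk _ 15 h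
theorem gs16 {v0 v1 v2 v3 v4 v5 v6 v7 v8 v9 v10 v11 v12 v13 v14 v15 v16 v17 v18 v19 v20 v21 v22 v23 v24 v25 v26 v27 v28 v29 v30 v31 v32 v33 v34 v35 v36 v37 v38 v39 v40 v41 : ℕ} (h : ∀ v ∈ [v0, v1, v2, v3, v4, v5, v6, v7, v8, v9, v10, v11, v12, v13, v14, v15, v16, v17, v18, v19, v20, v21, v22, v23, v24, v25, v26, v27, v28, v29, v30, v31, v32, v33, v34, v35, v36, v37, v38, v39, v40, v41], v < 1048576) : fldn 320 (pk [v0, v1, v2, v3, v4, v5, v6, v7, v8, v9, v10, v11, v12, v13, v14, v15, v16, v17, v18, v19, v20, v21, v22, v23, v24, v25, v26, v27, v28, v29, v30, v31, v32, v33, v34, v35, v36, v37, v38, v39, v40, v41]) = v16 := fldn_pk _ 16 h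
theorem gs17 {v0 v1 v2 v3 v4 v5 v6 v7 v8 v9 v10 v11 v12 v13 v14 v15 v16 v17 v18 v19 v20 v21 v22 v23 v24 v25 v26 v27 v28 v29 v30 v31 v32 v33 v34 v35 v36 v37 v38 v39 v40 v41 : ℕ} (h : ∀ v ∈ [v0, v1, v2, v3, v4, v5, v6, v7, v8, v9, v10, v11, v12, v13, v14, v15, v16, v17, v18, v19, v20, v21, v22, v23, v24, v25, v26, v27, v28, v29, v30, v31, v32, v33, v34, v35, v36, v37, v38, v39, v40, v41], v < 1048576) : fldn 340 (pk [v0, v1, v2, v3, v4, v5, v6, v7, v8, v9, v10, v11, v12, v13, v14, v15, v16, v17, v18, v19, v20, v21, v22, v23, v24, v25, v26, v27, v28, v29, v30, v31, v32, v33, v34, v35, v36, v37, v38, v39, v40, v41]) = v17 := fldn_pk _ 17 h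
theorem gs18 {v0 v1 v2 v3 v4 v5 v6 v7 v8 v9 v10 v11 v12 v13 v14 v15 v16 v17 v18 v19 v20 v21 v22 v23 v24 v25 v26 v27 v28 v29 v30 v31 v32 v33 v34 v35 v36 v37 v38 v39 v40 v41 : ℕ} (h : ∀ v ∈ [v0, v1, v2, v3, v4, v5, v6, v7, v8, v9, v10, v11, v12, v13, v14, v15, v16, v17, v18, v19, v20, v21, v22, v23, v24, v25, v26, v27, v28, v29, v30, v31, v32, v33, v34, v35, v36, v37, v38, v39, v40, v41], v < 1048576) : fldn 360 (pk [v0, v1, v2, v3, v4, v5, v6, v7, v8, v9, v10, v11, v12, v13, v14, v15, v16, v17, v18, v19, v20, v21, v22, v23, v24, v25, v26, v27, v28, v29, v30, v31, v32, v33, v34, v35, v36, v37, v38, v39, v40, v41]) = v18 := fldn_pk _ 18 h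
theorem gs19 {v0 v1 v2 v3 v4 v5 v6 v7 v8 v9 v10 v11 v12 v13 v14 v15 v16 v17 v18 v19 v20 v21 v22 v23 v24 v25 v26 v27 v28 v29 v30 v31 v32 v33 v34 v35 v36 v37 v38 v39 v40 v41 : ℕ} (h : ∀ v ∈ [v0, v1, v2, v3, v4, v5, v6, v7, v8, v9, v10, v11, v12, v13, v14, v15, v16, v17, v18, v19, v20, v21, v22, v23, v24, v25, v26, v27, v28, v29, v30, v31, v32, v33, v34, v35, v36, v37, v38, v39, v40, v41], v < 1048576) : fldn 380 (pk [v0, v1, v2, v3, v4, v5, v6, v7, v8, v9, v10, v11, v12, v13, v14, v15, v16, v17, v18, v19, v20, v21, v22, v23, v24, v25, v26, v27, v28, v29, v30, v31, v32, v33, v34, v35, v36, v37, v38, v39, v40, v41]) = v19 := fldn_pk _ 19 h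
theorem gs20 {v0 v1 v2 v3 v4 v5 v6 v7 v8 v9 v10 v11 v12 v13 v14 v15 v16 v17 v18 v19 v20 v21 v22 v23 v24 v25 v26 v27 v28 v29 v30 v31 v32 v33 v34 v35 v36 v37 v38 v39 v40 v41 : ℕ} (h : ∀ v ∈ [v0, v1, v2, v3, v4, v5, v6, v7, v8, v9, v10, v11, v12, v13, v14, v15, v16, v17, v18, v19, v20, v21, v22, v23, v24, v25, v26, v27, v28, v29, v30, v31, v32, v33, v34, v35, v36, v37, v38, v39, v40, v41], v < 1048576) : fldn 400 (pk [v0, v1, v2, v3, v4, v5, v6, v7, v8, v9, v10, v11, v12, v13, v14, v15, v16, v17, v18, v19, v20, v21, v22, v23, v24, v25, v26, v27, v28, v29, v30, v31, v32, v33, v34, v35, v36, v37, v38, v39, v40, v41]) = v20 := fldn_pk _ 20 h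
theorem gs21 {v0 v1 v2 v3 v4 v5 v6 v7 v8 v9 v10 v11 v12 v13 v14 v15 v16 v17 v18 v19 v20 v21 v22 v23 v24 v25 v26 v27 v28 v29 v30 v31 v32 v33 v34 v35 v36 v37 v38 v39 v40 v41 : ℕ} (h : ∀ v ∈ [v0, v1, v2, v3, v4, v5, v6, v7, v8, v9, v10, v11, v12, v13, v14, v15, v16, v17, v18, v19, v20, v21, v22, v23, v24, v25, v26, v27, v28, v29, v30, v31, v32, v33, v34, v35, v36, v37, v38, v39, v40, v41], v < 1048576) : fldn 420 (pk [v0, v1, v2, v3, v4, v5, v6, v7, v8, v9, v10, v11, v12, v13, v14, v15, v16, v17, v18, v19, v20, v21, v22, v23, v24, v25, v26, v27, v28, v29, v30, v31, v32, v33, v34, v35, v36, v37, v38, v39, v40, v41]) = v21 := fldn_pk _ 21 h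
theorem gs22 {v0 v1 v2 v3 v4 v5 v6 v7 v8 v9 v10 v11 v12 v13 v14 v15 v16 v17 v18 v19 v20 v21 v22 v23 v24 v25 v26 v27 v28 v29 v30 v31 v32 v33 v34 v35 v36 v37 v38 v39 v40 v41 : ℕ} (h : ∀ v ∈ [v0, v1, v2, v3, v4, v5, v6, v7, v8, v9, v10, v11, v12, v13, v14, v15, v16, v17, v18, v19, v20, v21, v22, v23, v24, v25, v26, v27, v28, v29, v30, v31, v32, v33, v34, v35, v36, v37, v38, v39, v40, v41], v < 1048576) : fldn 440 (pk [v0, v1, v2, v3, v4, v5, v6, v7, v8, v9, v10, v11, v12, v13, v14, v15, v16, v17, v18, v19, v20, v21, v22, v23, v24, v25, v26, v27, v28, v29, v30, v31, v32, v33, v34, v35, v36, v37, v38, v39, v40, v41]) = v22 := fldn_pk _ 22 h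
theorem gs23 {v0 v1 v2 v3 v4 v5 v6 v7 v8 v9 v10 v11 v12 v13 v14 v15 v16 v17 v18 v19 v20 v21 v22 v23 v24 v25 v26 v27 v28 v29 v30 v31 v32 v33 v34 v35 v36 v37 v38 v39 v40 v41 : ℕ} (h : ∀ v ∈ [v0, v1, v2, v3, v4, v5, v6, v7, v8, v9, v10, v11, v12, v13, v14, v15, v16, v17, v18, v19, v20, v21, v22, v23, v24, v25, v26, v27, v28, v29, v30, v31, v32, v33, v34, v35, v36, v37, v38, v39, v40, v41], v < 1048576) : fldn 460 (pk [v0, v1, v2, v3, v4, v5, v6, v7, v8, v9, v10, v11, v12, v13, v14, v15, v16, v17, v18, v19, v20, v21, v22, v23, v24, v25, v26, v27, v28, v29, v30, v31, v32, v33, v34, v35, v36, v37, v38, v39, v40, v41]) = v23 := fldn_pk _ 23 h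
theorem gs24 {v0 v1 v2 v3 v4 v5 v6 v7 v8 v9 v10 v11 v12 v13 v14 v15 v16 v17 v18 v19 v20 v21 v22 v23 v24 v25 v26 v27 v28 v29 v30 v31 v32 v33 v34 v35 v36 v37 v38 v39 v40 v41 : ℕ} (h : ∀ v ∈ [v0, v1, v2, v3, v4, v5, v6, v7, v8, v9, v10, v11, v12, v13, v14, v15, v16, v17, v18, v19, v20, v21, v22, v23, v24, v25, v26, v27, v28, v29, v30, v31, v32, v33, v34, v35, v36, v37, v38, v39, v40, v41], v < 1048576) : fldn 480 (pk [v0, v1, v2, v3, v4, v5, v6, v7, v8, v9, v10, v11, v12, v13, v14, v15, v16, v17, v18, v19, v20, v21, v22, v23, v24, v25, v26, v27, v28, v29, v30, v31, v32, v33, v34, v35, v36, v37, v38, v39, v40, v41]) = v24 := fldn_pk _ 24 h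
theorem gs25 {v0 v1 v2 v3 v4 v5 v6 v7 v8 v9 v10 v11 v12 v13 v14 v15 v16 v17 v18 v19 v20 v21 v22 v23 v24 v25 v26 v27 v28 v29 v30 v31 v32 v33 v34 v35 v36 v37 v38 v39 v40 v41 : ℕ} (h : ∀ v ∈ [v0, v1, v2, v3, v4, v5, v6, v7, v8, v9, v10, v11, v12, v13, v14, v15, v16, v17, v18, v19, v20, v21, v22, v23, v24, v25, v26, v27, v28, v29, v30, v31, v32, v33, v34, v35, v36, v37, v38, v39, v40, v41], v < 1048576) : fldn 500 (pk [v0, v1, v2, v3, v4, v5, v6, v7, v8, v9, v10, v11, v12, v13, v14, v15, v16, v17, v18, v19, v20, v21, v22, v23, v24, v25, v26, v27, v28, v29, v30, v31, v32, v33, v34, v35, v36, v37, v38, v39, v40, v41]) = v25 := fldn_pk _ 25 h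
theorem gs26 {v0 v1 v2 v3 v4 v5 v6 v7 v8 v9 v10 v11 v12 v13 v14 v15 v16 v17 v18 v19 v20 v21 v22 v23 v24 v25 v26 v27 v28 v29 v30 v31 v32 v33 v34 v35 v36 v37 v38 v39 v40 v41 : ℕ} (h : ∀ v ∈ [v0, v1, v2, v3, v4, v5, v6, v7, v8, v9, v10, v11, v12, v13, v14, v15, v16, v17, v18, v19, v20, v21, v22, v23, v24, v25, v26, v27, v28, v29, v30, v31, v32, v33, v34, v35, v36, v37, v38, v39, v40, v41], v < 1048576) : fldn 520 (pk [v0, v1, v2, v3, v4, v5, v6, v7, v8, v9, v10, v11, v12, v13, v14, v15, v16, v17, v18, v19, v20, v21, v22, v23, v24, v25, v26, v27, v28, v29, v30, v31, v32, v33, v34, v35, v36, v37, v38, v39, v40, v41]) = v26 := fldn_pk _ 26 h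
theorem gs27 {v0 v1 v2 v3 v4 v5 v6 v7 v8 v9 v10 v11 v12 v13 v14 v15 v16 v17 v18 v19 v20 v21 v22 v23 v24 v25 v26 v27 v28 v29 v30 v31 v32 v33 v34 v35 v36 v37 v38 v39 v40 v41 : ℕ} (h : ∀ v ∈ [v0, v1, v2, v3, v4, v5, v6, v7, v8, v9, v10, v11, v12, v13, v14, v15, v16, v17, v18, v19, v20, v21, v22, v23, v24, v25, v26, v27, v28, v29, v30, v31, v32, v33, v34, v35, v36, v37, v38, v39, v40, v41], v < 1048576) : fldn 540 (pk [v0, v1, v2, v3, v4, v5, v6, v7, v8, v9, v10, v11, v12, v13, v14, v15, v16, v17, v18, v19, v20, v21, v22, v23, v24, v25, v26, v27, v28, v29, v30, v31, v32, v33, v34, v35, v36, v37, v38, v39, v40, v41]) = v27 := fldn_pk _ 27 h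
theorem gs28 {v0 v1 v2 v3 v4 v5 v6 v7 v8 v9 v10 v11 v12 v13 v14 v15 v16 v17 v18 v19 v20 v21 v22 v23 v24 v25 v26 v27 v28 v29 v30 v31 v32 v33 v34 v35 v36 v37 v38 v39 v40 v41 : ℕ} (h : ∀ v ∈ [v0, v1, v2, v3, v4, v5, v6, v7, v8, v9, v10, v11, v12, v13, v14, v15, v16, v17, v18, v19, v20, v21, v22, v23, v24, v25, v26, v27, v28, v29, v30, v31, v32, v33, v34, v35, v36, v37, v38, v39, v40, v41], v < 1048576) : fldn 560 (pk [v0, v1, v2, v3, v4, v5, v6, v7, v8, v9, v10, v11, v12, v13, v14, v15, v16, v17, v18, v19, v20, v21, v22, v23, v24, v25, v26, v27, v28, v29, v30, v31, v32, v33, v34, v35, v36, v37, v38, v39, v40, v41]) = v28 := fldn_pk _ 28 h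
theorem gs29 {v0 v1 v2 v3 v4 v5 v6 v7 v8 v9 v10 v11 v12 v13 v14 v15 v16 v17 v18 v19 v20 v21 v22 v23 v24 v25 v26 v27 v28 v29 v30 v31 v32 v33 v34 v35 v36 v37 v38 v39 v40 v41 : ℕ} (h : ∀ v ∈ [v0, v1, v2, v3, v4, v5, v6, v7, v8, v9, v10, v11, v12, v13, v14, v15, v16, v17, v18, v19, v20, v21, v22, v23, v24, v25, v26, v27, v28, v29, v30, v31, v32, v33, v34, v35, v36, v37, v38, v39, v40, v41], v < 1048576) : fldn 580 (pk [v0, v1, v2, v3, v4, v5, v6, v7, v8, v9, v10, v11, v12, v13, v14, v15, v16, v17, v18, v19, v20, v21, v22, v23, v24, v25, v26, v27, v28, v29, v30, v31, v32, v33, v34, v35, v36, v37, v38, v39, v40, v41]) = v29 := fldn_pk _ 29 h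
theorem gs30 {v0 v1 v2 v3 v4 v5 v6 v7 v8 v9 v10 v11 v12 v13 v14 v15 v16 v17 v18 v19 v20 v21 v22 v23 v24 v25 v26 v27 v28 v29 v30 v31 v32 v33 v34 v35 v36 v37 v38 v39 v40 v41 : ℕ} (h : ∀ v ∈ [v0, v1, v2, v3, v4, v5, v6, v7, v8, v9, v10, v11, v12, v13, v14, v15, v16, v17, v18, v19, v20, v21, v22, v23, v24, v25, v26, v27, v28, v29, v30, v31, v32, v33, v34, v35, v36, v37, v38, v39, v40, v41], v < 1048576) : fldn 600 (pk [v0, v1, v2, v3, v4, v5, v6, v7, v8, v9, v10, v11, v12, v13, v14, v15, v16, v17, v18, v19, v20, v21, v22, v23, v24, v25, v26, v27, v28, v29, v30, v31, v32, v33, v34, v35, v36, v37, v38, v39, v40, v41]) = v30 := fldn_pk _ 30 h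
theorem gs31 {v0 v1 v2 v3 v4 v5 v6 v7 v8 v9 v10 v11 v12 v13 v14 v15 v16 v17 v18 v19 v20 v21 v22 v23 v24 v25 v26 v27 v28 v29 v30 v31 v32 v33 v34 v35 v36 v37 v38 v39 v40 v41 : ℕ} (h : ∀ v ∈ [v0, v1, v2, v3, v4, v5, v6, v7, v8, v9, v10, v11, v12, v13, v14, v15, v16, v17, v18, v19, v20, v21, v22, v23, v24, v25, v26, v27, v28, v29, v30, v31, v32, v33, v34, v35, v36, v37, v38, v39, v40, v41], v < 1048576) : fldn 620 (pk [v0, v1, v2, v3, v4, v5, v6, v7, v8, v9, v10, v11, v12, v13, v14, v15, v16, v17, v18, v19, v20, v21, v22, v23, v24, v25, v26, v27, v28, v29, v30, v31, v32, v33, v34, v35, v36, v37, v38, v39, v40, v41]) = v31 := fldn_pk _ 31 h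
theorem gs32 {v0 v1 v2 v3 v4 v5 v6 v7 v8 v9 v10 v11 v12 v13 v14 v15 v16 v17 v18 v19 v20 v21 v22 v23 v24 v25 v26 v27 v28 v29 v30 v31 v32 v33 v34 v35 v36 v37 v38 v39 v40 v41 : ℕ} (h : ∀ v ∈ [v0, v1, v2, v3, v4, v5, v6, v7, v8, v9, v10, v11, v12, v13, v14, v15, v16, v17, v18, v19, v20, v21, v22, v23, v24, v25, v26, v27, v28, v29, v30, v31, v32, v33, v34, v35, v36, v37, v38, v39, v40, v41], v < 1048576) : fldn 640 (pk [v0, v1, v2, v3, v4, v5, v6, v7, v8, v9, v10, v11, v12, v13, v14, v15, v16, v17, v18, v19, v20, v21, v22, v23, v24, v25, v26, v27, v28, v29, v30, v31, v32, v33, v34, v35, v36, v37, v38, v39, v40, v41]) = v32 := fldn_pk _ 32 h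
theorem gs33 {v0 v1 v2 v3 v4 v5 v6 v7 v8 v9 v10 v11 v12 v13 v14 v15 v16 v17 v18 v19 v20 v21 v22 v23 v24 v25 v26 v27 v28 v29 v30 v31 v32 v33 v34 v35 v36 v37 v38 v39 v40 v41 : ℕ} (h : ∀ v ∈ [v0, v1, v2, v3, v4, v5, v6, v7, v8, v9, v10, v11, v12, v13, v14, v15, v16, v17, v18, v19, v20, v21, v22, v23, v24, v25, v26, v27, v28, v29, v30, v31, v32, v33, v34, v35, v36, v37, v38, v39, v40, v41], v < 1048576) : fldn 660 (pk [v0, v1, v2, v3, v4, v5, v6, v7, v8, v9, v10, v11, v12, v13, v14, v15, v16, v17, v18, v19, v20, v21, v22, v23, v24, v25, v26, v27, v28, v29, v30, v31, v32, v33, v34, v35, v36, v37, v38, v39, v40, v41]) = v33 := fldn_pk _ 33 h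
theorem gs34 {v0 v1 v2 v3 v4 v5 v6 v7 v8 v9 v10 v11 v12 v13 v14 v15 v16 v17 v18 v19 v20 v21 v22 v23 v24 v25 v26 v27 v28 v29 v30 v31 v32 v33 v34 v35 v36 v37 v38 v39 v40 v41 : ℕ} (h : ∀ v ∈ [v0, v1, v2, v3, v4, v5, v6, v7, v8, v9, v10, v11, v12, v13, v14, v15, v16, v17, v18, v19, v20, v21, v22, v23, v24, v25, v26, v27, v28, v29, v30, v31, v32, v33, v34, v35, v36, v37, v38, v39, v40, v41], v < 1048576) : fldn 680 (pk [v0, v1, v2, v3, v4, v5, v6, v7, v8, v9, v10, v11, v12, v13, v14, v15, v16, v17, v18, v19, v20, v21, v22, v23, v24, v25, v26, v27, v28, v29, v30, v31, v32, v33, v34, v35, v36, v37, v38, v39, v40, v41]) = v34 := fldn_pk _ 34 h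
theorem gs35 {v0 v1 v2 v3 v4 v5 v6 v7 v8 v9 v10 v11 v12 v13 v14 v15 v16 v17 v18 v19 v20 v21 v22 v23 v24 v25 v26 v27 v28 v29 v30 v31 v32 v33 v34 v35 v36 v37 v38 v39 v40 v41 : ℕ} (h : ∀ v ∈ [v0, v1, v2, v3, v4, v5, v6, v7, v8, v9, v10, v11, v12, v13, v14, v15, v16, v17, v18, v19, v20, v21, v22, v23, v24, v25, v26, v27, v28, v29, v30, v31, v32, v33, v34, v35, v36, v37, v38, v39, v40, v41], v < 1048576) : fldn 700 (pk [v0, v1, v2, v3, v4, v5, v6, v7, v8, v9, v10, v11, v12, v13, v14, v15, v16, v17, v18, v19, v20, v21, v22, v23, v24, v25, v26, v27, v28, v29, v30, v31, v32, v33, v34, v35, v36, v37, v38, v39, v40, v41]) = v35 := fldn_pk _ 35 h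
theorem gs36 {v0 v1 v2 v3 v4 v5 v6 v7 v8 v9 v10 v11 v12 v13 v14 v15 v16 v17 v18 v19 v20 v21 v22 v23 v24 v25 v26 v27 v28 v29 v30 v31 v32 v33 v34 v35 v36 v37 v38 v39 v40 v41 : ℕ} (h : ∀ v ∈ [v0, v1, v2, v3, v4, v5, v6, v7, v8, v9, v10, v11, v12, v13, v14, v15, v16, v17, v18, v19, v20, v21, v22, v23, v24, v25, v26, v27, v28, v29, v30, v31, v32, v33, v34, v35, v36, v37, v38, v39, v40, v41], v < 1048576) : fldn 720 (pk [v0, v1, v2, v3, v4, v5, v6, v7, v8, v9, v10, v11, v12, v13, v14, v15, v16, v17, v18, v19, v20, v21, v22, v23, v24, v25, v26, v27, v28, v29, v30, v31, v32, v33, v34, v35, v36, v37, v38, v39, v40, v41]) = v36 := fldn_pk _ 36 h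
theorem gs37 {v0 v1 v2 v3 v4 v5 v6 v7 v8 v9 v10 v11 v12 v13 v14 v15 v16 v17 v18 v19 v20 v21 v22 v23 v24 v25 v26 v27 v28 v29 v30 v31 v32 v33 v34 v35 v36 v37 v38 v39 v40 v41 : ℕ} (h : ∀ v ∈ [v0, v1, v2, v3, v4, v5, v6, v7, v8, v9, v10, v11, v12, v13, v14, v15, v16, v17, v18, v19, v20, v21, v22, v23, v24, v25, v26, v27, v28, v29, v30, v31, v32, v33, v34, v35, v36, v37, v38, v39, v40, v41], v < 1048576) : fldn 740 (pk [v0, v1, v2, v3, v4, v5, v6, v7, v8, v9, v10, v11, v12, v13, v14, v15, v16, v17, v18, v19, v20, v21, v22, v23, v24, v25, v26, v27, v28, v29, v30, v31, v32, v33, v34, v35, v36, v37, v38, v39, v40, v41]) = v37 := fldn_pk _ 37 h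
theorem gs38 {v0 v1 v2 v3 v4 v5 v6 v7 v8 v9 v10 v11 v12 v13 v14 v15 v16 v17 v18 v19 v20 v21 v22 v23 v24 v25 v26 v27 v28 v29 v30 v31 v32 v33 v34 v35 v36 v37 v38 v39 v40 v41 : ℕ} (h : ∀ v ∈ [v0, v1, v2, v3, v4, v5, v6, v7, v8, v9, v10, v11, v12, v13, v14, v15, v16, v17, v18, v19, v20, v21, v22, v23, v24, v25, v26, v27, v28, v29, v30, v31, v32, v33, v34, v35, v36, v37, v38, v39, v40, v41], v < 1048576) : fldn 760 (pk [v0, v1, v2, v3, v4, v5, v6, v7, v8, v9, v10, v11, v12, v13, v14, v15, v16, v17, v18, v19, v20, v21, v22, v23, v24, v25, v26, v27, v28, v29, v30, v31, v32, v33, v34, v35, v36, v37, v38, v39, v40, v41]) = v38 := fldn_pk _ 38 h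
theorem gs39 {v0 v1 v2 v3 v4 v5 v6 v7 v8 v9 v10 v11 v12 v13 v14 v15 v16 v17 v18 v19 v20 v21 v22 v23 v24 v25 v26 v27 v28 v29 v30 v31 v32 v33 v34 v35 v36 v37 v38 v39 v40 v41 : ℕ} (h : ∀ v ∈ [v0, v1, v2, v3, v4, v5, v6, v7, v8, v9, v10, v11, v12, v13, v14, v15, v16, v17, v18, v19, v20, v21, v22, v23, v24, v25, v26, v27, v28, v29, v30, v31, v32, v33, v34, v35, v36, v37, v38, v39, v40, v41], v < 1048576) : fldn 780 (pk [v0, v1, v2, v3, v4, v5, v6, v7, v8, v9, v10, v11, v12, v13, v14, v15, v16, v17, v18, v19, v20, v21, v22, v23, v24, v25, v26, v27, v28, v29, v30, v31, v32, v33, v34, v35, v36, v37, v38, v39, v40, v41]) = v39 := fldn_pk _ 39 h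
theorem gs40 {v0 v1 v2 v3 v4 v5 v6 v7 v8 v9 v10 v11 v12 v13 v14 v15 v16 v17 v18 v19 v20 v21 v22 v23 v24 v25 v26 v27 v28 v29 v30 v31 v32 v33 v34 v35 v36 v37 v38 v39 v40 v41 : ℕ} (h : ∀ v ∈ [v0, v1, v2, v3, v4, v5, v6, v7, v8, v9, v10, v11, v12, v13, v14, v15, v16, v17, v18, v19, v20, v21, v22, v23, v24, v25, v26, v27, v28, v29, v30, v31, v32, v33, v34, v35, v36, v37, v38, v39, v40, v41], v < 1048576) : fldn 800 (pk [v0, v1, v2, v3, v4, v5, v6, v7, v8, v9, v10, v11, v12, v13, v14, v15, v16, v17, v18, v19, v20, v21, v22, v23, v24, v25, v26, v27, v28, v29, v30, v31, v32, v33, v34, v35, v36, v37, v38, v39, v40, v41]) = v40 := fldn_pk _ 40 h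
theorem gs41 {v0 v1 v2 v3 v4 v5 v6 v7 v8 v9 v10 v11 v12 v13 v14 v15 v16 v17 v18 v19 v20 v21 v22 v23 v24 v25 v26 v27 v28 v29 v30 v31 v32 v33 v34 v35 v36 v37 v38 v39 v40 v41 : ℕ} (h : ∀ v ∈ [v0, v1, v2, v3, v4, v5, v6, v7, v8, v9, v10, v11, v12, v13, v14, v15, v16, v17, v18, v19, v20, v21, v22, v23, v24, v25, v26, v27, v28, v29, v30, v31, v32, v33, v34, v35, v36, v37, v38, v39, v40, v41], v < 1048576) : fldn 820 (pk [v0, v1, v2, v3, v4, v5, v6, v7, v8, v9, v10, v11, v12, v13, v14, v15, v16, v17, v18, v19, v20, v21, v22, v23, v24, v25, v26, v27, v28, v29, v30, v31, v32, v33, v34, v35, v36, v37, v38, v39, v40, v41]) = v41 := fldn_pk _ 41 h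
section
variable {V : Type} (E : V → V → V → ℕ)

def hC (a b c d e f g : V) : ℕ := c5 (E a f g) (E b f g) (E c f g) (E d f g) (E e f g)

def gM (a b c d e : V) : ℕ := E a b c * 0x10000100001000010000100001000000040000000004000000000400000010000100001000010000000400000000040000000004000000100001000000040000000004000000000400000000040000000004000000000400000000000000000000000000000000 + (E a b d * 0x20000200002000020000000400000010000100000008000000000800000020000200000004000000100001000000080000000008000000000400000010000100000008000000000800004000000000000000000000000000000000040000000004000000000000 + (E a c d * 0x40000400004000040000000800000000080000001000010000001000000040000400000008000000000800000010000100000010000000000800000000080000001000010000001000000000000000400000000000000000004000000000000000000000000400 + (E b c d * 0x80000800008000080000001000000000100000000010000000100001000080000800000010000000001000000000100000001000010000001000000000100000000010000000100001000000000000000000000040000000000000000000400000000040000000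 + (E a b e * 0x100001000000004000000200002000020000200000020000000002000000000040000002000020000200002000000200000000020000040000000004000000000000000000000000000000010000100000008000000000800000000080000000008000000000000 + (E a c e * 0x200002000000008000000400004000000200000002000020000004000000000080000004000040000002000000020000200000040000080000000000000000000400000000000000000000000080000001000010000001000008000000000000000000000000800 + (E b c e * 0x400004000000010000000800008000000400000000040000000200002000000100000008000080000004000000000400000002000020100000000000000000000000000000040000000000000100000000010000000100001000000000000800000000080000000 + (E a d e * 0x800008000000020000000002000000040000400004000040000008000000000200000000020000000400004000040000400000080000000000000008000000000800000000000000000008000000000800000000000000000000010000100000010000000001000 + (E b d e * 0x1000010000000040000000004000000080000800000080000000400004000000400000000040000000800008000000800000004000040000000000010000000000000000000080000000010000000000000000000080000000000000100000001000010100000000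 + (E c d e * 0x2000020000000080000000008000000000800000008000080000800008000000800000000080000000008000000080000800008000080000000000000000000001000000000100000000000000000001000000000100000000010000000001000000000000100001)))))))))

def g6 (a b c d e f : V) : ℕ := E a b f * 0x40000010000100001000010000100001000000100000000010000004000000000400000000040000000000000000000000000000000200002000020000200000020000000002000000020000200000020000000002000000000200000000020000000000000 + (E a c f * 0x80000020000200002000020000001000000010000100000020000008000000000800000000000000000004000000000000000000000400004000000200000002000020000004000000000200000002000020000004000020000000000000000000000002000 + (E b c f * 0x100000040000400004000040000002000000000200000001000010010000000001000000000000000000000000000000400000000000800008000000400000000040000000200002000000400000000040000000200002000000000002000000000200000000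 + (E a d f * 0x200000080000800000010000000200002000020000200000040000020000000000000000000080000000008000000000000000000000002000000040000400004000040000008000020000000002000000000000000000000020000200000040000000004000 + (E b d f * 0x400000100001000000020000000400004000000400000002000020040000000000000000000100000000000000000000800000000000004000000080000800000080000000400004040000000000000000000200000000000000400000002000020400000000 + (E c d f * 0x800000200002000000040000000004000000040000400004000040080000000000000000000000000000010000000001000000000000008000000000800000008000080000800008000000000004000000000400000000040000000004000000000000200002 + (E a e f * 0x1000000000100000008000080000800008000080000800000080000000000000002000000000200000000020000000000000000000200000000020000000002000000000000000000000040000400004000040000008000000040000400000080000000008000 + (E b e f * 0x2000000000200000010000100001000010000000800000008000080000000000004000000000400000000000000000002000000000400000000040000000000000000000200000000000080000800000080000000400004000000800000004000040800000000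 + (E c e f * 0x4000000000400000020000200000008000000100001000010000100000000000008000000000000000000040000000004000000000800000000000000000004000000000400000000000000800000008000080000800008080000000008000000000000400004 + (E d e f * 0x8000000000800000000080000002000020000200002000020000200000000000000000000000800000000080000000008000000000000000000080000000008000000000800000000080000000008000000000800000000000080000800008000080000800008)))))))))

def gF (a b c d e g : V) : ℕ := E a b g * 0x4000000000400000000040000000004000000000000000000000000000000100001000010000100001000010000001000000000100000001000010000100001000000100000000010000000100001000000100000000010000000001000000000100000000000000 + (E a c g * 0x8000000000800000000080000000000000000000400000000000000000000200002000020000200000010000000100001000000200000002000020000001000000010000100000020000000001000000010000100000020000100000000000000000000000010000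 + (E b c g * 0x10000000001000000000100000000000000000000000000000040000000000400004000040000400000020000000002000000010000100004000040000002000000000200000001000010000002000000000200000001000010000000000010000000001000000000 + (E a d g * 0x20000000002000000000000000000008000000000800000000000000000000800008000000100000002000020000200002000000400000000010000000200002000020000200000040000100000000010000000000000000000000100001000000200000000020000 + (E b d g * 0x40000000004000000000000000000010000000000000000000080000000001000010000000200000004000040000004000000020000200000020000000400004000000400000002000020200000000000000000001000000000000002000000010000102000000000 + (E c d g * 0x80000000008000000000000000000000000000001000000000100000000002000020000000400000000040000000400004000040000400000040000000004000000040000400004000040000000000020000000002000000000200000000020000000000001000010 + (E a e g *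 0x100000000000000000000200000000020000000002000000000000000000000001000000080000800008000080000800008000000800001000000000100000000010000000000000000000000200002000020000200000040000000200002000000400000000040000 + (E b e g * 0x200000000000000000000400000000040000000000000000000200000000000002000000100001000010000100000008000000080000802000000000200000000000000000001000000000000400004000000400000002000020000004000000020000204000000000 + (E c e g * 0x400000000000000000000800000000000000000004000000000400000000000004000000200002000000080000001000010000100001004000000000000000000020000000002000000000000004000000040000400004000040400000000040000000000002000020 + (E d e g * 0x800000000000000000000000000000080000000008000000000800000000000008000000000800000020000200002000020000200002000000000000400000000040000000004000000000400000000040000000004000000000000400004000040000400004000040)))))))))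

def gH (a b c d e f g : V) : ℕ := E a f g * 0x10000000001000000000100000000010000000000000000000100000000010000000001000000000100000000000000000000008000080000800008000080000800000080000000800008000080000800000080000000800008000000800000000080000 + (E b f g * 0x20000000002000000000200000000000000000001000000000200000000020000000002000000000000000000010000000000010000100001000010000000800000008000080001000010000000800000008000080000008000000080000808000000000 + (E c f g * 0x40000000004000000000000000000020000000002000000000400000000040000000000000000000200000000020000000000020000200000008000000100001000010000100000008000000100001000010000100800000000080000000000008000080 + (E d f g * 0x80000000000000000000400000000040000000004000000000800000000000000000004000000000400000000040000000000000080000002000020000200002000020000200800000000080000000008000000000001000010000100001000010000100 + (E e f g * 0x8000000000800000000080000000008000000000000000000080000000008000000000800000000080000000008000000000800000000080000000008000000000002000020000200002000020000200002000020000200002000020000200))))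

def XBV (a b c d e f : V) : ℕ := gM E a b c d e + g6 E a b c d e f
def XV (a b c d e f g : V) : ℕ := XBV E a b c d e f + gF E a b c d e g + gH E a b c d e f g

variable {E}

theorem gM_eq (hE : Sy E) (a b c d e : V) : XM (mC E a b c d e) = gM E a b c d e := ac10 (hE.b _ _ _) (hE.b _ _ _) (hE.b _ _ _) (hE.b _ _ _) (hE.b _ _ _) (hE.b _ _ _) (hE.b _ _ _) (hE.b _ _ _) (hE.b _ _ _) (hE.b _ _ _)
theorem g6_eq (hE : Sy E) (a b c d e f : V) : X6 (lC E a b c d e f) = g6 E a b c d e f := ac10 (hE.b _ _ _) (hE.b _ _ _) (hE.b _ _ _) (hE.b _ _ _) (hE.b _ _ _) (hE.b _ _ _) (hE.b _ _ _) (hE.b _ _ _) (hE.b _ _ _) (hE.b _ _ _)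
theorem gF_eq (hE : Sy E) (a b c d e g : V) : XF (lC E a b c d e g) = gF E a b c d e g := ac10 (hE.b _ _ _) (hE.b _ _ _) (hE.b _ _ _) (hE.b _ _ _) (hE.b _ _ _) (hE.b _ _ _) (hE.b _ _ _) (hE.b _ _ _) (hE.b _ _ _) (hE.b _ _ _)
theorem gH_eq (hE : Sy E) (a b c d e f g : V) : XH (hC E a b c d e f g) = gH E a b c d e f g := ac5 (hE.b _ _ _) (hE.b _ _ _) (hE.b _ _ _) (hE.b _ _ _) (hE.b _ _ _)

theorem XV_pk (hE : Sy E) (a b c d e f g : V) : XV E a b c d e f g =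
    pk [cc E c d e f g a, cc E c d e f g b, cc E b d e f g a, cc E b d e f g c, cc E a d e f g b, cc E a d e f g c, cc E b c e f g a, cc E b c e f g d, cc E a c e f g b, cc E a c e f g d, cc E a b e f g c, cc E a b e f g d, cc E b c d f g a, cc E b c d f g e, cc E a c d f g b, cc E a c d f g e, cc E a b d f g c, cc E a b d f g e, cc E a b c f g d, cc E a b c f g e, cc E b c d e g a, cc E b c d e g f, cc E a c d e g b, cc E a c d e g f, cc E a b d e g c, cc E a b d e g f, cc E a b c e g d, cc E a b c e g f, cc E a b c d g e, cc E a b c d g f, cc E b c d e f a, cc E b c d e f g, cc E a c d e f b, cc E a c d e f g, cc E a b d e f c, cc E a b d e f g, cc E a b c e f d, cc E a b c e f g, cc E a b c d f e, cc E a b c d f g, cc E a b c d e f, cc E a b c d e g] := by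
  simp only [XV, XBV, gM, g6, gF, gH, pk, List.foldr, cc, mC, lC, c10, Nat.add_eq, Nat.mul_eq,
    hE.h231 a b c, hE.h132 a b c, hE.h231 a b d, hE.h132 a b d, hE.h231 a c d, hE.h132 a c d, hE.h231 b c d, hE.h132 b c d, hE.h231 a b e, hE.h132 a b e, hE.h231 a c e, hE.h132 a c e, hE.h231 b c e, hE.h132 b c e, hE.h231 a d e, hE.h132 a d e, hE.h231 b d e, hE.h132 b d e, hE.h231 c d e, hE.h132 c d e, hE.h231 a b f, hE.h132 a b f, hE.h231 a c f, hE.h132 a c f, hE.h231 b c f, hE.h132 b c f, hE.h231 a d f, hE.h132 a d f, hE.h231 b d f, hE.h132 b d f, hE.h231 c d f, hE.h132 c d f, hE.h231 a e f, hE.h132 a e f, hE.h231 b e f, hE.h132 b e f, hE.h231 c e f, hE.h132 c e f, hE.h231 d e f, hE.h132 d e f, hE.h231 a b g, hE.h132 a b g, hE.h231 a c g, hE.h132 a c g, hE.h231 b c g, hE.h132 b c g, hE.h231 a d g, hE.h132 a d g, hE.h231 b d g, hE.h132 b d g, hE.h231 c d g, hE.h132 c d g, hE.h231 a e g, hE.h132 a e g, hE.h231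 b e g, hE.h132 b e g, hE.h231 c e g, hE.h132 c e g, hE.h231 d e g, hE.h132 d e g, hE.h231 a f g, hE.h132 a f g, hE.h231 b f g, hE.h132 b f g, hE.h231 c f g, hE.h132 c f g, hE.h231 d f g, hE.h132 d f g, hE.h231 e f g, hE.h132 e f g]
  ring

theorem XBV_pk (hE : Sy E) (a b c d e f : V) : XBV E a b c d e f =
    pk [Nat.add (c10 (E c d e) (E c d f) (E c e f) (E d e f) 0 0 0 0 0 0) (Nat.mul 1024 (c10 (E a c d) (E a c e) (E a d e) (E a c f) (E a d f) (E a e f) 0 0 0 0)),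
     Nat.add (c10 (E c d e) (E c d f) (E c e f) (E d e f) 0 0 0 0 0 0) (Nat.mul 1024 (c10 (E b c d) (E b c e) (E b d e) (E b c f) (E b d f) (E b e f) 0 0 0 0)),
     Nat.add (c10 (E b d e) (E b d f) (E b e f) (E d e f) 0 0 0 0 0 0) (Nat.mul 1024 (c10 (E a b d) (E a b e) (E a d e) (E a b f) (E a d f) (E a e f) 0 0 0 0)),
     Nat.add (c10 (E b d e) (E b d f) (E b e f) (E d e f) 0 0 0 0 0 0) (Nat.mul 1024 (c10 (E b c d) (E b c e) (E c d e) (E b c f) (E c d f) (E c e f) 0 0 0 0)),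
     Nat.add (c10 (E a d e) (E a d f) (E a e f) (E d e f) 0 0 0 0 0 0) (Nat.mul 1024 (c10 (E a b d) (E a b e) (E b d e) (E a b f) (E b d f) (E b e f) 0 0 0 0)),
     Nat.add (c10 (E a d e) (E a d f) (E a e f) (E d e f) 0 0 0 0 0 0) (Nat.mul 1024 (c10 (E a c d) (E a c e) (E c d e) (E a c f) (E c d f) (E c e f) 0 0 0 0)),
     Nat.add (c10 (E b c e) (E b c f) (E b e f) (E c e f) 0 0 0 0 0 0) (Nat.mul 1024 (c10 (E a b c) (E a b e) (E a c e) (E a b f) (E a c f) (E a e f) 0 0 0 0)),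
     Nat.add (c10 (E b c e) (E b c f) (E b e f) (E c e f) 0 0 0 0 0 0) (Nat.mul 1024 (c10 (E b c d) (E b d e) (E c d e) (E b d f) (E c d f) (E d e f) 0 0 0 0)),
     Nat.add (c10 (E a c e) (E a c f) (E a e f) (E c e f) 0 0 0 0 0 0) (Nat.mul 1024 (c10 (E a b c) (E a b e) (E b c e) (E a b f) (E b c f) (E b e f) 0 0 0 0)),
     Nat.add (c10 (E a c e) (E a c f) (E a e f) (E c e f) 0 0 0 0 0 0) (Nat.mul 1024 (c10 (E a c d) (E a d e) (E c d e) (E a d f) (E c d f) (E d e f) 0 0 0 0)),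
     Nat.add (c10 (E a b e) (E a b f) (E a e f) (E b e f) 0 0 0 0 0 0) (Nat.mul 1024 (c10 (E a b c) (E a c e) (E b c e) (E a c f) (E b c f) (E c e f) 0 0 0 0)),
     Nat.add (c10 (E a b e) (E a b f) (E a e f) (E b e f) 0 0 0 0 0 0) (Nat.mul 1024 (c10 (E a b d) (E a d e) (E b d e) (E a d f) (E b d f) (E d e f) 0 0 0 0)),
     Nat.add (c10 (E b c d) (E b c f) (E b d f) (E c d f) 0 0 0 0 0 0) (Nat.mul 1024 (c10 (E a b c) (E a b d) (E a c d) (E a b f) (E a c f) (E a d f) 0 0 0 0)),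
     Nat.add (c10 (E b c d) (E b c f) (E b d f) (E c d f) 0 0 0 0 0 0) (Nat.mul 1024 (c10 (E b c e) (E b d e) (E c d e) (E b e f) (E c e f) (E d e f) 0 0 0 0)),
     Nat.add (c10 (E a c d) (E a c f) (E a d f) (E c d f) 0 0 0 0 0 0) (Nat.mul 1024 (c10 (E a b c) (E a b d) (E b c d) (E a b f) (E b c f) (E b d f) 0 0 0 0)),
     Nat.add (c10 (E a c d) (E a c f) (E a d f) (E c d f) 0 0 0 0 0 0) (Nat.mul 1024 (c10 (E a c e) (E a d e) (E c d e) (E a e f) (E c e f) (E d e f) 0 0 0 0)),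
     Nat.add (c10 (E a b d) (E a b f) (E a d f) (E b d f) 0 0 0 0 0 0) (Nat.mul 1024 (c10 (E a b c) (E a c d) (E b c d) (E a c f) (E b c f) (E c d f) 0 0 0 0)),
     Nat.add (c10 (E a b d) (E a b f) (E a d f) (E b d f) 0 0 0 0 0 0) (Nat.mul 1024 (c10 (E a b e) (E a d e) (E b d e) (E a e f) (E b e f) (E d e f) 0 0 0 0)),
     Nat.add (c10 (E a b c) (E a b f) (E a c f) (E b c f) 0 0 0 0 0 0) (Nat.mul 1024 (c10 (E a b d) (E a c d) (E b c d) (E a d f) (E b d f) (E c d f) 0 0 0 0)),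
     Nat.add (c10 (E a b c) (E a b f) (E a c f) (E b c f) 0 0 0 0 0 0) (Nat.mul 1024 (c10 (E a b e) (E a c e) (E b c e) (E a e f) (E b e f) (E c e f) 0 0 0 0)),
     Nat.add (c10 (E b c d) (E b c e) (E b d e) (E c d e) 0 0 0 0 0 0) (Nat.mul 1024 (c10 (E a b c) (E a b d) (E a c d) (E a b e) (E a c e) (E a d e) 0 0 0 0)),
     Nat.add (c10 (E b c d) (E b c e) (E b d e) (E c d e) 0 0 0 0 0 0) (Nat.mul 1024 (c10 (E b c f) (E b d f) (E c d f) (E b e f) (E c e f) (E d e f) 0 0 0 0)),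
     Nat.add (c10 (E a c d) (E a c e) (E a d e) (E c d e) 0 0 0 0 0 0) (Nat.mul 1024 (c10 (E a b c) (E a b d) (E b c d) (E a b e) (E b c e) (E b d e) 0 0 0 0)),
     Nat.add (c10 (E a c d) (E a c e) (E a d e) (E c d e) 0 0 0 0 0 0) (Nat.mul 1024 (c10 (E a c f) (E a d f) (E c d f) (E a e f) (E c e f) (E d e f) 0 0 0 0)),
     Nat.add (c10 (E a b d) (E a b e) (E a d e) (E b d e) 0 0 0 0 0 0) (Nat.mul 1024 (c10 (E a b c) (E a c d) (E b c d) (E a c e) (E b c e) (E c d e) 0 0 0 0)),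
     Nat.add (c10 (E a b d) (E a b e) (E a d e) (E b d e) 0 0 0 0 0 0) (Nat.mul 1024 (c10 (E a b f) (E a d f) (E b d f) (E a e f) (E b e f) (E d e f) 0 0 0 0)),
     Nat.add (c10 (E a b c) (E a b e) (E a c e) (E b c e) 0 0 0 0 0 0) (Nat.mul 1024 (c10 (E a b d) (E a c d) (E b c d) (E a d e) (E b d e) (E c d e) 0 0 0 0)),
     Nat.add (c10 (E a b c) (E a b e) (E a c e) (E b c e) 0 0 0 0 0 0) (Nat.mul 1024 (c10 (E a b f) (E a c f) (E b c f) (E a e f) (E b e f) (E c e f) 0 0 0 0)),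
     Nat.add (c10 (E a b c) (E a b d) (E a c d) (E b c d) 0 0 0 0 0 0) (Nat.mul 1024 (c10 (E a b e) (E a c e) (E b c e) (E a d e) (E b d e) (E c d e) 0 0 0 0)),
     Nat.add (c10 (E a b c) (E a b d) (E a c d) (E b c d) 0 0 0 0 0 0) (Nat.mul 1024 (c10 (E a b f) (E a c f) (E b c f) (E a d f) (E b d f) (E c d f) 0 0 0 0)),
     cc E b c d e f a,
     Nat.add (c10 (E b c d) (E b c e) (E b d e) (E c d e) (E b c f) (E b d f) (E c d f) (E b e f) (E c e f) (E d e f)) (Nat.mul 1024 (c10 0 0 0 0 0 0 0 0 0 0)),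
     cc E a c d e f b,
     Nat.add (c10 (E a c d) (E a c e) (E a d e) (E c d e) (E a c f) (E a d f) (E c d f) (E a e f) (E c e f) (E d e f)) (Nat.mul 1024 (c10 0 0 0 0 0 0 0 0 0 0)),
     cc E a b d e f c,
     Nat.add (c10 (E a b d) (E a b e) (E a d e) (E b d e) (E a b f) (E a d f) (E b d f) (E a e f) (E b e f) (E d e f)) (Nat.mul 1024 (c10 0 0 0 0 0 0 0 0 0 0)),
     cc E a b c e f d,
     Nat.add (c10 (E a b c) (E a b e) (E a c e) (E b c e) (E a b f) (E a c f) (E b c f) (E a e f) (E b e f) (E c e f)) (Nat.mul 1024 (c10 0 0 0 0 0 0 0 0 0 0)),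
     cc E a b c d f e,
     Nat.add (c10 (E a b c) (E a b d) (E a c d) (E b c d) (E a b f) (E a c f) (E b c f) (E a d f) (E b d f) (E c d f)) (Nat.mul 1024 (c10 0 0 0 0 0 0 0 0 0 0)),
     cc E a b c d e f,
     Nat.add (c10 (E a b c) (E a b d) (E a c d) (E b c d) (E a b e) (E a c e) (E b c e) (E a d e) (E b d e) (E c d e)) (Nat.mul 1024 (c10 0 0 0 0 0 0 0 0 0 0))] := by
  simp only [XBV, gM, g6, pk, List.foldr, cc, mC, lC, c10, Nat.add_eq, Nat.mul_eq,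
    hE.h231 a b c, hE.h132 a b c, hE.h231 a b d, hE.h132 a b d, hE.h231 a c d, hE.h132 a c d, hE.h231 b c d, hE.h132 b c d, hE.h231 a b e, hE.h132 a b e, hE.h231 a c e, hE.h132 a c e, hE.h231 b c e, hE.h132 b c e, hE.h231 a d e, hE.h132 a d e, hE.h231 b d e, hE.h132 b d e, hE.h231 c d e, hE.h132 c d e, hE.h231 a b f, hE.h132 a b f, hE.h231 a c f, hE.h132 a c f, hE.h231 b c f, hE.h132 b c f, hE.h231 a d f, hE.h132 a d f, hE.h231 b d f, hE.h132 b d f, hE.h231 c d f, hE.h132 c d f, hE.h231 a e f, hE.h132 a e f, hE.h231 b e f, hE.h132 b e f, hE.h231 c e f, hE.h132 c e f, hE.h231 d e f, hE.h132 d e f]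
  ring

theorem c20_lt {x y : ℕ} (hx : x < 1024) (hy : y < 1024) : Nat.add x (Nat.mul 1024 y) < 1048576 := by
  show x + 1024 * y < 1048576
  omega

theorem cc_lt (hE : Sy E) (a b c d e x : V) : cc E a b c d e x < 1048576 :=
  c20_lt (c10_lt (hE.b _ _ _) (hE.b _ _ _) (hE.b _ _ _) (hE.b _ _ _) (hE.b _ _ _) (hE.b _ _ _) (hE.b _ _ _) (hE.b _ _ _) (hE.b _ _ _) (hE.b _ _ _)) (c10_lt (hE.b _ _ _) (hE.b _ _ _) (hE.b _ _ _) (hE.b _ _ _) (hE.b _ _ _) (hE.b _ _ _) (hE.b _ _ _) (hE.b _ _ _) (hE.b _ _ _) (hE.b _ _ _))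

theorem b0 : Bt 0 := Or.inl rfl

theorem XV_lt (hE : Sy E) (a b c d e f g : V) : ∀ v ∈ [cc E c d e f g a, cc E c d e f g b, cc E b d e f g a, cc E b d e f g c, cc E a d e f g b, cc E a d e f g c, cc E b c e f g a, cc E b c e f g d, cc E a c e f g b, cc E a c e f g d, cc E a b e f g c, cc E a b e f g d, cc E b c d f g a, cc E b c d f g e, cc E a c d f g b, cc E a c d f g e, cc E a b d f g c, cc E a b d f g e, cc E a b c f g d, cc E a b c f g e, cc E b c d e g a, cc E b c d e g f, cc E a c d e g b, cc E a c d e g f, cc E a b d e g c, cc E a b d e g f, cc E a b c e g d, cc E a b c e g f, cc E a b c d g e, cc E a b c d g f, cc E b c d e f a, cc E b c d e f g, cc E a c d e f b, cc E a c d e f g, cc E a b d e f c, cc E a b d e f g, cc E a b c e f d, cc E a b c e f g, cc E a b c d f e, cc E a b c d f g, cc E a b c d e f, cc E a b c d e g], v < 1048576 :=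
  (List.forall_mem_cons.2 ⟨cc_lt hE _ _ _ _ _ _, (List.forall_mem_cons.2 ⟨cc_lt hE _ _ _ _ _ _, (List.forall_mem_cons.2 ⟨cc_lt hE _ _ _ _ _ _, (List.forall_mem_cons.2 ⟨cc_lt hE _ _ _ _ _ _, (List.forall_mem_cons.2 ⟨cc_lt hE _ _ _ _ _ _, (List.forall_mem_cons.2 ⟨cc_lt hE _ _ _ _ _ _, (List.forall_mem_cons.2 ⟨cc_lt hE _ _ _ _ _ _, (List.forall_mem_cons.2 ⟨cc_lt hE _ _ _ _ _ _, (List.forall_mem_cons.2 ⟨cc_lt hE _ _ _ _ _ _, (List.forall_mem_cons.2 ⟨cc_lt hE _ _ _ _ _ _, (List.forall_mem_cons.2 ⟨cc_lt hE _ _ _ _ _ _, (List.forall_mem_cons.2 ⟨cc_lt hE _ _ _ _ _ _, (List.forall_mem_cons.2 ⟨cc_lt hE _ _ _ _ _ _, (List.forall_mem_cons.2 ⟨cc_lt hE _ _ _ _ _ _, (List.forall_mem_cons.2 ⟨cc_lt hE _ _ _ _ _ _, (List.forall_mem_cons.2 ⟨cc_lt hE _ _ _ _ _ _, (List.forall_mem_cons.2 ⟨cc_lt hE _ _ _ _ _ _, (List.forall_mem_cons.2 ⟨cc_lt hE _ _ _ _ _ _, (List.forall_mem_cons.2 ⟨cc_lt hE _ _ _ _ _ _, (List.forall_mem_cons.2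 ⟨cc_lt hE _ _ _ _ _ _, (List.forall_mem_cons.2 ⟨cc_lt hE _ _ _ _ _ _, (List.forall_mem_cons.2 ⟨cc_lt hE _ _ _ _ _ _, (List.forall_mem_cons.2 ⟨cc_lt hE _ _ _ _ _ _, (List.forall_mem_cons.2 ⟨cc_lt hE _ _ _ _ _ _, (List.forall_mem_cons.2 ⟨cc_lt hE _ _ _ _ _ _, (List.forall_mem_cons.2 ⟨cc_lt hE _ _ _ _ _ _, (List.forall_mem_cons.2 ⟨cc_lt hE _ _ _ _ _ _, (List.forall_mem_cons.2 ⟨cc_lt hE _ _ _ _ _ _, (List.forall_mem_cons.2 ⟨cc_lt hE _ _ _ _ _ _, (List.forall_mem_cons.2 ⟨cc_lt hE _ _ _ _ _ _, (List.forall_mem_cons.2 ⟨cc_lt hE _ _ _ _ _ _, (List.forall_mem_cons.2 ⟨cc_lt hE _ _ _ _ _ _, (List.forall_mem_cons.2 ⟨cc_lt hE _ _ _ _ _ _, (List.forall_mem_cons.2 ⟨cc_lt hE _ _ _ _ _ _, (List.forall_mem_cons.2 ⟨cc_lt hE _ _ _ _ _ _, (List.forall_mem_cons.2 ⟨cc_lt hE _ _ _ _ _ _, (List.forall_mem_cons.2 ⟨cc_lt hE _ _ _ _ _ _, (List.forall_mem_cons.2 ⟨cc_lt hE _ _ _ _ _ _, (List.forall_mem_cons.2 ⟨cc_lt hE _ _ _ _ _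 _, (List.forall_mem_cons.2 ⟨cc_lt hE _ _ _ _ _ _, (List.forall_mem_cons.2 ⟨cc_lt hE _ _ _ _ _ _, (List.forall_mem_cons.2 ⟨cc_lt hE _ _ _ _ _ _, (List.forall_mem_nil _)⟩)⟩)⟩)⟩)⟩)⟩)⟩)⟩)⟩)⟩)⟩)⟩)⟩)⟩)⟩)⟩)⟩)⟩)⟩)⟩)⟩)⟩)⟩)⟩)⟩)⟩)⟩)⟩)⟩)⟩)⟩)⟩)⟩)⟩)⟩)⟩)⟩)⟩)⟩)⟩)⟩)⟩)

theorem XBV_lt (hE : Sy E) (a b c d e f : V) : ∀ v ∈ [Nat.add (c10 (E c d e) (E c d f) (E c e f) (E d e f) 0 0 0 0 0 0) (Nat.mul 1024 (c10 (E a c d) (E a c e) (E a d e) (E a c f) (E a d f) (E a e f) 0 0 0 0)),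
     Nat.add (c10 (E c d e) (E c d f) (E c e f) (E d e f) 0 0 0 0 0 0) (Nat.mul 1024 (c10 (E b c d) (E b c e) (E b d e) (E b c f) (E b d f) (E b e f) 0 0 0 0)),
     Nat.add (c10 (E b d e) (E b d f) (E b e f) (E d e f) 0 0 0 0 0 0) (Nat.mul 1024 (c10 (E a b d) (E a b e) (E a d e) (E a b f) (E a d f) (E a e f) 0 0 0 0)),
     Nat.add (c10 (E b d e) (E b d f) (E b e f) (E d e f) 0 0 0 0 0 0) (Nat.mul 1024 (c10 (E b c d) (E b c e) (E c d e) (E b c f) (E c d f) (E c e f) 0 0 0 0)),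
     Nat.add (c10 (E a d e) (E a d f) (E a e f) (E d e f) 0 0 0 0 0 0) (Nat.mul 1024 (c10 (E a b d) (E a b e) (E b d e) (E a b f) (E b d f) (E b e f) 0 0 0 0)),
     Nat.add (c10 (E a d e) (E a d f) (E a e f) (E d e f) 0 0 0 0 0 0) (Nat.mul 1024 (c10 (E a c d) (E a c e) (E c d e) (E a c f) (E c d f) (E c e f) 0 0 0 0)),
     Nat.add (c10 (E b c e) (E b c f) (E b e f) (E c e f) 0 0 0 0 0 0) (Nat.mul 1024 (c10 (E a b c) (E a b e) (E a c e) (E a b f) (E a c f) (E a e f) 0 0 0 0)),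
     Nat.add (c10 (E b c e) (E b c f) (E b e f) (E c e f) 0 0 0 0 0 0) (Nat.mul 1024 (c10 (E b c d) (E b d e) (E c d e) (E b d f) (E c d f) (E d e f) 0 0 0 0)),
     Nat.add (c10 (E a c e) (E a c f) (E a e f) (E c e f) 0 0 0 0 0 0) (Nat.mul 1024 (c10 (E a b c) (E a b e) (E b c e) (E a b f) (E b c f) (E b e f) 0 0 0 0)),
     Nat.add (c10 (E a c e) (E a c f) (E a e f) (E c e f) 0 0 0 0 0 0) (Nat.mul 1024 (c10 (E a c d) (E a d e) (E c d e) (E a d f) (E c d f) (E d e f) 0 0 0 0)),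
     Nat.add (c10 (E a b e) (E a b f) (E a e f) (E b e f) 0 0 0 0 0 0) (Nat.mul 1024 (c10 (E a b c) (E a c e) (E b c e) (E a c f) (E b c f) (E c e f) 0 0 0 0)),
     Nat.add (c10 (E a b e) (E a b f) (E a e f) (E b e f) 0 0 0 0 0 0) (Nat.mul 1024 (c10 (E a b d) (E a d e) (E b d e) (E a d f) (E b d f) (E d e f) 0 0 0 0)),
     Nat.add (c10 (E b c d) (E b c f) (E b d f) (E c d f) 0 0 0 0 0 0) (Nat.mul 1024 (c10 (E a b c) (E a b d) (E a c d) (E a b f) (E a c f) (E a d f) 0 0 0 0)),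
     Nat.add (c10 (E b c d) (E b c f) (E b d f) (E c d f) 0 0 0 0 0 0) (Nat.mul 1024 (c10 (E b c e) (E b d e) (E c d e) (E b e f) (E c e f) (E d e f) 0 0 0 0)),
     Nat.add (c10 (E a c d) (E a c f) (E a d f) (E c d f) 0 0 0 0 0 0) (Nat.mul 1024 (c10 (E a b c) (E a b d) (E b c d) (E a b f) (E b c f) (E b d f) 0 0 0 0)),
     Nat.add (c10 (E a c d) (E a c f) (E a d f) (E c d f) 0 0 0 0 0 0) (Nat.mul 1024 (c10 (E a c e) (E a d e) (E c d e) (E a e f) (E c e f) (E d e f) 0 0 0 0)),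
     Nat.add (c10 (E a b d) (E a b f) (E a d f) (E b d f) 0 0 0 0 0 0) (Nat.mul 1024 (c10 (E a b c) (E a c d) (E b c d) (E a c f) (E b c f) (E c d f) 0 0 0 0)),
     Nat.add (c10 (E a b d) (E a b f) (E a d f) (E b d f) 0 0 0 0 0 0) (Nat.mul 1024 (c10 (E a b e) (E a d e) (E b d e) (E a e f) (E b e f) (E d e f) 0 0 0 0)),
     Nat.add (c10 (E a b c) (E a b f) (E a c f) (E b c f) 0 0 0 0 0 0) (Nat.mul 1024 (c10 (E a b d) (E a c d) (E b c d) (E a d f) (E b d f) (E c d f) 0 0 0 0)),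
     Nat.add (c10 (E a b c) (E a b f) (E a c f) (E b c f) 0 0 0 0 0 0) (Nat.mul 1024 (c10 (E a b e) (E a c e) (E b c e) (E a e f) (E b e f) (E c e f) 0 0 0 0)),
     Nat.add (c10 (E b c d) (E b c e) (E b d e) (E c d e) 0 0 0 0 0 0) (Nat.mul 1024 (c10 (E a b c) (E a b d) (E a c d) (E a b e) (E a c e) (E a d e) 0 0 0 0)),
     Nat.add (c10 (E b c d) (E b c e) (E b d e) (E c d e) 0 0 0 0 0 0) (Nat.mul 1024 (c10 (E b c f) (E b d f) (E c d f) (E b e f) (E c e f) (E d e f) 0 0 0 0)),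
     Nat.add (c10 (E a c d) (E a c e) (E a d e) (E c d e) 0 0 0 0 0 0) (Nat.mul 1024 (c10 (E a b c) (E a b d) (E b c d) (E a b e) (E b c e) (E b d e) 0 0 0 0)),
     Nat.add (c10 (E a c d) (E a c e) (E a d e) (E c d e) 0 0 0 0 0 0) (Nat.mul 1024 (c10 (E a c f) (E a d f) (E c d f) (E a e f) (E c e f) (E d e f) 0 0 0 0)),
     Nat.add (c10 (E a b d) (E a b e) (E a d e) (E b d e) 0 0 0 0 0 0) (Nat.mul 1024 (c10 (E a b c) (E a c d) (E b c d) (E a c e) (E b c e) (E c d e) 0 0 0 0)),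
     Nat.add (c10 (E a b d) (E a b e) (E a d e) (E b d e) 0 0 0 0 0 0) (Nat.mul 1024 (c10 (E a b f) (E a d f) (E b d f) (E a e f) (E b e f) (E d e f) 0 0 0 0)),
     Nat.add (c10 (E a b c) (E a b e) (E a c e) (E b c e) 0 0 0 0 0 0) (Nat.mul 1024 (c10 (E a b d) (E a c d) (E b c d) (E a d e) (E b d e) (E c d e) 0 0 0 0)),
     Nat.add (c10 (E a b c) (E a b e) (E a c e) (E b c e) 0 0 0 0 0 0) (Nat.mul 1024 (c10 (E a b f) (E a c f) (E b c f) (E a e f) (E b e f) (E c e f) 0 0 0 0)),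
     Nat.add (c10 (E a b c) (E a b d) (E a c d) (E b c d) 0 0 0 0 0 0) (Nat.mul 1024 (c10 (E a b e) (E a c e) (E b c e) (E a d e) (E b d e) (E c d e) 0 0 0 0)),
     Nat.add (c10 (E a b c) (E a b d) (E a c d) (E b c d) 0 0 0 0 0 0) (Nat.mul 1024 (c10 (E a b f) (E a c f) (E b c f) (E a d f) (E b d f) (E c d f) 0 0 0 0)),
     cc E b c d e f a,
     Nat.add (c10 (E b c d) (E b c e) (E b d e) (E c d e) (E b c f) (E b d f) (E c d f) (E b e f) (E c e f) (E d e f)) (Nat.mul 1024 (c10 0 0 0 0 0 0 0 0 0 0)),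
     cc E a c d e f b,
     Nat.add (c10 (E a c d) (E a c e) (E a d e) (E c d e) (E a c f) (E a d f) (E c d f) (E a e f) (E c e f) (E d e f)) (Nat.mul 1024 (c10 0 0 0 0 0 0 0 0 0 0)),
     cc E a b d e f c,
     Nat.add (c10 (E a b d) (E a b e) (E a d e) (E b d e) (E a b f) (E a d f) (E b d f) (E a e f) (E b e f) (E d e f)) (Nat.mul 1024 (c10 0 0 0 0 0 0 0 0 0 0)),
     cc E a b c e f d,
     Nat.add (c10 (E a b c) (E a b e) (E a c e) (E b c e) (E a b f) (E a c f) (E b c f) (E a e f) (E b e f) (E c e f)) (Nat.mul 1024 (c10 0 0 0 0 0 0 0 0 0 0)),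
     cc E a b c d f e,
     Nat.add (c10 (E a b c) (E a b d) (E a c d) (E b c d) (E a b f) (E a c f) (E b c f) (E a d f) (E b d f) (E c d f)) (Nat.mul 1024 (c10 0 0 0 0 0 0 0 0 0 0)),
     cc E a b c d e f,
     Nat.add (c10 (E a b c) (E a b d) (E a c d) (E b c d) (E a b e) (E a c e) (E b c e) (E a d e) (E b d e) (E c d e)) (Nat.mul 1024 (c10 0 0 0 0 0 0 0 0 0 0))], v < 1048576 :=
  (List.forall_mem_cons.2 ⟨c20_lt (c10_lt (hE.b _ _ _) (hE.b _ _ _) (hE.b _ _ _) (hE.b _ _ _) b0 b0 b0 b0 b0 b0) (c10_lt (hE.b _ _ _) (hE.b _ _ _) (hE.b _ _ _) (hE.b _ _ _) (hE.b _ _ _) (hE.b _ _ _) b0 b0 b0 b0), (List.forall_mem_cons.2 ⟨c20_lt (c10_lt (hE.b _ _ _) (hE.b _ _ _) (hE.b _ _ _) (hE.b _ _ _) b0 b0 b0 b0 b0 b0) (c10_lt (hE.b _ _ _) (hE.b _ _ _) (hE.b _ _ _) (hE.b _ _ _) (hE.b _ _ _) (hE.b _ _ _) b0 b0 b0 b0), (List.forall_mem_cons.2 ⟨c20_lt (c10_lt (hE.b _ _ _) (hE.b _ _ _) (hE.b _ _ _) (hE.b _ _ _) b0 b0 b0 b0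 b0 b0) (c10_lt (hE.b _ _ _) (hE.b _ _ _) (hE.b _ _ _) (hE.b _ _ _) (hE.b _ _ _) (hE.b _ _ _) b0 b0 b0 b0), (List.forall_mem_cons.2 ⟨c20_lt (c10_lt (hE.b _ _ _) (hE.b _ _ _) (hE.b _ _ _) (hE.b _ _ _) b0 b0 b0 b0 b0 b0) (c10_lt (hE.b _ _ _) (hE.b _ _ _) (hE.b _ _ _) (hE.b _ _ _) (hE.b _ _ _) (hE.b _ _ _) b0 b0 b0 b0), (List.forall_mem_cons.2 ⟨c20_lt (c10_lt (hE.b _ _ _) (hE.b _ _ _) (hE.b _ _ _) (hE.b _ _ _) b0 b0 b0 b0 b0 b0) (c10_lt (hE.b _ _ _) (hE.b _ _ _) (hE.b _ _ _) (hE.b _ _ _) (hE.b _ _ _) (hE.b _ _ _) b0 b0 b0 b0), (List.forall_mem_cons.2 ⟨c20_lt (c10_lt (hE.b _ _ _) (hE.b _ _ _) (hE.b _ _ _) (hE.b _ _ _) b0 b0 b0 b0 b0 b0) (c10_lt (hE.b _ _ _) (hE.b _ _ _) (hE.b _ _ _) (hE.b _ _ _) (hE.b _ _ _) (hE.b _ _ _) b0 b0 b0 b0), (List.forall_mem_cons.2 ⟨c20_lt (c10_lt (hE.b _ _ _) (hE.b _ _ _) (hE.b _ _ _) (hE.b _ _ _) b0 b0 b0 b0 b0 b0) (c10_lt (hE.b _ _ _) (hE.b _ _ _) (hE.b _ _ _) (hE.b _ _ _) (hE.b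 _ _ _) (hE.b _ _ _) b0 b0 b0 b0), (List.forall_mem_cons.2 ⟨c20_lt (c10_lt (hE.b _ _ _) (hE.b _ _ _) (hE.b _ _ _) (hE.b _ _ _) b0 b0 b0 b0 b0 b0) (c10_lt (hE.b _ _ _) (hE.b _ _ _) (hE.b _ _ _) (hE.b _ _ _) (hE.b _ _ _) (hE.b _ _ _) b0 b0 b0 b0), (List.forall_mem_cons.2 ⟨c20_lt (c10_lt (hE.b _ _ _) (hE.b _ _ _) (hE.b _ _ _) (hE.b _ _ _) b0 b0 b0 b0 b0 b0) (c10_lt (hE.b _ _ _) (hE.b _ _ _) (hE.b _ _ _) (hE.b _ _ _) (hE.b _ _ _) (hE.b _ _ _) b0 b0 b0 b0), (List.forall_mem_cons.2 ⟨c20_lt (c10_lt (hE.b _ _ _) (hE.b _ _ _) (hE.b _ _ _) (hE.b _ _ _) b0 b0 b0 b0 b0 b0) (c10_lt (hE.b _ _ _) (hE.b _ _ _) (hE.b _ _ _) (hE.b _ _ _) (hE.b _ _ _) (hE.b _ _ _) b0 b0 b0 b0), (List.forall_mem_cons.2 ⟨c20_lt (c10_lt (hE.b _ _ _) (hE.b _ _ _) (hE.b _ _ _) (hE.b _ _ _) b0 b0 b0 b0 b0 b0) (c10_lt (hE.b _ _ _) (hE.b _ _ _) (hE.b _ _ _) (hE.b _ _ _) (hE.b _ _ _) (hE.b _ _ _) b0 b0 b0 b0), (List.forall_mem_cons.2 ⟨c20_lt (c10_lt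 (hE.b _ _ _) (hE.b _ _ _) (hE.b _ _ _) (hE.b _ _ _) b0 b0 b0 b0 b0 b0) (c10_lt (hE.b _ _ _) (hE.b _ _ _) (hE.b _ _ _) (hE.b _ _ _) (hE.b _ _ _) (hE.b _ _ _) b0 b0 b0 b0), (List.forall_mem_cons.2 ⟨c20_lt (c10_lt (hE.b _ _ _) (hE.b _ _ _) (hE.b _ _ _) (hE.b _ _ _) b0 b0 b0 b0 b0 b0) (c10_lt (hE.b _ _ _) (hE.b _ _ _) (hE.b _ _ _) (hE.b _ _ _) (hE.b _ _ _) (hE.b _ _ _) b0 b0 b0 b0), (List.forall_mem_cons.2 ⟨c20_lt (c10_lt (hE.b _ _ _) (hE.b _ _ _) (hE.b _ _ _) (hE.b _ _ _) b0 b0 b0 b0 b0 b0) (c10_lt (hE.b _ _ _) (hE.b _ _ _) (hE.b _ _ _) (hE.b _ _ _) (hE.b _ _ _) (hE.b _ _ _) b0 b0 b0 b0), (List.forall_mem_cons.2 ⟨c20_lt (c10_lt (hE.b _ _ _) (hE.b _ _ _) (hE.b _ _ _) (hE.b _ _ _) b0 b0 b0 b0 b0 b0) (c10_lt (hE.b _ _ _) (hE.b _ _ _) (hE.b _ _ _) (hE.b _ _ _) (hE.b _ _ _) (hE.b _ _ _) b0 b0 b0 b0), (List.forall_mem_cons.2 ⟨c20_lt (c10_lt (hE.b _ _ _) (hE.b _ _ _) (hE.b _ _ _) (hE.b _ _ _) b0 b0 b0 b0 b0 b0)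 (c10_lt (hE.b _ _ _) (hE.b _ _ _) (hE.b _ _ _) (hE.b _ _ _) (hE.b _ _ _) (hE.b _ _ _) b0 b0 b0 b0), (List.forall_mem_cons.2 ⟨c20_lt (c10_lt (hE.b _ _ _) (hE.b _ _ _) (hE.b _ _ _) (hE.b _ _ _) b0 b0 b0 b0 b0 b0) (c10_lt (hE.b _ _ _) (hE.b _ _ _) (hE.b _ _ _) (hE.b _ _ _) (hE.b _ _ _) (hE.b _ _ _) b0 b0 b0 b0), (List.forall_mem_cons.2 ⟨c20_lt (c10_lt (hE.b _ _ _) (hE.b _ _ _) (hE.b _ _ _) (hE.b _ _ _) b0 b0 b0 b0 b0 b0) (c10_lt (hE.b _ _ _) (hE.b _ _ _) (hE.b _ _ _) (hE.b _ _ _) (hE.b _ _ _) (hE.b _ _ _) b0 b0 b0 b0), (List.forall_mem_cons.2 ⟨c20_lt (c10_lt (hE.b _ _ _) (hE.b _ _ _) (hE.b _ _ _) (hE.b _ _ _) b0 b0 b0 b0 b0 b0) (c10_lt (hE.b _ _ _) (hE.b _ _ _) (hE.b _ _ _) (hE.b _ _ _) (hE.b _ _ _) (hE.b _ _ _) b0 b0 b0 b0), (List.forall_mem_cons.2 ⟨c20_lt (c10_lt (hE.b _ _ _) (hE.b _ _ _) (hE.b _ _ _) (hE.b _ _ _) b0 b0 b0 b0 b0 b0) (c10_lt (hE.b _ _ _) (hE.b _ _ _) (hE.b _ _ _) (hE.b _ _ _) (hE.b _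 _ _) (hE.b _ _ _) b0 b0 b0 b0), (List.forall_mem_cons.2 ⟨c20_lt (c10_lt (hE.b _ _ _) (hE.b _ _ _) (hE.b _ _ _) (hE.b _ _ _) b0 b0 b0 b0 b0 b0) (c10_lt (hE.b _ _ _) (hE.b _ _ _) (hE.b _ _ _) (hE.b _ _ _) (hE.b _ _ _) (hE.b _ _ _) b0 b0 b0 b0), (List.forall_mem_cons.2 ⟨c20_lt (c10_lt (hE.b _ _ _) (hE.b _ _ _) (hE.b _ _ _) (hE.b _ _ _) b0 b0 b0 b0 b0 b0) (c10_lt (hE.b _ _ _) (hE.b _ _ _) (hE.b _ _ _) (hE.b _ _ _) (hE.b _ _ _) (hE.b _ _ _) b0 b0 b0 b0), (List.forall_mem_cons.2 ⟨c20_lt (c10_lt (hE.b _ _ _) (hE.b _ _ _) (hE.b _ _ _) (hE.b _ _ _) b0 b0 b0 b0 b0 b0) (c10_lt (hE.b _ _ _) (hE.b _ _ _) (hE.b _ _ _) (hE.b _ _ _) (hE.b _ _ _) (hE.b _ _ _) b0 b0 b0 b0), (List.forall_mem_cons.2 ⟨c20_lt (c10_lt (hE.b _ _ _) (hE.b _ _ _) (hE.b _ _ _) (hE.b _ _ _) b0 b0 b0 b0 b0 b0) (c10_lt (hE.b _ _ _) (hE.b _ _ _) (hE.b _ _ _) (hE.b _ _ _) (hE.b _ _ _) (hE.b _ _ _) b0 b0 b0 b0), (List.forall_mem_cons.2 ⟨c20_lt (c10_lt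 (hE.b _ _ _) (hE.b _ _ _) (hE.b _ _ _) (hE.b _ _ _) b0 b0 b0 b0 b0 b0) (c10_lt (hE.b _ _ _) (hE.b _ _ _) (hE.b _ _ _) (hE.b _ _ _) (hE.b _ _ _) (hE.b _ _ _) b0 b0 b0 b0), (List.forall_mem_cons.2 ⟨c20_lt (c10_lt (hE.b _ _ _) (hE.b _ _ _) (hE.b _ _ _) (hE.b _ _ _) b0 b0 b0 b0 b0 b0) (c10_lt (hE.b _ _ _) (hE.b _ _ _) (hE.b _ _ _) (hE.b _ _ _) (hE.b _ _ _) (hE.b _ _ _) b0 b0 b0 b0), (List.forall_mem_cons.2 ⟨c20_lt (c10_lt (hE.b _ _ _) (hE.b _ _ _) (hE.b _ _ _) (hE.b _ _ _) b0 b0 b0 b0 b0 b0) (c10_lt (hE.b _ _ _) (hE.b _ _ _) (hE.b _ _ _) (hE.b _ _ _) (hE.b _ _ _) (hE.b _ _ _) b0 b0 b0 b0), (List.forall_mem_cons.2 ⟨c20_lt (c10_lt (hE.b _ _ _) (hE.b _ _ _) (hE.b _ _ _) (hE.b _ _ _) b0 b0 b0 b0 b0 b0) (c10_lt (hE.b _ _ _) (hE.b _ _ _) (hE.b _ _ _) (hE.b _ _ _) (hE.b _ _ _) (hE.b _ _ _) b0 b0 b0 b0), (List.forall_mem_cons.2 ⟨c20_lt (c10_lt (hE.b _ _ _) (hE.b _ _ _) (hE.b _ _ _) (hE.b _ _ _) b0 b0 b0 b0 b0 b0)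 (c10_lt (hE.b _ _ _) (hE.b _ _ _) (hE.b _ _ _) (hE.b _ _ _) (hE.b _ _ _) (hE.b _ _ _) b0 b0 b0 b0), (List.forall_mem_cons.2 ⟨c20_lt (c10_lt (hE.b _ _ _) (hE.b _ _ _) (hE.b _ _ _) (hE.b _ _ _) b0 b0 b0 b0 b0 b0) (c10_lt (hE.b _ _ _) (hE.b _ _ _) (hE.b _ _ _) (hE.b _ _ _) (hE.b _ _ _) (hE.b _ _ _) b0 b0 b0 b0), (List.forall_mem_cons.2 ⟨cc_lt hE _ _ _ _ _ _, (List.forall_mem_cons.2 ⟨c20_lt (c10_lt (hE.b _ _ _) (hE.b _ _ _) (hE.b _ _ _) (hE.b _ _ _) (hE.b _ _ _) (hE.b _ _ _) (hE.b _ _ _) (hE.b _ _ _) (hE.b _ _ _) (hE.b _ _ _)) (c10_lt b0 b0 b0 b0 b0 b0 b0 b0 b0 b0), (List.forall_mem_cons.2 ⟨cc_lt hE _ _ _ _ _ _, (List.forall_mem_cons.2 ⟨c20_lt (c10_lt (hE.b _ _ _) (hE.b _ _ _) (hE.b _ _ _) (hE.b _ _ _) (hE.b _ _ _) (hE.b _ _ _) (hE.b _ _ _) (hE.b _ _ _) (hE.b _ _ _) (hE.b _ _ _)) (c10_lt b0 b0 b0 b0 b0 b0 b0 b0 b0 b0), (List.forall_mem_cons.2 ⟨cc_lt hE _ _ _ _ _ _, (List.forall_mem_cons.2 ⟨c20_lt (c10_lt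 (hE.b _ _ _) (hE.b _ _ _) (hE.b _ _ _) (hE.b _ _ _) (hE.b _ _ _) (hE.b _ _ _) (hE.b _ _ _) (hE.b _ _ _) (hE.b _ _ _) (hE.b _ _ _)) (c10_lt b0 b0 b0 b0 b0 b0 b0 b0 b0 b0), (List.forall_mem_cons.2 ⟨cc_lt hE _ _ _ _ _ _, (List.forall_mem_cons.2 ⟨c20_lt (c10_lt (hE.b _ _ _) (hE.b _ _ _) (hE.b _ _ _) (hE.b _ _ _) (hE.b _ _ _) (hE.b _ _ _) (hE.b _ _ _) (hE.b _ _ _) (hE.b _ _ _) (hE.b _ _ _)) (c10_lt b0 b0 b0 b0 b0 b0 b0 b0 b0 b0), (List.forall_mem_cons.2 ⟨cc_lt hE _ _ _ _ _ _, (List.forall_mem_cons.2 ⟨c20_lt (c10_lt (hE.b _ _ _) (hE.b _ _ _) (hE.b _ _ _) (hE.b _ _ _) (hE.b _ _ _) (hE.b _ _ _) (hE.b _ _ _) (hE.b _ _ _) (hE.b _ _ _) (hE.b _ _ _)) (c10_lt b0 b0 b0 b0 b0 b0 b0 b0 b0 b0), (List.forall_mem_cons.2 ⟨cc_lt hE _ _ _ _ _ _, (List.forall_mem_cons.2 ⟨c20_lt (c10_lt (hE.b _ _ _) (hE.b _ _ _) (hE.b _ _ _) (hE.b _ _ _) (hE.b _ _ _) (hE.b _ _ _) (hE.b _ _ _) (hE.b _ _ _) (hE.b _ _ _) (hE.b _ _ _)) (c10_lt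 b0 b0 b0 b0 b0 b0 b0 b0 b0 b0), (List.forall_mem_nil _)⟩)⟩)⟩)⟩)⟩)⟩)⟩)⟩)⟩)⟩)⟩)⟩)⟩)⟩)⟩)⟩)⟩)⟩)⟩)⟩)⟩)⟩)⟩)⟩)⟩)⟩)⟩)⟩)⟩)⟩)⟩)⟩)⟩)⟩)⟩)⟩)⟩)⟩)⟩)⟩)⟩)⟩)

theorem fx0 (hE : Sy E) (a b c d e f g : V) : fldn 0 (XV E a b c d e f g) = cc E c d e f g a :=
  (congrArg (fldn 0) (XV_pk hE a b c d e f g)).trans (gs0 (XV_lt hE a b c d e f g))
theorem fx1 (hE : Sy E) (a b c d e f g : V) : fldn 20 (XV E a b c d e f g) = cc E c d e f g b :=
  (congrArg (fldn 20) (XV_pk hE a b c d e f g)).trans (gs1 (XV_lt hE a b c d e f g))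
theorem fx2 (hE : Sy E) (a b c d e f g : V) : fldn 40 (XV E a b c d e f g) = cc E b d e f g a :=
  (congrArg (fldn 40) (XV_pk hE a b c d e f g)).trans (gs2 (XV_lt hE a b c d e f g))
theorem fx3 (hE : Sy E) (a b c d e f g : V) : fldn 60 (XV E a b c d e f g) = cc E b d e f g c :=
  (congrArg (fldn 60) (XV_pk hE a b c d e f g)).trans (gs3 (XV_lt hE a b c d e f g))
theorem fx4 (hE : Sy E) (a b c d e f g : V) : fldn 80 (XV E a b c d e f g) = cc E a d e f g b :=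
  (congrArg (fldn 80) (XV_pk hE a b c d e f g)).trans (gs4 (XV_lt hE a b c d e f g))
theorem fx5 (hE : Sy E) (a b c d e f g : V) : fldn 100 (XV E a b c d e f g) = cc E a d e f g c :=
  (congrArg (fldn 100) (XV_pk hE a b c d e f g)).trans (gs5 (XV_lt hE a b c d e f g))
theorem fx6 (hE : Sy E) (a b c d e f g : V) : fldn 120 (XV E a b c d e f g) = cc E b c e f g a :=
  (congrArg (fldn 120) (XV_pk hE a b c d e f g)).trans (gs6 (XV_lt hE a b c d e f g))
theorem fx7 (hE : Sy E) (a b c d e f g : V) : fldn 140 (XV E a b c d e f g) = cc E b c e f g d :=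
  (congrArg (fldn 140) (XV_pk hE a b c d e f g)).trans (gs7 (XV_lt hE a b c d e f g))
theorem fx8 (hE : Sy E) (a b c d e f g : V) : fldn 160 (XV E a b c d e f g) = cc E a c e f g b :=
  (congrArg (fldn 160) (XV_pk hE a b c d e f g)).trans (gs8 (XV_lt hE a b c d e f g))
theorem fx9 (hE : Sy E) (a b c d e f g : V) : fldn 180 (XV E a b c d e f g) = cc E a c e f g d :=
  (congrArg (fldn 180) (XV_pk hE a b c d e f g)).trans (gs9 (XV_lt hE a b c d e f g))
theorem fx10 (hE : Sy E) (a b c d e f g : V) : fldn 200 (XV E a b c d e f g) = cc E a b e f g c :=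
  (congrArg (fldn 200) (XV_pk hE a b c d e f g)).trans (gs10 (XV_lt hE a b c d e f g))
theorem fx11 (hE : Sy E) (a b c d e f g : V) : fldn 220 (XV E a b c d e f g) = cc E a b e f g d :=
  (congrArg (fldn 220) (XV_pk hE a b c d e f g)).trans (gs11 (XV_lt hE a b c d e f g))
theorem fx12 (hE : Sy E) (a b c d e f g : V) : fldn 240 (XV E a b c d e f g) = cc E b c d f g a :=
  (congrArg (fldn 240) (XV_pk hE a b c d e f g)).trans (gs12 (XV_lt hE a b c d e f g))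
theorem fx13 (hE : Sy E) (a b c d e f g : V) : fldn 260 (XV E a b c d e f g) = cc E b c d f g e :=
  (congrArg (fldn 260) (XV_pk hE a b c d e f g)).trans (gs13 (XV_lt hE a b c d e f g))
theorem fx14 (hE : Sy E) (a b c d e f g : V) : fldn 280 (XV E a b c d e f g) = cc E a c d f g b :=
  (congrArg (fldn 280) (XV_pk hE a b c d e f g)).trans (gs14 (XV_lt hE a b c d e f g))
theorem fx15 (hE : Sy E) (a b c d e f g : V) : fldn 300 (XV E a b c d e f g) = cc E a c d f g e :=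
  (congrArg (fldn 300) (XV_pk hE a b c d e f g)).trans (gs15 (XV_lt hE a b c d e f g))
theorem fx16 (hE : Sy E) (a b c d e f g : V) : fldn 320 (XV E a b c d e f g) = cc E a b d f g c :=
  (congrArg (fldn 320) (XV_pk hE a b c d e f g)).trans (gs16 (XV_lt hE a b c d e f g))
theorem fx17 (hE : Sy E) (a b c d e f g : V) : fldn 340 (XV E a b c d e f g) = cc E a b d f g e :=
  (congrArg (fldn 340) (XV_pk hE a b c d e f g)).trans (gs17 (XV_lt hE a b c d e f g))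
theorem fx18 (hE : Sy E) (a b c d e f g : V) : fldn 360 (XV E a b c d e f g) = cc E a b c f g d :=
  (congrArg (fldn 360) (XV_pk hE a b c d e f g)).trans (gs18 (XV_lt hE a b c d e f g))
theorem fx19 (hE : Sy E) (a b c d e f g : V) : fldn 380 (XV E a b c d e f g) = cc E a b c f g e :=
  (congrArg (fldn 380) (XV_pk hE a b c d e f g)).trans (gs19 (XV_lt hE a b c d e f g))
theorem fx20 (hE : Sy E) (a b c d e f g : V) : fldn 400 (XV E a b c d e f g) = cc E b c d e g a :=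
  (congrArg (fldn 400) (XV_pk hE a b c d e f g)).trans (gs20 (XV_lt hE a b c d e f g))
theorem fx21 (hE : Sy E) (a b c d e f g : V) : fldn 420 (XV E a b c d e f g) = cc E b c d e g f :=
  (congrArg (fldn 420) (XV_pk hE a b c d e f g)).trans (gs21 (XV_lt hE a b c d e f g))
theorem fx22 (hE : Sy E) (a b c d e f g : V) : fldn 440 (XV E a b c d e f g) = cc E a c d e g b :=
  (congrArg (fldn 440) (XV_pk hE a b c d e f g)).trans (gs22 (XV_lt hE a b c d e f g))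
theorem fx23 (hE : Sy E) (a b c d e f g : V) : fldn 460 (XV E a b c d e f g) = cc E a c d e g f :=
  (congrArg (fldn 460) (XV_pk hE a b c d e f g)).trans (gs23 (XV_lt hE a b c d e f g))
theorem fx24 (hE : Sy E) (a b c d e f g : V) : fldn 480 (XV E a b c d e f g) = cc E a b d e g c :=
  (congrArg (fldn 480) (XV_pk hE a b c d e f g)).trans (gs24 (XV_lt hE a b c d e f g))
theorem fx25 (hE : Sy E) (a b c d e f g : V) : fldn 500 (XV E a b c d e f g) = cc E a b d e g f :=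
  (congrArg (fldn 500) (XV_pk hE a b c d e f g)).trans (gs25 (XV_lt hE a b c d e f g))
theorem fx26 (hE : Sy E) (a b c d e f g : V) : fldn 520 (XV E a b c d e f g) = cc E a b c e g d :=
  (congrArg (fldn 520) (XV_pk hE a b c d e f g)).trans (gs26 (XV_lt hE a b c d e f g))
theorem fx27 (hE : Sy E) (a b c d e f g : V) : fldn 540 (XV E a b c d e f g) = cc E a b c e g f :=
  (congrArg (fldn 540) (XV_pk hE a b c d e f g)).trans (gs27 (XV_lt hE a b c d e f g))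
theorem fx28 (hE : Sy E) (a b c d e f g : V) : fldn 560 (XV E a b c d e f g) = cc E a b c d g e :=
  (congrArg (fldn 560) (XV_pk hE a b c d e f g)).trans (gs28 (XV_lt hE a b c d e f g))
theorem fx29 (hE : Sy E) (a b c d e f g : V) : fldn 580 (XV E a b c d e f g) = cc E a b c d g f :=
  (congrArg (fldn 580) (XV_pk hE a b c d e f g)).trans (gs29 (XV_lt hE a b c d e f g))
theorem fx30 (hE : Sy E) (a b c d e f g : V) : fldn 600 (XV E a b c d e f g) = cc E b c d e f a :=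
  (congrArg (fldn 600) (XV_pk hE a b c d e f g)).trans (gs30 (XV_lt hE a b c d e f g))
theorem fx31 (hE : Sy E) (a b c d e f g : V) : fldn 620 (XV E a b c d e f g) = cc E b c d e f g :=
  (congrArg (fldn 620) (XV_pk hE a b c d e f g)).trans (gs31 (XV_lt hE a b c d e f g))
theorem fx32 (hE : Sy E) (a b c d e f g : V) : fldn 640 (XV E a b c d e f g) = cc E a c d e f b :=
  (congrArg (fldn 640) (XV_pk hE a b c d e f g)).trans (gs32 (XV_lt hE a b c d e f g))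
theorem fx33 (hE : Sy E) (a b c d e f g : V) : fldn 660 (XV E a b c d e f g) = cc E a c d e f g :=
  (congrArg (fldn 660) (XV_pk hE a b c d e f g)).trans (gs33 (XV_lt hE a b c d e f g))
theorem fx34 (hE : Sy E) (a b c d e f g : V) : fldn 680 (XV E a b c d e f g) = cc E a b d e f c :=
  (congrArg (fldn 680) (XV_pk hE a b c d e f g)).trans (gs34 (XV_lt hE a b c d e f g))
theorem fx35 (hE : Sy E) (a b c d e f g : V) : fldn 700 (XV E a b c d e f g) = cc E a b d e f g :=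
  (congrArg (fldn 700) (XV_pk hE a b c d e f g)).trans (gs35 (XV_lt hE a b c d e f g))
theorem fx36 (hE : Sy E) (a b c d e f g : V) : fldn 720 (XV E a b c d e f g) = cc E a b c e f d :=
  (congrArg (fldn 720) (XV_pk hE a b c d e f g)).trans (gs36 (XV_lt hE a b c d e f g))
theorem fx37 (hE : Sy E) (a b c d e f g : V) : fldn 740 (XV E a b c d e f g) = cc E a b c e f g :=
  (congrArg (fldn 740) (XV_pk hE a b c d e f g)).trans (gs37 (XV_lt hE a b c d e f g))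
theorem fx38 (hE : Sy E) (a b c d e f g : V) : fldn 760 (XV E a b c d e f g) = cc E a b c d f e :=
  (congrArg (fldn 760) (XV_pk hE a b c d e f g)).trans (gs38 (XV_lt hE a b c d e f g))
theorem fx39 (hE : Sy E) (a b c d e f g : V) : fldn 780 (XV E a b c d e f g) = cc E a b c d f g :=
  (congrArg (fldn 780) (XV_pk hE a b c d e f g)).trans (gs39 (XV_lt hE a b c d e f g))
theorem fx40 (hE : Sy E) (a b c d e f g : V) : fldn 800 (XV E a b c d e f g) = cc E a b c d e f :=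
  (congrArg (fldn 800) (XV_pk hE a b c d e f g)).trans (gs40 (XV_lt hE a b c d e f g))
theorem fx41 (hE : Sy E) (a b c d e f g : V) : fldn 820 (XV E a b c d e f g) = cc E a b c d e g :=
  (congrArg (fldn 820) (XV_pk hE a b c d e f g)).trans (gs41 (XV_lt hE a b c d e f g))
theorem fz30 (hE : Sy E) (a b c d e f : V) : fldn 600 (XBV E a b c d e f) = cc E b c d e f a :=
  (congrArg (fldn 600) (XBV_pk hE a b c d e f)).trans (gs30 (XBV_lt hE a b c d e f))
theorem fz32 (hE : Sy E) (a b c d e f : V) : fldn 640 (XBV E a b c d e f) = cc E a c d e f b :=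
  (congrArg (fldn 640) (XBV_pk hE a b c d e f)).trans (gs32 (XBV_lt hE a b c d e f))
theorem fz34 (hE : Sy E) (a b c d e f : V) : fldn 680 (XBV E a b c d e f) = cc E a b d e f c :=
  (congrArg (fldn 680) (XBV_pk hE a b c d e f)).trans (gs34 (XBV_lt hE a b c d e f))
theorem fz36 (hE : Sy E) (a b c d e f : V) : fldn 720 (XBV E a b c d e f) = cc E a b c e f d :=
  (congrArg (fldn 720) (XBV_pk hE a b c d e f)).trans (gs36 (XBV_lt hE a b c d e f))
theorem fz38 (hE : Sy E) (a b c d e f : V) : fldn 760 (XBV E a b c d e f) = cc E a b c d f e :=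
  (congrArg (fldn 760) (XBV_pk hE a b c d e f)).trans (gs38 (XBV_lt hE a b c d e f))
theorem fz40 (hE : Sy E) (a b c d e f : V) : fldn 800 (XBV E a b c d e f) = cc E a b c d e f :=
  (congrArg (fldn 800) (XBV_pk hE a b c d e f)).trans (gs40 (XBV_lt hE a b c d e f))

end

end Pool.Agent.W843.N7
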