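import Pool.Agent.W843.N7.Word

set_option autoImplicit false
set_option maxRecDepth 100000
set_option maxHeartbeats 4000000

namespace Pool.Agent.W843.N7

theorem wnc58 : wnc 58 = true := by decide +kernel
theorem wnc59 : wnc 59 = true := by decide +kernel
theorem wnc62 : wnc 62 = true := by decide +kernel
theorem wnc126 : wnc 126 = true := by decide +kernel
theorem wnc183 : wnc 183 = true := by decide +kernel
theorem wnc184 : wnc 184 = true := by decide +kernel
theorem wnc185 : wnc 185 = true := by decide +kernel
theorem wnc187 : wnc 187 = true := by decide +kernel
theorem wnc220 : wnc 220 = true := by decide +kernel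
theorem wnc221 : wnc 221 = true := by decide +kernel
theorem wnc254 : wnc 254 = true := by decide +kernel

end Pool.Agent.W843.N7
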