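import Pool.Agent.W843.N7.WordC0
import Pool.Agent.W843.N7.WordC1
import Pool.Agent.W843.N7.ChkAll
import Pool.Agent.W843.N7.LeafS
import Pool.Agent.W843.N7.Fact2

/-! The leaf inequality for all seven-vertex structures. -/

set_option autoImplicit false
set_option maxRecDepth 100000
set_option maxHeartbeats 4000000
open Finset
open Pool.Agent.H122R2.N6 (Sy NoK4 Bt k4b five tg walk walk_all B2 B2_true or_false_left)

namespace Pool.Agent.W843.N7

theorem wnc_all {m : ℕ} (h : memR m = true) : wnc m = true := memR_true wnc0 wnc1 wnc3 wnc7 wnc19 wnc20 wnc21 wnc23 wnc28 wnc29 wnc54 wnc55 wnc58 wnc59 wnc62 wnc126 wnc183 wnc184 wnc185 wnc187 wnc220 wnc221 wnc254 h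

theorem wnest_rep {b0 b1 b2 b3 b4 b5 b6 b7 b8 b9 : ℕ} (h0 : Bt b0) (h1 : Bt b1) (h2 : Bt b2) (h3 : Bt b3) (h4 : Bt b4) (h5 : Bt b5) (h6 : Bt b6) (h7 : Bt b7) (h8 : Bt b8) (h9 : Bt b9) (ht : tg b0 b1 b2 b3 b4 b5 b6 b7 b8 b9 = 4) : wnest b0 b1 b2 b3 b4 b5 b6 b7 b8 b9 = true := by
  have h := wnc_all (sel h0 h1 h2 h3 h4 h5 h6 h7 h8 h9 ht)
  unfold wnc at h
  rwa [bt0_eq h0 h1 h2 h3 h4 h5 h6 h7 h8 h9, bt1_eq h0 h1 h2 h3 h4 h5 h6 h7 h8 h9, bt2_eq h0 h1 h2 h3 h4 h5 h6 h7 h8 h9, bt3_eq h0 h1 h2 h3 h4 h5 h6 h7 h8 h9, bt4_eq h0 h1 h2 h3 h4 h5 h6 h7 h8 h9, bt5_eq h0 h1 h2 h3 h4 h5 h6 h7 h8 h9, bt6_eq h0 h1 h2 h3 h4 h5 h6 h7 h8 h9, bt7_eq h0 h1 h2 h3 h4 h5 h6 h7 h8 h9, bt8_eq h0 h1 h2 h3 h4 h5 h6 h7 h8 h9, bt9_eq h0 h1 h2 h3 h4 h5 h6 h7 h8 h9] at h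

theorem walk6_gen {P : ℕ → ℕ → ℕ → ℕ → ℕ → ℕ → ℕ → ℕ → ℕ → ℕ → ℕ → ℕ → ℕ → ℕ → ℕ → ℕ → ℕ → ℕ → ℕ → ℕ → Prop}
    (s0 : ∀ b012 b013 b023 b123 b014 b024 b124 b034 b134 b234 b015 b025 b125 b035 b135 b235 b045 b145 b245 b345 : ℕ, P b012 b013 b123 b023 b014 b124 b024 b134 b034 b234 b015 b125 b025 b135 b035 b235 b145 b045 b245 b345 → P b012 b013 b023 b123 b014 b024 b124 b034 b134 b234 b015 b025 b125 b035 b135 b235 b045 b145 b245 b345)
    (s1 : ∀ b012 b013 b023 b123 b014 b024 b124 b034 b134 b234 b015 b025 b125 b035 b135 b235 b045 b145 b245 b345 : ℕ, P b012 b023 b013 b123 b024 b014 b124 b034 b234 b134 b025 b015 b125 b035 b235 b135 b045 b245 b145 b345 → P b012 b013 b023 b123 b014 b024 b124 b034 b134 b234 b015 b025 b125 b035 b135 b235 b045 b145 b245 b345)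
    (s2 : ∀ b012 b013 b023 b123 b014 b024 b124 b034 b134 b234 b015 b025 b125 b035 b135 b235 b045 b145 b245 b345 : ℕ, P b013 b012 b023 b123 b014 b034 b134 b024 b124 b234 b015 b035 b135 b025 b125 b235 b045 b145 b345 b245 → P b012 b013 b023 b123 b014 b024 b124 b034 b134 b234 b015 b025 b125 b035 b135 b235 b045 b145 b245 b345)
    (s3 : ∀ b012 b013 b023 b123 b014 b024 b124 b034 b134 b234 b015 b025 b125 b035 b135 b235 b045 b145 b245 b345 : ℕ, P b012 b014 b024 b124 b013 b023 b123 b034 b134 b234 b015 b025 b125 b045 b145 b245 b035 b135 b235 b345 → P b012 b013 b023 b123 b014 b024 b124 b034 b134 b234 b015 b025 b125 b035 b135 b235 b045 b145 b245 b345)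
    (s4 : ∀ b012 b013 b023 b123 b014 b024 b124 b034 b134 b234 b015 b025 b125 b035 b135 b235 b045 b145 b245 b345 : ℕ, P b012 b013 b023 b123 b015 b025 b125 b035 b135 b235 b014 b024 b124 b034 b134 b234 b045 b145 b245 b345 → P b012 b013 b023 b123 b014 b024 b124 b034 b134 b234 b015 b025 b125 b035 b135 b235 b045 b145 b245 b345)
    (hr : ∀ b012 b013 b023 b123 b014 b024 b124 b034 b134 b234 b015 b025 b125 b035 b135 b235 b045 b145 b245 b345 : ℕ, isB (c10 b012 b013 b023 b123 b014 b024 b124 b034 b134 b234) (c10 b015 b025 b125 b035 b135 b235 b045 b145 b245 b345) = true → P b012 b013 b023 b123 b014 b024 b124 b034 b134 b234 b015 b025 b125 b035 b135 b235 b045 b145 b245 b345) (n : ℕ) :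
    ∀ w b012 b013 b023 b123 b014 b024 b124 b034 b134 b234 b015 b025 b125 b035 b135 b235 b045 b145 b245 b345 : ℕ, walk6 n w b012 b013 b023 b123 b014 b024 b124 b034 b134 b234 b015 b025 b125 b035 b135 b235 b045 b145 b245 b345 = true → P b012 b013 b023 b123 b014 b024 b124 b034 b134 b234 b015 b025 b125 b035 b135 b235 b045 b145 b245 b345 := by
  induction n with
  | zero =>
    intro w b012 b013 b023 b123 b014 b024 b124 b034 b134 b234 b015 b025 b125 b035 b135 b235 b045 b145 b245 b345 h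
    exact hr b012 b013 b023 b123 b014 b024 b124 b034 b134 b234 b015 b025 b125 b035 b135 b235 b045 b145 b245 b345 h
  | succ n ih =>
    intro w b012 b013 b023 b123 b014 b024 b124 b034 b134 b234 b015 b025 b125 b035 b135 b235 b045 b145 b245 b345 h
    change cnd (Nat.beq (Nat.mod w 8) 7) (isB (c10 b012 b013 b023 b123 b014 b024 b124 b034 b134 b234) (c10 b015 b025 b125 b035 b135 b235 b045 b145 b245 b345))
      (cnd (Nat.beq (Nat.mod w 8) 0) (walk6 n (Nat.div w 8) b012 b013 b123 b023 b014 b124 b024 b134 b034 b234 b015 b125 b025 b135 b035 b235 b145 b045 b245 b345)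
      (cnd (Nat.beq (Nat.mod w 8) 1) (walk6 n (Nat.div w 8) b012 b023 b013 b123 b024 b014 b124 b034 b234 b134 b025 b015 b125 b035 b235 b135 b045 b245 b145 b345)
      (cnd (Nat.beq (Nat.mod w 8) 2) (walk6 n (Nat.div w 8) b013 b012 b023 b123 b014 b034 b134 b024 b124 b234 b015 b035 b135 b025 b125 b235 b045 b145 b345 b245)
      (cnd (Nat.beq (Nat.mod w 8) 3) (walk6 n (Nat.div w 8) b012 b014 b024 b124 b013 b023 b123 b034 b134 b234 b015 b025 b125 b045 b145 b245 b035 b135 b235 b345)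
      (cnd (Nat.beq (Nat.mod w 8) 4) (walk6 n (Nat.div w 8) b012 b013 b023 b123 b015 b025 b125 b035 b135 b235 b014 b024 b124 b034 b134 b234 b045 b145 b245 b345)
      false))))) = true at h
    cases e7 : Nat.beq (Nat.mod w 8) 7 with
    | true => rw [e7] at h; exact hr b012 b013 b023 b123 b014 b024 b124 b034 b134 b234 b015 b025 b125 b035 b135 b235 b045 b145 b245 b345 h
    | false =>
    rw [e7] at h
    change cnd (Nat.beq (Nat.mod w 8) 0) _ _ = true at h
    cases e0 : Nat.beq (Nat.mod w 8) 0 with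
    | true => rw [e0] at h; exact s0 b012 b013 b023 b123 b014 b024 b124 b034 b134 b234 b015 b025 b125 b035 b135 b235 b045 b145 b245 b345 (ih (Nat.div w 8) b012 b013 b123 b023 b014 b124 b024 b134 b034 b234 b015 b125 b025 b135 b035 b235 b145 b045 b245 b345 h)
    | false =>
    rw [e0] at h
    change cnd (Nat.beq (Nat.mod w 8) 1) _ _ = true at h
    cases e1 : Nat.beq (Nat.mod w 8) 1 with
    | true => rw [e1] at h; exact s1 b012 b013 b023 b123 b014 b024 b124 b034 b134 b234 b015 b025 b125 b035 b135 b235 b045 b145 b245 b345 (ih (Nat.div w 8) b012 b023 b013 b123 b024 b014 b124 b034 b234 b134 b025 b015 b125 b035 b235 b135 b045 b245 b145 b345 h)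
    | false =>
    rw [e1] at h
    change cnd (Nat.beq (Nat.mod w 8) 2) _ _ = true at h
    cases e2 : Nat.beq (Nat.mod w 8) 2 with
    | true => rw [e2] at h; exact s2 b012 b013 b023 b123 b014 b024 b124 b034 b134 b234 b015 b025 b125 b035 b135 b235 b045 b145 b245 b345 (ih (Nat.div w 8) b013 b012 b023 b123 b014 b034 b134 b024 b124 b234 b015 b035 b135 b025 b125 b235 b045 b145 b345 b245 h)
    | false =>
    rw [e2] at h
    change cnd (Nat.beq (Nat.mod w 8) 3) _ _ = true at h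
    cases e3 : Nat.beq (Nat.mod w 8) 3 with
    | true => rw [e3] at h; exact s3 b012 b013 b023 b123 b014 b024 b124 b034 b134 b234 b015 b025 b125 b035 b135 b235 b045 b145 b245 b345 (ih (Nat.div w 8) b012 b014 b024 b124 b013 b023 b123 b034 b134 b234 b015 b025 b125 b045 b145 b245 b035 b135 b235 b345 h)
    | false =>
    rw [e3] at h
    change cnd (Nat.beq (Nat.mod w 8) 4) _ _ = true at h
    cases e4 : Nat.beq (Nat.mod w 8) 4 with
    | true => rw [e4] at h; exact s4 b012 b013 b023 b123 b014 b024 b124 b034 b134 b234 b015 b025 b125 b035 b135 b235 b045 b145 b245 b345 (ih (Nat.div w 8) b012 b013 b023 b123 b015 b025 b125 b035 b135 b235 b014 b024 b124 b034 b134 b234 b045 b145 b245 b345 h)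
    | false =>
    rw [e4] at h
    exact absurd (show false = true from h) (by decide)

section
variable {V : Type} {E : V → V → V → ℕ}

def G6 (E : V → V → V → ℕ) (b012 b013 b023 b123 b014 b024 b124 b034 b134 b234 b015 b025 b125 b035 b135 b235 b045 b145 b245 b345 : ℕ) : Prop :=
  ∀ a b c d e f : V, E a b c = b012 → E a b d = b013 → E a c d = b023 → E b c d = b123 → E a b e = b014 → E a c e = b024 → E b c e = b124 → E a d e = b034 → E b d e = b134 → E c d e = b234 → E a b f = b015 → E a c f = b025 → E b c f = b125 → E a d f = b035 → E b d f = b135 → E c d f = b235 → E a e f = b045 → E b e f = b145 → E c e f = b245 → E d e f = b345 → ∀ g, MD E a b c d e f g → L5 E a b c d e f g ≤ cC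

def G5 (E : V → V → V → ℕ) (b012 b013 b023 b123 b014 b024 b124 b034 b134 b234 : ℕ) : Prop :=
  ∀ a b c d e : V, E a b c = b012 → E a b d = b013 → E a c d = b023 → E b c d = b123 → E a b e = b014 → E a c e = b024 → E b c e = b124 → E a d e = b034 → E b d e = b134 → E c d e = b234 → ∀ f g, MD E a b c d e f g → L5 E a b c d e f g ≤ cC

theorem G6_sw0 (hE : Sy E) (hO : OF E) (b012 b013 b023 b123 b014 b024 b124 b034 b134 b234 b015 b025 b125 b035 b135 b235 b045 b145 b245 b345 : ℕ) (h : G6 E b012 b013 b123 b023 b014 b124 b024 b134 b034 b234 b015 b125 b025 b135 b035 b235 b145 b045 b245 b345) : G6 E b012 b013 b023 b123 b014 b024 b124 b034 b134 b234 b015 b025 b125 b035 b135 b235 b045 b145 b245 b345 := by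
  intro a b c d e f h012 h013 h023 h123 h014 h024 h124 h034 h134 h234 h015 h025 h125 h035 h135 h235 h045 h145 h245 h345 g hm
  have h' := h b a c d e f ((hE.h213 _ _ _).trans h012) ((hE.h213 _ _ _).trans h013) h123 h023 ((hE.h213 _ _ _).trans h014) h124 h024 h134 h034 h234 ((hE.h213 _ _ _).trans h015) h125 h025 h135 h035 h235 h145 h045 h245 h345 g (MD_sw0 hE a b c d e f g hm)
  rwa [L5_sw0 hO] at h'

theorem G6_sw1 (hE : Sy E) (hO : OF E) (b012 b013 b023 b123 b014 b024 b124 b034 b134 b234 b015 b025 b125 b035 b135 b235 b045 b145 b245 b345 : ℕ) (h : G6 E b012 b023 b013 b123 b024 b014 b124 b034 b234 b134 b025 b015 b125 b035 b235 b135 b045 b245 b145 b345) : G6 E b012 b013 b023 b123 b014 b024 b124 b034 b134 b234 b015 b025 b125 b035 b135 b235 b045 b145 b245 b345 := by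
  intro a b c d e f h012 h013 h023 h123 h014 h024 h124 h034 h134 h234 h015 h025 h125 h035 h135 h235 h045 h145 h245 h345 g hm
  have h' := h a c b d e f ((hE.h132 _ _ _).trans h012) h023 h013 ((hE.h213 _ _ _).trans h123) h024 h014 ((hE.h213 _ _ _).trans h124) h034 h234 h134 h025 h015 ((hE.h213 _ _ _).trans h125) h035 h235 h135 h045 h245 h145 h345 g (MD_sw1 hE a b c d e f g hm)
  rwa [L5_sw1 hO] at h'

theorem G6_sw2 (hE : Sy E) (hO : OF E) (b012 b013 b023 b123 b014 b024 b124 b034 b134 b234 b015 b025 b125 b035 b135 b235 b045 b145 b245 b345 : ℕ) (h : G6 E b013 b012 b023 b123 b014 b034 b134 b024 b124 b234 b015 b035 b135 b025 b125 b235 b045 b145 b345 b245) : G6 E b012 b013 b023 b123 b014 b024 b124 b034 b134 b234 b015 b025 b125 b035 b135 b235 b045 b145 b245 b345 := by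
  intro a b c d e f h012 h013 h023 h123 h014 h024 h124 h034 h134 h234 h015 h025 h125 h035 h135 h235 h045 h145 h245 h345 g hm
  have h' := h a b d c e f h013 h012 ((hE.h132 _ _ _).trans h023) ((hE.h132 _ _ _).trans h123) h014 h034 h134 h024 h124 ((hE.h213 _ _ _).trans h234) h015 h035 h135 h025 h125 ((hE.h213 _ _ _).trans h235) h045 h145 h345 h245 g (MD_sw2 hE a b c d e f g hm)
  rwa [L5_sw2 hO] at h'

theorem G6_sw3 (hE : Sy E) (hO : OF E) (b012 b013 b023 b123 b014 b024 b124 b034 b134 b234 b015 b025 b125 b035 b135 b235 b045 b145 b245 b345 : ℕ) (h : G6 E b012 b014 b024 b124 b013 b023 b123 b034 b134 b234 b015 b025 b125 b045 b145 b245 b035 b135 b235 b345) : G6 E b012 b013 b023 b123 b014 b024 b124 b034 b134 b234 b015 b025 b125 b035 b135 b235 b045 b145 b245 b345 := by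
  intro a b c d e f h012 h013 h023 h123 h014 h024 h124 h034 h134 h234 h015 h025 h125 h035 h135 h235 h045 h145 h245 h345 g hm
  have h' := h a b c e d f h012 h014 h024 h124 h013 h023 h123 ((hE.h132 _ _ _).trans h034) ((hE.h132 _ _ _).trans h134) ((hE.h132 _ _ _).trans h234) h015 h025 h125 h045 h145 h245 h035 h135 h235 ((hE.h213 _ _ _).trans h345) g (MD_sw3 hE a b c d e f g hm)
  rwa [L5_sw3 hO] at h'

theorem G6_sw4 (hE : Sy E) (hO : OF E) (b012 b013 b023 b123 b014 b024 b124 b034 b134 b234 b015 b025 b125 b035 b135 b235 b045 b145 b245 b345 : ℕ) (h : G6 E b012 b013 b023 b123 b015 b025 b125 b035 b135 b235 b014 b024 b124 b034 b134 b234 b045 b145 b245 b345) : G6 E b012 b013 b023 b123 b014 b024 b124 b034 b134 b234 b015 b025 b125 b035 b135 b235 b045 b145 b245 b345 := by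
  intro a b c d e f h012 h013 h023 h123 h014 h024 h124 h034 h134 h234 h015 h025 h125 h035 h135 h235 h045 h145 h245 h345 g hm
  have h' := h a b c d f e h012 h013 h023 h123 h015 h025 h125 h035 h135 h235 h014 h024 h124 h034 h134 h234 ((hE.h132 _ _ _).trans h045) ((hE.h132 _ _ _).trans h145) ((hE.h132 _ _ _).trans h245) ((hE.h132 _ _ _).trans h345) g (MD_sw4 hE a b c d e f g hm)
  rwa [L5_sw4 hO] at h'

theorem G5_sw0 (hE : Sy E) (hO : OF E) (b012 b013 b023 b123 b014 b024 b124 b034 b134 b234 : ℕ) (h : G5 E b012 b013 b123 b023 b014 b124 b024 b134 b034 b234) : G5 E b012 b013 b023 b123 b014 b024 b124 b034 b134 b234 := by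
  intro a b c d e h012 h013 h023 h123 h014 h024 h124 h034 h134 h234 f g hm
  have h' := h b a c d e ((hE.h213 _ _ _).trans h012) ((hE.h213 _ _ _).trans h013) h123 h023 ((hE.h213 _ _ _).trans h014) h124 h024 h134 h034 h234 f g (MD_sw0 hE a b c d e f g hm)
  rwa [L5_sw0 hO] at h'

theorem G5_sw1 (hE : Sy E) (hO : OF E) (b012 b013 b023 b123 b014 b024 b124 b034 b134 b234 : ℕ) (h : G5 E b012 b023 b013 b123 b024 b014 b124 b034 b234 b134) : G5 E b012 b013 b023 b123 b014 b024 b124 b034 b134 b234 := by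
  intro a b c d e h012 h013 h023 h123 h014 h024 h124 h034 h134 h234 f g hm
  have h' := h a c b d e ((hE.h132 _ _ _).trans h012) h023 h013 ((hE.h213 _ _ _).trans h123) h024 h014 ((hE.h213 _ _ _).trans h124) h034 h234 h134 f g (MD_sw1 hE a b c d e f g hm)
  rwa [L5_sw1 hO] at h'

theorem G5_sw2 (hE : Sy E) (hO : OF E) (b012 b013 b023 b123 b014 b024 b124 b034 b134 b234 : ℕ) (h : G5 E b013 b012 b023 b123 b014 b034 b134 b024 b124 b234) : G5 E b012 b013 b023 b123 b014 b024 b124 b034 b134 b234 := by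
  intro a b c d e h012 h013 h023 h123 h014 h024 h124 h034 h134 h234 f g hm
  have h' := h a b d c e h013 h012 ((hE.h132 _ _ _).trans h023) ((hE.h132 _ _ _).trans h123) h014 h034 h134 h024 h124 ((hE.h213 _ _ _).trans h234) f g (MD_sw2 hE a b c d e f g hm)
  rwa [L5_sw2 hO] at h'

theorem G5_sw3 (hE : Sy E) (hO : OF E) (b012 b013 b023 b123 b014 b024 b124 b034 b134 b234 : ℕ) (h : G5 E b012 b014 b024 b124 b013 b023 b123 b034 b134 b234) : G5 E b012 b013 b023 b123 b014 b024 b124 b034 b134 b234 := by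
  intro a b c d e h012 h013 h023 h123 h014 h024 h124 h034 h134 h234 f g hm
  have h' := h a b c e d h012 h014 h024 h124 h013 h023 h123 ((hE.h132 _ _ _).trans h034) ((hE.h132 _ _ _).trans h134) ((hE.h132 _ _ _).trans h234) f g (MD_sw3 hE a b c d e f g hm)
  rwa [L5_sw3 hO] at h'

theorem G6_base (hE : Sy E) (hK : NoK4 E) (b012 b013 b023 b123 b014 b024 b124 b034 b134 b234 b015 b025 b125 b035 b135 b235 b045 b145 b245 b345 : ℕ) (h : isB (c10 b012 b013 b023 b123 b014 b024 b124 b034 b134 b234) (c10 b015 b025 b125 b035 b135 b235 b045 b145 b245 b345) = true) : G6 E b012 b013 b023 b123 b014 b024 b124 b034 b134 b234 b015 b025 b125 b035 b135 b235 b045 b145 b245 b345 := by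
  intro a b c d e f h012 h013 h023 h123 h014 h024 h124 h034 h134 h234 h015 h025 h125 h035 h135 h235 h045 h145 h245 h345 g hm
  subst h012 h013 h023 h123 h014 h024 h124 h034 h134 h234 h015 h025 h125 h035 h135 h235 h045 h145 h245 h345
  have hf : lC E a b c d e f < 1024 := c10_lt (hE.b _ _ _) (hE.b _ _ _) (hE.b _ _ _) (hE.b _ _ _) (hE.b _ _ _) (hE.b _ _ _) (hE.b _ _ _) (hE.b _ _ _) (hE.b _ _ _) (hE.b _ _ _)
  have h1 : chkB (mC E a b c d e) (lC E a b c d e f) = true := chk_all hf h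
  exact leaf_le hE (OF_E hE hK) (Hs_E hE hK) a b c d e f g (chkB_leaf hE hK a b c d e f g hm h1)

theorem walk_of_wnest (hE : Sy E) (hK : NoK4 E) (a b c d e f : V) (h : wnest (E a b c) (E a b d) (E a c d) (E b c d) (E a b e) (E a c e) (E b c e) (E a d e) (E b d e) (E c d e) = true) :
    walk6 16 (wd (mC E a b c d e) (lC E a b c d e f)) (E a b c) (E a b d) (E a c d) (E b c d) (E a b e) (E a c e) (E b c e) (E a d e) (E b d e) (E c d e) (E a b f) (E a c f) (E b c f) (E a d f) (E b d f) (E c d f) (E a e f) (E b e f) (E c e f) (E d e f) = true :=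
  (or_false_left (or_false_left (or_false_left (B2_true (or_false_left (or_false_left (B2_true (or_false_left (B2_true (B2_true (or_false_left (or_false_left (B2_true (or_false_left (B2_true (B2_true (or_false_left (B2_true (B2_true (B2_true h (hE.b a b f)) (hE.b a c f)) (hE.b b c f)) (hK a b c f)) (hE.b a d f)) (hE.b b d f)) (hK a b d f)) (hE.b c d f)) (hK a c d f)) (hK b c d f)) (hE.b a e f)) (hE.b b e f)) (hK a b e f)) (hE.b c e f)) (hK a c e f)) (hK b c e f)) (hE.b d e f)) (hK a d e f)) (hK b d e f)) (hK c d e f))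

theorem G5_rep (hE : Sy E) (hK : NoK4 E) (b012 b013 b023 b123 b014 b024 b124 b034 b134 b234 : ℕ) (ht : tg b012 b013 b023 b123 b014 b024 b124 b034 b134 b234 = 4) : G5 E b012 b013 b023 b123 b014 b024 b124 b034 b134 b234 := by
  intro a b c d e h012 h013 h023 h123 h014 h024 h124 h034 h134 h234 f g hm
  subst h012 h013 h023 h123 h014 h024 h124 h034 h134 h234
  have h1 := walk_of_wnest hE hK a b c d e f (wnest_rep (hE.b _ _ _) (hE.b _ _ _) (hE.b _ _ _) (hE.b _ _ _) (hE.b _ _ _) (hE.b _ _ _) (hE.b _ _ _) (hE.b _ _ _) (hE.b _ _ _) (hE.b _ _ _) ht)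
  exact walk6_gen (P := G6 E) (G6_sw0 hE (OF_E hE hK)) (G6_sw1 hE (OF_E hE hK)) (G6_sw2 hE (OF_E hE hK))
    (G6_sw3 hE (OF_E hE hK)) (G6_sw4 hE (OF_E hE hK)) (G6_base hE hK) 16 _ _ _ _ _ _ _ _ _ _ _ _ _ _ _ _ _ _ _ _ _ h1 a b c d e f rfl rfl rfl rfl rfl rfl rfl rfl rfl rfl rfl rfl rfl rfl rfl rfl rfl rfl rfl rfl g hm

/-- the leaf inequality -/
theorem leaf_all (hE : Sy E) (hK : NoK4 E) (a b c d e f g : V) : L5 E a b c d e f g ≤ cC := by
  refine of_md hE (OF_E hE hK) ?_ a b c d e f g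
  intro a b c d e f g hm
  exact walk_gen (P := G5 E) (G5_sw0 hE (OF_E hE hK)) (G5_sw1 hE (OF_E hE hK)) (G5_sw2 hE (OF_E hE hK))
    (G5_sw3 hE (OF_E hE hK)) (G5_rep hE hK) 9
    _ _ _ _ _ _ _ _ _ _ (walk_E hE hK a b c d e) a b c d e rfl rfl rfl rfl rfl rfl rfl rfl rfl rfl f g hm

end

end Pool.Agent.W843.N7
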