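import Pool.Agent.W843.N7.ChkO

/-! Checks at the representatives: vectors, weights and diagonal sums. -/

set_option autoImplicit false
set_option maxRecDepth 100000
set_option maxHeartbeats 4000000
open Finset
open Pool.Agent.H122R2.N6 (Sy NoK4 Bt k4b five tg walk walk_all B2 B2_true or_false_left)

namespace Pool.Agent.W843.N7

def lsum (o : ℕ) : ℕ := @Nat.rec (fun _ => ℕ) 0 (fun k s => Nat.add s (dgt (Nat.succ k) (vA o))) 11
def wsum (o : ℕ) : ℕ := Nat.add (wt o) (Nat.mul cB (lsum o))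
def dg2 (c : ℕ) : ℕ := D2 c c

def eB (b012 b013 b023 b123 b014 b024 b124 b034 b134 b234 b015 b025 b125 b035 b135 b235 b045 b145 b245 b345 : ℕ) : ℕ := (Nat.add b012 (Nat.add b013 (Nat.add b023 (Nat.add b123 (Nat.add b014 (Nat.add b024 (Nat.add b124 (Nat.add b034 (Nat.add b134 (Nat.add b234 (Nat.add b015 (Nat.add b025 (Nat.add b125 (Nat.add b035 (Nat.add b135 (Nat.add b235 (Nat.add b045 (Nat.add b145 (Nat.add b245 b345)))))))))))))))))))

def pB (b012 b013 b023 b123 b014 b024 b124 b034 b134 b234 b015 b025 b125 b035 b135 b235 b045 b145 b245 b345 : ℕ) : ℕ := (Nat.add (Nat.mul b012 b345) (Nat.add (Nat.mul b013 b245) (Nat.add (Nat.mul b023 b145) (Nat.add (Nat.mul b014 b235) (Nat.add (Nat.mul b024 b135) (Nat.add (Nat.mul b034 b125) (Nat.add (Nat.mul b015 b234) (Nat.add (Nat.mul b025 b134) (Nat.add (Nat.mul b035 b124) (Nat.mul b045 b123))))))))))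

def hB (b012 b013 b023 b123 b014 b024 b124 b034 b134 b234 b015 b025 b125 b035 b135 b235 b045 b145 b245 b345 : ℕ) : ℕ :=
    (Nat.add (st dg2 (c20 b123 b124 b134 b234 b125 b135 b235 b145 b245 b345 b012 b013 b023 b014 b024 b034 b015 b025 b035 b045))
    (Nat.add (st dg2 (c20 b023 b024 b034 b234 b025 b035 b235 b045 b245 b345 b012 b013 b123 b014 b124 b134 b015 b125 b135 b145))
    (Nat.add (st dg2 (c20 b013 b014 b034 b134 b015 b035 b135 b045 b145 b345 b012 b023 b123 b024 b124 b234 b025 b125 b235 b245))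
    (Nat.add (st dg2 (c20 b012 b014 b024 b124 b015 b025 b125 b045 b145 b245 b013 b023 b123 b034 b134 b234 b035 b135 b235 b345))
    (st dg2 (c20 b012 b013 b023 b123 b015 b025 b125 b035 b135 b235 b014 b024 b124 b034 b134 b234 b045 b145 b245 b345))))))

def rcC (b012 b013 b023 b123 b014 b024 b124 b034 b134 b234 b015 b025 b125 b035 b135 b235 b045 b145 b245 b345 c : ℕ) : Bool :=
  cnd (st vOK (orb c))
    (cnd (Nat.beq (st wsum (orb c)) (Nat.add (Nat.mul cAl (eB b012 b013 b023 b123 b014 b024 b124 b034 b134 b234 b015 b025 b125 b035 b135 b235 b045 b145 b245 b345)) (Nat.add (Nat.mul cBe (pB b012 b013 b023 b123 b014 b024 b124 b034 b134 b234 b015 b025 b125 b035 b135 b235 b045 b145 b245 b345)) cGa)))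
      (Nat.ble (hB b012 b013 b023 b123 b014 b024 b124 b034 b134 b234 b015 b025 b125 b035 b135 b235 b045 b145 b245 b345) (st hh c)) false) false

def rc (b012 b013 b023 b123 b014 b024 b124 b034 b134 b234 b015 b025 b125 b035 b135 b235 b045 b145 b245 b345 : ℕ) : Bool := st (rcC b012 b013 b023 b123 b014 b024 b124 b034 b134 b234 b015 b025 b125 b035 b135 b235 b045 b145 b245 b345) (c20 b012 b013 b023 b123 b014 b024 b124 b034 b134 b234 b015 b025 b125 b035 b135 b235 b045 b145 b245 b345)

def rnest (b012 b013 b023 b123 b014 b024 b124 b034 b134 b234 : ℕ) : Bool :=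
  B2 fun b015 => B2 fun b025 => B2 fun b125 => or (k4b b012 b015 b025 b125) (B2 fun b035 => B2 fun b135 => or (k4b b013 b015 b035 b135) (B2 fun b235 => or (k4b b023 b025 b035 b235) (or (k4b b123 b125 b135 b235) (B2 fun b045 => B2 fun b145 => or (k4b b014 b015 b045 b145) (B2 fun b245 => or (k4b b024 b025 b045 b245) (or (k4b b124 b125 b145 b245) (B2 fun b345 => or (k4b b034 b035 b045 b345) (or (k4b b134 b135 b145 b345) (or (k4b b234 b235 b245 b345) (rc b012 b013 b023 b123 b014 b024 b124 b034 b134 b234 b015 b025 b125 b035 b135 b235 b045 b145 b245 b345))))))))))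

def rnc (m : ℕ) : Bool := rnest (bt 0 m) (bt 1 m) (bt 2 m) (bt 3 m) (bt 4 m) (bt 5 m) (bt 6 m) (bt 7 m) (bt 8 m) (bt 9 m)

end Pool.Agent.W843.N7
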