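import Pool.Agent.W843.N7.RepC

set_option autoImplicit false
set_option maxRecDepth 100000
set_option maxHeartbeats 4000000

namespace Pool.Agent.W843.N7

theorem rnc0 : rnc 0 = true := by decide +kernel
theorem rnc1 : rnc 1 = true := by decide +kernel
theorem rnc3 : rnc 3 = true := by decide +kernel
theorem rnc7 : rnc 7 = true := by decide +kernel
theorem rnc19 : rnc 19 = true := by decide +kernel
theorem rnc20 : rnc 20 = true := by decide +kernel
theorem rnc21 : rnc 21 = true := by decide +kernel
theorem rnc23 : rnc 23 = true := by decide +kernel

end Pool.Agent.W843.N7
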