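import Pool.Agent.H122R2.N6.Count

set_option autoImplicit false

namespace Pool.Agent.W843.N7

/-- evaluation with the argument reduced first -/
def st {α : Type} (f : ℕ → α) (n : ℕ) : α := Nat.rec (f 0) (fun k _ => f (Nat.succ k)) n

theorem st_eq {α : Type} (f : ℕ → α) (n : ℕ) : st f n = f n := by cases n <;> rfl

end Pool.Agent.W843.N7
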