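import Pool.Agent.W843.N7.VecT0
import Pool.Agent.W843.N7.VecT1
import Pool.Agent.W843.N7.Orb

/-! The vectors of the certificate. -/

set_option autoImplicit false
set_option maxRecDepth 100000

namespace Pool.Agent.W843.N7

def vct_0 (q : ℕ) : ℕ := cond (Nat.ble 1 q) (cond (Nat.ble 2 q) vc2 vc1) vc0
def vct_1 (q : ℕ) : ℕ := cond (Nat.ble 4 q) (cond (Nat.ble 5 q) vc5 vc4) vc3
def vct_2 (q : ℕ) : ℕ := cond (Nat.ble 3 q) (vct_1 q) (vct_0 q)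
def vct_3 (q : ℕ) : ℕ := cond (Nat.ble 7 q) (cond (Nat.ble 8 q) vc8 vc7) vc6
def vct_4 (q : ℕ) : ℕ := cond (Nat.ble 10 q) (cond (Nat.ble 11 q) vc11 vc10) vc9
def vct_5 (q : ℕ) : ℕ := cond (Nat.ble 9 q) (vct_4 q) (vct_3 q)
def vct_6 (q : ℕ) : ℕ := cond (Nat.ble 6 q) (vct_5 q) (vct_2 q)
def vct_7 (q : ℕ) : ℕ := cond (Nat.ble 13 q) (cond (Nat.ble 14 q) vc14 vc13) vc12
def vct_8 (q : ℕ) : ℕ := cond (Nat.ble 16 q) (cond (Nat.ble 17 q) vc17 vc16) vc15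
def vct_9 (q : ℕ) : ℕ := cond (Nat.ble 15 q) (vct_8 q) (vct_7 q)
def vct_10 (q : ℕ) : ℕ := cond (Nat.ble 19 q) (cond (Nat.ble 20 q) vc20 vc19) vc18
def vct_11 (q : ℕ) : ℕ := cond (Nat.ble 23 q) (cond (Nat.ble 24 q) vc24 vc23) (cond (Nat.ble 22 q) vc22 vc21)
def vct_12 (q : ℕ) : ℕ := cond (Nat.ble 21 q) (vct_11 q) (vct_10 q)
def vct_13 (q : ℕ) : ℕ := cond (Nat.ble 18 q) (vct_12 q) (vct_9 q)
def vct_14 (q : ℕ) : ℕ := cond (Nat.ble 12 q) (vct_13 q) (vct_6 q)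
def vct_15 (q : ℕ) : ℕ := cond (Nat.ble 26 q) (cond (Nat.ble 27 q) vc27 vc26) vc25
def vct_16 (q : ℕ) : ℕ := cond (Nat.ble 29 q) (cond (Nat.ble 30 q) vc30 vc29) vc28
def vct_17 (q : ℕ) : ℕ := cond (Nat.ble 28 q) (vct_16 q) (vct_15 q)
def vct_18 (q : ℕ) : ℕ := cond (Nat.ble 32 q) (cond (Nat.ble 33 q) vc33 vc32) vc31
def vct_19 (q : ℕ) : ℕ := cond (Nat.ble 35 q) (cond (Nat.ble 36 q) vc36 vc35) vc34
def vct_20 (q : ℕ) : ℕ := cond (Nat.ble 34 q) (vct_19 q) (vct_18 q)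
def vct_21 (q : ℕ) : ℕ := cond (Nat.ble 31 q) (vct_20 q) (vct_17 q)
def vct_22 (q : ℕ) : ℕ := cond (Nat.ble 38 q) (cond (Nat.ble 39 q) vc39 vc38) vc37
def vct_23 (q : ℕ) : ℕ := cond (Nat.ble 41 q) (cond (Nat.ble 42 q) vc42 vc41) vc40
def vct_24 (q : ℕ) : ℕ := cond (Nat.ble 40 q) (vct_23 q) (vct_22 q)
def vct_25 (q : ℕ) : ℕ := cond (Nat.ble 44 q) (cond (Nat.ble 45 q) vc45 vc44) vc43
def vct_26 (q : ℕ) : ℕ := cond (Nat.ble 48 q) (cond (Nat.ble 49 q) vc49 vc48) (cond (Nat.ble 47 q) vc47 vc46)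
def vct_27 (q : ℕ) : ℕ := cond (Nat.ble 46 q) (vct_26 q) (vct_25 q)
def vct_28 (q : ℕ) : ℕ := cond (Nat.ble 43 q) (vct_27 q) (vct_24 q)
def vct_29 (q : ℕ) : ℕ := cond (Nat.ble 37 q) (vct_28 q) (vct_21 q)
def vct_30 (q : ℕ) : ℕ := cond (Nat.ble 25 q) (vct_29 q) (vct_14 q)
def vct_31 (q : ℕ) : ℕ := cond (Nat.ble 51 q) (cond (Nat.ble 52 q) vc52 vc51) vc50
def vct_32 (q : ℕ) : ℕ := cond (Nat.ble 54 q) (cond (Nat.ble 55 q) vc55 vc54) vc53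
def vct_33 (q : ℕ) : ℕ := cond (Nat.ble 53 q) (vct_32 q) (vct_31 q)
def vct_34 (q : ℕ) : ℕ := cond (Nat.ble 57 q) (cond (Nat.ble 58 q) vc58 vc57) vc56
def vct_35 (q : ℕ) : ℕ := cond (Nat.ble 60 q) (cond (Nat.ble 61 q) vc61 vc60) vc59
def vct_36 (q : ℕ) : ℕ := cond (Nat.ble 59 q) (vct_35 q) (vct_34 q)
def vct_37 (q : ℕ) : ℕ := cond (Nat.ble 56 q) (vct_36 q) (vct_33 q)
def vct_38 (q : ℕ) : ℕ := cond (Nat.ble 63 q) (cond (Nat.ble 64 q) vc64 vc63) vc62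
def vct_39 (q : ℕ) : ℕ := cond (Nat.ble 66 q) (cond (Nat.ble 67 q) vc67 vc66) vc65
def vct_40 (q : ℕ) : ℕ := cond (Nat.ble 65 q) (vct_39 q) (vct_38 q)
def vct_41 (q : ℕ) : ℕ := cond (Nat.ble 69 q) (cond (Nat.ble 70 q) vc70 vc69) vc68
def vct_42 (q : ℕ) : ℕ := cond (Nat.ble 73 q) (cond (Nat.ble 74 q) vc74 vc73) (cond (Nat.ble 72 q) vc72 vc71)
def vct_43 (q : ℕ) : ℕ := cond (Nat.ble 71 q) (vct_42 q) (vct_41 q)
def vct_44 (q : ℕ) : ℕ := cond (Nat.ble 68 q) (vct_43 q) (vct_40 q)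
def vct_45 (q : ℕ) : ℕ := cond (Nat.ble 62 q) (vct_44 q) (vct_37 q)
def vct_46 (q : ℕ) : ℕ := cond (Nat.ble 76 q) (cond (Nat.ble 77 q) vc77 vc76) vc75
def vct_47 (q : ℕ) : ℕ := cond (Nat.ble 79 q) (cond (Nat.ble 80 q) vc80 vc79) vc78
def vct_48 (q : ℕ) : ℕ := cond (Nat.ble 78 q) (vct_47 q) (vct_46 q)
def vct_49 (q : ℕ) : ℕ := cond (Nat.ble 82 q) (cond (Nat.ble 83 q) vc83 vc82) vc81
def vct_50 (q : ℕ) : ℕ := cond (Nat.ble 85 q) (cond (Nat.ble 86 q) vc86 vc85) vc84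
def vct_51 (q : ℕ) : ℕ := cond (Nat.ble 84 q) (vct_50 q) (vct_49 q)
def vct_52 (q : ℕ) : ℕ := cond (Nat.ble 81 q) (vct_51 q) (vct_48 q)
def vct_53 (q : ℕ) : ℕ := cond (Nat.ble 88 q) (cond (Nat.ble 89 q) vc89 vc88) vc87
def vct_54 (q : ℕ) : ℕ := cond (Nat.ble 91 q) (cond (Nat.ble 92 q) vc92 vc91) vc90
def vct_55 (q : ℕ) : ℕ := cond (Nat.ble 90 q) (vct_54 q) (vct_53 q)
def vct_56 (q : ℕ) : ℕ := cond (Nat.ble 94 q) (cond (Nat.ble 95 q) vc95 vc94) vc93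
def vct_57 (q : ℕ) : ℕ := cond (Nat.ble 98 q) (cond (Nat.ble 99 q) vc99 vc98) (cond (Nat.ble 97 q) vc97 vc96)
def vct_58 (q : ℕ) : ℕ := cond (Nat.ble 96 q) (vct_57 q) (vct_56 q)
def vct_59 (q : ℕ) : ℕ := cond (Nat.ble 93 q) (vct_58 q) (vct_55 q)
def vct_60 (q : ℕ) : ℕ := cond (Nat.ble 87 q) (vct_59 q) (vct_52 q)
def vct_61 (q : ℕ) : ℕ := cond (Nat.ble 75 q) (vct_60 q) (vct_45 q)
def vct_62 (q : ℕ) : ℕ := cond (Nat.ble 50 q) (vct_61 q) (vct_30 q)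
def vct_63 (q : ℕ) : ℕ := cond (Nat.ble 101 q) (cond (Nat.ble 102 q) vc102 vc101) vc100
def vct_64 (q : ℕ) : ℕ := cond (Nat.ble 104 q) (cond (Nat.ble 105 q) vc105 vc104) vc103
def vct_65 (q : ℕ) : ℕ := cond (Nat.ble 103 q) (vct_64 q) (vct_63 q)
def vct_66 (q : ℕ) : ℕ := cond (Nat.ble 107 q) (cond (Nat.ble 108 q) vc108 vc107) vc106
def vct_67 (q : ℕ) : ℕ := cond (Nat.ble 110 q) (cond (Nat.ble 111 q) vc111 vc110) vc109
def vct_68 (q : ℕ) : ℕ := cond (Nat.ble 109 q) (vct_67 q) (vct_66 q)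
def vct_69 (q : ℕ) : ℕ := cond (Nat.ble 106 q) (vct_68 q) (vct_65 q)
def vct_70 (q : ℕ) : ℕ := cond (Nat.ble 113 q) (cond (Nat.ble 114 q) vc114 vc113) vc112
def vct_71 (q : ℕ) : ℕ := cond (Nat.ble 116 q) (cond (Nat.ble 117 q) vc117 vc116) vc115
def vct_72 (q : ℕ) : ℕ := cond (Nat.ble 115 q) (vct_71 q) (vct_70 q)
def vct_73 (q : ℕ) : ℕ := cond (Nat.ble 119 q) (cond (Nat.ble 120 q) vc120 vc119) vc118
def vct_74 (q : ℕ) : ℕ := cond (Nat.ble 123 q) (cond (Nat.ble 124 q) vc124 vc123) (cond (Nat.ble 122 q) vc122 vc121)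
def vct_75 (q : ℕ) : ℕ := cond (Nat.ble 121 q) (vct_74 q) (vct_73 q)
def vct_76 (q : ℕ) : ℕ := cond (Nat.ble 118 q) (vct_75 q) (vct_72 q)
def vct_77 (q : ℕ) : ℕ := cond (Nat.ble 112 q) (vct_76 q) (vct_69 q)
def vct_78 (q : ℕ) : ℕ := cond (Nat.ble 126 q) (cond (Nat.ble 127 q) vc127 vc126) vc125
def vct_79 (q : ℕ) : ℕ := cond (Nat.ble 129 q) (cond (Nat.ble 130 q) vc130 vc129) vc128
def vct_80 (q : ℕ) : ℕ := cond (Nat.ble 128 q) (vct_79 q) (vct_78 q)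
def vct_81 (q : ℕ) : ℕ := cond (Nat.ble 132 q) (cond (Nat.ble 133 q) vc133 vc132) vc131
def vct_82 (q : ℕ) : ℕ := cond (Nat.ble 135 q) (cond (Nat.ble 136 q) vc136 vc135) vc134
def vct_83 (q : ℕ) : ℕ := cond (Nat.ble 134 q) (vct_82 q) (vct_81 q)
def vct_84 (q : ℕ) : ℕ := cond (Nat.ble 131 q) (vct_83 q) (vct_80 q)
def vct_85 (q : ℕ) : ℕ := cond (Nat.ble 138 q) (cond (Nat.ble 139 q) vc139 vc138) vc137
def vct_86 (q : ℕ) : ℕ := cond (Nat.ble 141 q) (cond (Nat.ble 142 q) vc142 vc141) vc140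
def vct_87 (q : ℕ) : ℕ := cond (Nat.ble 140 q) (vct_86 q) (vct_85 q)
def vct_88 (q : ℕ) : ℕ := cond (Nat.ble 144 q) (cond (Nat.ble 145 q) vc145 vc144) vc143
def vct_89 (q : ℕ) : ℕ := cond (Nat.ble 148 q) (cond (Nat.ble 149 q) vc149 vc148) (cond (Nat.ble 147 q) vc147 vc146)
def vct_90 (q : ℕ) : ℕ := cond (Nat.ble 146 q) (vct_89 q) (vct_88 q)
def vct_91 (q : ℕ) : ℕ := cond (Nat.ble 143 q) (vct_90 q) (vct_87 q)
def vct_92 (q : ℕ) : ℕ := cond (Nat.ble 137 q) (vct_91 q) (vct_84 q)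
def vct_93 (q : ℕ) : ℕ := cond (Nat.ble 125 q) (vct_92 q) (vct_77 q)
def vct_94 (q : ℕ) : ℕ := cond (Nat.ble 151 q) (cond (Nat.ble 152 q) vc152 vc151) vc150
def vct_95 (q : ℕ) : ℕ := cond (Nat.ble 154 q) (cond (Nat.ble 155 q) vc155 vc154) vc153
def vct_96 (q : ℕ) : ℕ := cond (Nat.ble 153 q) (vct_95 q) (vct_94 q)
def vct_97 (q : ℕ) : ℕ := cond (Nat.ble 157 q) (cond (Nat.ble 158 q) vc158 vc157) vc156
def vct_98 (q : ℕ) : ℕ := cond (Nat.ble 160 q) (cond (Nat.ble 161 q) vc161 vc160) vc159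
def vct_99 (q : ℕ) : ℕ := cond (Nat.ble 159 q) (vct_98 q) (vct_97 q)
def vct_100 (q : ℕ) : ℕ := cond (Nat.ble 156 q) (vct_99 q) (vct_96 q)
def vct_101 (q : ℕ) : ℕ := cond (Nat.ble 163 q) (cond (Nat.ble 164 q) vc164 vc163) vc162
def vct_102 (q : ℕ) : ℕ := cond (Nat.ble 166 q) (cond (Nat.ble 167 q) vc167 vc166) vc165
def vct_103 (q : ℕ) : ℕ := cond (Nat.ble 165 q) (vct_102 q) (vct_101 q)
def vct_104 (q : ℕ) : ℕ := cond (Nat.ble 169 q) (cond (Nat.ble 170 q) vc170 vc169) vc168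
def vct_105 (q : ℕ) : ℕ := cond (Nat.ble 173 q) (cond (Nat.ble 174 q) vc174 vc173) (cond (Nat.ble 172 q) vc172 vc171)
def vct_106 (q : ℕ) : ℕ := cond (Nat.ble 171 q) (vct_105 q) (vct_104 q)
def vct_107 (q : ℕ) : ℕ := cond (Nat.ble 168 q) (vct_106 q) (vct_103 q)
def vct_108 (q : ℕ) : ℕ := cond (Nat.ble 162 q) (vct_107 q) (vct_100 q)
def vct_109 (q : ℕ) : ℕ := cond (Nat.ble 176 q) (cond (Nat.ble 177 q) vc177 vc176) vc175
def vct_110 (q : ℕ) : ℕ := cond (Nat.ble 179 q) (cond (Nat.ble 180 q) vc180 vc179) vc178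
def vct_111 (q : ℕ) : ℕ := cond (Nat.ble 178 q) (vct_110 q) (vct_109 q)
def vct_112 (q : ℕ) : ℕ := cond (Nat.ble 182 q) (cond (Nat.ble 183 q) vc183 vc182) vc181
def vct_113 (q : ℕ) : ℕ := cond (Nat.ble 186 q) (cond (Nat.ble 187 q) vc187 vc186) (cond (Nat.ble 185 q) vc185 vc184)
def vct_114 (q : ℕ) : ℕ := cond (Nat.ble 184 q) (vct_113 q) (vct_112 q)
def vct_115 (q : ℕ) : ℕ := cond (Nat.ble 181 q) (vct_114 q) (vct_111 q)
def vct_116 (q : ℕ) : ℕ := cond (Nat.ble 189 q) (cond (Nat.ble 190 q) vc190 vc189) vc188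
def vct_117 (q : ℕ) : ℕ := cond (Nat.ble 192 q) (cond (Nat.ble 193 q) vc193 vc192) vc191
def vct_118 (q : ℕ) : ℕ := cond (Nat.ble 191 q) (vct_117 q) (vct_116 q)
def vct_119 (q : ℕ) : ℕ := cond (Nat.ble 195 q) (cond (Nat.ble 196 q) vc196 vc195) vc194
def vct_120 (q : ℕ) : ℕ := cond (Nat.ble 199 q) (cond (Nat.ble 200 q) vc200 vc199) (cond (Nat.ble 198 q) vc198 vc197)
def vct_121 (q : ℕ) : ℕ := cond (Nat.ble 197 q) (vct_120 q) (vct_119 q)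
def vct_122 (q : ℕ) : ℕ := cond (Nat.ble 194 q) (vct_121 q) (vct_118 q)
def vct_123 (q : ℕ) : ℕ := cond (Nat.ble 188 q) (vct_122 q) (vct_115 q)
def vct_124 (q : ℕ) : ℕ := cond (Nat.ble 175 q) (vct_123 q) (vct_108 q)
def vct_125 (q : ℕ) : ℕ := cond (Nat.ble 150 q) (vct_124 q) (vct_93 q)
def vct_126 (q : ℕ) : ℕ := cond (Nat.ble 100 q) (vct_125 q) (vct_62 q)
def vct_127 (q : ℕ) : ℕ := cond (Nat.ble 202 q) (cond (Nat.ble 203 q) vc203 vc202) vc201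
def vct_128 (q : ℕ) : ℕ := cond (Nat.ble 205 q) (cond (Nat.ble 206 q) vc206 vc205) vc204
def vct_129 (q : ℕ) : ℕ := cond (Nat.ble 204 q) (vct_128 q) (vct_127 q)
def vct_130 (q : ℕ) : ℕ := cond (Nat.ble 208 q) (cond (Nat.ble 209 q) vc209 vc208) vc207
def vct_131 (q : ℕ) : ℕ := cond (Nat.ble 211 q) (cond (Nat.ble 212 q) vc212 vc211) vc210
def vct_132 (q : ℕ) : ℕ := cond (Nat.ble 210 q) (vct_131 q) (vct_130 q)
def vct_133 (q : ℕ) : ℕ := cond (Nat.ble 207 q) (vct_132 q) (vct_129 q)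
def vct_134 (q : ℕ) : ℕ := cond (Nat.ble 214 q) (cond (Nat.ble 215 q) vc215 vc214) vc213
def vct_135 (q : ℕ) : ℕ := cond (Nat.ble 217 q) (cond (Nat.ble 218 q) vc218 vc217) vc216
def vct_136 (q : ℕ) : ℕ := cond (Nat.ble 216 q) (vct_135 q) (vct_134 q)
def vct_137 (q : ℕ) : ℕ := cond (Nat.ble 220 q) (cond (Nat.ble 221 q) vc221 vc220) vc219
def vct_138 (q : ℕ) : ℕ := cond (Nat.ble 224 q) (cond (Nat.ble 225 q) vc225 vc224) (cond (Nat.ble 223 q) vc223 vc222)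
def vct_139 (q : ℕ) : ℕ := cond (Nat.ble 222 q) (vct_138 q) (vct_137 q)
def vct_140 (q : ℕ) : ℕ := cond (Nat.ble 219 q) (vct_139 q) (vct_136 q)
def vct_141 (q : ℕ) : ℕ := cond (Nat.ble 213 q) (vct_140 q) (vct_133 q)
def vct_142 (q : ℕ) : ℕ := cond (Nat.ble 227 q) (cond (Nat.ble 228 q) vc228 vc227) vc226
def vct_143 (q : ℕ) : ℕ := cond (Nat.ble 230 q) (cond (Nat.ble 231 q) vc231 vc230) vc229
def vct_144 (q : ℕ) : ℕ := cond (Nat.ble 229 q) (vct_143 q) (vct_142 q)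
def vct_145 (q : ℕ) : ℕ := cond (Nat.ble 233 q) (cond (Nat.ble 234 q) vc234 vc233) vc232
def vct_146 (q : ℕ) : ℕ := cond (Nat.ble 236 q) (cond (Nat.ble 237 q) vc237 vc236) vc235
def vct_147 (q : ℕ) : ℕ := cond (Nat.ble 235 q) (vct_146 q) (vct_145 q)
def vct_148 (q : ℕ) : ℕ := cond (Nat.ble 232 q) (vct_147 q) (vct_144 q)
def vct_149 (q : ℕ) : ℕ := cond (Nat.ble 239 q) (cond (Nat.ble 240 q) vc240 vc239) vc238
def vct_150 (q : ℕ) : ℕ := cond (Nat.ble 242 q) (cond (Nat.ble 243 q) vc243 vc242) vc241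
def vct_151 (q : ℕ) : ℕ := cond (Nat.ble 241 q) (vct_150 q) (vct_149 q)
def vct_152 (q : ℕ) : ℕ := cond (Nat.ble 245 q) (cond (Nat.ble 246 q) vc246 vc245) vc244
def vct_153 (q : ℕ) : ℕ := cond (Nat.ble 249 q) (cond (Nat.ble 250 q) vc250 vc249) (cond (Nat.ble 248 q) vc248 vc247)
def vct_154 (q : ℕ) : ℕ := cond (Nat.ble 247 q) (vct_153 q) (vct_152 q)
def vct_155 (q : ℕ) : ℕ := cond (Nat.ble 244 q) (vct_154 q) (vct_151 q)
def vct_156 (q : ℕ) : ℕ := cond (Nat.ble 238 q) (vct_155 q) (vct_148 q)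
def vct_157 (q : ℕ) : ℕ := cond (Nat.ble 226 q) (vct_156 q) (vct_141 q)
def vct_158 (q : ℕ) : ℕ := cond (Nat.ble 252 q) (cond (Nat.ble 253 q) vc253 vc252) vc251
def vct_159 (q : ℕ) : ℕ := cond (Nat.ble 255 q) (cond (Nat.ble 256 q) vc256 vc255) vc254
def vct_160 (q : ℕ) : ℕ := cond (Nat.ble 254 q) (vct_159 q) (vct_158 q)
def vct_161 (q : ℕ) : ℕ := cond (Nat.ble 258 q) (cond (Nat.ble 259 q) vc259 vc258) vc257
def vct_162 (q : ℕ) : ℕ := cond (Nat.ble 261 q) (cond (Nat.ble 262 q) vc262 vc261) vc260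
def vct_163 (q : ℕ) : ℕ := cond (Nat.ble 260 q) (vct_162 q) (vct_161 q)
def vct_164 (q : ℕ) : ℕ := cond (Nat.ble 257 q) (vct_163 q) (vct_160 q)
def vct_165 (q : ℕ) : ℕ := cond (Nat.ble 264 q) (cond (Nat.ble 265 q) vc265 vc264) vc263
def vct_166 (q : ℕ) : ℕ := cond (Nat.ble 267 q) (cond (Nat.ble 268 q) vc268 vc267) vc266
def vct_167 (q : ℕ) : ℕ := cond (Nat.ble 266 q) (vct_166 q) (vct_165 q)
def vct_168 (q : ℕ) : ℕ := cond (Nat.ble 270 q) (cond (Nat.ble 271 q) vc271 vc270) vc269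
def vct_169 (q : ℕ) : ℕ := cond (Nat.ble 274 q) (cond (Nat.ble 275 q) vc275 vc274) (cond (Nat.ble 273 q) vc273 vc272)
def vct_170 (q : ℕ) : ℕ := cond (Nat.ble 272 q) (vct_169 q) (vct_168 q)
def vct_171 (q : ℕ) : ℕ := cond (Nat.ble 269 q) (vct_170 q) (vct_167 q)
def vct_172 (q : ℕ) : ℕ := cond (Nat.ble 263 q) (vct_171 q) (vct_164 q)
def vct_173 (q : ℕ) : ℕ := cond (Nat.ble 277 q) (cond (Nat.ble 278 q) vc278 vc277) vc276
def vct_174 (q : ℕ) : ℕ := cond (Nat.ble 280 q) (cond (Nat.ble 281 q) vc281 vc280) vc279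
def vct_175 (q : ℕ) : ℕ := cond (Nat.ble 279 q) (vct_174 q) (vct_173 q)
def vct_176 (q : ℕ) : ℕ := cond (Nat.ble 283 q) (cond (Nat.ble 284 q) vc284 vc283) vc282
def vct_177 (q : ℕ) : ℕ := cond (Nat.ble 286 q) (cond (Nat.ble 287 q) vc287 vc286) vc285
def vct_178 (q : ℕ) : ℕ := cond (Nat.ble 285 q) (vct_177 q) (vct_176 q)
def vct_179 (q : ℕ) : ℕ := cond (Nat.ble 282 q) (vct_178 q) (vct_175 q)
def vct_180 (q : ℕ) : ℕ := cond (Nat.ble 289 q) (cond (Nat.ble 290 q) vc290 vc289) vc288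
def vct_181 (q : ℕ) : ℕ := cond (Nat.ble 292 q) (cond (Nat.ble 293 q) vc293 vc292) vc291
def vct_182 (q : ℕ) : ℕ := cond (Nat.ble 291 q) (vct_181 q) (vct_180 q)
def vct_183 (q : ℕ) : ℕ := cond (Nat.ble 295 q) (cond (Nat.ble 296 q) vc296 vc295) vc294
def vct_184 (q : ℕ) : ℕ := cond (Nat.ble 299 q) (cond (Nat.ble 300 q) vc300 vc299) (cond (Nat.ble 298 q) vc298 vc297)
def vct_185 (q : ℕ) : ℕ := cond (Nat.ble 297 q) (vct_184 q) (vct_183 q)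
def vct_186 (q : ℕ) : ℕ := cond (Nat.ble 294 q) (vct_185 q) (vct_182 q)
def vct_187 (q : ℕ) : ℕ := cond (Nat.ble 288 q) (vct_186 q) (vct_179 q)
def vct_188 (q : ℕ) : ℕ := cond (Nat.ble 276 q) (vct_187 q) (vct_172 q)
def vct_189 (q : ℕ) : ℕ := cond (Nat.ble 251 q) (vct_188 q) (vct_157 q)
def vct_190 (q : ℕ) : ℕ := cond (Nat.ble 302 q) (cond (Nat.ble 303 q) vc303 vc302) vc301
def vct_191 (q : ℕ) : ℕ := cond (Nat.ble 305 q) (cond (Nat.ble 306 q) vc306 vc305) vc304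
def vct_192 (q : ℕ) : ℕ := cond (Nat.ble 304 q) (vct_191 q) (vct_190 q)
def vct_193 (q : ℕ) : ℕ := cond (Nat.ble 308 q) (cond (Nat.ble 309 q) vc309 vc308) vc307
def vct_194 (q : ℕ) : ℕ := cond (Nat.ble 311 q) (cond (Nat.ble 312 q) vc312 vc311) vc310
def vct_195 (q : ℕ) : ℕ := cond (Nat.ble 310 q) (vct_194 q) (vct_193 q)
def vct_196 (q : ℕ) : ℕ := cond (Nat.ble 307 q) (vct_195 q) (vct_192 q)
def vct_197 (q : ℕ) : ℕ := cond (Nat.ble 314 q) (cond (Nat.ble 315 q) vc315 vc314) vc313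
def vct_198 (q : ℕ) : ℕ := cond (Nat.ble 317 q) (cond (Nat.ble 318 q) vc318 vc317) vc316
def vct_199 (q : ℕ) : ℕ := cond (Nat.ble 316 q) (vct_198 q) (vct_197 q)
def vct_200 (q : ℕ) : ℕ := cond (Nat.ble 320 q) (cond (Nat.ble 321 q) vc321 vc320) vc319
def vct_201 (q : ℕ) : ℕ := cond (Nat.ble 324 q) (cond (Nat.ble 325 q) vc325 vc324) (cond (Nat.ble 323 q) vc323 vc322)
def vct_202 (q : ℕ) : ℕ := cond (Nat.ble 322 q) (vct_201 q) (vct_200 q)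
def vct_203 (q : ℕ) : ℕ := cond (Nat.ble 319 q) (vct_202 q) (vct_199 q)
def vct_204 (q : ℕ) : ℕ := cond (Nat.ble 313 q) (vct_203 q) (vct_196 q)
def vct_205 (q : ℕ) : ℕ := cond (Nat.ble 327 q) (cond (Nat.ble 328 q) vc328 vc327) vc326
def vct_206 (q : ℕ) : ℕ := cond (Nat.ble 330 q) (cond (Nat.ble 331 q) vc331 vc330) vc329
def vct_207 (q : ℕ) : ℕ := cond (Nat.ble 329 q) (vct_206 q) (vct_205 q)
def vct_208 (q : ℕ) : ℕ := cond (Nat.ble 333 q) (cond (Nat.ble 334 q) vc334 vc333) vc332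
def vct_209 (q : ℕ) : ℕ := cond (Nat.ble 336 q) (cond (Nat.ble 337 q) vc337 vc336) vc335
def vct_210 (q : ℕ) : ℕ := cond (Nat.ble 335 q) (vct_209 q) (vct_208 q)
def vct_211 (q : ℕ) : ℕ := cond (Nat.ble 332 q) (vct_210 q) (vct_207 q)
def vct_212 (q : ℕ) : ℕ := cond (Nat.ble 339 q) (cond (Nat.ble 340 q) vc340 vc339) vc338
def vct_213 (q : ℕ) : ℕ := cond (Nat.ble 342 q) (cond (Nat.ble 343 q) vc343 vc342) vc341
def vct_214 (q : ℕ) : ℕ := cond (Nat.ble 341 q) (vct_213 q) (vct_212 q)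
def vct_215 (q : ℕ) : ℕ := cond (Nat.ble 345 q) (cond (Nat.ble 346 q) vc346 vc345) vc344
def vct_216 (q : ℕ) : ℕ := cond (Nat.ble 349 q) (cond (Nat.ble 350 q) vc350 vc349) (cond (Nat.ble 348 q) vc348 vc347)
def vct_217 (q : ℕ) : ℕ := cond (Nat.ble 347 q) (vct_216 q) (vct_215 q)
def vct_218 (q : ℕ) : ℕ := cond (Nat.ble 344 q) (vct_217 q) (vct_214 q)
def vct_219 (q : ℕ) : ℕ := cond (Nat.ble 338 q) (vct_218 q) (vct_211 q)
def vct_220 (q : ℕ) : ℕ := cond (Nat.ble 326 q) (vct_219 q) (vct_204 q)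
def vct_221 (q : ℕ) : ℕ := cond (Nat.ble 352 q) (cond (Nat.ble 353 q) vc353 vc352) vc351
def vct_222 (q : ℕ) : ℕ := cond (Nat.ble 355 q) (cond (Nat.ble 356 q) vc356 vc355) vc354
def vct_223 (q : ℕ) : ℕ := cond (Nat.ble 354 q) (vct_222 q) (vct_221 q)
def vct_224 (q : ℕ) : ℕ := cond (Nat.ble 358 q) (cond (Nat.ble 359 q) vc359 vc358) vc357
def vct_225 (q : ℕ) : ℕ := cond (Nat.ble 361 q) (cond (Nat.ble 362 q) vc362 vc361) vc360
def vct_226 (q : ℕ) : ℕ := cond (Nat.ble 360 q) (vct_225 q) (vct_224 q)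
def vct_227 (q : ℕ) : ℕ := cond (Nat.ble 357 q) (vct_226 q) (vct_223 q)
def vct_228 (q : ℕ) : ℕ := cond (Nat.ble 364 q) (cond (Nat.ble 365 q) vc365 vc364) vc363
def vct_229 (q : ℕ) : ℕ := cond (Nat.ble 367 q) (cond (Nat.ble 368 q) vc368 vc367) vc366
def vct_230 (q : ℕ) : ℕ := cond (Nat.ble 366 q) (vct_229 q) (vct_228 q)
def vct_231 (q : ℕ) : ℕ := cond (Nat.ble 370 q) (cond (Nat.ble 371 q) vc371 vc370) vc369
def vct_232 (q : ℕ) : ℕ := cond (Nat.ble 374 q) (cond (Nat.ble 375 q) vc375 vc374) (cond (Nat.ble 373 q) vc373 vc372)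
def vct_233 (q : ℕ) : ℕ := cond (Nat.ble 372 q) (vct_232 q) (vct_231 q)
def vct_234 (q : ℕ) : ℕ := cond (Nat.ble 369 q) (vct_233 q) (vct_230 q)
def vct_235 (q : ℕ) : ℕ := cond (Nat.ble 363 q) (vct_234 q) (vct_227 q)
def vct_236 (q : ℕ) : ℕ := cond (Nat.ble 377 q) (cond (Nat.ble 378 q) vc378 vc377) vc376
def vct_237 (q : ℕ) : ℕ := cond (Nat.ble 380 q) (cond (Nat.ble 381 q) vc381 vc380) vc379
def vct_238 (q : ℕ) : ℕ := cond (Nat.ble 379 q) (vct_237 q) (vct_236 q)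
def vct_239 (q : ℕ) : ℕ := cond (Nat.ble 383 q) (cond (Nat.ble 384 q) vc384 vc383) vc382
def vct_240 (q : ℕ) : ℕ := cond (Nat.ble 387 q) (cond (Nat.ble 388 q) vc388 vc387) (cond (Nat.ble 386 q) vc386 vc385)
def vct_241 (q : ℕ) : ℕ := cond (Nat.ble 385 q) (vct_240 q) (vct_239 q)
def vct_242 (q : ℕ) : ℕ := cond (Nat.ble 382 q) (vct_241 q) (vct_238 q)
def vct_243 (q : ℕ) : ℕ := cond (Nat.ble 390 q) (cond (Nat.ble 391 q) vc391 vc390) vc389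
def vct_244 (q : ℕ) : ℕ := cond (Nat.ble 393 q) (cond (Nat.ble 394 q) vc394 vc393) vc392
def vct_245 (q : ℕ) : ℕ := cond (Nat.ble 392 q) (vct_244 q) (vct_243 q)
def vct_246 (q : ℕ) : ℕ := cond (Nat.ble 396 q) (cond (Nat.ble 397 q) vc397 vc396) vc395
def vct_247 (q : ℕ) : ℕ := cond (Nat.ble 400 q) (cond (Nat.ble 401 q) vc401 vc400) (cond (Nat.ble 399 q) vc399 vc398)
def vct_248 (q : ℕ) : ℕ := cond (Nat.ble 398 q) (vct_247 q) (vct_246 q)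
def vct_249 (q : ℕ) : ℕ := cond (Nat.ble 395 q) (vct_248 q) (vct_245 q)
def vct_250 (q : ℕ) : ℕ := cond (Nat.ble 389 q) (vct_249 q) (vct_242 q)
def vct_251 (q : ℕ) : ℕ := cond (Nat.ble 376 q) (vct_250 q) (vct_235 q)
def vct_252 (q : ℕ) : ℕ := cond (Nat.ble 351 q) (vct_251 q) (vct_220 q)
def vct_253 (q : ℕ) : ℕ := cond (Nat.ble 301 q) (vct_252 q) (vct_189 q)
def vct_254 (q : ℕ) : ℕ := cond (Nat.ble 201 q) (vct_253 q) (vct_126 q)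

def vch (q : ℕ) : ℕ := (vct_254 q)

/-- the record of orbit `o` -/
def rcd (o : ℕ) : ℕ := Nat.mod (Nat.shiftRight (st vch (Nat.div o 12)) (Nat.mul 1084 (Nat.mod o 12))) 0x10000000000000000000000000000000000000000000000000000000000000000000000000000000000000000000000000000000000000000000000000000000000000000000000000000000000000000000000000000000000000000000000000000000000000000000000000000000000000000000000000000000000000000000000000000000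

def vA (o : ℕ) : ℕ := Nat.mod (rcd o) 0x10000000000000000000000000000000000000000000000000000000000000000000000000000000000000000000000000000000000000000000000000000000000

def vB (o : ℕ) : ℕ := Nat.mod (Nat.shiftRight (rcd o) 520) 0x10000000000000000000000000000000000000000000000000000000000000000000000000000000000000000000000000000000000000000000000000000000000

def hO (o : ℕ) : ℕ := Nat.shiftRight (rcd o) 1040

end Pool.Agent.W843.N7
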