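import Pool.Agent.W843.N7.Word

set_option autoImplicit false
set_option maxRecDepth 100000
set_option maxHeartbeats 4000000

namespace Pool.Agent.W843.N7

theorem wnc0 : wnc 0 = true := by decide +kernel
theorem wnc1 : wnc 1 = true := by decide +kernel
theorem wnc3 : wnc 3 = true := by decide +kernel
theorem wnc7 : wnc 7 = true := by decide +kernel
theorem wnc19 : wnc 19 = true := by decide +kernel
theorem wnc20 : wnc 20 = true := by decide +kernel
theorem wnc21 : wnc 21 = true := by decide +kernel
theorem wnc23 : wnc 23 = true := by decide +kernel
theorem wnc28 : wnc 28 = true := by decide +kernel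
theorem wnc29 : wnc 29 = true := by decide +kernel
theorem wnc54 : wnc 54 = true := by decide +kernel
theorem wnc55 : wnc 55 = true := by decide +kernel

end Pool.Agent.W843.N7
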